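import Pool.Agent.Helper23.WT.BV

set_option autoImplicit false

/-!
# The complete Boolean algebra of regular open sets of conditions
-/

universe u

namespace Pool.Agent.Helper23.CK

open WT (iffV bElim bOr bMP bImp bNot bAbs bAll bEx bIff bIff_mp bIff_mpr bLeft bRight bCases bContra eq_of_forall iffV_self iffV_eq_top)

/-- regular open sets of conditions: `p ∈ U` iff `U` is dense below `p` -/
structure RO (P : Type u) [Preorder P] where
  carrier : Set P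
  regular : ∀ p, p ∈ carrier ↔ ∀ q ≤ p, ∃ r ≤ q, r ∈ carrier

namespace RO

variable {P : Type u} [Preorder P]

theorem ext' {U W : RO P} (h : U.carrier = W.carrier) : U = W := by
  cases U; cases W; cases h; rfl

theorem lower (U : RO P) {p q : P} (h : q ≤ p) (hp : p ∈ U.carrier) : q ∈ U.carrier :=
  (U.regular q).2 fun r hr => (U.regular p).1 hp r (hr.trans h)

/-- the regular open hull `{p | U is dense below p}` of a set closed under stronger conditions -/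
def hull (U : Set P) (_hU : ∀ p q, q ≤ p → p ∈ U → q ∈ U) : RO P where
  carrier := {p | ∀ q ≤ p, ∃ r ≤ q, r ∈ U}
  regular p := by
    constructor
    · intro hp q hq
      exact ⟨q, le_rfl, fun r hr => hp r (hr.trans hq)⟩
    · intro hp q hq
      obtain ⟨r, hr, hr'⟩ := hp q hq
      obtain ⟨s, hs, hs'⟩ := hr' r le_rfl
      exact ⟨s, hs.trans hr, hs'⟩

instance : PartialOrder (RO P) where
  le U W := U.carrier ⊆ W.carrier
  le_refl _ := subset_rfl
  le_trans _ _ _ h h' := h.trans h'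
  le_antisymm _ _ h h' := ext' (Set.Subset.antisymm h h')

theorem le_def {U W : RO P} : U ≤ W ↔ ∀ p ∈ U.carrier, p ∈ W.carrier := Iff.rfl

instance : Max (RO P) :=
  ⟨fun U W => hull (U.carrier ∪ W.carrier) fun _ _ h h' =>
    h'.elim (fun h' => Or.inl (U.lower h h')) (fun h' => Or.inr (W.lower h h'))⟩

instance : Min (RO P) :=
  ⟨fun U W =>
    { carrier := U.carrier ∩ W.carrier
      regular := fun p =>
        ⟨fun h q hq => ⟨q, le_rfl, U.lower hq h.1, W.lower hq h.2⟩, fun h =>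
          ⟨(U.regular p).2 fun q hq => (h q hq).imp fun _ hr => ⟨hr.1, hr.2.1⟩,
            (W.regular p).2 fun q hq => (h q hq).imp fun _ hr => ⟨hr.1, hr.2.2⟩⟩⟩ }⟩

instance : SupSet (RO P) :=
  ⟨fun A => hull {p | ∃ U ∈ A, p ∈ U.carrier} fun _ _ h h' => by
    obtain ⟨U, hU, hU'⟩ := h'
    exact ⟨U, hU, U.lower h hU'⟩⟩

instance : InfSet (RO P) :=
  ⟨fun A =>
    { carrier := {p | ∀ U ∈ A, p ∈ U.carrier}
      regular := fun p =>
        ⟨fun h q hq => ⟨q, le_rfl, fun U hU => U.lower hq (h U hU)⟩, fun h U hU =>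
          (U.regular p).2 fun q hq => (h q hq).imp fun _ hr => ⟨hr.1, hr.2 U hU⟩⟩ }⟩

instance : Top (RO P) :=
  ⟨{ carrier := Set.univ
     regular := fun _ => ⟨fun _ q _ => ⟨q, le_rfl, trivial⟩, fun _ => trivial⟩ }⟩

instance : Bot (RO P) :=
  ⟨{ carrier := ∅
     regular := fun p => ⟨fun h => h.elim, fun h => by
       obtain ⟨r, _, hr⟩ := h p le_rfl
       exact hr.elim⟩ }⟩

instance : Compl (RO P) :=
  ⟨fun U =>
    { carrier := {p | ∀ q ≤ p, q ∉ U.carrier}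
      regular := fun p =>
        ⟨fun h q hq => ⟨q, le_rfl, fun r hr => h r (hr.trans hq)⟩, fun h q hq hqU => by
          obtain ⟨r, hr, hr'⟩ := h q hq
          exact hr' r le_rfl (U.lower hr hqU)⟩ }⟩

/-- the complete Boolean algebra of regular open sets of conditions -/
instance : CompleteBooleanAlgebra (RO P) where
  sup := (· ⊔ ·)
  inf := (· ⊓ ·)
  compl U := Uᶜ
  le_sup_left U W p hp := fun q hq => ⟨q, le_rfl, Or.inl (U.lower hq hp)⟩
  le_sup_right U W p hp := fun q hq => ⟨q, le_rfl, Or.inr (W.lower hq hp)⟩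
  sup_le U W Z h h' p hp := (Z.regular p).2 fun q hq => by
    obtain ⟨r, hr, hr'⟩ := hp q hq
    exact ⟨r, hr, hr'.elim (fun x => h x) (fun x => h' x)⟩
  inf_le_left _ _ _ hp := hp.1
  inf_le_right _ _ _ hp := hp.2
  le_inf _ _ _ h h' _ hp := ⟨h hp, h' hp⟩
  isLUB_sSup A := ⟨fun U hU p hp q hq => ⟨q, le_rfl, U, hU, U.lower hq hp⟩,
    fun W hW p hp => (W.regular p).2 fun q hq => by
      obtain ⟨r, hr, U, hU, hr'⟩ := hp q hq
      exact ⟨r, hr, hW hU hr'⟩⟩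
  isGLB_sInf A := ⟨fun U hU p hp => hp U hU, fun W hW p hp U hU => hW hU hp⟩
  le_top _ _ _ := trivial
  bot_le _ _ hp := hp.elim
  le_sup_inf U W Z p hp := fun q hq => by
    obtain ⟨r, hr, hr'⟩ := hp.1 q hq
    rcases hr' with h | h
    · exact ⟨r, hr, Or.inl h⟩
    · obtain ⟨s, hs, hs'⟩ := hp.2 r (hr.trans hq)
      rcases hs' with h' | h'
      · exact ⟨s, hs.trans hr, Or.inl h'⟩
      · exact ⟨s, hs.trans hr, Or.inr ⟨W.lower hs h, h'⟩⟩
  inf_compl_le_bot U p hp := (hp.2 p le_rfl hp.1).elim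
  top_le_sup_compl U p _ := fun q _ => by
    by_cases h : ∃ r ≤ q, r ∈ U.carrier
    · obtain ⟨r, hr, hr'⟩ := h
      exact ⟨r, hr, Or.inl hr'⟩
    · exact ⟨q, le_rfl, Or.inr fun r hr hrU => h ⟨r, hr, hrU⟩⟩

theorem mem_inf {U W : RO P} {p : P} :
    p ∈ (U ⊓ W).carrier ↔ p ∈ U.carrier ∧ p ∈ W.carrier := Iff.rfl

theorem mem_top {p : P} : p ∈ (⊤ : RO P).carrier := trivial

theorem not_mem_bot {p : P} : p ∉ (⊥ : RO P).carrier := fun h => h

theorem mem_compl {U : RO P} {p : P} :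
    p ∈ (Uᶜ).carrier ↔ ∀ q ≤ p, q ∉ U.carrier := Iff.rfl

theorem mem_sSup {A : Set (RO P)} {p : P} :
    p ∈ (sSup A).carrier ↔ ∀ q ≤ p, ∃ r ≤ q, ∃ U ∈ A, r ∈ U.carrier := Iff.rfl

theorem mem_iSup {ι : Sort*} {f : ι → RO P} {p : P} :
    p ∈ (⨆ i, f i).carrier ↔ ∀ q ≤ p, ∃ r ≤ q, ∃ i, r ∈ (f i).carrier := by
  rw [iSup, mem_sSup]
  simp

theorem mem_iInf {ι : Sort*} {f : ι → RO P} {p : P} :
    p ∈ (⨅ i, f i).carrier ↔ ∀ i, p ∈ (f i).carrier := by
  rw [iInf]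
  show (∀ U ∈ Set.range f, p ∈ U.carrier) ↔ _
  simp

theorem mem_sup {U W : RO P} {p : P} :
    p ∈ (U ⊔ W).carrier ↔ ∀ q ≤ p, ∃ r ≤ q, r ∈ U.carrier ∨ r ∈ W.carrier := Iff.rfl

theorem mem_hull {U : Set P} {hU : ∀ p q, q ≤ p → p ∈ U → q ∈ U} {p : P} :
    p ∈ (hull U hU).carrier ↔ ∀ q ≤ p, ∃ r ≤ q, r ∈ U := Iff.rfl

theorem subset_hull {U : Set P} {hU : ∀ p q, q ≤ p → p ∈ U → q ∈ U} {p : P} (h : p ∈ U) :
    p ∈ (hull U hU).carrier := fun q hq => ⟨q, le_rfl, hU _ _ hq h⟩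

theorem mem_himp {U W : RO P} {p : P} :
    p ∈ (U ⇨ W).carrier ↔ ∀ q ≤ p, q ∈ U.carrier → q ∈ W.carrier := by
  constructor
  · intro h q hq hU
    exact (himp_inf_le : (U ⇨ W) ⊓ U ≤ W) (show q ∈ ((U ⇨ W) ⊓ U).carrier from ⟨(U ⇨ W).lower hq h, hU⟩)
  · intro h
    rw [himp_eq]
    intro q hq
    by_cases h' : ∃ r ≤ q, r ∈ U.carrier
    · obtain ⟨r, hr, hr'⟩ := h'
      exact ⟨r, hr, Or.inl (h r (hr.trans hq) hr')⟩
    · exact ⟨q, le_rfl, Or.inr fun r hr hr' => h' ⟨r, hr, hr'⟩⟩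

/-- the conditions that force `b` or its complement are dense -/
theorem decide (b : RO P) (p : P) : ∃ q ≤ p, q ∈ b.carrier ∨ q ∈ (bᶜ).carrier := by
  by_cases h : ∃ r ≤ p, r ∈ b.carrier
  · obtain ⟨r, hr, hr'⟩ := h
    exact ⟨r, hr, Or.inl hr'⟩
  · exact ⟨p, le_rfl, Or.inr fun r hr hrU => h ⟨r, hr, hrU⟩⟩

theorem not_mem_iff {b : RO P} {p : P} : p ∉ b.carrier ↔ ∃ q ≤ p, q ∈ (bᶜ).carrier := by
  constructor
  · intro h
    rw [b.regular] at h
    push Not at h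
    obtain ⟨q, hq, h⟩ := h
    exact ⟨q, hq, h⟩
  · rintro ⟨q, hq, h⟩ hp
    exact h q le_rfl (b.lower hq hp)

theorem le_of_forall {U W : RO P} (h : ∀ p ∈ U.carrier, p ∈ W.carrier) : U ≤ W := h

theorem eq_top {U : RO P} (h : ∀ p, ∃ q ≤ p, q ∈ U.carrier) : U = ⊤ := by
  rw [eq_top_iff]
  intro p _
  exact (U.regular p).2 fun q _ => h q

theorem ne_bot {U : RO P} (h : U ≠ ⊥) : ∃ p, p ∈ U.carrier := by
  by_contra hc
  push Not at hc
  exact h (ext' (Set.eq_empty_of_forall_notMem hc))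

end RO

end Pool.Agent.Helper23.CK
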