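import Pool.Agent.Helper23.CK.Coh

set_option autoImplicit false

/-!
# The forcing conditions
-/

namespace Pool.Agent.Helper23.CK

open WT (iffV bElim bOr bMP bImp bNot bAbs bAll bEx bIff bIff_mp bIff_mpr bLeft bRight bCases bContra eq_of_forall iffV_self iffV_eq_top)
open scoped Ordinal

/-- the ordinals -/
abbrev O := Ordinal.{0}

/-- truth value of `a = b` below `γ` -/
def eqv (γ : O) (a b : O → B) : B := ⨅ β : O, ⨅ _ : β < γ, iffV (a β) (b β)

theorem le_eqv {γ : O} {a b : O → B} {r : B} :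
    r ≤ eqv γ a b ↔ ∀ β < γ, r ≤ iffV (a β) (b β) := by
  unfold eqv
  simp only [le_iInf_iff]

theorem le_eqv' {γ : O} {a b : O → B} {r : B} :
    r ≤ eqv γ a b ↔ ∀ β < γ, EqOn r (a β) (b β) := by
  rw [le_eqv]
  simp only [eqOn_iff]

theorem eqv_refl (γ : O) (a : O → B) : eqv γ a a = ⊤ := by
  rw [eq_top_iff, le_eqv]
  intro β _
  rw [iffV_self]

/-- truth value of: `a` is listed by `E` at the level `γ` -/
def lst (E : O → ℕ → O → B) (γ : O) (a : O → B) : B :=
  ⨆ δ : O, ⨆ _ : δ ≤ γ, ⨆ m : ℕ, eqv γ a (E δ m)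

theorem eqv_le_lst (E : O → ℕ → O → B) {γ δ : O} (h : δ ≤ γ) (m : ℕ) (a : O → B) :
    eqv γ a (E δ m) ≤ lst E γ a :=
  (le_iSup (fun m : ℕ => eqv γ a (E δ m)) m).trans
    ((le_iSup (fun _ : δ ≤ γ => ⨆ m : ℕ, eqv γ a (E δ m)) h).trans
      (le_iSup (fun δ : O => ⨆ _ : δ ≤ γ, ⨆ m : ℕ, eqv γ a (E δ m)) δ))

theorem lst_le {E : O → ℕ → O → B} {γ : O} {a : O → B} {r : B}
    (h : ∀ δ ≤ γ, ∀ m, eqv γ a (E δ m) ≤ r) : lst E γ a ≤ r :=
  iSup_le fun δ => iSup_le fun hδ => iSup_le fun m => h δ hδ m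

theorem lst_congr {E : O → ℕ → O → B} {γ : O} {a b : O → B} {r : B}
    (h : ∀ β < γ, EqOn r (a β) (b β)) : r ⊓ lst E γ a ≤ lst E γ b := by
  unfold lst
  refine bElim (bRight le_rfl) fun δ Δ h1 h2 => ?_
  refine bElim h2 fun hδ Δ' h3 h4 => ?_
  refine bElim h4 fun m Δ'' h5 h6 => ?_
  refine bEx δ (bEx hδ (bEx m ?_))
  rw [le_eqv'] at h6 ⊢
  intro β hβ
  refine (((h β hβ).mono ?_).symm).trans (h6 β hβ)
  exact (h5.trans (h3.trans h1)).trans inf_le_left

/-- `a` is covered by the lists `E` up to `ht` -/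
def Cov (E : O → ℕ → O → B) (ht : O) (a : O → B) : Prop := ∀ γ ≤ ht, lst E γ a = ⊤

theorem Cov.mix {E : O → ℕ → O → B} {ht : O} {a b : O → B} (ha : Cov E ht a) (hb : Cov E ht b)
    (r : B) : Cov E ht (fun β => CK.mix r (a β) (b β)) := by
  intro γ hγ
  have h1 : r ≤ lst E γ (fun β => CK.mix r (a β) (b β)) := by
    have := lst_congr (E := E) (γ := γ) (a := b) (b := fun β => CK.mix r (a β) (b β)) (r := r)
      (fun β _ => (mix_on r (a β) (b β)).symm)
    rwa [hb γ hγ, inf_top_eq] at this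
  have h2 : rᶜ ≤ lst E γ (fun β => CK.mix r (a β) (b β)) := by
    have := lst_congr (E := E) (γ := γ) (a := a) (b := fun β => CK.mix r (a β) (b β)) (r := rᶜ)
      (fun β _ => (mix_off r (a β) (b β)).symm)
    rwa [ha γ hγ, inf_top_eq] at this
  rw [eq_top_iff, ← sup_compl_eq_top (x := r)]
  exact sup_le h1 h2

theorem Cov.zero {E : O → ℕ → O → B} (ht : O) (hE : ∀ m β, E 0 m β = ⊥) :
    Cov E ht (fun _ => ⊥) := by
  intro γ _
  rw [eq_top_iff]
  refine le_trans ?_ (eqv_le_lst E zero_le 0 _)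
  rw [le_eqv]
  intro β _
  rw [hE, iffV_self]

theorem Cov.ext {E E' : O → ℕ → O → B} {ht ht' : O} {a : O → B} (ha : Cov E ht a)
    (hEE : ∀ δ ≤ ht, ∀ m β, E' δ m β = E δ m β) (hE : ∀ δ m β, δ ≤ β → E δ m β = ⊥)
    (ha0 : ∀ β, ht ≤ β → a β = ⊥) : Cov E' ht' a := by
  intro γ _
  rw [eq_top_iff]
  rcases le_total γ ht with h | h
  · rw [← ha γ h]
    refine lst_le fun δ hδ m => ?_
    refine le_trans (le_of_eq ?_) (eqv_le_lst E' hδ m _)
    congr 1
    funext β
    exact (hEE δ (hδ.trans h) m β).symm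
  · rw [← ha ht le_rfl]
    refine lst_le fun δ hδ m => ?_
    refine le_trans ?_ (eqv_le_lst E' (hδ.trans h) m _)
    rw [le_eqv]
    intro β _
    rw [hEE δ hδ]
    rcases lt_or_ge β ht with h1 | h1
    · exact (le_eqv.1 le_rfl) β h1
    · rw [ha0 β h1, hE δ m β (hδ.trans h1), iffV_self]
      exact le_top

/-- conditions: names for subsets of `ht` (with the indices in `I`) and for countably many
possible initial segments, and functions from `ht` to the indices -/
structure Cd where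
  ht : O
  ht_lt : ht < ω₁
  I : Set O
  cnt : I.Countable
  E : O → ℕ → O → B
  E_supp : ∀ δ m β, ht < δ ∨ δ ≤ β → E δ m β = ⊥
  f : O → O → B
  f_supp : ∀ i β, i ∉ I ∨ ht ≤ β → f i β = ⊥
  g : O → O → O
  g_supp : ∀ i β, i ∉ I ∨ ht ≤ β → g i β = 0
  g_le : ∀ i β, g i β ≤ i
  cov : ∀ i ∈ I, Cov E ht (f i)

namespace Cd

instance : Preorder Cd where
  le q p := p.ht ≤ q.ht ∧ p.I ⊆ q.I ∧ (∀ δ ≤ p.ht, ∀ m β, q.E δ m β = p.E δ m β) ∧
    ∀ i ∈ p.I, ∀ β < p.ht, q.f i β = p.f i β ∧ q.g i β = p.g i β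
  le_refl p := ⟨le_rfl, subset_rfl, fun _ _ _ _ => rfl, fun _ _ _ _ => ⟨rfl, rfl⟩⟩
  le_trans r q p h h' := ⟨h'.1.trans h.1, h'.2.1.trans h.2.1,
    fun δ hδ m β => (h.2.2.1 δ (hδ.trans h'.1) m β).trans (h'.2.2.1 δ hδ m β),
    fun i hi β hβ => ⟨(h.2.2.2 i (h'.2.1 hi) β (hβ.trans_le h'.1)).1.trans (h'.2.2.2 i hi β hβ).1,
      (h.2.2.2 i (h'.2.1 hi) β (hβ.trans_le h'.1)).2.trans (h'.2.2.2 i hi β hβ).2⟩⟩

theorem le_def {p q : Cd} : q ≤ p ↔ p.ht ≤ q.ht ∧ p.I ⊆ q.I ∧
    (∀ δ ≤ p.ht, ∀ m β, q.E δ m β = p.E δ m β) ∧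
    ∀ i ∈ p.I, ∀ β < p.ht, q.f i β = p.f i β ∧ q.g i β = p.g i β := Iff.rfl

theorem cov_zero (p : Cd) : Cov p.E p.ht (fun _ => ⊥) :=
  Cov.zero _ fun m β => p.E_supp 0 m β (Or.inr zero_le)

/-- all the functions of a condition are covered by the lists of a stronger one -/
theorem cov_of_le {p u : Cd} (h1 : ∀ δ ≤ p.ht, ∀ m β, u.E δ m β = p.E δ m β) (i : O) :
    Cov u.E u.ht (p.f i) := by
  by_cases hi : i ∈ p.I
  · exact (p.cov i hi).ext h1 (fun δ m β h => p.E_supp δ m β (Or.inr h))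
      (fun β h => p.f_supp i β (Or.inr h))
  · have : p.f i = fun _ => ⊥ := funext fun β => p.f_supp i β (Or.inl hi)
    rw [this]
    exact u.cov_zero

theorem zero_lt_omega1 : (0 : O) < ω₁ := Ordinal.omega_pos 1

/-- the weakest condition -/
def one : Cd where
  ht := 0
  ht_lt := zero_lt_omega1
  I := ∅
  cnt := Set.countable_empty
  E _ _ _ := ⊥
  E_supp _ _ _ _ := rfl
  f _ _ := ⊥
  f_supp _ _ _ := rfl
  g _ _ := 0
  g_supp _ _ _ := rfl
  g_le i _ := zero_le
  cov _ h := h.elim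

instance : Nonempty Cd := ⟨one⟩

/-- extension by zeros -/
def zext (p : Cd) (η : O) (h : p.ht ≤ η) (hη : η < ω₁) : Cd where
  ht := η
  ht_lt := hη
  I := p.I
  cnt := p.cnt
  E := p.E
  E_supp δ m β h' := p.E_supp δ m β (h'.imp (fun h' => h.trans_lt h') id)
  f := p.f
  f_supp i β h' := p.f_supp i β (h'.imp id (fun h' => h.trans h'))
  g := p.g
  g_supp i β h' := p.g_supp i β (h'.imp id (fun h' => h.trans h'))
  g_le := p.g_le
  cov i hi := (p.cov i hi).ext (fun _ _ _ _ => rfl) (fun δ m β h => p.E_supp δ m β (Or.inr h))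
      (fun β h => p.f_supp i β (Or.inr h))

theorem zext_le (p : Cd) (η : O) (h : p.ht ≤ η) (hη : η < ω₁) : p.zext η h hη ≤ p :=
  ⟨h, subset_rfl, fun _ _ _ _ => rfl, fun _ _ _ _ => ⟨rfl, rfl⟩⟩

/-- adding indices -/
def addI (p : Cd) (J : Set O) (hJ : J.Countable) (hpJ : p.I ⊆ J) : Cd where
  ht := p.ht
  ht_lt := p.ht_lt
  I := J
  cnt := hJ
  E := p.E
  E_supp := p.E_supp
  f := p.f
  f_supp i β h := p.f_supp i β (h.imp (fun h h' => h (hpJ h')) id)
  g := p.g
  g_supp i β h := p.g_supp i β (h.imp (fun h h' => h (hpJ h')) id)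
  g_le := p.g_le
  cov i _ := p.cov_of_le (fun _ _ _ _ => rfl) i

theorem addI_le (p : Cd) (J : Set O) (hJ : J.Countable) (hpJ : p.I ⊆ J) : p.addI J hJ hpJ ≤ p :=
  ⟨le_rfl, hpJ, fun _ _ _ _ => rfl, fun _ _ _ _ => ⟨rfl, rfl⟩⟩

open Classical in
/-- take `w` on `r` and `u` off `r`, above `δ` -/
noncomputable def upd (δ : O) (r : B) (w u : Cd) (h1 : w.ht ≤ u.ht) (h2 : w.I ⊆ u.I)
    (h3 : ∀ δ' ≤ w.ht, ∀ m β, u.E δ' m β = w.E δ' m β) : Cd where
  ht := u.ht
  ht_lt := u.ht_lt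
  I := u.I
  cnt := u.cnt
  E := u.E
  E_supp := u.E_supp
  f i β := if i < δ then u.f i β else mix r (u.f i β) (w.f i β)
  f_supp i β h := by
    rw [u.f_supp i β h, w.f_supp i β (h.imp (fun h h' => h (h2 h')) (fun h => h1.trans h)), mix_bots,
      ite_self]
  g i β := if i < δ then u.g i β else if i ∈ w.I ∧ β < w.ht then w.g i β else u.g i β
  g_supp i β h := by
    rw [u.g_supp i β h]
    have h' := h.imp (fun h h' => h (h2 h')) (fun h => h1.trans h)
    rw [w.g_supp i β h', ite_self, ite_self]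
  g_le i β := by
    split_ifs
    · exact u.g_le i β
    · exact w.g_le i β
    · exact u.g_le i β
  cov i hi := by
    by_cases h : i < δ
    · simp only [if_pos h]
      exact u.cov i hi
    · simp only [if_neg h]
      exact (u.cov i hi).mix (cov_of_le h3 i) r

end Cd

/-- `u` and `v` agree except for the functions with an index `≥ δ` on `r` -/
structure Sim (δ : O) (r : B) (u v : Cd) : Prop where
  ht : u.ht = v.ht
  I : u.I = v.I
  E : u.E = v.E
  f : ∀ i β, i < δ → u.f i β = v.f i β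
  g : ∀ i β, i < δ → u.g i β = v.g i β
  off : ∀ i β, EqOn rᶜ (u.f i β) (v.f i β)

namespace Sim

theorem refl (δ : O) (r : B) (u : Cd) : Sim δ r u u :=
  ⟨rfl, rfl, rfl, fun _ _ _ => rfl, fun _ _ _ => rfl, fun _ _ => EqOn.refl _ _⟩

theorem symm {δ : O} {r : B} {u v : Cd} (h : Sim δ r u v) : Sim δ r v u :=
  ⟨h.ht.symm, h.I.symm, h.E.symm, fun i β hi => (h.f i β hi).symm, fun i β hi => (h.g i β hi).symm,
    fun i β => (h.off i β).symm⟩

theorem trans {δ : O} {r : B} {u v w : Cd} (h : Sim δ r u v) (h' : Sim δ r v w) : Sim δ r u w :=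
  ⟨h.ht.trans h'.ht, h.I.trans h'.I, h.E.trans h'.E, fun i β hi => (h.f i β hi).trans (h'.f i β hi),
    fun i β hi => (h.g i β hi).trans (h'.g i β hi), fun i β => (h.off i β).trans (h'.off i β)⟩

theorem mono {δ : O} {r s : B} {u v : Cd} (h : Sim δ r u v) (hrs : r ≤ s) : Sim δ s u v :=
  ⟨h.ht, h.I, h.E, h.f, h.g, fun i β => (h.off i β).mono (compl_le_compl hrs)⟩

/-- the side conditions of `upd` -/
theorem side {δ : O} {r : B} {v w u : Cd} (h : Sim δ r v w) (hu : u ≤ v) :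
    w.ht ≤ u.ht ∧ w.I ⊆ u.I ∧ ∀ δ' ≤ w.ht, ∀ m β, u.E δ' m β = w.E δ' m β := by
  refine ⟨h.ht ▸ hu.1, h.I ▸ hu.2.1, fun δ' hδ' m β => ?_⟩
  rw [← h.E]
  exact hu.2.2.1 δ' (h.ht ▸ hδ') m β

end Sim

open Cd

theorem upd_le_left {δ : O} {r : B} {v w u : Cd} (h : Sim δ r v w) (hu : u ≤ v)
    (h1 : w.ht ≤ u.ht) (h2 : w.I ⊆ u.I)
    (h3 : ∀ δ' ≤ w.ht, ∀ m β, u.E δ' m β = w.E δ' m β) : upd δ r w u h1 h2 h3 ≤ w := by
  classical
  refine ⟨h1, h2, h3, fun i hi β hβ => ?_⟩
  have hv := hu.2.2.2 i (h.I.symm ▸ hi) β (h.ht.symm ▸ hβ)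
  by_cases hiδ : i < δ
  · constructor
    · show (if i < δ then u.f i β else _) = _
      rw [if_pos hiδ, hv.1, h.f i β hiδ]
    · show (if i < δ then u.g i β else _) = _
      rw [if_pos hiδ, hv.2, h.g i β hiδ]
  · constructor
    · show (if i < δ then u.f i β else mix r (u.f i β) (w.f i β)) = _
      rw [if_neg hiδ]
      refine mix_eq (EqOn.refl _ _) ?_
      rw [hv.1]
      exact (h.off i β).symm
    · show (if i < δ then u.g i β else if i ∈ w.I ∧ β < w.ht then w.g i β else u.g i β) = _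
      rw [if_neg hiδ, if_pos ⟨hi, hβ⟩]

theorem upd_sim {δ : O} {r : B} {w u : Cd} (h1 : w.ht ≤ u.ht) (h2 : w.I ⊆ u.I)
    (h3 : ∀ δ' ≤ w.ht, ∀ m β, u.E δ' m β = w.E δ' m β) : Sim δ r (upd δ r w u h1 h2 h3) u := by
  refine ⟨rfl, rfl, rfl, fun i β hi => ?_, fun i β hi => ?_, fun i β => ?_⟩
  · show (if i < δ then u.f i β else _) = _
    rw [if_pos hi]
  · show (if i < δ then u.g i β else _) = _
    rw [if_pos hi]
  · show EqOn rᶜ (if i < δ then u.f i β else mix r (u.f i β) (w.f i β)) _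
    split_ifs
    · exact EqOn.refl _ _
    · exact mix_off _ _ _

theorem upd_upd_sim {δ : O} {c a a' : B} {w w' u : Cd} (h : Sim δ c w w')
    (ha : a = a' ∨ (a ≤ c ∧ a' ≤ c)) (h1 : w.ht ≤ u.ht) (h2 : w.I ⊆ u.I)
    (h3 : ∀ δ' ≤ w.ht, ∀ m β, u.E δ' m β = w.E δ' m β) (h1' : w'.ht ≤ u.ht) (h2' : w'.I ⊆ u.I)
    (h3' : ∀ δ' ≤ w'.ht, ∀ m β, u.E δ' m β = w'.E δ' m β) :
    Sim δ c (upd δ a w u h1 h2 h3) (upd δ a' w' u h1' h2' h3') := by
  refine ⟨rfl, rfl, rfl, fun i β hi => ?_, fun i β hi => ?_, fun i β => ?_⟩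
  · show (if i < δ then u.f i β else _) = (if i < δ then u.f i β else _)
    rw [if_pos hi, if_pos hi]
  · show (if i < δ then u.g i β else _) = (if i < δ then u.g i β else _)
    rw [if_pos hi, if_pos hi]
  · show EqOn cᶜ (if i < δ then u.f i β else mix a (u.f i β) (w.f i β))
      (if i < δ then u.f i β else mix a' (u.f i β) (w'.f i β))
    split_ifs
    · exact EqOn.refl _ _
    · rcases ha with rfl | ⟨ha, ha'⟩
      · refine EqOn.split (r := a) ?_ ?_
        · refine ((mix_on a _ _).mono inf_le_right).trans ?_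
          exact ((h.off i β).mono inf_le_left).trans ((mix_on a _ _).mono inf_le_right).symm
        · exact ((mix_off a _ _).mono inf_le_right).trans ((mix_off a _ _).mono inf_le_right).symm
      · exact ((mix_off a _ _).mono (compl_le_compl ha)).trans
          ((mix_off a' _ _).mono (compl_le_compl ha')).symm

/-! ### restriction and amalgamation -/

namespace Cd

open Classical in
/-- restriction to the indices below `δ` -/
noncomputable def res (δ : O) (p : Cd) : Cd where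
  ht := p.ht
  ht_lt := p.ht_lt
  I := p.I ∩ Set.Iio δ
  cnt := p.cnt.mono Set.inter_subset_left
  E := p.E
  E_supp := p.E_supp
  f i β := if i < δ then p.f i β else ⊥
  f_supp i β h := by
    split_ifs with h'
    · exact p.f_supp i β (h.imp (fun h h'' => h ⟨h'', h'⟩) id)
    · rfl
  g i β := if i < δ then p.g i β else 0
  g_supp i β h := by
    split_ifs with h'
    · exact p.g_supp i β (h.imp (fun h h'' => h ⟨h'', h'⟩) id)
    · rfl
  g_le i β := by
    split_ifs
    · exact p.g_le i β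
    · exact zero_le
  cov i hi := by
    simp only [if_pos (show i < δ from hi.2)]
    exact p.cov i hi.1

theorem le_res (δ : O) (p : Cd) : p ≤ res δ p := by
  refine ⟨le_rfl, Set.inter_subset_left, fun _ _ _ _ => rfl, fun i hi β _ => ⟨?_, ?_⟩⟩
  · show _ = (if i < δ then p.f i β else ⊥)
    rw [if_pos (show i < δ from hi.2)]
  · show _ = (if i < δ then p.g i β else 0)
    rw [if_pos (show i < δ from hi.2)]

theorem res_I (δ : O) (p : Cd) : (res δ p).I ⊆ Set.Iio δ := Set.inter_subset_right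

theorem res_mono (δ : O) {p q : Cd} (h : q ≤ p) : res δ q ≤ res δ p := by
  refine ⟨h.1, Set.inter_subset_inter_left _ h.2.1, h.2.2.1, fun i hi β hβ => ?_⟩
  have := h.2.2.2 i hi.1 β hβ
  constructor
  · show (if i < δ then q.f i β else ⊥) = (if i < δ then p.f i β else ⊥)
    rw [this.1]
  · show (if i < δ then q.g i β else 0) = (if i < δ then p.g i β else 0)
    rw [this.2]

theorem res_le_of_base {δ : O} {p : Cd} (h : p.I ⊆ Set.Iio δ) : res δ p ≤ p := by
  refine ⟨le_rfl, fun i hi => ⟨hi, h hi⟩, fun _ _ _ _ => rfl, fun i hi β _ => ⟨?_, ?_⟩⟩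
  · show (if i < δ then p.f i β else ⊥) = _
    rw [if_pos (show i < δ from h hi)]
  · show (if i < δ then p.g i β else 0) = _
    rw [if_pos (show i < δ from h hi)]

open Classical in
/-- amalgamation -/
noncomputable def amal (δ : O) (p e : Cd) (_he : e.I ⊆ Set.Iio δ) (hle : e ≤ res δ p) : Cd where
  ht := e.ht
  ht_lt := e.ht_lt
  I := e.I ∪ p.I
  cnt := e.cnt.union p.cnt
  E := e.E
  E_supp := e.E_supp
  f i β := if i < δ then e.f i β else p.f i β
  f_supp i β h := by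
    split_ifs with h'
    · exact e.f_supp i β (h.imp (fun h h'' => h (Or.inl h'')) id)
    · exact p.f_supp i β (h.imp (fun h h'' => h (Or.inr h'')) (fun h => hle.1.trans h))
  g i β := if i < δ then e.g i β else p.g i β
  g_supp i β h := by
    split_ifs with h'
    · exact e.g_supp i β (h.imp (fun h h'' => h (Or.inl h'')) id)
    · exact p.g_supp i β (h.imp (fun h h'' => h (Or.inr h'')) (fun h => hle.1.trans h))
  g_le i β := by
    split_ifs
    · exact e.g_le i β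
    · exact p.g_le i β
  cov i hi := by
    by_cases h : i < δ
    · simp only [if_pos h]
      refine e.cov i ?_
      rcases hi with hi | hi
      · exact hi
      · exact hle.2.1 ⟨hi, h⟩
    · simp only [if_neg h]
      exact cov_of_le (p := p) (u := e) hle.2.2.1 i

theorem amal_le_right {δ : O} {p e : Cd} (he : e.I ⊆ Set.Iio δ) (hle : e ≤ res δ p) :
    amal δ p e he hle ≤ e := by
  refine ⟨le_rfl, Set.subset_union_left, fun _ _ _ _ => rfl, fun i hi β _ => ⟨?_, ?_⟩⟩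
  · show (if i < δ then e.f i β else p.f i β) = _
    rw [if_pos (show i < δ from he hi)]
  · show (if i < δ then e.g i β else p.g i β) = _
    rw [if_pos (show i < δ from he hi)]

theorem amal_le_left {δ : O} {p e : Cd} (he : e.I ⊆ Set.Iio δ) (hle : e ≤ res δ p) :
    amal δ p e he hle ≤ p := by
  refine ⟨hle.1, Set.subset_union_right, hle.2.2.1, fun i hi β hβ => ?_⟩
  by_cases h : i < δ
  · have h1 := hle.2.2.2 i ⟨hi, h⟩ β hβ
    constructor
    · show (if i < δ then e.f i β else p.f i β) = _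
      rw [if_pos h, h1.1]
      show (if i < δ then p.f i β else ⊥) = _
      rw [if_pos h]
    · show (if i < δ then e.g i β else p.g i β) = _
      rw [if_pos h, h1.2]
      show (if i < δ then p.g i β else 0) = _
      rw [if_pos h]
  · constructor
    · show (if i < δ then e.f i β else p.f i β) = _
      rw [if_neg h]
    · show (if i < δ then e.g i β else p.g i β) = _
      rw [if_neg h]

end Cd

end Pool.Agent.Helper23.CK
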