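import Pool.Agent.Helper23.CK.BA

set_option autoImplicit false

/-!
# The Cohen algebra, cylinders, mixing
-/

namespace Pool.Agent.Helper23.CK

open WT (iffV bElim bOr bMP bImp bNot bAbs bAll bEx bIff bIff_mp bIff_mpr bLeft bRight bCases bContra eq_of_forall iffV_self iffV_eq_top)

/-- finite partial functions from `ℕ` to `Bool` -/
structure Coh where
  s : Finset (ℕ × Bool)
  fn : ∀ n b c, (n, b) ∈ s → (n, c) ∈ s → b = c

namespace Coh

theorem ext' {p q : Coh} (h : p.s = q.s) : p = q := by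
  cases p; cases q; cases h; rfl

instance : PartialOrder Coh where
  le q p := p.s ⊆ q.s
  le_refl _ := subset_rfl
  le_trans _ _ _ h h' := subset_trans h' h
  le_antisymm _ _ h h' := ext' (subset_antisymm h' h)

theorem le_def {p q : Coh} : q ≤ p ↔ p.s ⊆ q.s := Iff.rfl

instance : Countable Coh := by
  refine Function.Injective.countable (f := fun p : Coh => p.s) fun p q h => ext' h

instance : Nonempty Coh := ⟨⟨∅, by simp⟩⟩

/-- the set of the first elements -/
def dom (p : Coh) : Finset ℕ := p.s.image Prod.fst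

theorem mem_dom {p : Coh} {n : ℕ} : n ∈ p.dom ↔ ∃ b, (n, b) ∈ p.s := by
  unfold dom
  rw [Finset.mem_image]
  constructor
  · rintro ⟨⟨m, b⟩, h, rfl⟩
    exact ⟨b, h⟩
  · rintro ⟨b, h⟩
    exact ⟨(n, b), h, rfl⟩

/-- adding a value -/
def add (p : Coh) (n : ℕ) (b : Bool) (h : n ∉ p.dom) : Coh where
  s := insert (n, b) p.s
  fn m b' c' h1 h2 := by
    rw [Finset.mem_insert] at h1 h2
    rcases h1 with h1 | h1 <;> rcases h2 with h2 | h2
    · simp only [Prod.mk.injEq] at h1 h2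
      rw [h1.2, h2.2]
    · simp only [Prod.mk.injEq] at h1
      exact (h (mem_dom.2 ⟨c', by rw [← h1.1]; exact h2⟩)).elim
    · simp only [Prod.mk.injEq] at h2
      exact (h (mem_dom.2 ⟨b', by rw [← h2.1]; exact h1⟩)).elim
    · exact p.fn m b' c' h1 h2

theorem add_le (p : Coh) (n : ℕ) (b : Bool) (h : n ∉ p.dom) : p.add n b h ≤ p :=
  Finset.subset_insert _ _

theorem mem_add (p : Coh) (n : ℕ) (b : Bool) (h : n ∉ p.dom) : (n, b) ∈ (p.add n b h).s :=
  Finset.mem_insert_self _ _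

theorem exists_ext (p : Coh) (n : ℕ) (b : Bool) (h : (n, !b) ∉ p.s) :
    ∃ q ≤ p, (n, b) ∈ q.s := by
  by_cases hn : n ∈ p.dom
  · obtain ⟨c, hc⟩ := mem_dom.1 hn
    refine ⟨p, le_rfl, ?_⟩
    have : c = b := by
      cases c <;> cases b <;> simp_all
    rw [← this]; exact hc
  · exact ⟨p.add n b hn, add_le _ _ _ _, mem_add _ _ _ _⟩

end Coh

/-- the Cohen algebra -/
abbrev B := RO Coh

/-- the cone below a condition -/
def cone (t : Coh) : B where
  carrier := {s | s ≤ t}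
  regular p := by
    constructor
    · intro h q hq
      exact ⟨q, le_rfl, hq.trans h⟩
    · intro h
      show t.s ⊆ p.s
      rintro ⟨n, b⟩ hx
      by_contra hc
      by_cases h' : (n, !b) ∈ p.s
      · obtain ⟨r, hr, hr'⟩ := h p le_rfl
        have h1 : (n, b) ∈ r.s := hr' hx
        have h2 : (n, !b) ∈ r.s := hr h'
        have := r.fn n _ _ h1 h2
        cases b <;> simp at this
      · obtain ⟨q, hq, hq'⟩ := Coh.exists_ext p n (!b) (by simpa using hc)
        obtain ⟨r, hr, hr'⟩ := h q hq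
        have h1 : (n, b) ∈ r.s := hr' hx
        have h2 : (n, !b) ∈ r.s := hr hq'
        have := r.fn n _ _ h1 h2
        cases b <;> simp at this

theorem mem_cone {s t : Coh} : s ∈ (cone t).carrier ↔ s ≤ t := Iff.rfl

/-- the finite piece of a branch -/
def pc (y : ℕ → Bool) (n : ℕ) : Coh where
  s := (Finset.range n).image fun k => (k, y k)
  fn m b c h1 h2 := by
    rw [Finset.mem_image] at h1 h2
    obtain ⟨k, _, hk⟩ := h1
    obtain ⟨l, _, hl⟩ := h2
    simp only [Prod.mk.injEq] at hk hl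
    rw [← hk.2, ← hl.2, hk.1, hl.1]

theorem mem_pc {y : ℕ → Bool} {n m : ℕ} {b : Bool} : (m, b) ∈ (pc y n).s ↔ m < n ∧ y m = b := by
  show (m, b) ∈ (Finset.range n).image (fun k => (k, y k)) ↔ _
  rw [Finset.mem_image]
  constructor
  · rintro ⟨k, hk, h⟩
    simp only [Prod.mk.injEq] at h
    obtain ⟨rfl, h⟩ := h
    exact ⟨Finset.mem_range.1 hk, h⟩
  · rintro ⟨h, h'⟩
    exact ⟨m, Finset.mem_range.2 h, by rw [h']⟩

/-- the cylinder -/
def cyl (y : ℕ → Bool) (n : ℕ) : B := cone (pc y n)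

theorem mem_cyl {y : ℕ → Bool} {n : ℕ} {s : Coh} :
    s ∈ (cyl y n).carrier ↔ ∀ m < n, (m, y m) ∈ s.s := by
  constructor
  · intro h m hm
    exact h (mem_pc.2 ⟨hm, rfl⟩)
  · rintro h ⟨m, b⟩ hx
    obtain ⟨h1, h2⟩ := mem_pc.1 hx
    rw [← h2]
    exact h m h1

theorem cyl_zero (y : ℕ → Bool) : cyl y 0 = ⊤ := by
  rw [eq_top_iff]
  intro p _
  exact mem_cyl.2 fun m hm => absurd hm (Nat.not_lt_zero m)

theorem cyl_anti (y : ℕ → Bool) {n m : ℕ} (h : n ≤ m) : cyl y m ≤ cyl y n := by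
  intro p hp
  exact mem_cyl.2 fun k hk => mem_cyl.1 hp k (hk.trans_le h)

theorem cyl_congr {y z : ℕ → Bool} {n : ℕ} (h : ∀ k < n, y k = z k) : cyl y n = cyl z n := by
  refine RO.ext' (Set.ext fun p => ?_)
  rw [mem_cyl, mem_cyl]
  exact forall_congr' fun k => forall_congr' fun hk => by rw [h k hk]

theorem iInf_cyl (y : ℕ → Bool) : ⨅ n, cyl y n = ⊥ := by
  rw [eq_bot_iff]
  intro p hp
  rw [RO.mem_iInf] at hp
  exfalso
  have h1 : ∀ n, n ∈ p.dom := fun n => Coh.mem_dom.2 ⟨y n, mem_cyl.1 (hp (n + 1)) n (Nat.lt_succ_self n)⟩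
  exact Set.infinite_univ (α := ℕ) (p.dom.finite_toSet.subset fun n _ => h1 n)

theorem iSup_compl_cyl (y : ℕ → Bool) : ⨆ n, (cyl y n)ᶜ = ⊤ := by
  rw [← compl_iInf, iInf_cyl, compl_bot]

open Function in
theorem cyl_split (y : ℕ → Bool) (n : ℕ) :
    cyl y n ≤ cyl (update y n false) (n + 1) ⊔ cyl (update y n true) (n + 1) := by
  intro p hp
  rw [RO.mem_sup]
  intro q hq
  have hq' := (cyl y n).lower hq hp
  by_cases h : (n, true) ∈ q.s
  · refine ⟨q, le_rfl, Or.inr (mem_cyl.2 fun m hm => ?_)⟩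
    rcases Nat.lt_succ_iff_lt_or_eq.1 hm with h1 | rfl
    · rw [update_of_ne (ne_of_lt h1)]
      exact mem_cyl.1 hq' m h1
    · rw [update_self]; exact h
  · obtain ⟨r, hr, hr'⟩ := Coh.exists_ext q n false (by simpa using h)
    refine ⟨r, hr, Or.inl (mem_cyl.2 fun m hm => ?_)⟩
    rcases Nat.lt_succ_iff_lt_or_eq.1 hm with h1 | rfl
    · rw [update_of_ne (ne_of_lt h1)]
      exact hr (mem_cyl.1 hq' m h1)
    · rw [update_self]; exact hr'

/-! ### local equality and mixing -/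

section
variable {A : Type*} [CompleteBooleanAlgebra A]

/-- `x = y` on `r` -/
def EqOn (r x y : A) : Prop := x ⊓ r = y ⊓ r

theorem EqOn.refl (r x : A) : EqOn r x x := rfl
theorem EqOn.symm {r x y : A} (h : EqOn r x y) : EqOn r y x := Eq.symm h
theorem EqOn.trans {r x y z : A} (h : EqOn r x y) (h' : EqOn r y z) : EqOn r x z := Eq.trans h h'

theorem EqOn.mono {r s x y : A} (h : EqOn r x y) (hs : s ≤ r) : EqOn s x y := by
  unfold EqOn at *
  have : s = r ⊓ s := by rw [inf_eq_right.2 hs]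
  rw [this, ← inf_assoc, ← inf_assoc, h]

theorem EqOn.bot (x y : A) : EqOn ⊥ x y := by simp [EqOn]

theorem EqOn.of_eq {r x y : A} (h : x = y) : EqOn r x y := by rw [h]; exact EqOn.refl _ _

theorem EqOn.split {r t x y : A} (h : EqOn (t ⊓ r) x y) (h' : EqOn (t ⊓ rᶜ) x y) :
    EqOn t x y := by
  unfold EqOn at *
  have : t = (t ⊓ r) ⊔ (t ⊓ rᶜ) := by rw [← inf_sup_left, sup_compl_eq_top, inf_top_eq]
  rw [this, inf_sup_left, inf_sup_left, h, h']

theorem EqOn.eq {r x y : A} (h : EqOn r x y) (h' : EqOn rᶜ x y) : x = y := by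
  have := EqOn.split (t := ⊤) (r := r) (x := x) (y := y) (by rwa [top_inf_eq]) (by rwa [top_inf_eq])
  simpa [EqOn] using this

theorem eqOn_iff {r x y : A} : EqOn r x y ↔ r ≤ iffV x y := by
  constructor
  · intro h
    refine bIff (fun Δ h1 h2 => ?_) (fun Δ h1 h2 => ?_)
    · have : Δ ≤ x ⊓ r := le_inf h2 h1
      rw [show x ⊓ r = y ⊓ r from h] at this
      exact bLeft this
    · have : Δ ≤ y ⊓ r := le_inf h2 h1
      rw [show y ⊓ r = x ⊓ r from h.symm] at this
      exact bLeft this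
  · intro h
    refine eq_of_forall fun Γ => ⟨fun h' => ?_, fun h' => ?_⟩
    · exact le_inf (bIff_mp ((bRight h').trans h) (bLeft h')) (bRight h')
    · exact le_inf (bIff_mpr ((bRight h').trans h) (bLeft h')) (bRight h')

theorem EqOn.iSup' {ι : Sort*} {r : ι → A} {x y : A} (h : ∀ i, EqOn (r i) x y) :
    EqOn (⨆ i, r i) x y := by
  rw [eqOn_iff]
  exact iSup_le fun i => eqOn_iff.1 (h i)

/-- `a` off `r` and `b` on `r` -/
def mix (r a b : A) : A := (a ⊓ rᶜ) ⊔ (b ⊓ r)

theorem mix_on (r a b : A) : EqOn r (mix r a b) b := by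
  unfold EqOn mix
  rw [inf_sup_right, inf_assoc, compl_inf_eq_bot, inf_bot_eq, bot_sup_eq, inf_assoc, inf_idem]

theorem mix_off (r a b : A) : EqOn rᶜ (mix r a b) a := by
  unfold EqOn mix
  rw [inf_sup_right, inf_assoc, inf_idem, inf_assoc, inf_compl_eq_bot, inf_bot_eq, sup_bot_eq]

theorem mix_bot (a b : A) : mix ⊥ a b = a := by simp [mix]

theorem mix_self (r a : A) : mix r a a = a := by
  unfold mix
  rw [← inf_sup_left, compl_sup_eq_top, inf_top_eq]

theorem mix_eq {r a b x : A} (h : EqOn r x b) (h' : EqOn rᶜ x a) : mix r a b = x :=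
  EqOn.eq (r := r) ((mix_on r a b).trans h.symm) ((mix_off r a b).trans h'.symm)

theorem mix_bots (r : A) : mix r ⊥ ⊥ = ⊥ := mix_self r ⊥

end

end Pool.Agent.Helper23.CK
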