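import Pool.Agent.Helper23.WT.Defs

set_option autoImplicit false

/-!
# Trees in a model of set theory; Cohen extensions of countable transitive models

The definitions of the first section are statements about the elements of a structure `(M, E)`
(`E` is its membership relation) that only quantify over `M`.  `ZF E`, `IsFun E f A B` (`f` is a
function from `A` to `B`), `App E f x y` (`(x, y) ∈ f`) and `IsOmega E o` (`o = ω`) are defined in
`WT.Defs`.
-/

universe u v

namespace Pool.Agent.Helper23.CK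

open WT (ZF IsFun App IsOmega)

section

variable {M : Type v} (E : M → M → Prop)

/-- `(M, E)` is a model of ZFC: it is a model of ZF, and every set of non-empty pairwise disjoint
sets has a transversal -/
def ZFC : Prop := ZF E ∧
  ∀ x, (∀ y, E y x → ∃ z, E z y) →
    (∀ y y' z, E y x → E y' x → E z y → E z y' → y = y') →
    ∃ c, ∀ y, E y x → ∃! z, E z y ∧ E z c

/-- there is an injection from `A` to `B` -/
def CardLe (A B : M) : Prop :=
  ∃ f, IsFun E f A B ∧ ∀ x x' y, App E f x y → App E f x' y → x = x'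

/-- `A` is countable -/
def IsCountable (A : M) : Prop := ∃ o, IsOmega E o ∧ CardLe E A o

/-- `a` is an ordinal: a transitive set of transitive sets -/
def IsOrdinal (a : M) : Prop :=
  (∀ y z, E y a → E z y → E z a) ∧ ∀ y z w, E y a → E z y → E w z → E w y

/-- `w = ω₁`: an uncountable ordinal all of whose elements are countable -/
def IsOmega1 (w : M) : Prop :=
  IsOrdinal E w ∧ ¬ IsCountable E w ∧ ∀ a, E a w → IsCountable E a

/-- `T` is a tree with the order `{(x, y) | x < y} = R`: a strict partial order such that the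
predecessors of every node are well-ordered -/
def IsTree (T R : M) : Prop :=
  (∀ x, E x T → ¬ App E R x x) ∧
  (∀ x y z, E x T → E y T → E z T → App E R x y → App E R y z → App E R x z) ∧
  ∀ t, E t T → ∀ B, (∃ x, E x B) → (∀ x, E x B → E x T ∧ App E R x t) →
    ∃ x, E x B ∧ ∀ y, E y B → y = x ∨ App E R x y

/-- the node `t` has height `a`: there is an isomorphism from the ordinal `a` to the set of the
predecessors of `t` -/
def HasHeight (T R t a : M) : Prop :=
  IsOrdinal E a ∧ ∃ f, IsFun E f a T ∧ (∀ b s, App E f b s → App E R s t) ∧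
    (∀ s, E s T → App E R s t → ∃ b, App E f b s) ∧
    ∀ b b' s s', App E f b s → App E f b' s' → (E b b' ↔ App E R s s')

/-- `L` is the set of the nodes of height `a` -/
def IsLevel (T R a L : M) : Prop := ∀ t, E t L ↔ E t T ∧ HasHeight E T R t a

/-- `(T, R)` is an `ω₁`-tree, where `w = ω₁`: a tree of height `w` all of whose levels are
countable -/
def IsOmega1Tree (T R w : M) : Prop :=
  IsTree E T R ∧ (∀ t, E t T → ∃ a, E a w ∧ HasHeight E T R t a) ∧
    ∀ a, E a w → ∃ L, IsLevel E T R a L ∧ (∃ t, E t L) ∧ IsCountable E L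

/-- `b` is a cofinal branch: a linearly ordered set of nodes that meets every level -/
def IsCofinalBranch (T R w b : M) : Prop :=
  (∀ x, E x b → E x T) ∧ (∀ x y, E x b → E y b → x = y ∨ App E R x y ∨ App E R y x) ∧
    ∀ a, E a w → ∃ t, E t b ∧ HasHeight E T R t a

/-- the Kurepa hypothesis: there is an `ω₁`-tree with at least `ℵ₂` (that is, more than `ℵ₁`)
cofinal branches -/
def KH : Prop := ∃ T R w B, IsOmega1 E w ∧ IsOmega1Tree E T R w ∧
  (∀ b, E b B ↔ IsCofinalBranch E T R w b) ∧ ¬ CardLe E B w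

end

/-! ### Cohen extensions -/

/-- the membership relation of the set `M` -/
def Mem (M : ZFSet.{u}) (x y : {x : ZFSet.{u} // x ∈ M}) : Prop := x.1 ∈ y.1

/-- the von Neumann natural numbers -/
def num : ℕ → ZFSet.{u}
  | 0 => ∅
  | n + 1 => insert (num n) (num n)

/-- `p` is an element of `Add(ω, 1)`: a finite partial function from `ω` to `2 = {0, 1}` -/
def IsCond (p : ZFSet.{u}) : Prop :=
  {z | z ∈ p}.Finite ∧ (∀ z ∈ p, ∃ n : ℕ, z = ZFSet.pair (num n) (num 0) ∨
    z = ZFSet.pair (num n) (num 1)) ∧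
  ∀ n : ℕ, ¬ (ZFSet.pair (num n) (num 0) ∈ p ∧ ZFSet.pair (num n) (num 1) ∈ p)

/-- `G` is an `Add(ω, 1)`-generic filter over `M` (`q` is stronger than `p` if `p ⊆ q`): a filter
that meets every dense subset of `Add(ω, 1)` that is an element of `M` -/
structure IsGeneric (M G : ZFSet.{u}) : Prop where
  cond : ∀ p ∈ G, IsCond p
  nonempty : ∃ p, p ∈ G
  up : ∀ q ∈ G, ∀ p, IsCond p → p ⊆ q → p ∈ G
  dir : ∀ p ∈ G, ∀ q ∈ G, ∃ r ∈ G, p ⊆ r ∧ q ⊆ r
  dense : ∀ D ∈ M, (∀ p ∈ D, IsCond p) → (∀ p, IsCond p → ∃ q ∈ D, p ⊆ q) → ∃ p ∈ G, p ∈ D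

theorem small_dom (G τ : ZFSet.{u}) : Small.{u} {σ : ZFSet.{u} // ∃ p ∈ G, ZFSet.pair σ p ∈ τ} := by
  have h : ∀ σ : ZFSet.{u}, (∃ p ∈ G, ZFSet.pair σ p ∈ τ) → σ ∈ ZFSet.sUnion (ZFSet.sUnion τ) := by
    rintro σ ⟨p, _, hp⟩
    rw [ZFSet.mem_sUnion]
    refine ⟨{σ}, ?_, by simp⟩
    rw [ZFSet.mem_sUnion]
    exact ⟨_, hp, by unfold ZFSet.pair; simp⟩
  exact small_of_injective (β := {z : ZFSet.{u} // z ∈ ZFSet.sUnion (ZFSet.sUnion τ)})
    (f := fun σ => ⟨σ.1, h σ.1 σ.2⟩) fun a b hab => by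
      have := congrArg Subtype.val hab
      exact Subtype.ext this

theorem rank_dom {σ p τ : ZFSet.{u}} (h : ZFSet.pair σ p ∈ τ) : σ.rank < τ.rank := by
  have h1 : σ ∈ ({σ} : ZFSet.{u}) := by simp
  have h2 : ({σ} : ZFSet.{u}) ∈ ZFSet.pair σ p := by unfold ZFSet.pair; simp
  exact ((ZFSet.rank_lt_of_mem h1).trans (ZFSet.rank_lt_of_mem h2)).trans (ZFSet.rank_lt_of_mem h)

/-- the value of the name `τ` with respect to `G`: `ev G τ = {ev G σ | ∃ p ∈ G, (σ, p) ∈ τ}`
(see `mem_ev`) -/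
noncomputable def ev (G τ : ZFSet.{u}) : ZFSet.{u} :=
  have := small_dom G τ
  ZFSet.range (fun σ : {σ : ZFSet.{u} // ∃ p ∈ G, ZFSet.pair σ p ∈ τ} => ev G σ.1)
termination_by τ.rank
decreasing_by
  obtain ⟨p, _, h⟩ := σ.2
  exact rank_dom h

theorem mem_ev {G τ x : ZFSet.{u}} :
    x ∈ ev G τ ↔ ∃ σ p, p ∈ G ∧ ZFSet.pair σ p ∈ τ ∧ x = ev G σ := by
  have := small_dom G τ
  rw [ev, ZFSet.mem_range]
  constructor
  · rintro ⟨⟨σ, p, hp, h⟩, rfl⟩
    exact ⟨σ, p, hp, h, rfl⟩
  · rintro ⟨σ, p, hp, h, rfl⟩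
    exact ⟨⟨σ, p, hp, h⟩, rfl⟩

/-- the generic extension `M[G] = {ev G τ | τ ∈ M}` -/
noncomputable def genExt (M G : ZFSet.{u}) : ZFSet.{u} :=
  ZFSet.range (fun τ : {x : ZFSet.{u} // x ∈ M} => ev G τ.1)

end Pool.Agent.Helper23.CK
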