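import Pool.Agent.Helper23.CK.Sm

set_option autoImplicit false

/-!
# Extensions of conditions by one level
-/

namespace Pool.Agent.Helper23.CK

open WT (iffV bElim bOr bMP bImp bNot bAbs bAll bEx bIff bIff_mp bIff_mpr bLeft bRight bCases bContra eq_of_forall iffV_self iffV_eq_top)
open scoped Ordinal
open Cd

open Classical in
theorem exists_step (q : Cd) (a : O → B) (h : O → O) (hh : ∀ i, h i ≤ i) :
    ∃ q' ≤ q, q'.I = q.I ∧ q.ht < q'.ht ∧ ∀ i ∈ q.I, q'.f i q.ht = a i ∧ q'.g i q.ht = h i := by
  obtain ⟨e, he⟩ := (Set.countable_iff_exists_subset_range).1 q.cnt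
  let f' : O → O → B := fun i β => if β = q.ht ∧ i ∈ q.I then a i else q.f i β
  have hf' : ∀ i β, β < q.ht → f' i β = q.f i β := fun i β hβ => if_neg fun h => ne_of_lt hβ h.1
  have hf'' : ∀ i β, q.ht < β → f' i β = q.f i β := fun i β hβ => if_neg fun h => ne_of_gt hβ h.1
  have hf0 : ∀ i β, i ∉ q.I ∨ Order.succ q.ht ≤ β → f' i β = ⊥ := by
    intro i β h
    show (if β = q.ht ∧ i ∈ q.I then a i else q.f i β) = ⊥
    rw [if_neg, q.f_supp i β (h.imp id fun h => (Order.le_succ _).trans h)]
    rintro ⟨h1, h2⟩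
    rcases h with h | h
    · exact h h2
    · rw [h1] at h
      exact absurd (Order.lt_succ q.ht) (not_lt.2 h)
  let q' : Cd :=
    { ht := Order.succ q.ht
      ht_lt := (Cardinal.isSuccLimit_omega 1).succ_lt q.ht_lt
      I := q.I
      cnt := q.cnt
      E := fun δ m β => if δ = Order.succ q.ht then f' (e m) β else q.E δ m β
      E_supp := fun δ m β hδ => by
        by_cases hd : δ = Order.succ q.ht
        · rw [if_pos hd]
          refine hf0 _ _ (Or.inr ?_)
          rcases hδ with hδ | hδ
          · rw [hd] at hδ; exact absurd hδ (lt_irrefl _)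
          · rw [← hd]; exact hδ
        · rw [if_neg hd]
          exact q.E_supp δ m β (hδ.imp (fun h => (Order.lt_succ _).trans h) id)
      f := f'
      f_supp := hf0
      g := fun i β => if β = q.ht ∧ i ∈ q.I then h i else q.g i β
      g_supp := fun i β hi => by
        rw [if_neg, q.g_supp i β (hi.imp id fun h => (Order.le_succ _).trans h)]
        rintro ⟨h1, h2⟩
        rcases hi with hi | hi
        · exact hi h2
        · rw [h1] at hi
          exact absurd (Order.lt_succ q.ht) (not_lt.2 hi)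
      g_le := fun i β => by
        split_ifs
        · exact hh i
        · exact q.g_le i β
      cov := fun i hi γ hγ => by
        rcases (Order.le_succ_iff_eq_or_le.1 hγ) with h1 | h1
        · obtain ⟨m, hm⟩ := he hi
          rw [eq_top_iff, ← eqv_refl γ (f' i)]
          refine le_trans (le_of_eq ?_) (eqv_le_lst _ le_rfl m _)
          congr 1
          funext β
          rw [if_pos h1, hm]
        · rw [← q.cov i hi γ h1]
          unfold lst
          refine iSup_congr fun δ => iSup_congr fun hδ => iSup_congr fun m => ?_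
          unfold eqv
          refine iInf_congr fun β => iInf_congr fun hβ => ?_
          have h2 : (if δ = Order.succ q.ht then f' (e m) β else q.E δ m β) = q.E δ m β := by
            refine if_neg ?_
            rintro rfl
            exact absurd (Order.lt_succ q.ht) (not_lt.2 (hδ.trans h1))
          show iffV (f' i β) (if δ = Order.succ q.ht then f' (e m) β else q.E δ m β) = _
          rw [hf' i β (hβ.trans_le h1), h2] }
  refine ⟨q', ⟨Order.le_succ _, subset_rfl, fun δ hδ m β => ?_, fun i hi β hβ => ⟨hf' i β hβ, ?_⟩⟩,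
    rfl, Order.lt_succ _, fun i hi => ⟨if_pos ⟨rfl, hi⟩, if_pos ⟨rfl, hi⟩⟩⟩
  · show (if δ = Order.succ q.ht then f' (e m) β else q.E δ m β) = _
    rw [if_neg]
    rintro rfl
    exact absurd (Order.lt_succ q.ht) (not_lt.2 hδ)
  · show (if β = q.ht ∧ i ∈ q.I then h i else q.g i β) = _
    rw [if_neg fun h => ne_of_lt hβ h.1]

/-- two functions can be made different -/
theorem exists_diff (q : Cd) {i j : O} (hij : i ≠ j) : ∃ q' ≤ q, ∃ β < q'.ht, i ∈ q'.I ∧ j ∈ q'.I ∧
    q'.f i β = ⊤ ∧ q'.f j β = ⊥ := by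
  classical
  let q1 := q.addI (q.I ∪ {i, j}) (q.cnt.union ((Set.finite_singleton j).insert i).countable)
    Set.subset_union_left
  have hi : i ∈ q1.I := Or.inr (by simp)
  have hj : j ∈ q1.I := Or.inr (by simp)
  obtain ⟨q', hq', hI, hht, hf⟩ := exists_step q1 (fun k => if k = i then ⊤ else ⊥) (fun _ => 0)
    (fun _ => zero_le)
  refine ⟨q', hq'.trans (q.addI_le _ _ _), q1.ht, hht, hI ▸ hi, hI ▸ hj, ?_, ?_⟩
  · rw [(hf i hi).1, if_pos rfl]
  · rw [(hf j hj).1, if_neg (Ne.symm hij)]

/-- every ordinal up to `θ` can be made a value of the function with the index `θ` -/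
theorem exists_val (q : Cd) {θ η : O} (h : η ≤ θ) : ∃ q' ≤ q, ∃ ξ < q'.ht, θ ∈ q'.I ∧ q'.g θ ξ = η := by
  classical
  let q1 := q.addI (q.I ∪ {θ}) (q.cnt.union (Set.countable_singleton θ)) Set.subset_union_left
  have hi : θ ∈ q1.I := Or.inr (by simp)
  obtain ⟨q', hq', hI, hht, hf⟩ := exists_step q1 (fun _ => ⊥) (fun k => if k = θ then η else 0)
    (fun k => by
      split_ifs with hk
      · rw [hk]; exact h
      · exact zero_le)
  refine ⟨q', hq'.trans (q.addI_le _ _ _), q1.ht, hht, hI ▸ hi, ?_⟩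
  rw [(hf θ hi).2, if_pos rfl]

/-- the height can be made large -/
theorem exists_ht (q : Cd) {γ : O} (h : γ < ω₁) (i : O) : ∃ q' ≤ q, γ ≤ q'.ht ∧ i ∈ q'.I := by
  let q1 := q.addI (q.I ∪ {i}) (q.cnt.union (Set.countable_singleton i)) Set.subset_union_left
  have hi : i ∈ q1.I := Or.inr (by simp)
  rcases le_total γ q1.ht with h1 | h1
  · exact ⟨q1, q.addI_le _ _ _, h1, hi⟩
  · exact ⟨q1.zext γ h1 h, (q1.zext_le γ h1 h).trans (q.addI_le _ _ _), le_rfl, hi⟩

end Pool.Agent.Helper23.CK
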