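import Pool.Agent.Helper23.CK.On
import Pool.Agent.Helper23.CK.Ex

set_option autoImplicit false

/-!
# Boolean facts about the two forcings
-/

universe u v w

namespace Pool.Agent.Helper23.CK

open WT (iffV bElim bOr bMP bImp bNot bAbs bAll bEx bIff bIff_mp bIff_mpr bLeft bRight bCases bContra eq_of_forall iffV_self iffV_eq_top)
open WT (Fm ZF ZM)
open Nm
open scoped Ordinal

/-- the regular open set generated by a condition -/
def cn {P : Type u} [Preorder P] (p : P) : RO P := RO.hull {q | q ≤ p} fun _ _ h h' => h.trans h'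

theorem cn_le {P : Type u} [Preorder P] {p : P} {b : RO P} : cn p ≤ b ↔ p ∈ b.carrier := by
  constructor
  · intro h
    exact h (RO.subset_hull (show p ∈ {q | q ≤ p} from le_rfl))
  · intro h q hq
    refine (b.regular q).2 fun r hr => ?_
    obtain ⟨t, ht, ht'⟩ := hq r hr
    exact ⟨t, ht, b.lower ht' h⟩

theorem mem_iSup_ex {P : Type u} [Preorder P] {ι : Sort*} {f : ι → RO P} {p : P}
    (h : p ∈ (⨆ i, f i).carrier) : ∃ q ≤ p, ∃ i, q ∈ (f i).carrier :=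
  RO.mem_iSup.1 h p le_rfl

theorem mem_iSup_of {P : Type u} [Preorder P] {ι : Sort*} {f : ι → RO P} {p : P} (i : ι)
    (h : p ∈ (f i).carrier) : p ∈ (⨆ i, f i).carrier := (le_iSup f i : f i ≤ _) h

/-! ### injections -/

section
variable {P : Type u} [Preorder P]

theorem injB_tot {f A w x : Nm P} {Γ : RO P} (h : Γ ≤ InjB f A w) (hx : Γ ≤ Nm.mem x A) :
    Γ ≤ ⨆ n, Nm.mem n w ⊓ Nm.mem (opair x n) f := bMP (bAll (bLeft h) x) hx

theorem injB_inj {f A w x x' n : Nm P} {Γ : RO P} (h : Γ ≤ InjB f A w) (hx : Γ ≤ Nm.mem x A)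
    (hx' : Γ ≤ Nm.mem x' A) (h1 : Γ ≤ Nm.mem (opair x n) f) (h2 : Γ ≤ Nm.mem (opair x' n) f) :
    Γ ≤ Nm.eq x x' :=
  bMP (bMP (bAll (bMP (bAll (bMP (bAll (bRight h) x) hx) x') hx') n) h1) h2

end

theorem injB_omega {P : Type 1} [Preorder P] {Q : Type} [Preorder Q] [Countable Q]
    (pr : Cd → Q → P) (hsurj : ∀ x, ∃ p s, x = pr p s)
    (hmono : ∀ p q s t, q ≤ p → t ≤ s → pr q t ≤ pr p s)
    (hbel : ∀ p s x, x ≤ pr p s → ∃ q ≤ p, ∃ t ≤ s, x = pr q t) (f : Nm P) :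
    InjB f (ordn ω₁) omg = ⊥ := by
  by_contra hne
  obtain ⟨x, hx⟩ := RO.ne_bot hne
  obtain ⟨p0, s0, rfl⟩ := hsurj x
  refine omega1_abs (fun p s β n => pr p s ∈ (Nm.mem (opair (ordn β) (nat n)) f).carrier) p0 s0
    ?_ ?_ ?_
  · intro p s q t β n hq ht h
    exact RO.lower _ (hmono _ _ _ _ hq ht) h
  · intro p hp s hs β hβ
    have h1 : cn (pr p s) ≤ InjB f (ordn ω₁) omg := cn_le.2 (RO.lower _ (hmono _ _ _ _ hp hs) hx)
    have h2 : cn (pr p s) ≤ ⨆ n : ℕ, Nm.mem (opair (ordn β) (nat n)) f := by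
      refine bElim (injB_tot h1 (x := ordn β) (ordn_mem_ordn hβ)) fun n Δ _ h3 => ?_
      have h4 := bLeft h3
      rw [mem_omg] at h4
      refine bElim h4 fun k Δ' h5 h6 => ?_
      exact bEx k (bMemL (bOpairCongr (bRefl _) h6) (bRight (h5.trans h3)))
    obtain ⟨y, hy, n, hn⟩ := mem_iSup_ex (cn_le.1 h2)
    obtain ⟨q, hq, t, ht, rfl⟩ := hbel _ _ _ hy
    exact ⟨q, hq, t, ht, n, hn⟩
  · intro p hp s hs β hβ β' hβ' n h1 h2
    by_contra hne
    have h3 : cn (pr p s) ≤ InjB f (ordn ω₁) omg := cn_le.2 (RO.lower _ (hmono _ _ _ _ hp hs) hx)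
    have h4 := eq_ordn hne (injB_inj h3 (ordn_mem_ordn hβ) (ordn_mem_ordn hβ') (cn_le.2 h1)
      (cn_le.2 h2))
    exact cn_le.1 h4

theorem injB_Cd (f : Nm Cd) : InjB f (ordn ω₁) omg = ⊥ :=
  injB_omega (Q := Unit) (fun p _ => p) (fun x => ⟨x, (), rfl⟩) (fun _ _ _ _ h _ => h)
    (fun _ _ x h => ⟨x, h, (), le_rfl, rfl⟩) f

theorem injB_CdCoh (f : Nm (Cd × Coh)) : InjB f (ordn ω₁) omg = ⊥ :=
  injB_omega (Q := Coh) (fun p s => (p, s)) (fun x => ⟨x.1, x.2, rfl⟩)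
    (fun _ _ _ _ h h' => Prod.mk_le_mk.2 ⟨h, h'⟩)
    (fun _ _ x h => ⟨x.1, (Prod.le_def.1 h).1, x.2, (Prod.le_def.1 h).2, rfl⟩) f

/-! ### the Kurepa family -/

/-- truth value of: `β` is an element of the `i`-th set -/
def Abool (i β : O) : RO (Cd × Coh) :=
  RO.hull {x | i ∈ x.1.I ∧ β < x.1.ht ∧ x.2 ∈ (x.1.f i β).carrier} fun p q hq h =>
    ⟨hq.1.2.1 h.1, h.2.1.trans_le hq.1.1, by
      rw [(hq.1.2.2.2 i h.1 β h.2.1).1]
      exact RO.lower _ hq.2 h.2.2⟩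

/-- truth value of: `β` is an element of the `m`-th set of the list `δ` -/
def Ebool (δ : O) (m : ℕ) (β : O) : RO (Cd × Coh) :=
  RO.hull {x | δ ≤ x.1.ht ∧ x.2 ∈ (x.1.E δ m β).carrier} fun p q hq h =>
    ⟨h.1.trans hq.1.1, by
      rw [hq.1.2.2.1 δ h.1 m β]
      exact RO.lower _ hq.2 h.2⟩

theorem mem_Abool {i β : O} {q : Cd} {t : Coh} (hi : i ∈ q.I) (hβ : β < q.ht) :
    (q, t) ∈ (Abool i β).carrier ↔ t ∈ (q.f i β).carrier := by
  constructor
  · intro h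
    refine ((q.f i β).regular t).2 fun t' ht' => ?_
    obtain ⟨⟨q'', t''⟩, hr, h1, h2, h3⟩ := h (q, t') ⟨le_rfl, ht'⟩
    refine ⟨t'', hr.2, ?_⟩
    have h4 := (hr.1.2.2.2 i hi β hβ).1
    simp only at h3 h4
    rwa [h4] at h3
  · intro h
    exact RO.subset_hull ⟨hi, hβ, h⟩

theorem mem_Ebool {δ β : O} {m : ℕ} {q : Cd} {t : Coh} (hδ : δ ≤ q.ht) :
    (q, t) ∈ (Ebool δ m β).carrier ↔ t ∈ (q.E δ m β).carrier := by
  constructor
  · intro h
    refine ((q.E δ m β).regular t).2 fun t' ht' => ?_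
    obtain ⟨⟨q'', t''⟩, hr, h1, h2⟩ := h (q, t') ⟨le_rfl, ht'⟩
    refine ⟨t'', hr.2, ?_⟩
    have h4 := hr.1.2.2.1 δ hδ m β
    simp only at h2 h4
    rwa [h4] at h2
  · intro h
    exact RO.subset_hull ⟨hδ, h⟩

/-- the name of a subset of `ω₁` -/
noncomputable def subn (v : O → RO (Cd × Coh)) : Nm (Cd × Coh) :=
  mk (Set.Iio (ω₁ : O)) (fun β => ordn β.1) (fun β => v β.1)

theorem mem_subn {v : O → RO (Cd × Coh)} {β : O} (hβ : β < ω₁) :
    Nm.mem (ordn β) (subn v) = v β := by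
  unfold subn
  rw [mem_mk]
  refine le_antisymm (iSup_le fun γ => ?_) ?_
  · by_cases h : β = γ.1
    · rw [h]; exact inf_le_left
    · exact (eq_ordn h inf_le_right).trans bot_le
  · exact bEx ⟨β, hβ⟩ (le_inf le_rfl (bRefl _))

/-- the names of the members of the family -/
noncomputable def Adot (i : O) : Nm (Cd × Coh) := subn (Abool i)

/-- the name of the family -/
noncomputable def famn : Nm (Cd × Coh) := mk O Adot (fun _ => ⊤)

theorem mem_famn (x : Nm (Cd × Coh)) : Nm.mem x famn = ⨆ i, Nm.eq x (Adot i) := by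
  unfold famn
  rw [mem_mk]
  exact iSup_congr fun i => by rw [top_inf_eq]

theorem Adot_mem (i : O) {Γ : RO (Cd × Coh)} : Γ ≤ Nm.mem (Adot i) famn := by
  rw [mem_famn]; exact bEx i (bRefl _)

theorem subn_sub {v : O → RO (Cd × Coh)} {x : Nm (Cd × Coh)} {Γ : RO (Cd × Coh)}
    (h : Γ ≤ Nm.mem x (subn v)) : Γ ≤ Nm.mem x (ordn ω₁) := by
  unfold subn at h
  rw [mem_mk] at h
  refine bElim h fun γ Δ _ h2 => ?_
  rw [mem_ordn]
  exact bEx γ (bRight h2)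

/-- the members of the family are different -/
theorem Adot_ne {i j : O} (hij : i ≠ j) {Γ : RO (Cd × Coh)} (h : Γ ≤ Nm.eq (Adot i) (Adot j)) :
    Γ ≤ ⊥ := by
  refine h.trans ?_
  rintro ⟨q, s⟩ hq
  obtain ⟨q', hq', β, hβ, hi, hj, h1, h2⟩ := exists_diff q hij
  have hβ' : β < ω₁ := hβ.trans q'.ht_lt
  have h3 : cn (q', s) ≤ Nm.eq (Adot i) (Adot j) :=
    cn_le.2 (RO.lower _ (show (q', s) ≤ (q, s) from ⟨hq', le_rfl⟩) hq)
  have h4 : cn (q', s) ≤ Nm.mem (ordn β) (Adot i) := by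
    unfold Adot
    rw [mem_subn hβ', cn_le, mem_Abool hi hβ, h1]
    trivial
  have h5 := bMemR h3 h4
  unfold Adot at h5
  rw [mem_subn hβ', cn_le, mem_Abool hj hβ, h2] at h5
  exact h5.elim

/-- the restrictions are covered by a list -/
theorem famn_list {γ : O} (hγ : γ < ω₁) {Γ : RO (Cd × Coh)} :
    Γ ≤ ⨆ c, FunB c ⊓ ⨅ A, Nm.mem A famn ⇨ ⨆ n, Nm.mem n omg ⊓ ⨆ x, Nm.mem (opair n x) c ⊓
      ⨅ z, Nm.mem z (ordn γ) ⇨ iffV (Nm.mem z x) (Nm.mem z A) := by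
  have hcnt : Countable (Set.Iio (Order.succ γ)) :=
    countable_Iio ((Cardinal.isSuccLimit_omega 1).succ_lt hγ)
  have hne : Nonempty (Set.Iio (Order.succ γ) × ℕ) := ⟨⟨⟨γ, Order.lt_succ γ⟩, 0⟩⟩
  obtain ⟨e, he⟩ := exists_surjective_nat (Set.Iio (Order.succ γ) × ℕ)
  refine bEx (mk (ULift.{1} ℕ) (fun n => opair (nat n.down) (subn (Ebool (e n.down).1.1 (e n.down).2)))
    (fun _ => ⊤)) (le_inf ?_ ?_)
  · refine funB_pairs (a := fun n : ULift.{1} ℕ => (nat n.down : Nm (Cd × Coh)))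
      (b := fun n : ULift.{1} ℕ => subn (Ebool (e n.down).1.1 (e n.down).2)) fun i j Γ _ _ h => ?_
    by_cases hij : i.down = j.down
    · rw [hij]; exact bRefl _
    · exact (eq_nat_nat hij h).trans bot_le
  · refine le_iInf fun A => bImp fun Δ _ h1 => ?_
    rw [mem_famn] at h1
    refine bElim h1 fun i Δ' _ h2 => ?_
    -- the truth value of the equality
    have key : (⊤ : RO (Cd × Coh)) ≤ ⨆ n : ℕ, ⨅ β : Set.Iio γ,
        iffV (Ebool (e n).1.1 (e n).2 β.1) (Abool i β.1) := by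
      refine le_of_eq (Eq.symm (RO.eq_top ?_))
      rintro ⟨p, s⟩
      obtain ⟨p', hp', hht, hi⟩ := exists_ht p hγ i
      have h3 : s ∈ (lst p'.E γ (p'.f i)).carrier := by
        rw [p'.cov i hi γ hht]; trivial
      unfold lst at h3
      obtain ⟨s1, hs1, δ, h4⟩ := mem_iSup_ex h3
      obtain ⟨s2, hs2, hδ, h5⟩ := mem_iSup_ex h4
      obtain ⟨s3, hs3, m, h6⟩ := mem_iSup_ex h5
      obtain ⟨n, hn⟩ := he (⟨δ, Order.lt_succ_iff.2 hδ⟩, m)
      refine ⟨(p', s3), ⟨hp', (hs3.trans hs2).trans hs1⟩, mem_iSup_of n ?_⟩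
      rw [RO.mem_iInf]
      rintro ⟨β, hβ⟩
      have h7 : s3 ∈ (iffV (p'.f i β) (p'.E δ m β)).carrier := by
        unfold eqv at h6
        rw [RO.mem_iInf] at h6
        have := h6 β
        rw [RO.mem_iInf] at this
        exact this hβ
      rw [hn]
      simp only
      show (p', s3) ∈ ((Ebool δ m β ⇨ Abool i β) ⊓ (Abool i β ⇨ Ebool δ m β)).carrier
      have h8 : s3 ∈ ((p'.f i β ⇨ p'.E δ m β) ⊓ (p'.E δ m β ⇨ p'.f i β)).carrier := h7
      refine ⟨RO.mem_himp.2 ?_, RO.mem_himp.2 ?_⟩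
      · rintro ⟨q, t⟩ hq h9
        rw [mem_Ebool ((hδ.trans hht).trans hq.1.1), hq.1.2.2.1 δ (hδ.trans hht)] at h9
        rw [mem_Abool (hq.1.2.1 hi) ((hβ.trans_le hht).trans_le hq.1.1),
          (hq.1.2.2.2 i hi β (hβ.trans_le hht)).1]
        exact RO.mem_himp.1 h8.2 t hq.2 h9
      · rintro ⟨q, t⟩ hq h9
        rw [mem_Abool (hq.1.2.1 hi) ((hβ.trans_le hht).trans_le hq.1.1),
          (hq.1.2.2.2 i hi β (hβ.trans_le hht)).1] at h9
        rw [mem_Ebool ((hδ.trans hht).trans hq.1.1), hq.1.2.2.1 δ (hδ.trans hht)]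
        exact RO.mem_himp.1 h8.1 t hq.2 h9
    refine bElim (le_top.trans key) fun n Δ₁ h3 h4 => ?_
    refine bEx (nat n) (le_inf nat_mem_omg (bEx (subn (Ebool (e n).1.1 (e n).2)) (le_inf ?_ ?_)))
    · exact bPairs (a := fun n : ULift.{1} ℕ => (nat n.down : Nm (Cd × Coh)))
        (b := fun n : ULift.{1} ℕ => subn (Ebool (e n.down).1.1 (e n.down).2)) ⟨n⟩ le_top (bRefl _)
        (bRefl _)
    · refine le_iInf fun z => bImp fun Δ₂ h5 h6 => ?_
      rw [mem_ordn] at h6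
      refine bElim h6 fun β Δ₃ h7 h8 => ?_
      have h9 := bAll ((h7.trans h5).trans h4) β
      have hβ' : β.1 < ω₁ := β.2.trans hγ
      refine bIff (fun Δ₄ h10 h11 => ?_) (fun Δ₄ h10 h11 => ?_)
      · have h12 := bMemL (h10.trans h8) h11
        rw [mem_subn hβ'] at h12
        have h13 := bIff_mp (h10.trans h9) h12
        rw [← mem_subn (v := Abool i) hβ'] at h13
        exact bMemR (bSymm ((((h10.trans h7).trans h5).trans h3).trans h2))
          (bMemL (bSymm (h10.trans h8)) h13)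
      · have h12 := bMemR (((((h10.trans h7).trans h5).trans h3).trans h2)) (bMemL (h10.trans h8) h11)
        unfold Adot at h12
        rw [mem_subn hβ'] at h12
        have h13 := bIff_mpr (h10.trans h9) h12
        rw [← mem_subn (v := Ebool (e n).1.1 (e n).2) hβ'] at h13
        exact bMemL (bSymm (h10.trans h8)) h13

/-- the family is large -/
theorem injB_famn (F : Nm (Cd × Coh)) : InjB F famn (ordn ω₁) = ⊥ := by
  by_contra hne
  obtain ⟨⟨p0, s0⟩, hx⟩ := RO.ne_bot hne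
  have h1 : ∀ i : O, ∃ (p : Cd) (s : Coh) (β : Set.Iio (ω₁ : O)), p ≤ p0 ∧ s ≤ s0 ∧
      (p, s) ∈ (Nm.mem (opair (Adot i) (ordn β.1)) F).carrier := by
    intro i
    have h2 : cn (p0, s0) ≤ ⨆ β : Set.Iio (ω₁ : O), Nm.mem (opair (Adot i) (ordn β.1)) F := by
      refine bElim (injB_tot (cn_le.2 hx) (x := Adot i) (Adot_mem i)) fun n Δ _ h3 => ?_
      have h4 := bLeft h3
      rw [mem_ordn] at h4
      refine bElim h4 fun β Δ' h5 h6 => ?_
      exact bEx β (bMemL (bOpairCongr (bRefl _) h6) (bRight (h5.trans h3)))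
    obtain ⟨⟨p, s⟩, hp, β, hβ⟩ := mem_iSup_ex (cn_le.1 h2)
    exact ⟨p, s, β, hp.1, hp.2, hβ⟩
  choose p s β hp hs hF using h1
  obtain ⟨i, j, hij, hc, q, hqi, hqj⟩ := exists_compat (X := Coh × Set.Iio (ω₁ : O)) p
    (fun i => (s i, β i))
  have hc1 : s i = s j := congrArg Prod.fst hc
  have hc2 : β i = β j := congrArg Prod.snd hc
  have h2 : cn (q, s i) ≤ InjB F famn (ordn ω₁) :=
    cn_le.2 (RO.lower _ (show (q, s i) ≤ (p0, s0) from ⟨hqi.trans (hp i), hs i⟩) hx)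
  have h3 : cn (q, s i) ≤ Nm.mem (opair (Adot i) (ordn (β i).1)) F :=
    cn_le.2 (RO.lower _ (show (q, s i) ≤ (p i, s i) from ⟨hqi, le_rfl⟩) (hF i))
  have h4 : cn (q, s i) ≤ Nm.mem (opair (Adot j) (ordn (β i).1)) F := by
    rw [hc2, hc1]
    exact cn_le.2 (RO.lower _ (show (q, s j) ≤ (p j, s j) from ⟨hqj, le_rfl⟩) (hF j))
  have h5 := Adot_ne (ne_of_lt hij) (injB_inj h2 (Adot_mem i) (Adot_mem j) h3 h4)
  exact cn_le.1 h5

end Pool.Agent.Helper23.CK
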