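import Pool.Agent.Helper23.CK.Nm
import Pool.Agent.Helper23.CK.Defs

set_option autoImplicit false

/-!
# Countable closures, generic sequences, the truth lemma, transitive models
-/

universe u v w

namespace Pool.Agent.Helper23.CK

open WT (iffV bElim bOr bMP bImp bNot bAbs bAll bEx bIff bIff_mp bIff_mpr bLeft bRight bCases bContra eq_of_forall iffV_self iffV_eq_top)
open WT (Fm)
open WT.Fm (sat_mem sat_eq sat_fls sat_imp sat_all sat_neg sat_and sat_or sat_iff sat_ex sat_ren)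

/-! ### closure -/

/-- a list of elements of `S` -/
def Ls {W : Type w} (S : Set W) (l : List W) : Prop := ∀ x ∈ l, x ∈ S

theorem ls_countable {W : Type w} {A : Set W} (hA : A.Countable) : {l : List W | Ls A l}.Countable := by
  have : Countable A := hA.to_subtype
  refine (Set.countable_range (fun l : List A => l.map Subtype.val)).mono fun l hl => ?_
  refine ⟨l.pmap (fun x hx => ⟨x, hx⟩) hl, ?_⟩
  show (l.pmap (fun x hx => (⟨x, hx⟩ : A)) hl).map Subtype.val = l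
  rw [List.map_pmap]
  simp

theorem exists_closure {W : Type w} {K : Type} [Countable K] (ρ : K → List W → List W → Prop)
    (A : Set W) (hA : A.Countable) : ∃ S : Set W, A ⊆ S ∧ S.Countable ∧
      ∀ k l, Ls S l → (∃ l', ρ k l l') → ∃ l', Ls S l' ∧ ρ k l l' := by
  classical
  let G : K → List W → List W := fun k l => if h : ∃ l', ρ k l l' then h.choose else []
  have hG : ∀ k l, (∃ l', ρ k l l') → ρ k l (G k l) := fun k l h => by
    have : G k l = h.choose := dif_pos h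
    rw [this]
    exact h.choose_spec
  let st : Set W → Set W := fun A => A ∪ ⋃ k : K, ⋃ l ∈ {l : List W | Ls A l}, {x | x ∈ G k l}
  have hst : ∀ A : Set W, A.Countable → (st A).Countable := by
    intro A hA
    refine hA.union (Set.countable_iUnion fun k => (ls_countable hA).biUnion fun l _ => ?_)
    exact (List.finite_toSet (G k l)).countable
  let B : ℕ → Set W := fun n => st^[n] A
  have hB : ∀ n, B (n + 1) = st (B n) := fun n => Function.iterate_succ_apply' _ _ _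
  have hBc : ∀ n, (B n).Countable := by
    intro n
    induction n with
    | zero => exact hA
    | succ n ih => rw [hB]; exact hst _ ih
  have hmono : Monotone B := monotone_nat_of_le_succ fun n => by
    rw [hB]; exact Set.subset_union_left
  refine ⟨⋃ n, B n, Set.subset_iUnion B 0, Set.countable_iUnion hBc, fun k l hl h => ?_⟩
  have hfin : ∀ l : List W, Ls (⋃ n, B n) l → ∃ n, Ls (B n) l := by
    intro l
    induction l with
    | nil => intro _; exact ⟨0, fun x hx => by simp at hx⟩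
    | cons a l ih =>
      intro hl
      obtain ⟨n, hn⟩ := ih fun x hx => hl x (List.mem_cons_of_mem _ hx)
      obtain ⟨m, hm⟩ := Set.mem_iUnion.1 (hl a List.mem_cons_self)
      refine ⟨max n m, fun x hx => ?_⟩
      rcases List.mem_cons.1 hx with rfl | hx
      · exact hmono (le_max_right n m) hm
      · exact hmono (le_max_left n m) (hn x hx)
  obtain ⟨n, hn⟩ := hfin l hl
  refine ⟨G k l, fun x hx => Set.mem_iUnion.2 ⟨n + 1, ?_⟩, hG k l h⟩
  rw [hB]
  exact Or.inr (Set.mem_iUnion.2 ⟨k, Set.mem_iUnion₂.2 ⟨l, hn, hx⟩⟩)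

/-! ### generic sequences -/

section
variable {P : Type u} [Preorder P]

/-- the sets of conditions that are met -/
def Ult (p : ℕ → P) : Set (RO P) := {b | ∃ n, p n ∈ b.carrier}

end

/-- a task: a family of Boolean values, indexed by lists -/
def Met {W : Type w} {P : Type u} [Preorder P] (F : List W → RO P) (q : P) (l : List W) : Prop :=
  q ∈ ((⨆ l, F l)ᶜ).carrier ∨ q ∈ (F l).carrier

theorem exists_met {W : Type w} {P : Type u} [Preorder P] (F : List W → RO P) (p : P) :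
    ∃ q ≤ p, ∃ l, Met F q l := by
  obtain ⟨q, hq, h | h⟩ := RO.decide (⨆ l, F l) p
  · obtain ⟨r, hr, l, hl⟩ := RO.mem_iSup.1 h q le_rfl
    exact ⟨r, hr.trans hq, l, Or.inr hl⟩
  · exact ⟨q, hq, [], Or.inl h⟩

/-- the existence of countable submodels with generic sequences for a product `P × Q` with a
countable `Q` -/
theorem exists_generic {W : Type w} {P : Type u} [Preorder P] {Q : Type} [Preorder Q] [Countable Q]
    {K : Type} [Countable K] (emb : P → W) (hemb : Function.Injective emb)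
    (op : K → List W → W)
    (F : K → List W → List W → RO P) (F' : K → List W → List W → RO (P × Q))
    (A : Set W) (hA : A.Countable) (p₀ : P) :
    ∃ (S : Set W) (p : ℕ → P), A ⊆ S ∧ S.Countable ∧ (∀ n, p (n + 1) ≤ p n) ∧ p 0 = p₀ ∧
      (∀ n, emb (p n) ∈ S) ∧ (∀ k l, Ls S l → op k l ∈ S) ∧
      (∀ k l, Ls S l → ∃ n l', Ls S l' ∧ Met (F k l) (p n) l') ∧
      (∀ k l s, Ls S l → ∃ n, ∃ s' ≤ s, ∃ l', Ls S l' ∧ Met (F' k l) (p n, s') l') ∧
      (∀ k l s n, Ls S l → (∃ l', Met (F' k l) (p n, s) l') → ∃ l', Ls S l' ∧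
        Met (F' k l) (p n, s) l') := by
  -- the closure
  let KK := K ⊕ K ⊕ (K × Q) ⊕ (K × Q)
  let ρ : KK → List W → List W → Prop := fun k l l' => match k with
    | Sum.inl k => l' = [op k l]
    | Sum.inr (Sum.inl k) => ∃ p q l1 l2, l = emb p :: l1 ∧ l' = emb q :: l2 ∧ q ≤ p ∧ Met (F k l1) q l2
    | Sum.inr (Sum.inr (Sum.inl (k, s))) => ∃ p q s' l1 l2, l = emb p :: l1 ∧ l' = emb q :: l2 ∧
        q ≤ p ∧ s' ≤ s ∧ Met (F' k l1) (q, s') l2
    | Sum.inr (Sum.inr (Sum.inr (k, s))) => ∃ p l1, l = emb p :: l1 ∧ Met (F' k l1) (p, s) l'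
  obtain ⟨S, hAS, hSc, hS⟩ := exists_closure ρ (insert (emb p₀) A) (hA.insert _)
  have hcons : ∀ {a : W} {l : List W}, a ∈ S → Ls S l → Ls S (a :: l) := by
    intro a l ha hl x hx
    rcases List.mem_cons.1 hx with rfl | hx
    · exact ha
    · exact hl x hx
  have hhd : ∀ {a : W} {l : List W}, Ls S (a :: l) → a ∈ S ∧ Ls S l := fun h =>
    ⟨h _ List.mem_cons_self, fun x hx => h x (List.mem_cons_of_mem _ hx)⟩
  have hop : ∀ k l, Ls S l → op k l ∈ S := by
    intro k l hl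
    obtain ⟨l', h1, h2⟩ := hS (Sum.inl k) l hl ⟨_, rfl⟩
    have h2' : l' = [op k l] := h2
    rw [h2'] at h1
    exact (hhd h1).1
  have h1 : ∀ (k : K) (l : List W), Ls S l → ∀ p, emb p ∈ S → ∃ q ≤ p, emb q ∈ S ∧ ∃ l', Ls S l' ∧
      Met (F k l) q l' := by
    intro k l hl p hp
    obtain ⟨l', h1, h2⟩ := hS (Sum.inr (Sum.inl k)) (emb p :: l) (hcons hp hl) (by
      obtain ⟨q, hq, l2, h⟩ := exists_met (F k l) p
      exact ⟨emb q :: l2, p, q, l, l2, rfl, rfl, hq, h⟩)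
    obtain ⟨p', q, l1, l2, e1, e2, h3, h4⟩ := h2
    injection e1 with e1 e3
    have e1' := hemb e1
    subst e1' e3
    rw [e2] at h1
    exact ⟨q, h3, (hhd h1).1, l2, (hhd h1).2, h4⟩
  have h2 : ∀ (k : K) (l : List W) (s : Q), Ls S l → ∀ p, emb p ∈ S → ∃ q ≤ p, emb q ∈ S ∧
      ∃ s' ≤ s, ∃ l', Ls S l' ∧ Met (F' k l) (q, s') l' := by
    intro k l s hl p hp
    obtain ⟨l', h1, h2⟩ := hS (Sum.inr (Sum.inr (Sum.inl (k, s)))) (emb p :: l) (hcons hp hl) (by
      obtain ⟨⟨q, s'⟩, hq, l2, h⟩ := exists_met (F' k l) (p, s)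
      exact ⟨emb q :: l2, p, q, s', l, l2, rfl, rfl, hq.1, hq.2, h⟩)
    obtain ⟨p', q, s', l1, l2, e1, e2, h3, h4, h5⟩ := h2
    injection e1 with e1 e3
    have e1' := hemb e1
    subst e1' e3
    rw [e2] at h1
    exact ⟨q, h3, (hhd h1).1, s', h4, l2, (hhd h1).2, h5⟩
  have h3 : ∀ (k : K) (l : List W) (s : Q), Ls S l → ∀ p, emb p ∈ S →
      (∃ l', Met (F' k l) (p, s) l') → ∃ l', Ls S l' ∧ Met (F' k l) (p, s) l' := by
    intro k l s hl p hp ⟨l0, h0⟩
    obtain ⟨l', h1, h2⟩ := hS (Sum.inr (Sum.inr (Sum.inr (k, s)))) (emb p :: l) (hcons hp hl)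
      ⟨l0, p, l, rfl, h0⟩
    obtain ⟨p', l1, e1, h3⟩ := h2
    injection e1 with e1 e3
    have e1' := hemb e1
    subst e1' e3
    exact ⟨l', h1, h3⟩
  -- the tasks
  have hLc : Countable {l : List W // Ls S l} := (ls_countable hSc).to_subtype
  have hne : Nonempty {l : List W // Ls S l} := ⟨⟨[], fun x hx => by simp at hx⟩⟩
  by_cases hK : Nonempty (K ⊕ (K × Q))
  swap
  · refine ⟨S, fun _ => p₀, (Set.subset_insert _ _).trans hAS, hSc, fun _ => le_rfl, rfl,
      fun _ => hAS (Set.mem_insert _ _), hop, ?_, ?_, ?_⟩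
    · intro k
      exact (hK ⟨Sum.inl k⟩).elim
    · intro k
      exact (hK ⟨Sum.inl k⟩).elim
    · intro k
      exact (hK ⟨Sum.inl k⟩).elim
  obtain ⟨en, hen⟩ := exists_surjective_nat ((K ⊕ (K × Q)) × {l : List W // Ls S l})
  let T : (K ⊕ (K × Q)) × {l : List W // Ls S l} → P → Prop := fun t q => match t.1 with
    | Sum.inl k => ∃ l', Ls S l' ∧ Met (F k t.2.1) q l'
    | Sum.inr (k, s) => ∃ s' ≤ s, ∃ l', Ls S l' ∧ Met (F' k t.2.1) (q, s') l'
  have step : ∀ (n : ℕ) (p : {p : P // emb p ∈ S}), ∃ q : {p : P // emb p ∈ S}, q.1 ≤ p.1 ∧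
      T (en n) q.1 := by
    intro n p
    obtain ⟨t, l⟩ := en n
    cases t with
    | inl k =>
      obtain ⟨q, h4, h5, h6⟩ := h1 k l.1 l.2 p.1 p.2
      exact ⟨⟨q, h5⟩, h4, h6⟩
    | inr t =>
      obtain ⟨k, s⟩ := t
      obtain ⟨q, h4, h5, h6⟩ := h2 k l.1 s l.2 p.1 p.2
      exact ⟨⟨q, h5⟩, h4, h6⟩
  choose nx hnx hnx' using step
  let p : ℕ → {p : P // emb p ∈ S} := fun n =>
    Nat.rec ⟨p₀, hAS (Set.mem_insert _ _)⟩ (fun k q => nx k q) n
  have hp : ∀ n, p (n + 1) = nx n (p n) := fun n => rfl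
  refine ⟨S, fun n => (p n).1, (Set.subset_insert _ _).trans hAS, hSc, fun n => ?_, rfl,
    fun n => (p n).2, hop, ?_, ?_, fun k l s n hl => h3 k l s hl _ (p n).2⟩
  · show (p (n + 1)).1 ≤ _
    rw [hp]; exact hnx n (p n)
  · intro k l hl
    obtain ⟨m, hm⟩ := hen (Sum.inl k, ⟨l, hl⟩)
    have := hnx' m (p m)
    rw [hm, ← hp] at this
    obtain ⟨l', h4, h5⟩ := this
    exact ⟨m + 1, l', h4, h5⟩
  · intro k l s hl
    obtain ⟨m, hm⟩ := hen (Sum.inr (k, s), ⟨l, hl⟩)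
    have := hnx' m (p m)
    rw [hm, ← hp] at this
    obtain ⟨s', hs', l', h4, h5⟩ := this
    exact ⟨m + 1, s', hs', l', h4, h5⟩

/-! ### evaluation of names and the truth lemma -/

namespace Nm

variable {P : Type u} [Preorder P]

/-- `x` is listed in the name `τ` -/
def IsSub (x : Nm P) : Nm P → Prop
  | mk _ a _ => ∃ i, a i = x

/-- the value of `x` in the name `τ` -/
noncomputable def sub : Nm P → Nm P → RO P
  | mk ι a v, x => ⨆ i : ι, ⨆ _ : a i = x, v i

theorem isSub_wf : WellFounded (IsSub : Nm P → Nm P → Prop) := by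
  refine ⟨fun x => ?_⟩
  induction x with
  | mk ι a v ih =>
    refine ⟨_, fun y hy => ?_⟩
    obtain ⟨i, rfl⟩ := hy
    exact ih i

theorem isSub_of_sub {τ x : Nm P} {p : P} (h : p ∈ (sub τ x).carrier) : x.IsSub τ := by
  cases τ with
  | mk ι a v =>
    by_contra hc
    have : sub (mk ι a v) x = ⊥ := by
      show (⨆ i : ι, ⨆ _ : a i = x, v i) = ⊥
      rw [iSup_eq_bot]
      intro i
      rw [iSup_eq_bot]
      intro hi
      exact (hc ⟨i, hi⟩).elim
    rw [this] at h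
    exact h

theorem mem_eq_sub (σ τ : Nm P) : mem σ τ = ⨆ x, sub τ x ⊓ eq σ x := by
  cases τ with
  | mk ι a v =>
    refine le_antisymm (iSup_le fun i => ?_) (iSup_le fun x => ?_)
    · refine bEx (a i) (le_inf ?_ inf_le_right)
      refine le_trans inf_le_left ?_
      exact bEx i (bEx rfl le_rfl)
    · refine bElim (bLeft le_rfl : (sub (mk ι a v) x) ⊓ eq σ x ≤ sub (mk ι a v) x) fun i Δ h1 h2 => ?_
      refine bElim h2 fun hi Δ' h3 h4 => ?_
      refine bMemMk i h4 ?_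
      rw [hi]
      exact (h3.trans h1).trans inf_le_right

theorem sub_le_mem (τ x : Nm P) : sub τ x ≤ mem x τ := by
  rw [mem_eq_sub]
  exact bEx x (le_inf le_rfl (bRefl _))

end Nm

open Nm

/-- a countable set of names with a filter that decides and witnesses everything -/
structure Gen {P : Type u} [Preorder P] (S : Set (Nm P)) (U : Set (RO P)) : Prop where
  cnt : S.Countable
  ne : S.Nonempty
  top : ⊤ ∈ U
  bot : ⊥ ∉ U
  up : ∀ a ∈ U, ∀ b, a ≤ b → b ∈ U
  inf : ∀ a ∈ U, ∀ b ∈ U, a ⊓ b ∈ U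
  dec : ∀ (m n : ℕ) (f : Fm (Fin m) n) (e : Fin m → Nm P) (v : Fin n → Nm P), (∀ i, e i ∈ S) →
    (∀ i, v i ∈ S) → vl e f v ∈ U ∨ (vl e f v)ᶜ ∈ U
  wit : ∀ (m n : ℕ) (f : Fm (Fin m) (n + 1)) (e : Fin m → Nm P) (v : Fin n → Nm P),
    (∀ i, e i ∈ S) → (∀ i, v i ∈ S) → (⨆ x, vl e f (Matrix.vecCons x v)) ∈ U →
    ∃ x ∈ S, vl e f (Matrix.vecCons x v) ∈ U
  sub : ∀ σ ∈ S, ∀ τ ∈ S, mem σ τ ∈ U → ∃ x ∈ S, Nm.sub τ x ∈ U ∧ Nm.eq σ x ∈ U

namespace Gen

variable {P : Type u} [Preorder P] {S : Set (Nm P)} {U : Set (RO P)}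

theorem small (hG : Gen S U) (τ : Nm P) : Small.{0} {x : Nm P // x.IsSub τ ∧ x ∈ S ∧ Nm.sub τ x ∈ U} := by
  have : Countable {x : Nm P // x.IsSub τ ∧ x ∈ S ∧ Nm.sub τ x ∈ U} :=
    (hG.cnt.mono (s₁ := {x : Nm P | x.IsSub τ ∧ x ∈ S ∧ Nm.sub τ x ∈ U}) fun x hx => hx.2.1).to_subtype
  infer_instance

/-- the value of a name -/
noncomputable def val (hG : Gen S U) : Nm P → ZFSet.{0} :=
  isSub_wf.fix fun τ F =>
    have := hG.small τ
    ZFSet.range (fun x : {x : Nm P // x.IsSub τ ∧ x ∈ S ∧ Nm.sub τ x ∈ U} => F x.1 x.2.1)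

variable (hG : Gen S U)

theorem mem_val {τ : Nm P} {z : ZFSet.{0}} :
    z ∈ hG.val τ ↔ ∃ x ∈ S, Nm.sub τ x ∈ U ∧ z = hG.val x := by
  have := hG.small τ
  have h : hG.val τ = ZFSet.range (fun x : {x : Nm P // x.IsSub τ ∧ x ∈ S ∧ Nm.sub τ x ∈ U} =>
      hG.val x.1) := by
    unfold val
    rw [WellFounded.fix_eq]
  rw [h, ZFSet.mem_range]
  constructor
  · rintro ⟨⟨x, h1, h2, h3⟩, rfl⟩
    exact ⟨x, h2, h3, rfl⟩
  · rintro ⟨x, h2, h3, rfl⟩
    by_cases h1 : x.IsSub τ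
    · exact ⟨⟨x, h1, h2, h3⟩, rfl⟩
    · exfalso
      have : Nm.sub τ x = ⊥ := by
        by_contra hc
        obtain ⟨p, hp⟩ := RO.ne_bot hc
        exact h1 (isSub_of_sub hp)
      rw [this] at h3
      exact hG.bot h3

include hG in
theorem not_both {b : RO P} (h : b ∈ U) (h' : bᶜ ∈ U) : False := by
  have := hG.inf _ h _ h'
  rw [inf_compl_eq_bot] at this
  exact hG.bot this

include hG in
theorem dec0 {n : ℕ} (f : Fm (Fin 0) n) (v : Fin n → Nm P) (hv : ∀ i, v i ∈ S) :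
    vl (fun i : Fin 0 => i.elim0) f v ∈ U ∨ (vl (fun i : Fin 0 => i.elim0) f v)ᶜ ∈ U :=
  hG.dec 0 n f _ v (fun i => i.elim0) hv

include hG in
theorem dec_mem {x y : Nm P} (hx : x ∈ S) (hy : y ∈ S) : Nm.mem x y ∈ U ∨ (Nm.mem x y)ᶜ ∈ U := by
  have := hG.dec0 (n := 2) (Fm.mem (.inl 0) (.inl 1)) ![x, y] (by
    intro i; fin_cases i <;> assumption)
  simpa using this

include hG in
theorem dec_eq {x y : Nm P} (hx : x ∈ S) (hy : y ∈ S) : Nm.eq x y ∈ U ∨ (Nm.eq x y)ᶜ ∈ U := by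
  have := hG.dec0 (n := 2) (Fm.eq (.inl 0) (.inl 1)) ![x, y] (by
    intro i; fin_cases i <;> assumption)
  simpa using this

theorem eq_iff {σ τ : Nm P} (hσ : σ ∈ S) (hτ : τ ∈ S) :
    Nm.eq σ τ ∈ U ↔ hG.val σ = hG.val τ := by
  induction σ using isSub_wf.induction generalizing τ with
  | _ σ ih =>
    have ih' : ∀ x ∈ S, Nm.sub σ x ∈ U → ∀ y ∈ S, (Nm.eq x y ∈ U ↔ hG.val x = hG.val y) := by
      intro x hx hsx y hy
      refine ih x ?_ hx hy
      by_contra h1
      have : Nm.sub σ x = ⊥ := by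
        by_contra hc
        obtain ⟨p, hp⟩ := RO.ne_bot hc
        exact h1 (isSub_of_sub hp)
      rw [this] at hsx
      exact hG.bot hsx
    constructor
    · intro h
      ext z
      rw [hG.mem_val, hG.mem_val]
      constructor
      · rintro ⟨x, hx, hsx, rfl⟩
        have h1 : Nm.mem x τ ∈ U := hG.up _ (hG.inf _ h _ hsx) _
          (bMemR inf_le_left (inf_le_right.trans (sub_le_mem σ x)))
        obtain ⟨y, hy, hsy, hxy⟩ := hG.sub x hx τ hτ h1
        exact ⟨y, hy, hsy, (ih' x hx hsx y hy).1 hxy⟩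
      · rintro ⟨y, hy, hsy, rfl⟩
        have h1 : Nm.mem y σ ∈ U := hG.up _ (hG.inf _ h _ hsy) _
          (bMemR (bSymm inf_le_left) (inf_le_right.trans (sub_le_mem τ y)))
        obtain ⟨x, hx, hsx, hxy⟩ := hG.sub y hy σ hσ h1
        rw [Nm.eq_symm] at hxy
        exact ⟨x, hx, hsx, ((ih' x hx hsx y hy).1 hxy).symm⟩
    · intro h
      by_contra hne
      have h1 := (hG.dec_eq hσ hτ).resolve_left hne
      rw [eq_eq_iInf, compl_iInf] at h1
      obtain ⟨x, hx, hx'⟩ := hG.wit 0 2 (((Fm.mem (.inl 0) (.inl 1)).iff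
        (.mem (.inl 0) (.inl 2))).neg) (fun i => i.elim0) ![σ, τ] (fun i => i.elim0) (by
          intro i; fin_cases i <;> assumption) (by simpa using h1)
      have hx'' : (iffV (Nm.mem x σ) (Nm.mem x τ))ᶜ ∈ U := by simpa using hx'
      by_cases ha : Nm.mem x σ ∈ U
      · obtain ⟨x', hx1, hx2, hx3⟩ := hG.sub x hx σ hσ ha
        have hz : hG.val x' ∈ hG.val τ := by
          rw [← h]
          exact hG.mem_val.2 ⟨x', hx1, hx2, rfl⟩
        obtain ⟨y, hy, hy2, hy3⟩ := hG.mem_val.1 hz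
        have h2 := (ih' x' hx1 hx2 y hy).2 hy3
        have h3 : Nm.mem x τ ∈ U := hG.up _ (hG.inf _ (hG.inf _ hx3 _ h2) _ hy2) _
          (bMemL (bSymm (bTrans (bLeft (bLeft le_rfl)) (bRight (bLeft le_rfl))))
            (inf_le_right.trans (sub_le_mem τ y)))
        refine hG.not_both (hG.up _ (hG.inf _ ha _ h3) _ ?_) hx''
        exact bIff (fun Δ h4 _ => bRight h4) (fun Δ h4 _ => bLeft h4)
      · by_cases hb : Nm.mem x τ ∈ U
        · obtain ⟨y, hy1, hy2, hy3⟩ := hG.sub x hx τ hτ hb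
          have hz : hG.val y ∈ hG.val σ := by
            rw [h]
            exact hG.mem_val.2 ⟨y, hy1, hy2, rfl⟩
          obtain ⟨x', hx1, hx2, hx3⟩ := hG.mem_val.1 hz
          have h2 := (ih' x' hx1 hx2 y hy1).2 hx3.symm
          refine ha (hG.up _ (hG.inf _ (hG.inf _ hy3 _ h2) _ hx2) _ ?_)
          exact bMemL (bSymm (bTrans (bLeft (bLeft le_rfl)) (bSymm (bRight (bLeft le_rfl)))))
            (inf_le_right.trans (sub_le_mem σ x'))
        · have ha' := (hG.dec_mem hx hσ).resolve_left ha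
          have hb' := (hG.dec_mem hx hτ).resolve_left hb
          refine hG.not_both (hG.up _ (hG.inf _ ha' _ hb') _ ?_) hx''
          exact bIff (fun Δ h4 h5 => (bAbs (bLeft h4) h5).trans bot_le)
            (fun Δ h4 h5 => (bAbs (bRight h4) h5).trans bot_le)

theorem mem_iff {σ τ : Nm P} (hσ : σ ∈ S) (hτ : τ ∈ S) :
    Nm.mem σ τ ∈ U ↔ hG.val σ ∈ hG.val τ := by
  constructor
  · intro h
    obtain ⟨x, h1, h2, h3⟩ := hG.sub σ hσ τ hτ h
    rw [(hG.eq_iff hσ h1).1 h3]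
    exact hG.mem_val.2 ⟨x, h1, h2, rfl⟩
  · intro h
    obtain ⟨x, h1, h2, h3⟩ := hG.mem_val.1 h
    refine hG.up _ (hG.inf _ ((hG.eq_iff hσ h1).2 h3) _ h2) _ ?_
    exact bMemL (bSymm inf_le_left) (inf_le_right.trans (sub_le_mem τ x))

/-- the model -/
noncomputable def M : ZFSet.{0} :=
  have : Small.{0} S := have := hG.cnt.to_subtype; inferInstance
  ZFSet.range (fun x : S => hG.val x.1)

theorem mem_M {z : ZFSet.{0}} : z ∈ hG.M ↔ ∃ x ∈ S, z = hG.val x := by
  have : Small.{0} S := have := hG.cnt.to_subtype; inferInstance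
  unfold M
  rw [ZFSet.mem_range]
  constructor
  · rintro ⟨⟨x, hx⟩, rfl⟩
    exact ⟨x, hx, rfl⟩
  · rintro ⟨x, hx, rfl⟩
    exact ⟨⟨x, hx⟩, rfl⟩

theorem M_transitive : hG.M.IsTransitive := by
  intro y hy z hz
  obtain ⟨x, _, rfl⟩ := hG.mem_M.1 hy
  obtain ⟨w, hw, _, rfl⟩ := hG.mem_val.1 hz
  exact hG.mem_M.2 ⟨w, hw, rfl⟩

theorem M_countable : {z | z ∈ hG.M}.Countable := by
  refine (hG.cnt.image hG.val).mono fun z hz => ?_
  obtain ⟨x, hx, rfl⟩ := hG.mem_M.1 hz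
  exact ⟨x, hx, rfl⟩

/-- a name of an element of the model -/
noncomputable def rep (x : {x : ZFSet.{0} // x ∈ hG.M}) : Nm P := (hG.mem_M.1 x.2).choose

theorem rep_mem (x : {x : ZFSet.{0} // x ∈ hG.M}) : hG.rep x ∈ S := (hG.mem_M.1 x.2).choose_spec.1

theorem val_rep (x : {x : ZFSet.{0} // x ∈ hG.M}) : hG.val (hG.rep x) = x.1 :=
  (hG.mem_M.1 x.2).choose_spec.2.symm

/-- the element of the model with a given name -/
noncomputable def el (x : Nm P) (hx : x ∈ S) : {x : ZFSet.{0} // x ∈ hG.M} :=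
  ⟨hG.val x, hG.mem_M.2 ⟨x, hx, rfl⟩⟩

theorem los_fin : ∀ {m n : ℕ} (f : Fm (Fin m) n) (e : Fin m → {x : ZFSet.{0} // x ∈ hG.M})
    (v : Fin n → {x : ZFSet.{0} // x ∈ hG.M}),
    f.Sat (Mem hG.M) e v ↔ vl (fun i => hG.rep (e i)) f (fun i => hG.rep (v i)) ∈ U := by
  intro m n f e v
  have hterm : ∀ (n : ℕ) (v : Fin n → {x : ZFSet.{0} // x ∈ hG.M}) (s : Fin n ⊕ Fin m),
      Sum.elim (fun i => hG.rep (v i)) (fun i => hG.rep (e i)) s = hG.rep (Sum.elim v e s) := by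
    intro n v s
    cases s <;> rfl
  induction f with
  | mem s t =>
    rw [sat_mem, vl_mem, hterm, hterm, hG.mem_iff (hG.rep_mem _) (hG.rep_mem _), val_rep, val_rep]
    rfl
  | eq s t =>
    rw [sat_eq, vl_eq, hterm, hterm, hG.eq_iff (hG.rep_mem _) (hG.rep_mem _), val_rep, val_rep]
    exact ⟨fun h => by rw [h], fun h => Subtype.ext h⟩
  | fls => simp [hG.bot]
  | imp f g hf hg =>
    rw [sat_imp, vl_imp]
    constructor
    · intro h
      rcases hG.dec _ _ f _ _ (fun i => hG.rep_mem (e i)) (fun i => hG.rep_mem (v i)) with h1 | h1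
      · exact hG.up _ ((hg v).1 (h ((hf v).2 h1))) _ (by rw [himp_eq]; exact le_sup_left)
      · exact hG.up _ h1 _ (by rw [himp_eq]; exact le_sup_right)
    · intro h h1
      exact (hg v).2 (hG.up _ (hG.inf _ h _ ((hf v).1 h1)) _ himp_inf_le)
  | @all n f hf =>
    rw [sat_all, vl_all]
    constructor
    · intro h
      by_contra hc
      have h1 := (hG.dec _ _ (Fm.all f) _ _ (fun i => hG.rep_mem (e i))
        (fun i => hG.rep_mem (v i))).resolve_left (by rw [vl_all]; exact hc)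
      rw [vl_all, compl_iInf] at h1
      have h1' : (⨆ x, vl (fun i => hG.rep (e i)) f.neg
          (Matrix.vecCons x (fun i => hG.rep (v i)))) ∈ U := by simpa using h1
      obtain ⟨x, hx, h2⟩ := hG.wit _ _ f.neg _ _ (fun i => hG.rep_mem (e i))
        (fun i => hG.rep_mem (v i)) h1'
      rw [vl_neg] at h2
      have h6 := (hf (Matrix.vecCons (hG.el x hx) v)).1 (h (hG.el x hx))
      have h7 : Nm.eq (hG.rep (hG.el x hx)) x ∈ U :=
        (hG.eq_iff (hG.rep_mem _) hx).2 (hG.val_rep _)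
      have h8 := hG.up _ (hG.inf _ h6 _ h7) _ (vl_congr f (e := fun i => hG.rep (e i))
        (e' := fun i => hG.rep (e i))
        (v := fun i => hG.rep (Matrix.vecCons (hG.el x hx) v i))
        (v' := Matrix.vecCons x (fun i => hG.rep (v i)))
        (fun c => Nm.bRefl _) (fun i => by
          refine Fin.cases ?_ (fun i => ?_) i
          · exact inf_le_right
          · exact Nm.bRefl _) inf_le_left)
      exact hG.not_both h8 h2
    · intro h x
      refine (hf _).2 (hG.up _ h _ ((iInf_le _ (hG.rep x)).trans (le_of_eq ?_)))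
      congr 1
      funext i
      refine Fin.cases ?_ (fun i => ?_) i <;> rfl

end Gen

theorem fm_fin {κ : Type w} {n : ℕ} (f : Fm κ n) : ∃ (m : ℕ) (f₀ : Fm (Fin m) n) (p : Fin m → κ),
    f = f₀.map p := by
  have hterm : ∀ {n : ℕ} (s : Fin n ⊕ κ), ∃ (m : ℕ) (s₀ : Fin n ⊕ Fin m) (p : Fin m → κ),
      s = Sum.map id p s₀ := by
    intro n s
    cases s with
    | inl i => exact ⟨0, Sum.inl i, fun j => j.elim0, rfl⟩
    | inr c => exact ⟨1, Sum.inr 0, fun _ => c, rfl⟩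
  induction f with
  | mem s t =>
    obtain ⟨m, s₀, p, rfl⟩ := hterm s
    obtain ⟨m', t₀, p', rfl⟩ := hterm t
    refine ⟨m + m', Fm.mem (Sum.map id (Fin.castAdd m') s₀) (Sum.map id (Fin.natAdd m) t₀),
      Fin.append p p', ?_⟩
    show _ = Fm.mem _ _
    congr 1
    · cases s₀ <;> simp
    · cases t₀ <;> simp
  | eq s t =>
    obtain ⟨m, s₀, p, rfl⟩ := hterm s
    obtain ⟨m', t₀, p', rfl⟩ := hterm t
    refine ⟨m + m', Fm.eq (Sum.map id (Fin.castAdd m') s₀) (Sum.map id (Fin.natAdd m) t₀),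
      Fin.append p p', ?_⟩
    show _ = Fm.eq _ _
    congr 1
    · cases s₀ <;> simp
    · cases t₀ <;> simp
  | fls => exact ⟨0, Fm.fls, fun j => j.elim0, rfl⟩
  | imp f g hf hg =>
    obtain ⟨m, f₀, p, rfl⟩ := hf
    obtain ⟨m', g₀, p', rfl⟩ := hg
    refine ⟨m + m', Fm.imp (f₀.map (Fin.castAdd m')) (g₀.map (Fin.natAdd m)), Fin.append p p', ?_⟩
    have hmm : ∀ {κ₁ κ₂ : Type} {n : ℕ} (f : Fm κ₁ n) (r : κ₁ → κ₂) (r' : κ₂ → κ),
        (f.map r).map r' = f.map (r' ∘ r) := by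
      intro κ₁ κ₂ n f r r'
      induction f with
      | mem s t => cases s <;> cases t <;> rfl
      | eq s t => cases s <;> cases t <;> rfl
      | fls => rfl
      | imp f g hf hg => simp only [Fm.map, hf, hg]
      | all f hf => simp only [Fm.map, hf]
    show _ = Fm.imp _ _
    rw [hmm, hmm]
    congr 2
    · funext i; simp
    · funext i; simp
  | all f hf =>
    obtain ⟨m, f₀, p, rfl⟩ := hf
    exact ⟨m, Fm.all f₀, p, rfl⟩

theorem sat_map {κ : Type w} {κ' : Type v} {M : Type u} (E : M → M → Prop) (r : κ → κ')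
    (e : κ' → M) {n : ℕ} (f : Fm κ n) (v) : (f.map r).Sat E e v ↔ f.Sat E (e ∘ r) v := by
  induction f with
  | mem s t => cases s <;> cases t <;> rfl
  | eq s t => cases s <;> cases t <;> rfl
  | fls => rfl
  | imp f g hf hg => simp only [Fm.map, sat_imp, hf, hg]
  | all f hf => simp only [Fm.map, sat_all, hf]

namespace Gen

variable {P : Type u} [Preorder P] {S : Set (Nm P)} {U : Set (RO P)} (hG : Gen S U)

theorem los {κ : Type w} {n : ℕ} (f : Fm κ n) (e : κ → {x : ZFSet.{0} // x ∈ hG.M})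
    (v : Fin n → {x : ZFSet.{0} // x ∈ hG.M}) :
    f.Sat (Mem hG.M) e v ↔ vl (fun i => hG.rep (e i)) f (fun i => hG.rep (v i)) ∈ U := by
  obtain ⟨m, f₀, p, rfl⟩ := fm_fin f
  rw [sat_map, vl_map]
  exact hG.los_fin f₀ (e ∘ p) v

/-- the truth lemma for given names -/
theorem los' {κ : Type w} {n : ℕ} (f : Fm κ n) (e : κ → Nm P) (he : ∀ c, e c ∈ S)
    (v : Fin n → Nm P) (hv : ∀ i, v i ∈ S) :
    f.Sat (Mem hG.M) (fun c => hG.el (e c) (he c)) (fun i => hG.el (v i) (hv i)) ↔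
      vl e f v ∈ U := by
  rw [hG.los]
  have h1 : ∀ c, Nm.eq (hG.rep (hG.el (e c) (he c))) (e c) ∈ U := fun c =>
    (hG.eq_iff (hG.rep_mem _) (he c)).2 (hG.val_rep _)
  have h2 : ∀ i, Nm.eq (hG.rep (hG.el (v i) (hv i))) (v i) ∈ U := fun i =>
    (hG.eq_iff (hG.rep_mem _) (hv i)).2 (hG.val_rep _)
  obtain ⟨m, f₀, p, rfl⟩ := fm_fin f
  rw [vl_map, vl_map]
  -- finitely many equalities hold together
  have hfin : ∀ {k : ℕ} (b : Fin k → RO P), (∀ i, b i ∈ U) → ∃ c ∈ U, ∀ i, c ≤ b i := by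
    intro k
    induction k with
    | zero => intro b _; exact ⟨⊤, hG.top, fun i => i.elim0⟩
    | succ k ih =>
      intro b hb
      obtain ⟨c, hc, hc'⟩ := ih (fun i => b i.succ) fun i => hb _
      refine ⟨c ⊓ b 0, hG.inf _ hc _ (hb 0), fun i => ?_⟩
      refine Fin.cases inf_le_right (fun j => inf_le_left.trans (hc' j)) i
  obtain ⟨c1, hc1, hc1'⟩ := hfin (fun i => Nm.eq (hG.rep (hG.el (e (p i)) (he (p i)))) (e (p i)))
    fun i => h1 (p i)
  obtain ⟨c2, hc2, hc2'⟩ := hfin (fun i => Nm.eq (hG.rep (hG.el (v i) (hv i))) (v i)) h2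
  constructor
  · intro h
    refine hG.up _ (hG.inf _ (hG.inf _ hc1 _ hc2) _ h) _ (vl_congr f₀ (fun c => ?_) (fun i => ?_)
      inf_le_right)
    · exact (inf_le_left.trans inf_le_left).trans (hc1' c)
    · exact (inf_le_left.trans inf_le_right).trans (hc2' i)
  · intro h
    refine hG.up _ (hG.inf _ (hG.inf _ hc1 _ hc2) _ h) _ (vl_congr f₀ (fun c => ?_) (fun i => ?_)
      inf_le_right)
    · exact bSymm ((inf_le_left.trans inf_le_left).trans (hc1' c))
    · exact bSymm ((inf_le_left.trans inf_le_right).trans (hc2' i))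

theorem sat_of_top {n : ℕ} {κ : Type w} (f : Fm κ n) (e : κ → {x : ZFSet.{0} // x ∈ hG.M})
    (v : Fin n → {x : ZFSet.{0} // x ∈ hG.M})
    (h : vl (fun i => hG.rep (e i)) f (fun i => hG.rep (v i)) = ⊤) : f.Sat (Mem hG.M) e v := by
  rw [los, h]
  exact hG.top

end Gen

end Pool.Agent.Helper23.CK
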