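import Pool.Agent.Helper23.CK.NK

set_option autoImplicit false
set_option linter.unreachableTactic false
set_option linter.unusedTactic false

/-!
# A Kurepa family yields a Kurepa tree
-/

universe u v w

namespace Pool.Agent.Helper23.CK

open WT (Fm ZF ZM D1 F1 DF IsFun App IsOmega IsInductive IsFn opair upair prod pow exists_sep
  app_iff isFun_iff opair_inj opair_mem_prod mem_prod mem_pow)

section
variable {M : ZFSet.{0}} [TM M]

/-- the intersection -/
noncomputable def inter (a b : Mo M) : Mo M := WT.mkS (fun z => ZM.E z a ∧ ZM.E z b)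

theorem mem_inter {a b z : Mo M} : ZM.E z (inter a b) ↔ ZM.E z a ∧ ZM.E z b := by
  refine WT.mem_mkS ?_ z
  exact exists_sep (P := fun z : Mo M => ZM.E z b) (by open WT in (repeat' first
      | with_reducible apply Dfn.hh
      | with_reducible apply DF.ap
      | with_reducible apply Dfn.isFn | with_reducible apply DF.prod
      | with_reducible apply DF.pow | with_reducible apply DF.opair
      | with_reducible apply DF.upair | with_reducible assumption
      | with_reducible exact DF.var _ | with_reducible exact DF.const _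
      | with_reducible exact Dfn.const _ | with_reducible apply DF.the
      | with_reducible apply DF.mkS | with_reducible apply Dfn.mem
      | with_reducible apply Dfn.eq | with_reducible apply Dfn.and
      | with_reducible apply Dfn.or | with_reducible apply Dfn.iff
      | with_reducible apply Dfn.imp | with_reducible apply Dfn.not
      | with_reducible apply Dfn.exu | with_reducible apply Dfn.ex
      | with_reducible apply Dfn.all)) a

theorem _root_.Pool.Agent.Helper23.WT.DF.inter {n : ℕ} {s t : (Fin n → Mo M) → Mo M}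
    (hs : DF s) (ht : DF t) : DF (fun v => inter (s v) (t v)) :=
  WT.DF.comp2 (F := fun x y => CK.inter x y) (by unfold CK.inter; open WT in (repeat' first
      | with_reducible apply Dfn.hh
      | with_reducible apply DF.ap
      | with_reducible apply Dfn.isFn | with_reducible apply DF.prod
      | with_reducible apply DF.pow | with_reducible apply DF.opair
      | with_reducible apply DF.upair | with_reducible assumption
      | with_reducible exact DF.var _ | with_reducible exact DF.const _
      | with_reducible exact Dfn.const _ | with_reducible apply DF.the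
      | with_reducible apply DF.mkS | with_reducible apply Dfn.mem
      | with_reducible apply Dfn.eq | with_reducible apply Dfn.and
      | with_reducible apply Dfn.or | with_reducible apply Dfn.iff
      | with_reducible apply Dfn.imp | with_reducible apply Dfn.not
      | with_reducible apply Dfn.exu | with_reducible apply Dfn.ex
      | with_reducible apply Dfn.all)) hs ht

theorem inter_inter {x a b : Mo M} (h : ∀ z, ZM.E z a → ZM.E z b) :
    inter (inter x b) a = inter x a :=
  ext_val fun z => by
    rw [mem_inter, mem_inter, mem_inter]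
    exact ⟨fun h1 => ⟨h1.1.1, h1.2⟩, fun h1 => ⟨⟨h1.1, h z h1.2⟩, h1.2⟩⟩

/-- `f` is an injection of `A` into `w` -/
def InjS (f A w : Mo M) : Prop :=
  (∀ x, ZM.E x A → ∃ n, ZM.E n w ∧ ZM.E (opair x n) f) ∧
    ∀ x, ZM.E x A → ∀ x', ZM.E x' A → ∀ n, ZM.E (opair x n) f → ZM.E (opair x' n) f → x = x'

theorem KH_of_family {om W 𝔄 : Mo M} (hom : IsOm om.1) (hW : IsOmega1 ZM.E W)
    (k1 : ∀ a, ZM.E a 𝔄 → ∀ z, ZM.E z a → ZM.E z W)
    (k2 : ∀ γ, ZM.E γ W → ∃ c, FunS c ∧ ∀ a, ZM.E a 𝔄 → ∃ n, ZM.E n om ∧ ∃ x, ZM.E (opair n x) c ∧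
      ∀ z, ZM.E z γ → (ZM.E z x ↔ ZM.E z a))
    (k3 : ∀ F, ¬ InjS F 𝔄 W) (k4 : ∀ x, ZM.E x W → ∃ y, ZM.E y W ∧ ZM.E x y) :
    KH (ZM.E : Mo M → Mo M → Prop) := by
  have hWo := isOrdinal_iff.1 hW.1
  have htr : ∀ {x y : Mo M}, ZM.E x y → ZM.E y W → ZM.E x W := fun h1 h2 =>
    hWo.isTransitive.mem_trans h1 h2
  have htr' : ∀ {x y z : Mo M}, ZM.E z W → ZM.E x y → ZM.E y z → ZM.E x z := fun h0 h1 h2 =>
    (hWo.mem h0).isTransitive.mem_trans h1 h2
  -- the nodes
  obtain ⟨T, hT⟩ := exists_sep (P := fun p : Mo M => ∃ γ a, ZM.E γ W ∧ ZM.E a 𝔄 ∧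
    p = opair γ (inter a γ)) (by open WT in (repeat' first
      | with_reducible apply Dfn.hh | with_reducible apply DF.inter
      | with_reducible apply DF.ap
      | with_reducible apply Dfn.isFn | with_reducible apply DF.prod
      | with_reducible apply DF.pow | with_reducible apply DF.opair
      | with_reducible apply DF.upair | with_reducible assumption
      | with_reducible exact DF.var _ | with_reducible exact DF.const _
      | with_reducible exact Dfn.const _ | with_reducible apply DF.the
      | with_reducible apply DF.mkS | with_reducible apply Dfn.mem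
      | with_reducible apply Dfn.eq | with_reducible apply Dfn.and
      | with_reducible apply Dfn.or | with_reducible apply Dfn.iff
      | with_reducible apply Dfn.imp | with_reducible apply Dfn.not
      | with_reducible apply Dfn.exu | with_reducible apply Dfn.ex
      | with_reducible apply Dfn.all)) (prod W (pow W))
  have hT' : ∀ p, ZM.E p T ↔ ∃ γ a, ZM.E γ W ∧ ZM.E a 𝔄 ∧ p = opair γ (inter a γ) := by
    intro p
    rw [hT]
    refine ⟨fun h => h.2, fun h => ⟨?_, h⟩⟩
    obtain ⟨γ, a, h1, h2, rfl⟩ := h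
    refine opair_mem_prod.2 ⟨h1, mem_pow.2 fun z hz => ?_⟩
    exact k1 a h2 z (mem_inter.1 hz).1
  have hTi : ∀ γ a, ZM.E γ W → ZM.E a 𝔄 → ZM.E (opair γ (inter a γ)) T := fun γ a h1 h2 =>
    (hT' _).2 ⟨γ, a, h1, h2, rfl⟩
  have hTd : ∀ γ x, ZM.E (opair γ x) T → ZM.E γ W ∧ ∃ a, ZM.E a 𝔄 ∧ x = inter a γ := by
    intro γ x h
    obtain ⟨γ', a, h1, h2, e⟩ := (hT' _).1 h
    obtain ⟨rfl, rfl⟩ := opair_inj.1 e
    exact ⟨h1, a, h2, rfl⟩
  have hTs : ∀ γ x γ', ZM.E (opair γ x) T → ZM.E γ' γ → ZM.E (opair γ' (inter x γ')) T := by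
    intro γ x γ' h h'
    obtain ⟨h1, a, h2, rfl⟩ := hTd _ _ h
    rw [inter_inter fun z hz => htr' h1 hz h']
    exact hTi _ _ (htr h' h1) h2
  -- the order
  obtain ⟨R, hR⟩ := exists_sep (P := fun p : Mo M => ∃ γ x γ' x', p = opair (opair γ x) (opair γ' x') ∧
    ZM.E γ γ' ∧ x = inter x' γ) (by open WT in (repeat' first
      | with_reducible apply Dfn.hh | with_reducible apply DF.inter
      | with_reducible apply DF.ap
      | with_reducible apply Dfn.isFn | with_reducible apply DF.prod
      | with_reducible apply DF.pow | with_reducible apply DF.opair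
      | with_reducible apply DF.upair | with_reducible assumption
      | with_reducible exact DF.var _ | with_reducible exact DF.const _
      | with_reducible exact Dfn.const _ | with_reducible apply DF.the
      | with_reducible apply DF.mkS | with_reducible apply Dfn.mem
      | with_reducible apply Dfn.eq | with_reducible apply Dfn.and
      | with_reducible apply Dfn.or | with_reducible apply Dfn.iff
      | with_reducible apply Dfn.imp | with_reducible apply Dfn.not
      | with_reducible apply Dfn.exu | with_reducible apply Dfn.ex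
      | with_reducible apply Dfn.all)) (prod T T)
  have hR' : ∀ γ x γ' x', ZM.E (opair (opair γ x) (opair γ' x')) R ↔
      (ZM.E (opair γ x) T ∧ ZM.E (opair γ' x') T) ∧ ZM.E γ γ' ∧ x = inter x' γ := by
    intro γ x γ' x'
    rw [hR, opair_mem_prod]
    refine and_congr_right fun _ => ⟨?_, fun h => ⟨γ, x, γ', x', rfl, h⟩⟩
    rintro ⟨a, b, c, d, e, h⟩
    obtain ⟨e1, e2⟩ := opair_inj.1 e
    obtain ⟨rfl, rfl⟩ := opair_inj.1 e1
    obtain ⟨rfl, rfl⟩ := opair_inj.1 e2
    exact h
  have hTree : IsTree ZM.E T R := by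
    refine ⟨fun t ht h => ?_, fun r s t hr hs ht h1 h2 => ?_, fun t ht B hB hB' => ?_⟩
    · obtain ⟨γ, a, h1, h2, rfl⟩ := (hT' t).1 ht
      rw [app_iff, hR'] at h
      exact irreflE h.2.1
    · obtain ⟨γ₁, a₁, _, _, rfl⟩ := (hT' r).1 hr
      obtain ⟨γ₂, a₂, _, _, rfl⟩ := (hT' s).1 hs
      obtain ⟨γ₃, a₃, h3, _, rfl⟩ := (hT' t).1 ht
      rw [app_iff, hR'] at h1 h2 ⊢
      refine ⟨⟨hr, ht⟩, htr' h3 h1.2.1 h2.2.1, ?_⟩
      rw [h1.2.2, h2.2.2, inter_inter fun z hz => htr' (htr h2.2.1 h3) hz h1.2.1]
    · obtain ⟨γ, a, h1, h2, rfl⟩ := (hT' t).1 ht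
      have hB'' : ∀ s, ZM.E s B → ∃ γ', ZM.E γ' γ ∧ s = opair γ' (inter (inter a γ) γ') := by
        intro s hs
        obtain ⟨h3, h4⟩ := hB' s hs
        obtain ⟨γ', a', _, _, rfl⟩ := (hT' s).1 h3
        rw [app_iff, hR'] at h4
        exact ⟨γ', h4.2.1, by rw [← h4.2.2]⟩
      obtain ⟨m, ⟨x, hx⟩, hm⟩ := exists_min (P := fun m => ∃ x, ZM.E (opair m x) B) (by
        obtain ⟨s, hs⟩ := hB
        obtain ⟨γ', _, rfl⟩ := hB'' s hs
        exact ⟨γ', _, hs⟩)
      obtain ⟨m', hm1, e⟩ := hB'' _ hx
      obtain ⟨rfl, rfl⟩ := opair_inj.1 e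
      refine ⟨_, hx, fun y hy => ?_⟩
      obtain ⟨γ', hγ', rfl⟩ := hB'' y hy
      rcases ((hWo.mem h1).mem hγ').mem_trichotomous ((hWo.mem h1).mem hm1) with h5 | h5 | h5
      · exact (hm γ' h5 ⟨_, hy⟩).elim
      · left
        have : γ' = m := Subtype.ext h5
        rw [this]
      · right
        rw [app_iff, hR']
        refine ⟨⟨(hB' _ hx).1, (hB' _ hy).1⟩, h5, ?_⟩
        rw [inter_inter (x := inter a γ) fun z hz => htr' (htr hγ' h1) hz h5]
  -- the heights
  have hH : ∀ γ x, ZM.E (opair γ x) T → HasHeight ZM.E T R (opair γ x) γ := by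
    intro γ x hx
    have hγ := (hTd _ _ hx).1
    have hF : F1 (fun γ' : Mo M => opair γ' (inter x γ')) := by open WT in (repeat' first
      | with_reducible apply Dfn.hh | with_reducible apply DF.inter
      | with_reducible apply DF.ap
      | with_reducible apply Dfn.isFn | with_reducible apply DF.prod
      | with_reducible apply DF.pow | with_reducible apply DF.opair
      | with_reducible apply DF.upair | with_reducible assumption
      | with_reducible exact DF.var _ | with_reducible exact DF.const _
      | with_reducible exact Dfn.const _ | with_reducible apply DF.the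
      | with_reducible apply DF.mkS | with_reducible apply Dfn.mem
      | with_reducible apply Dfn.eq | with_reducible apply Dfn.and
      | with_reducible apply Dfn.or | with_reducible apply Dfn.iff
      | with_reducible apply Dfn.imp | with_reducible apply Dfn.not
      | with_reducible apply Dfn.exu | with_reducible apply Dfn.ex
      | with_reducible apply Dfn.all)
    have hv : ∀ γ', ZM.E γ' γ → ZM.E (opair γ' (inter x γ')) T := fun γ' h => hTs γ x γ' hx h
    have hm : ∀ b s, ZM.E (opair b s) (WT.lam γ fun γ' => opair γ' (inter x γ')) ↔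
        ZM.E b γ ∧ s = opair b (inter x b) := by
      intro b s
      rw [WT.mem_lam hF hv]
      constructor
      · rintro ⟨b', hb', e⟩
        obtain ⟨rfl, rfl⟩ := opair_inj.1 e
        exact ⟨hb', rfl⟩
      · rintro ⟨hb, rfl⟩
        exact ⟨b, hb, rfl⟩
    refine hasHeight_iff.2 ⟨isOrdinal_iff.2 (hWo.mem hγ), _, WT.lam_isFn hF hv, fun b s h => ?_,
      fun s hs h => ?_, fun b b' s s' h h' => ?_⟩
    · obtain ⟨hb, rfl⟩ := (hm _ _).1 h
      exact (hR' _ _ _ _).2 ⟨⟨hv b hb, hx⟩, hb, rfl⟩
    · obtain ⟨γ', a', _, _, rfl⟩ := (hT' s).1 hs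
      rw [hR'] at h
      exact ⟨γ', (hm _ _).2 ⟨h.2.1, by rw [← h.2.2]⟩⟩
    · obtain ⟨hb, rfl⟩ := (hm _ _).1 h
      obtain ⟨hb', rfl⟩ := (hm _ _).1 h'
      rw [hR']
      refine ⟨fun h1 => ⟨⟨hv b hb, hv b' hb'⟩, h1, ?_⟩, fun h1 => h1.2.1⟩
      rw [inter_inter fun z hz => htr' (htr hb' hγ) hz h1]
  -- the family is not empty
  obtain ⟨a₀, ha₀⟩ : ∃ a, ZM.E a 𝔄 := by
    by_contra hc
    push Not at hc
    exact k3 om ⟨fun x hx => (hc x hx).elim, fun x hx => (hc x hx).elim⟩
  -- the set of the branches
  obtain ⟨B, hB⟩ := exists_sep (P := fun b : Mo M => (∀ x, ZM.E x b → ZM.E x T) ∧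
    (∀ x y, ZM.E x b → ZM.E y b → x = y ∨ ZM.E (opair x y) R ∨ ZM.E (opair y x) R) ∧
    ∀ a, ZM.E a W → ∃ t, ZM.E t b ∧ HasHeight ZM.E T R t a) (by open WT in (repeat' first
      | with_reducible apply Dfn.hh | with_reducible apply DF.inter
      | with_reducible apply DF.ap
      | with_reducible apply Dfn.isFn | with_reducible apply DF.prod
      | with_reducible apply DF.pow | with_reducible apply DF.opair
      | with_reducible apply DF.upair | with_reducible assumption
      | with_reducible exact DF.var _ | with_reducible exact DF.const _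
      | with_reducible exact Dfn.const _ | with_reducible apply DF.the
      | with_reducible apply DF.mkS | with_reducible apply Dfn.mem
      | with_reducible apply Dfn.eq | with_reducible apply Dfn.and
      | with_reducible apply Dfn.or | with_reducible apply Dfn.iff
      | with_reducible apply Dfn.imp | with_reducible apply Dfn.not
      | with_reducible apply Dfn.exu | with_reducible apply Dfn.ex
      | with_reducible apply Dfn.all)) (pow T)
  have hB' : ∀ b, ZM.E b B ↔ IsCofinalBranch ZM.E T R W b := by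
    intro b
    rw [hB, mem_pow]
    unfold IsCofinalBranch
    simp only [app_iff]
    exact ⟨fun h => h.2, fun h => ⟨h.1, h⟩⟩
  refine ⟨T, R, W, B, hW, ⟨hTree, fun t ht => ?_, fun γ hγ => ?_⟩, hB', fun hcard => ?_⟩
  · obtain ⟨γ, a, h1, h2, rfl⟩ := (hT' t).1 ht
    exact ⟨γ, h1, hH _ _ ht⟩
  · obtain ⟨L, hL⟩ := exists_sep (P := fun t : Mo M => HasHeight ZM.E T R t γ)
      (by open WT in (repeat' first
      | with_reducible apply Dfn.hh | with_reducible apply DF.inter
      | with_reducible apply DF.ap
      | with_reducible apply Dfn.isFn | with_reducible apply DF.prod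
      | with_reducible apply DF.pow | with_reducible apply DF.opair
      | with_reducible apply DF.upair | with_reducible assumption
      | with_reducible exact DF.var _ | with_reducible exact DF.const _
      | with_reducible exact Dfn.const _ | with_reducible apply DF.the
      | with_reducible apply DF.mkS | with_reducible apply Dfn.mem
      | with_reducible apply Dfn.eq | with_reducible apply Dfn.and
      | with_reducible apply Dfn.or | with_reducible apply Dfn.iff
      | with_reducible apply Dfn.imp | with_reducible apply Dfn.not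
      | with_reducible apply Dfn.exu | with_reducible apply Dfn.ex
      | with_reducible apply Dfn.all)) T
    refine ⟨L, hL, ⟨_, (hL _).2 ⟨hTi γ a₀ hγ ha₀, hH _ _ (hTi γ a₀ hγ ha₀)⟩⟩, ?_⟩
    rw [isCountable_iff hom]
    obtain ⟨c, hc1, hc2⟩ := k2 γ hγ
    obtain ⟨c', hc'⟩ := exists_sep (P := fun p : Mo M => ∃ n x, p = opair n (opair γ (inter x γ)) ∧
      ZM.E (opair n x) c) (by open WT in (repeat' first
      | with_reducible apply Dfn.hh | with_reducible apply DF.inter
      | with_reducible apply DF.ap
      | with_reducible apply Dfn.isFn | with_reducible apply DF.prod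
      | with_reducible apply DF.pow | with_reducible apply DF.opair
      | with_reducible apply DF.upair | with_reducible assumption
      | with_reducible exact DF.var _ | with_reducible exact DF.const _
      | with_reducible exact Dfn.const _ | with_reducible apply DF.the
      | with_reducible apply DF.mkS | with_reducible apply Dfn.mem
      | with_reducible apply Dfn.eq | with_reducible apply Dfn.and
      | with_reducible apply Dfn.or | with_reducible apply Dfn.iff
      | with_reducible apply Dfn.imp | with_reducible apply Dfn.not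
      | with_reducible apply Dfn.exu | with_reducible apply Dfn.ex
      | with_reducible apply Dfn.all)) (prod om L)
    have hc'' : ∀ n s, ZM.E (opair n s) c' ↔ (ZM.E n om ∧ ZM.E s L) ∧ ∃ x,
        s = opair γ (inter x γ) ∧ ZM.E (opair n x) c := by
      intro n s
      rw [hc', opair_mem_prod]
      refine and_congr_right fun _ => ⟨?_, ?_⟩
      · rintro ⟨n', x, e, h⟩
        obtain ⟨rfl, rfl⟩ := opair_inj.1 e
        exact ⟨x, rfl, h⟩
      · rintro ⟨x, rfl, h⟩
        exact ⟨n, x, rfl, h⟩
    refine cardLe_of_list (c := c') hom.ord (fun s hs => ?_) (fun n s s' h1 h2 => ?_)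
    · obtain ⟨hsT, hsγ⟩ := (hL s).1 hs
      obtain ⟨γ', a, h1, h2, rfl⟩ := (hT' s).1 hsT
      have e := height_unique (hH _ _ hsT) hsγ
      subst e
      obtain ⟨n, hn, x, hx, hxa⟩ := hc2 a h2
      refine ⟨n, hn, (hc'' _ _).2 ⟨⟨hn, hs⟩, x, ?_, hx⟩⟩
      congr 1
      refine ext_val fun z => ?_
      rw [mem_inter, mem_inter]
      exact ⟨fun h => ⟨(hxa z h.2).2 h.1, h.2⟩, fun h => ⟨(hxa z h.2).1 h.1, h.2⟩⟩
    · obtain ⟨_, x, rfl, h3⟩ := (hc'' _ _).1 h1
      obtain ⟨_, x', rfl, h4⟩ := (hc'' _ _).1 h2
      rw [hc1 _ _ _ h3 h4]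
  · obtain ⟨f, hf1, hf2⟩ := CardLe.inj hcard
    -- the branch of a member of the family
    have hbr : ∀ a, ZM.E a 𝔄 → ∃ b, ZM.E b B ∧ ∀ z, ZM.E z b ↔ ∃ γ, ZM.E γ W ∧
        z = opair γ (inter a γ) := by
      intro a ha
      obtain ⟨b, hb⟩ := exists_sep (P := fun z : Mo M => ∃ γ, ZM.E γ W ∧
        z = opair γ (inter a γ)) (by open WT in (repeat' first
      | with_reducible apply Dfn.hh | with_reducible apply DF.inter
      | with_reducible apply DF.ap
      | with_reducible apply Dfn.isFn | with_reducible apply DF.prod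
      | with_reducible apply DF.pow | with_reducible apply DF.opair
      | with_reducible apply DF.upair | with_reducible assumption
      | with_reducible exact DF.var _ | with_reducible exact DF.const _
      | with_reducible exact Dfn.const _ | with_reducible apply DF.the
      | with_reducible apply DF.mkS | with_reducible apply Dfn.mem
      | with_reducible apply Dfn.eq | with_reducible apply Dfn.and
      | with_reducible apply Dfn.or | with_reducible apply Dfn.iff
      | with_reducible apply Dfn.imp | with_reducible apply Dfn.not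
      | with_reducible apply Dfn.exu | with_reducible apply Dfn.ex
      | with_reducible apply Dfn.all)) T
      have hb' : ∀ z, ZM.E z b ↔ ∃ γ, ZM.E γ W ∧ z = opair γ (inter a γ) := by
        intro z
        rw [hb]
        refine ⟨fun h => h.2, fun h => ⟨?_, h⟩⟩
        obtain ⟨γ, hγ, rfl⟩ := h
        exact hTi γ a hγ ha
      refine ⟨b, (hB' b).2 ⟨fun z hz => ((hb z).1 hz).1, fun x y hx hy => ?_, fun γ hγ => ?_⟩, hb'⟩
      · obtain ⟨γ, hγ, rfl⟩ := (hb' x).1 hx
        obtain ⟨γ', hγ', rfl⟩ := (hb' y).1 hy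
        rw [app_iff, app_iff, hR', hR']
        rcases (hWo.mem hγ).mem_trichotomous (hWo.mem hγ') with h5 | h5 | h5
        · right; left
          refine ⟨⟨hTi _ _ hγ ha, hTi _ _ hγ' ha⟩, h5, ?_⟩
          rw [inter_inter fun z hz => htr' hγ' hz h5]
        · left
          have : γ = γ' := Subtype.ext h5
          rw [this]
        · right; right
          refine ⟨⟨hTi _ _ hγ' ha, hTi _ _ hγ ha⟩, h5, ?_⟩
          rw [inter_inter fun z hz => htr' hγ hz h5]
      · exact ⟨_, (hb' _).2 ⟨γ, hγ, rfl⟩, hH _ _ (hTi _ _ hγ ha)⟩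
    obtain ⟨F, hF⟩ := exists_sep (P := fun p : Mo M => ∃ a n b, p = opair a n ∧
      (∀ z, ZM.E z b ↔ ∃ γ, ZM.E γ W ∧ z = opair γ (inter a γ)) ∧ ZM.E (opair b n) f ∧ ZM.E b B)
      (by open WT in (repeat' first
      | with_reducible apply Dfn.hh | with_reducible apply DF.inter
      | with_reducible apply DF.ap
      | with_reducible apply Dfn.isFn | with_reducible apply DF.prod
      | with_reducible apply DF.pow | with_reducible apply DF.opair
      | with_reducible apply DF.upair | with_reducible assumption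
      | with_reducible exact DF.var _ | with_reducible exact DF.const _
      | with_reducible exact Dfn.const _ | with_reducible apply DF.the
      | with_reducible apply DF.mkS | with_reducible apply Dfn.mem
      | with_reducible apply Dfn.eq | with_reducible apply Dfn.and
      | with_reducible apply Dfn.or | with_reducible apply Dfn.iff
      | with_reducible apply Dfn.imp | with_reducible apply Dfn.not
      | with_reducible apply Dfn.exu | with_reducible apply Dfn.ex
      | with_reducible apply Dfn.all)) (prod 𝔄 W)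
    have hF' : ∀ a n, ZM.E (opair a n) F ↔ (ZM.E a 𝔄 ∧ ZM.E n W) ∧ ∃ b,
        (∀ z, ZM.E z b ↔ ∃ γ, ZM.E γ W ∧ z = opair γ (inter a γ)) ∧ ZM.E (opair b n) f ∧
        ZM.E b B := by
      intro a n
      rw [hF, opair_mem_prod]
      refine and_congr_right fun _ => ⟨?_, ?_⟩
      · rintro ⟨a', n', b, e, h⟩
        obtain ⟨rfl, rfl⟩ := opair_inj.1 e
        exact ⟨b, h⟩
      · rintro ⟨b, h⟩
        exact ⟨a, n, b, rfl, h⟩
    refine k3 F ⟨fun a ha => ?_, fun a ha a' ha' n h1 h2 => ?_⟩
    · obtain ⟨b, hb, hb'⟩ := hbr a ha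
      obtain ⟨n, hn, hn'⟩ := hf1 b hb
      exact ⟨n, hn, (hF' _ _).2 ⟨⟨ha, hn⟩, b, hb', hn', hb⟩⟩
    · obtain ⟨_, b, b1, b2, b3⟩ := (hF' _ _).1 h1
      obtain ⟨_, b', b1', b2', b3'⟩ := (hF' _ _).1 h2
      have e := hf2 b b3 b' b3' n b2 b2'
      subst e
      have key : ∀ a a' : Mo M, ZM.E a 𝔄 → (∀ z, ZM.E z b ↔ ∃ γ, ZM.E γ W ∧ z = opair γ (inter a γ)) →
          (∀ z, ZM.E z b ↔ ∃ γ, ZM.E γ W ∧ z = opair γ (inter a' γ)) → ∀ z, ZM.E z a → ZM.E z a' := by
        intro a a' ha c1 c2 z hz
        obtain ⟨y, hy, hzy⟩ := k4 z (k1 a ha z hz)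
        obtain ⟨y', _, e⟩ := (c2 _).1 ((c1 (opair y (inter a y))).2 ⟨y, hy, rfl⟩)
        obtain ⟨rfl, e⟩ := opair_inj.1 e
        have h3 : ZM.E z (inter a y) := mem_inter.2 ⟨hz, hzy⟩
        rw [e] at h3
        exact (mem_inter.1 h3).1
      exact ext_val fun z => ⟨key a a' ha b1 b1' z, key a' a ha' b1' b1 z⟩

end

end Pool.Agent.Helper23.CK
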