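import Pool.Agent.Helper23.CK.Cd

set_option autoImplicit false

/-!
# Limits of decreasing sequences of conditions
-/

namespace Pool.Agent.Helper23.CK

open WT (iffV bElim bOr bMP bImp bNot bAbs bAll bEx bIff bIff_mp bIff_mpr bLeft bRight bCases bContra eq_of_forall iffV_self iffV_eq_top)
open scoped Ordinal

namespace Cd

theorem ext' {p q : Cd} (h1 : p.ht = q.ht) (h2 : p.I = q.I) (h3 : p.E = q.E) (h4 : p.f = q.f)
    (h5 : p.g = q.g) : p = q := by
  cases p; cases q
  simp only at h1 h2 h3 h4 h5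
  subst h1 h2 h3 h4 h5
  rfl

section
variable (q : ℕ → Cd)

open Classical in
/-- the limit of the lists -/
noncomputable def limE (L : ℕ → O → B) (δ : O) (m : ℕ) (β : O) : B :=
  if h : ∃ n, δ ≤ (q n).ht then (q h.choose).E δ m β
  else if δ = ⨆ n, (q n).ht then L m β else ⊥

open Classical in
/-- the limit of the functions -/
noncomputable def limf (i β : O) : B :=
  if h : ∃ n, i ∈ (q n).I ∧ β < (q n).ht then (q h.choose).f i β else ⊥

open Classical in
/-- the limit of the functions -/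
noncomputable def limg (i β : O) : O :=
  if h : ∃ n, i ∈ (q n).I ∧ β < (q n).ht then (q h.choose).g i β else 0

variable {q} (hq : ∀ n, q (n + 1) ≤ q n)

include hq

theorem seq_anti {n m : ℕ} (h : n ≤ m) : q m ≤ q n := antitone_nat_of_succ_le hq h

theorem limE_eq (L : ℕ → O → B) {δ : O} {n : ℕ} (h : δ ≤ (q n).ht) (m : ℕ) (β : O) :
    limE q L δ m β = (q n).E δ m β := by
  have h' : ∃ n, δ ≤ (q n).ht := ⟨n, h⟩
  unfold limE
  rw [dif_pos h']
  rcases le_total n h'.choose with h1 | h1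
  · exact (seq_anti hq h1).2.2.1 δ h m β
  · exact ((seq_anti hq h1).2.2.1 δ h'.choose_spec m β).symm

theorem limf_eq {i β : O} {n : ℕ} (h : i ∈ (q n).I) (hβ : β < (q n).ht) :
    limf q i β = (q n).f i β := by
  have h' : ∃ n, i ∈ (q n).I ∧ β < (q n).ht := ⟨n, h, hβ⟩
  unfold limf
  rw [dif_pos h']
  rcases le_total n h'.choose with h1 | h1
  · exact ((seq_anti hq h1).2.2.2 i h β hβ).1
  · exact (((seq_anti hq h1).2.2.2 i h'.choose_spec.1 β h'.choose_spec.2).1).symm

theorem limg_eq {i β : O} {n : ℕ} (h : i ∈ (q n).I) (hβ : β < (q n).ht) :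
    limg q i β = (q n).g i β := by
  have h' : ∃ n, i ∈ (q n).I ∧ β < (q n).ht := ⟨n, h, hβ⟩
  unfold limg
  rw [dif_pos h']
  rcases le_total n h'.choose with h1 | h1
  · exact ((seq_anti hq h1).2.2.2 i h β hβ).2
  · exact (((seq_anti hq h1).2.2.2 i h'.choose_spec.1 β h'.choose_spec.2).2).symm

omit hq in
theorem limf_not {i β : O} (h : ∀ n, i ∈ (q n).I → (q n).ht ≤ β) : limf q i β = ⊥ := by
  unfold limf
  rw [dif_neg]
  rintro ⟨n, h1, h2⟩
  exact absurd h2 (not_lt.2 (h n h1))

omit hq in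
theorem limg_not {i β : O} (h : ∀ n, i ∈ (q n).I → (q n).ht ≤ β) : limg q i β = 0 := by
  unfold limg
  rw [dif_neg]
  rintro ⟨n, h1, h2⟩
  exact absurd h2 (not_lt.2 (h n h1))

omit hq in
theorem le_lam (n : ℕ) : (q n).ht ≤ ⨆ n, (q n).ht := le_ciSup (Ordinal.bddAbove_range _) n

/-- the limit -/
noncomputable def lim (L : ℕ → O → B) (hL0 : ∀ m β, (∀ n, (q n).ht ≤ β) → L m β = ⊥)
    (hL : (∀ n, (q n).ht < ⨆ n, (q n).ht) → ∀ i ∈ ⋃ n, (q n).I,
      ⨆ m, eqv (⨆ n, (q n).ht) (limf q i) (L m) = ⊤) : Cd where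
  ht := ⨆ n, (q n).ht
  ht_lt := Ordinal.iSup_lt_omega_one fun n => (q n).ht_lt
  I := ⋃ n, (q n).I
  cnt := Set.countable_iUnion fun n => (q n).cnt
  E := limE q L
  E_supp δ m β h := by
    by_cases h' : ∃ n, δ ≤ (q n).ht
    · obtain ⟨n, hn⟩ := h'
      rw [limE_eq hq L hn]
      refine (q n).E_supp δ m β (Or.inr ?_)
      rcases h with h | h
      · exact absurd (hn.trans (le_lam n)) (not_le.2 h)
      · exact h
    · unfold limE
      rw [dif_neg h']
      split_ifs with h1
      · push Not at h'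
        refine hL0 m β fun n => (h' n).le.trans ?_
        rcases h with h | h
        · exact absurd h1 (ne_of_gt h)
        · exact h
      · rfl
  f := limf q
  f_supp i β h := by
    refine limf_not fun n hn => ?_
    rcases h with h | h
    · exact absurd (Set.mem_iUnion.2 ⟨n, hn⟩) h
    · exact (le_lam n).trans h
  g := limg q
  g_supp i β h := by
    refine limg_not fun n hn => ?_
    rcases h with h | h
    · exact absurd (Set.mem_iUnion.2 ⟨n, hn⟩) h
    · exact (le_lam n).trans h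
  g_le i β := by
    unfold limg
    split_ifs with h
    · exact (q _).g_le i β
    · exact zero_le
  cov i hi γ hγ := by
    by_cases h : ∃ n, γ ≤ (q n).ht
    · obtain ⟨n, hn⟩ := h
      obtain ⟨k, hk⟩ := Set.mem_iUnion.1 hi
      have h1 : i ∈ (q (max n k)).I := (seq_anti hq (le_max_right n k)).2.1 hk
      have h2 : γ ≤ (q (max n k)).ht := hn.trans (seq_anti hq (le_max_left n k)).1
      rw [← (q (max n k)).cov i h1 γ h2]
      unfold lst
      refine iSup_congr fun δ => iSup_congr fun hδ => iSup_congr fun m => ?_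
      unfold eqv
      refine iInf_congr fun β => iInf_congr fun hβ => ?_
      rw [limf_eq hq h1 (hβ.trans_le h2), limE_eq hq L (hδ.trans h2)]
    · push Not at h
      have hγ' : γ = ⨆ n, (q n).ht := le_antisymm hγ (Ordinal.iSup_le fun n => (h n).le)
      subst hγ'
      have h1 := hL h i hi
      rw [eq_top_iff, ← h1]
      refine iSup_le fun m => ?_
      refine le_trans (le_of_eq ?_) (eqv_le_lst _ le_rfl m _)
      congr 1
      funext β
      unfold limE
      rw [dif_neg (by push Not; exact h), if_pos rfl]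

theorem lim_le (L : ℕ → O → B) (hL0 : ∀ m β, (∀ n, (q n).ht ≤ β) → L m β = ⊥)
    (hL : (∀ n, (q n).ht < ⨆ n, (q n).ht) → ∀ i ∈ ⋃ n, (q n).I,
      ⨆ m, eqv (⨆ n, (q n).ht) (limf q i) (L m) = ⊤) (n : ℕ) : lim hq L hL0 hL ≤ q n :=
  ⟨le_lam n, Set.subset_iUnion (fun n => (q n).I) n, fun _ hδ m β => limE_eq hq L hδ m β,
    fun _ hi _ hβ => ⟨limf_eq hq hi hβ, limg_eq hq hi hβ⟩⟩

theorem exists_lim : ∃ r : Cd, (∀ n, r ≤ q n) ∧ r.I = ⋃ n, (q n).I := by
  by_cases hne : (⋃ n, (q n).I).Nonempty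
  · obtain ⟨e, he⟩ := (Set.countable_iUnion fun n => (q n).cnt).exists_eq_range hne
    refine ⟨lim hq (fun m => limf q (e m)) (fun m β h => limf_not fun n _ => h n) ?_,
      fun n => lim_le hq _ _ _ n, rfl⟩
    intro _ i hi
    rw [he] at hi
    obtain ⟨m, rfl⟩ := hi
    rw [eq_top_iff]
    refine bEx m ?_
    rw [eqv_refl]
  · rw [Set.not_nonempty_iff_eq_empty] at hne
    refine ⟨lim hq (fun _ _ => ⊥) (fun _ _ _ => rfl) ?_, fun n => lim_le hq _ _ _ n, rfl⟩
    intro _ i hi
    rw [hne] at hi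
    exact hi.elim

end

end Cd

theorem Sim.res_eq {δ : O} {r : B} {u v : Cd} (h : Sim δ r u v) :
    Cd.res δ u = Cd.res δ v := by
  classical
  refine Cd.ext' h.ht (by show u.I ∩ _ = v.I ∩ _; rw [h.I]) h.E ?_ ?_
  · funext i β
    show (if i < δ then u.f i β else ⊥) = (if i < δ then v.f i β else ⊥)
    split_ifs with hi
    · exact h.f i β hi
    · rfl
  · funext i β
    show (if i < δ then u.g i β else 0) = (if i < δ then v.g i β else 0)
    split_ifs with hi
    · exact h.g i β hi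
    · rfl

end Pool.Agent.Helper23.CK
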