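import Pool.Agent.Helper23.CK.Fo

set_option autoImplicit false

/-!
# Every tree has at most `ω₁` branches
-/

universe u v w

namespace Pool.Agent.Helper23.CK

open WT (iffV bElim bOr bMP bImp bNot bAbs bAll bEx bIff bIff_mp bIff_mpr bLeft bRight bCases bContra eq_of_forall iffV_self iffV_eq_top)
open WT (Fm ZF ZM)
open Nm
open Cd
open scoped Ordinal

section
variable {P : Type u} [Preorder P]

/-- `L` describes a tree -/
noncomputable def TreeB (L : Nm P) : RO P :=
  ⨅ x, ⨅ y, ⨅ n, ⨅ n', ⨅ m, Nm.mem (opair (opair x n) (opair y m)) L ⇨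
    (Nm.mem (opair (opair x n') (opair y m)) L ⇨ Nm.eq n n')

/-- `b` describes a branch -/
noncomputable def BrB (b L w o : Nm P) : RO P :=
  (⨅ x, Nm.mem x w ⇨ ⨆ n, Nm.mem n o ⊓ Nm.mem (opair x n) b) ⊓ (FunB b ⊓
    ((⨅ x, ⨅ y, ⨅ n, ⨅ m, Nm.mem x y ⇨ (Nm.mem (opair x n) b ⇨ (Nm.mem (opair y m) b ⇨
      Nm.mem (opair (opair x n) (opair y m)) L))) ⊓
    ⨅ z, Nm.mem z b ⇨ ⨆ x, Nm.mem x w ⊓ ⨆ n, Nm.mem n o ⊓ Nm.eq z (opair x n)))

theorem funB_eq {c x y z : Nm P} {Γ : RO P} (h : Γ ≤ FunB c) (h1 : Γ ≤ Nm.mem (opair x y) c)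
    (h2 : Γ ≤ Nm.mem (opair x z) c) : Γ ≤ Nm.eq y z :=
  bMP (bMP (bAll (bAll (bAll h x) y) z) h1) h2

end

theorem exists_enum {C : Type*} [Small.{0} C] : ∃ (θ : O) (c : O → C ⊕ Unit), ∀ x : C, ∃ η < θ,
    c η = Sum.inl x := by
  classical
  let D := Shrink.{0} C
  let idx : D → O := fun x => Ordinal.typein (WellOrderingRel : D → D → Prop) x
  have hinj : Function.Injective idx := Ordinal.typein_injective _
  refine ⟨Ordinal.type (WellOrderingRel : D → D → Prop), fun η => if h : ∃ x, idx x = η then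
    Sum.inl ((equivShrink C).symm h.choose) else Sum.inr (), fun x => ⟨idx (equivShrink C x),
    Ordinal.typein_lt_type _ _, ?_⟩⟩
  have h : ∃ y, idx y = idx (equivShrink C x) := ⟨_, rfl⟩
  show (if h : ∃ y, idx y = idx (equivShrink C x) then Sum.inl ((equivShrink C).symm h.choose)
    else Sum.inr ()) = Sum.inl x
  rw [dif_pos h, hinj h.choose_spec, Equiv.symm_apply_apply]

section
variable {δ : O}

/-- the name of a branch that is given by conditions below `δ` -/
noncomputable def cdot (c : Set.Iio (ω₁ : O) → ℕ → {p : Cd // p.I ⊆ Set.Iio δ} → Prop) : Nm Cd :=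
  mk (Set.Iio (ω₁ : O) × ULift.{1} ℕ) (fun t => opair (ordn t.1.1) (nat t.2.down))
    (fun t => RO.hull {p | ∃ e, c t.1 t.2.down e ∧ p ≤ e.1} fun _ _ h h' => by
      obtain ⟨e, h1, h2⟩ := h'
      exact ⟨e, h1, h.trans h2⟩)

/-- truth value of: the value of the collapsing function with the index `θ` at `ξ` is `η` -/
def Gbool (θ ξ η : O) : RO Cd :=
  RO.hull {p | θ ∈ p.I ∧ ξ < p.ht ∧ p.g θ ξ = η} fun _ _ h h' =>
    ⟨h.2.1 h'.1, h'.2.1.trans_le h.1, by rw [(h.2.2.2 θ h'.1 ξ h'.2.1).2]; exact h'.2.2⟩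

theorem Gbool_inj {θ ξ η η' : O} (h : η ≠ η') {Γ : RO Cd} (h1 : Γ ≤ Gbool θ ξ η)
    (h2 : Γ ≤ Gbool θ ξ η') : Γ ≤ ⊥ := by
  intro p hp
  obtain ⟨q, hq, a1, a2, a3⟩ := h1 hp p le_rfl
  obtain ⟨r, hr, b1, b2, b3⟩ := h2 (Γ.lower hq hp) q le_rfl
  exfalso
  have h3 := (hr.2.2.2 θ a1 ξ a2).2
  exact h (by rw [← a3, ← h3, b3])

theorem no_new_branches (L : Nm Cd) {Γ : RO Cd} (hL : Γ ≤ TreeB L) :
    Γ ≤ ⨆ F, FunB F ⊓ ⨅ b, BrB b L (ordn ω₁) omg ⇨
      ⨆ ξ, Nm.mem ξ (ordn ω₁) ⊓ Nm.mem (opair ξ b) F := by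
  -- the closure ordinal
  obtain ⟨δ, _, hδ⟩ := exists_delta (X := Set.Iio (ω₁ : O) × ℕ × Set.Iio (ω₁ : O) × ℕ)
    (fun t p => p ∈ (Nm.mem (opair (opair (ordn t.1.1) (nat t.2.1))
      (opair (ordn t.2.2.1.1) (nat t.2.2.2))) L).carrier ∨
      p ∈ ((Nm.mem (opair (opair (ordn t.1.1) (nat t.2.1))
      (opair (ordn t.2.2.1.1) (nat t.2.2.2))) L)ᶜ).carrier) (fun t p => RO.decide _ p) 0
  obtain ⟨θ, c, hc⟩ := exists_enum
    (C := Set.Iio (ω₁ : O) → ℕ → {p : Cd // p.I ⊆ Set.Iio δ} → Prop)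
  let cn' : O → Nm Cd := fun η => Sum.elim cdot (fun _ => emp) (c η)
  refine bEx (mk (Set.Iio (ω₁ : O) × Set.Iio θ) (fun t => opair (ordn t.1.1) (cn' t.2.1))
    (fun t => Gbool θ t.1.1 t.2.1)) (le_inf ?_ ?_)
  · refine funB_pairs (a := fun t : Set.Iio (ω₁ : O) × Set.Iio θ => (ordn t.1.1 : Nm Cd))
      (b := fun t => cn' t.2.1) fun i j Δ h1 h2 h3 => ?_
    by_cases hij : i.1.1 = j.1.1
    · by_cases hij' : i.2.1 = j.2.1
      · rw [hij']; exact bRefl _
      · rw [← hij] at h2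
        exact (Gbool_inj hij' h1 h2).trans bot_le
    · exact (eq_ordn hij h3).trans bot_le
  refine le_iInf fun b => bImp fun Δ hΔ hb => ?_
  by_contra hne
  obtain ⟨p0, hp0, hp0'⟩ : ∃ p0 ∈ Δ.carrier, p0 ∉ (⨆ ξ, Nm.mem ξ (ordn ω₁) ⊓
      Nm.mem (opair ξ b) (mk (Set.Iio (ω₁ : O) × Set.Iio θ) (fun t => opair (ordn t.1.1) (cn' t.2.1))
    (fun t => Gbool θ t.1.1 t.2.1))).carrier := by
    by_contra hcon
    push Not at hcon
    exact hne fun p hp => hcon p hp
  obtain ⟨p1, hp1, hp1'⟩ := RO.not_mem_iff.1 hp0'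
  have hΔ1 : ∀ p ≤ p1, cn p ≤ Δ := fun p hp => cn_le.2 (Δ.lower (hp.trans hp1) hp0)
  have hbr : ∀ p ≤ p1, cn p ≤ BrB b L (ordn ω₁) omg := fun p hp => (hΔ1 p hp).trans hb
  have htr : ∀ p ≤ p1, cn p ≤ TreeB L := fun p hp => ((hΔ1 p hp).trans hΔ).trans hL
  have bex : ∀ p ≤ p1, ∀ γ < ω₁, ∃ q ≤ p, ∃ n : ℕ,
      q ∈ (Nm.mem (opair (ordn γ) (nat n)) b).carrier := by
    intro p hp γ hγ
    have h1 : cn p ≤ ⨆ n : ℕ, Nm.mem (opair (ordn γ) (nat n)) b := by
      refine bElim (bMP (bAll (bLeft (hbr p hp)) (ordn γ)) (ordn_mem_ordn hγ)) fun n Δ _ h3 => ?_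
      have h4 := bLeft h3
      rw [mem_omg] at h4
      refine bElim h4 fun k Δ' h5 h6 => ?_
      exact bEx k (bMemL (bOpairCongr (bRefl _) h6) (bRight (h5.trans h3)))
    exact mem_iSup_ex (cn_le.1 h1)
  have bun : ∀ p ≤ p1, ∀ γ, ∀ n m : ℕ, p ∈ (Nm.mem (opair (ordn γ) (nat n)) b).carrier →
      p ∈ (Nm.mem (opair (ordn γ) (nat m)) b).carrier → n = m := by
    intro p hp γ n m h1 h2
    by_contra hnm
    have := eq_nat_nat hnm (funB_eq (bLeft (bRight (hbr p hp))) (cn_le.2 h1) (cn_le.2 h2))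
    exact cn_le.1 this
  have H : Hyp δ p1 (fun p γ n => p ∈ (Nm.mem (opair (ordn γ) (nat n)) b).carrier)
      (fun p β n η m => p ∈ (Nm.mem (opair (opair (ordn β) (nat n))
        (opair (ordn η) (nat m))) L).carrier) := by
    refine ⟨fun p q γ n hq h => RO.lower _ hq h, bex, bun, fun p q β n η m hq h => RO.lower _ hq h,
      ?_, ?_, ?_, ?_⟩
    · intro p hp β n η m hβη hη h1 h2
      exact cn_le.1 (bMP (bMP (bMP (bAll (bAll (bAll (bAll (bLeft (bRight (bRight (hbr p hp))))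
        (ordn β)) (ordn η)) (nat n)) (nat m)) (ordn_mem_ordn hβη)) (cn_le.2 h1)) (cn_le.2 h2))
    · intro p hp β n n' η m _ _ h1 h2
      by_contra hnm
      have := eq_nat_nat hnm (bMP (bMP (bAll (bAll (bAll (bAll (bAll (htr p hp) (ordn β)) (ordn η))
        (nat n)) (nat n')) (nat m)) (cn_le.2 h1)) (cn_le.2 h2))
      exact cn_le.1 this
    · intro e he β hβ η hη n m
      obtain ⟨e', h1, h2, h3⟩ := hδ (⟨β, hβ⟩, n, ⟨η, hη⟩, m) e he
      refine ⟨e', h1, h2, h3.imp id fun h3 => ?_⟩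
      exact RO.mem_compl.1 h3
    · intro q hq
      by_contra hspl
      -- the name of the branch
      let c0 : Set.Iio (ω₁ : O) → ℕ → {p : Cd // p.I ⊆ Set.Iio δ} → Prop := fun γ n e =>
        ∃ u ≤ q, res δ u = e.1 ∧ u ∈ (Nm.mem (opair (ordn γ.1) (nat n)) b).carrier
      have hmem : ∀ (β : Set.Iio (ω₁ : O)) (k : ℕ), Nm.mem (opair (ordn β.1) (nat k)) (cdot c0) =
          RO.hull {p | ∃ e, c0 β k e ∧ p ≤ e.1} fun _ _ h h' => by
            obtain ⟨e, h1, h2⟩ := h'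
            exact ⟨e, h1, h.trans h2⟩ := by
        intro β k
        refine le_antisymm ?_ ?_
        · unfold cdot
          rw [mem_pairs (a := fun t : Set.Iio (ω₁ : O) × ULift.{1} ℕ => (ordn t.1.1 : Nm Cd))
            (b := fun t => nat t.2.down)]
          refine iSup_le fun t => ?_
          by_cases h1 : β.1 = t.1.1
          · by_cases h2 : k = t.2.down
            · have h1' : β = t.1 := Subtype.ext h1
              rw [h1', h2]
              exact inf_le_left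
            · exact (eq_nat_nat h2 (inf_le_right.trans inf_le_right)).trans bot_le
          · exact (eq_ordn h1 (inf_le_right.trans inf_le_left)).trans bot_le
        · unfold cdot
          refine bPairs (a := fun t : Set.Iio (ω₁ : O) × ULift.{1} ℕ => (ordn t.1.1 : Nm Cd))
            (b := fun t => nat t.2.down) (β, ⟨k⟩) ?_ (bRefl _) (bRefl _)
          exact le_rfl
      have heq : cn q ≤ Nm.eq b (cdot c0) := by
        refine bExt (fun x Δ₁ h1 h2 => ?_) (fun x Δ₁ h1 h2 => ?_)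
        · have h3 := bMP (bAll (bRight (bRight (bRight (h1.trans (hbr q hq))))) x) h2
          refine bElim h3 fun x' Δ₂ h4 h5 => ?_
          have h6 := bLeft h5
          rw [mem_ordn] at h6
          refine bElim h6 fun β Δ₃ h7 h8 => ?_
          refine bElim (bRight (h7.trans h5)) fun n' Δ₄ h9 h10 => ?_
          have h11 := bLeft h10
          rw [mem_omg] at h11
          refine bElim h11 fun k Δ₅ h12 h13 => ?_
          have h14 : Δ₅ ≤ Nm.eq x (opair (ordn β.1) (nat k)) :=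
            bTrans (bRight (h12.trans h10)) (bOpairCongr ((h12.trans h9).trans h8) h13)
          have h15 : Δ₅ ≤ Δ₁ := ((h12.trans h9).trans h7).trans h4
          have h16 : Δ₅ ≤ Nm.mem (opair (ordn β.1) (nat k)) b := bMemL h14 (h15.trans h2)
          refine bMemL (bSymm h14) ?_
          rw [hmem]
          intro q1 hq1 r hr
          obtain ⟨t, ht, ht'⟩ := (h15.trans h1) hq1 r hr
          have ht' : t ≤ q := ht'
          exact ⟨t, ht, ⟨res δ t, res_I δ t⟩, ⟨t, ht', rfl, RO.lower _ (ht.trans hr) (h16 hq1)⟩,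
            le_res δ t⟩
        · have h3 := h2
          unfold cdot at h3
          rw [mem_mk] at h3
          refine bElim h3 fun t Δ₂ h4 h5 => ?_
          refine bMemL (bSymm (bRight h5)) ?_
          intro q1 hq1
          refine (RO.regular _ _).2 fun r hr => ?_
          obtain ⟨t1, ht1, e, ⟨u, hu, hue, hub⟩, ht1e⟩ := (bLeft h5) hq1 r hr
          obtain ⟨t2, ht2, ht2'⟩ := (h4.trans h1) hq1 t1 (ht1.trans hr)
          have ht2' : t2 ≤ q := ht2'
          obtain ⟨q2, hq2, m, hm⟩ := bex t2 (ht2'.trans hq) t.1.1 t.1.2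
          refine ⟨q2, (hq2.trans ht2).trans ht1, ?_⟩
          by_cases hkm : t.2.down = m
          · rw [hkm]; exact hm
          · exfalso
            have hle : res δ q2 ≤ res δ u := by
              have h6 : q2 ≤ res δ u := by rw [hue]; exact (hq2.trans ht2).trans ht1e
              exact (res_mono δ h6).trans (res_le_of_base (res_I δ u))
            have ha1 := amal_le_left (res_I δ q2) hle
            let J : Set O := (amal δ u (res δ q2) (res_I δ q2) hle).I ∪ q2.I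
            have hJ : J.Countable := (amal δ u (res δ q2) (res_I δ q2) hle).cnt.union q2.cnt
            refine hspl ⟨(amal δ u (res δ q2) (res_I δ q2) hle).addI J hJ Set.subset_union_left,
              q2.addI J hJ Set.subset_union_right, t.1.1, t.2.down, m,
              ((addI_le _ _ _ _).trans ha1).trans hu, (addI_le _ _ _ _).trans (hq2.trans ht2'),
              ?_, t.1.2, ?_, ?_, hkm⟩
            · refine ⟨rfl, rfl, rfl, fun i β hi => ?_, fun i β hi => ?_, fun i β => ?_⟩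
              · show (if i < δ then (if i < δ then q2.f i β else ⊥) else u.f i β) = q2.f i β
                rw [if_pos hi, if_pos hi]
              · show (if i < δ then (if i < δ then q2.g i β else 0) else u.g i β) = q2.g i β
                rw [if_pos hi, if_pos hi]
              · rw [compl_top]
                exact EqOn.bot _ _
            · exact RO.lower _ ((addI_le _ _ _ _).trans ha1) hub
            · exact RO.lower _ (addI_le _ _ _ _) hm
      obtain ⟨η, hη, hcη⟩ := hc c0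
      obtain ⟨q', hq', ξ, hξ, hθ, hg⟩ := exists_val q hη.le
      have hξ' : ξ < ω₁ := hξ.trans q'.ht_lt
      refine (RO.mem_compl.1 hp1') q' (hq'.trans hq) ?_
      refine mem_iSup_of (ordn ξ) ⟨cn_le.1 (ordn_mem_ordn hξ'), cn_le.1 ?_⟩
      have hgb : q' ∈ (Gbool θ ξ η).carrier := RO.subset_hull ⟨hθ, hξ, hg⟩
      refine bPairs (a := fun t : Set.Iio (ω₁ : O) × Set.Iio θ => (ordn t.1.1 : Nm Cd))
        (b := fun t => cn' t.2.1) (⟨ξ, hξ'⟩, ⟨η, hη⟩) (cn_le.2 hgb) (bRefl _) ?_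
      show cn q' ≤ Nm.eq b (Sum.elim cdot (fun _ => emp) (c η))
      rw [hcη]
      exact (cn_le.2 (RO.lower _ hq' (cn_le.1 heq)))
  exact H.elim

end

end Pool.Agent.Helper23.CK
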