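import Pool.Agent.Helper23.CK.Tr3
import Pool.Agent.Helper23.CK.NoB
import Pool.Agent.Helper23.CK.KY

set_option autoImplicit false
set_option linter.unreachableTactic false
set_option linter.unusedTactic false

/-!
# The failure of the Kurepa hypothesis can be destroyed by a Cohen real
-/

universe u v w

namespace Pool.Agent.Helper23.CK

open WT (iffV bElim bOr bMP bImp bNot bAbs bAll bEx bIff bIff_mp bIff_mpr bLeft bRight bCases bContra eq_of_forall iffV_self iffV_eq_top)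
open WT (Fm ZF ZM)
open scoped Ordinal

namespace Gen

/-! ### formulas -/

section
variable {P : Type u} [Preorder P] {S : Set (Nm P)} {U : Set (RO P)} (hG : Gen S U)

theorem tr_list : hG.Tr (n := 2) (fun v => ∃ c, FunS c ∧ ∀ x, ZM.E x (v 1) →
      ∃ n, ZM.E n (v 0) ∧ ZM.E (WT.opair n x) c)
    (fun v => ⨆ c, FunB c ⊓ ⨅ x, Nm.mem x (v 1) ⇨ ⨆ n, Nm.mem n (v 0) ⊓ Nm.mem (Nm.opair n x) c) := by
  unfold FunS FunB
  (repeat' first
      | with_reducible exact TrF.var _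
      | with_reducible apply TrF.opair
      | with_reducible apply Tr.mem | with_reducible apply Tr.eq
      | with_reducible apply Tr.and | with_reducible apply Tr.imp
      | with_reducible apply Tr.iff
      | with_reducible apply Tr.ex | with_reducible apply Tr.all)

theorem tr_inj : hG.Tr (n := 2) (fun v => ∃ f, InjS f (v 0) (v 1)) (fun v => ⨆ f, InjB f (v 0) (v 1)) := by
  unfold InjS InjB
  (repeat' first
      | with_reducible exact TrF.var _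
      | with_reducible apply TrF.opair
      | with_reducible apply Tr.mem | with_reducible apply Tr.eq
      | with_reducible apply Tr.and | with_reducible apply Tr.imp
      | with_reducible apply Tr.iff
      | with_reducible apply Tr.ex | with_reducible apply Tr.all)

theorem tr_lim : hG.Tr (n := 1) (fun v => ∀ x, ZM.E x (v 0) → ∃ y, ZM.E y (v 0) ∧ ZM.E x y)
    (fun v => ⨅ x, Nm.mem x (v 0) ⇨ ⨆ y, Nm.mem y (v 0) ⊓ Nm.mem x y) := by
  (repeat' first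
      | with_reducible exact TrF.var _
      | with_reducible apply TrF.opair
      | with_reducible apply Tr.mem | with_reducible apply Tr.eq
      | with_reducible apply Tr.and | with_reducible apply Tr.imp
      | with_reducible apply Tr.iff
      | with_reducible apply Tr.ex | with_reducible apply Tr.all)

theorem tr_nb : hG.Tr (n := 2) (fun v => ∀ L, TreeS L → ∃ F, FunS F ∧
      ∀ b, BrS b L (v 0) (v 1) → ∃ ξ, ZM.E ξ (v 0) ∧ ZM.E (WT.opair ξ b) F)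
    (fun v => ⨅ L, TreeB L ⇨ ⨆ F, FunB F ⊓ ⨅ b, BrB b L (v 0) (v 1) ⇨
      ⨆ ξ, Nm.mem ξ (v 0) ⊓ Nm.mem (Nm.opair ξ b) F) := by
  unfold TreeS TreeB BrS BrB FunS FunB
  (repeat' first
      | with_reducible exact TrF.var _
      | with_reducible apply TrF.opair
      | with_reducible apply Tr.mem | with_reducible apply Tr.eq
      | with_reducible apply Tr.and | with_reducible apply Tr.imp
      | with_reducible apply Tr.iff
      | with_reducible apply Tr.ex | with_reducible apply Tr.all)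

theorem tr_k2 : hG.Tr (n := 3) (fun v => ∃ c, FunS c ∧ ∀ a, ZM.E a (v 0) → ∃ n, ZM.E n (v 2) ∧
      ∃ x, ZM.E (WT.opair n x) c ∧ ∀ z, ZM.E z (v 1) → (ZM.E z x ↔ ZM.E z a))
    (fun v => ⨆ c, FunB c ⊓ ⨅ A, Nm.mem A (v 0) ⇨ ⨆ n, Nm.mem n (v 2) ⊓ ⨆ x, Nm.mem (Nm.opair n x) c ⊓
      ⨅ z, Nm.mem z (v 1) ⇨ iffV (Nm.mem z x) (Nm.mem z A)) := by
  unfold FunS FunB
  (repeat' first
      | with_reducible exact TrF.var _
      | with_reducible apply TrF.opair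
      | with_reducible apply Tr.mem | with_reducible apply Tr.eq
      | with_reducible apply Tr.and | with_reducible apply Tr.imp
      | with_reducible apply Tr.iff
      | with_reducible apply Tr.ex | with_reducible apply Tr.all)

theorem isOm (hn : ∀ n, Nm.nat n ∈ S) : IsOm (hG.val Nm.omg) := by
  intro z
  rw [hG.mem_val]
  constructor
  · rintro ⟨x, hx, hsub, rfl⟩
    have h1 : x.IsSub Nm.omg := by
      by_contra h1
      have : Nm.sub Nm.omg x = ⊥ := by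
        by_contra hc
        obtain ⟨p, hp⟩ := RO.ne_bot hc
        exact h1 (Nm.isSub_of_sub hp)
      rw [this] at hsub
      exact hG.bot hsub
    obtain ⟨⟨n⟩, rfl⟩ := h1
    exact ⟨n, hG.val_nat hn n⟩
  · rintro ⟨n, rfl⟩
    refine ⟨Nm.nat n, hn n, hG.up _ hG.top _ ?_, (hG.val_nat hn n).symm⟩
    exact sub_mk (a := fun n : ULift.{u} ℕ => (Nm.nat n.down : Nm P)) (v := fun _ => ⊤) ⟨n⟩

end

/-! ### ordinals -/

section
variable {P : Type 1} [Preorder P] {S : Set (Nm P)} {U : Set (RO P)} (hG : Gen S U)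

theorem mem_val_ordn {α : O} {z : ZFSet.{0}} :
    z ∈ hG.val (ordn α) ↔ ∃ β < α, ordn β ∈ S ∧ z = hG.val (ordn β) := by
  rw [hG.mem_val]
  constructor
  · rintro ⟨x, hx, hsub, rfl⟩
    have h1 : x.IsSub (ordn α) := by
      by_contra h1
      have : Nm.sub (ordn α) x = ⊥ := by
        by_contra hc
        obtain ⟨p, hp⟩ := RO.ne_bot hc
        exact h1 (Nm.isSub_of_sub hp)
      rw [this] at hsub
      exact hG.bot hsub
    rw [ordn_eq] at h1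
    obtain ⟨⟨β, hβ⟩, rfl⟩ := h1
    exact ⟨β, hβ, hx, rfl⟩
  · rintro ⟨β, hβ, hx, rfl⟩
    refine ⟨ordn β, hx, hG.up _ hG.top _ ?_, rfl⟩
    rw [ordn_eq α]
    exact sub_mk (a := fun β : Set.Iio α => (ordn β.1 : Nm P)) (v := fun _ => ⊤) ⟨β, hβ⟩

theorem val_ordn_ord (α : O) : (hG.val (ordn α)).IsOrdinal where
  isTransitive := by
    intro y hy z hz
    obtain ⟨β, hβ, _, rfl⟩ := hG.mem_val_ordn.1 hy
    obtain ⟨γ, hγ, hS, rfl⟩ := hG.mem_val_ordn.1 hz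
    exact hG.mem_val_ordn.2 ⟨γ, hγ.trans hβ, hS, rfl⟩
  mem_trans' := by
    intro z y w h1 h2 h3
    obtain ⟨β, hβ, _, rfl⟩ := hG.mem_val_ordn.1 h3
    obtain ⟨γ, hγ, _, rfl⟩ := hG.mem_val_ordn.1 h2
    obtain ⟨δ, hδ, hS, rfl⟩ := hG.mem_val_ordn.1 h1
    exact hG.mem_val_ordn.2 ⟨δ, hδ.trans hγ, hS, rfl⟩

theorem isOmega1 (hn : ∀ n, Nm.nat n ∈ S) (ho : Nm.omg ∈ S) (hw : ordn ω₁ ∈ S)
    (hinj : ∀ f : Nm P, InjB f (ordn ω₁) Nm.omg = ⊥) :
    IsOmega1 ZM.E (hG.el (ordn ω₁) hw) := by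
  have hom := hG.isOm hn
  have hom' : IsOm (hG.el Nm.omg ho).1 := hom
  refine ⟨isOrdinal_iff.2 (hG.val_ordn_ord _), ?_, ?_⟩
  · rw [isCountable_iff hom']
    intro h
    have h1 := ((hG.tr_inj).iff_mem ![ordn ω₁, Nm.omg] (by intro i; fin_cases i <;> assumption)).1
      (CardLe.inj h)
    have h2 : (⨆ f : Nm P, InjB f (ordn ω₁) Nm.omg) = ⊥ := by
      rw [iSup_eq_bot]; exact hinj
    have h3 : (⨆ f : Nm P, InjB f (ordn ω₁) Nm.omg) ∈ U := h1
    rw [h2] at h3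
    exact hG.bot h3
  · intro a ha
    rw [isCountable_iff hom']
    obtain ⟨β, hβ, hS, e⟩ := hG.mem_val_ordn.1 ha
    have e' : a = hG.el (ordn β) hS := Subtype.ext e
    subst e'
    obtain ⟨c, hc1, hc2⟩ := ((hG.tr_list).iff_mem ![Nm.omg, ordn β] (by
      intro i; fin_cases i <;> assumption)).2 (hG.up _ hG.top _ (list_ordn hβ))
    exact cardLe_of_list (c := c) hom.ord hc2 hc1

theorem lim (hw : ordn ω₁ ∈ S) (x : hG.Mod) (hx : ZM.E x (hG.el (ordn ω₁) hw)) :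
    ∃ y, ZM.E y (hG.el (ordn ω₁) hw) ∧ ZM.E x y := by
  refine ((hG.tr_lim).iff_mem ![ordn ω₁] (by intro i; fin_cases i; assumption)).2
    (hG.up _ hG.top _ ?_) x hx
  show ⊤ ≤ ⨅ x, Nm.mem x (ordn ω₁) ⇨ ⨆ y, Nm.mem y (ordn ω₁) ⊓ Nm.mem x y
  refine le_iInf fun x => bImp fun Δ _ h2 => ?_
  rw [mem_ordn] at h2
  refine bElim h2 fun β Δ' h3 h4 => ?_
  refine bEx (ordn (Order.succ β.1)) (le_inf
    (ordn_mem_ordn ((Cardinal.isSuccLimit_omega 1).succ_lt β.2)) ?_)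
  exact Nm.bMemL (Nm.bSymm h4) (ordn_mem_ordn (Order.lt_succ _))

end

/-! ### the ground model -/

theorem not_KH_Cd {S : Set (Nm Cd)} {U : Set (RO Cd)} (hG : Gen S U) (hn : ∀ n, Nm.nat n ∈ S)
    (ho : Nm.omg ∈ S) (hw : ordn ω₁ ∈ S) : ¬ KH (Mem hG.M) := by
  refine not_KH (M := hG.M) hG.zfc (om := hG.el Nm.omg ho) (W := hG.el (ordn ω₁) hw) (hG.isOm hn)
    (hG.isOmega1 hn ho hw injB_Cd) ?_
  refine ((hG.tr_nb).iff_mem ![ordn ω₁, Nm.omg] (by intro i; fin_cases i <;> assumption)).2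
    (hG.up _ hG.top _ ?_)
  exact le_iInf fun L => bImp fun Δ _ h => no_new_branches L h

/-! ### the extension -/

theorem KH_CdCoh {S : Set (Nm (Cd × Coh))} {U : Set (RO (Cd × Coh))} (hG : Gen S U)
    (hn : ∀ n, Nm.nat n ∈ S) (ho : Nm.omg ∈ S) (hw : ordn ω₁ ∈ S) (hf : famn ∈ S) :
    KH (Mem hG.M) := by
  have hsub : ∀ {x τ : Nm (Cd × Coh)}, Nm.sub τ x ∈ U → x.IsSub τ := by
    intro x τ h
    by_contra h1
    have : Nm.sub τ x = ⊥ := by
      by_contra hc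
      obtain ⟨p, hp⟩ := RO.ne_bot hc
      exact h1 (Nm.isSub_of_sub hp)
    rw [this] at h
    exact hG.bot h
  refine KH_of_family (M := hG.M) (om := hG.el Nm.omg ho) (W := hG.el (ordn ω₁) hw)
    (𝔄 := hG.el famn hf) (hG.isOm hn) (hG.isOmega1 hn ho hw injB_CdCoh) ?_ ?_ ?_ (hG.lim hw)
  · intro a ha z hz
    obtain ⟨x, hx, h1, e⟩ := hG.mem_val.1 ha
    obtain ⟨i, rfl⟩ := hsub h1
    have hz' : z.1 ∈ hG.val (Adot i) := by rw [← e]; exact hz
    obtain ⟨y, hy, h2, e'⟩ := hG.mem_val.1 hz'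
    obtain ⟨β, rfl⟩ := hsub h2
    exact hG.mem_val_ordn.2 ⟨β.1, β.2, hy, e'⟩
  · intro γ hγ
    obtain ⟨β, hβ, hS, e⟩ := hG.mem_val_ordn.1 hγ
    have e' : γ = hG.el (ordn β) hS := Subtype.ext e
    subst e'
    exact ((hG.tr_k2).iff_mem ![famn, ordn β, Nm.omg] (by
      intro i; fin_cases i <;> assumption)).2 (hG.up _ hG.top _ (famn_list hβ))
  · intro F hF
    have h1 := ((hG.tr_inj).iff_mem ![famn, ordn ω₁] (by intro i; fin_cases i <;> assumption)).1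
      ⟨F, hF⟩
    have h2 : (⨆ f : Nm (Cd × Coh), InjB f famn (ordn ω₁)) = ⊥ := by
      rw [iSup_eq_bot]; exact injB_famn
    have h3 : (⨆ f : Nm (Cd × Coh), InjB f famn (ordn ω₁)) ∈ U := h1
    rw [h2] at h3
    exact hG.bot h3

end Gen

/-! ### generic filters exist -/

theorem exists_isGeneric {M : ZFSet.{0}} (hM : {z | z ∈ M}.Countable) : ∃ G, IsGeneric M G := by
  classical
  obtain ⟨e, he⟩ := (Set.countable_iff_exists_subset_range).1 hM
  have step : ∀ (n : ℕ) (s : Coh), ∃ t ≤ s, (∀ p, IsCond p → ∃ q ∈ e n, IsCond q ∧ p ⊆ q) →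
      enc t ∈ e n := by
    intro n s
    by_cases h : ∀ p, IsCond p → ∃ q ∈ e n, IsCond q ∧ p ⊆ q
    · obtain ⟨q, hq, hq', hs⟩ := h _ (isCond_enc s)
      obtain ⟨t, rfl⟩ := isCond_iff.1 hq'
      exact ⟨t, enc_subset.1 hs, fun _ => hq⟩
    · exact ⟨s, le_rfl, fun h' => (h h').elim⟩
  choose nx h1 h2 using step
  let s : ℕ → Coh := fun n => Nat.rec ⟨∅, by simp⟩ (fun k t => nx k t) n
  have hsn : ∀ n, s (n + 1) = nx n (s n) := fun n => rfl
  have hanti : Antitone s := antitone_nat_of_succ_le fun n => by rw [hsn]; exact h1 n _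
  let G : ZFSet.{0} := ZFSet.range (fun t : {t : Coh // ∃ n, s n ≤ t} => enc t.1)
  have hG : ∀ p, p ∈ G ↔ ∃ t : Coh, (∃ n, s n ≤ t) ∧ p = enc t := by
    intro p
    show p ∈ ZFSet.range _ ↔ _
    rw [ZFSet.mem_range]
    constructor
    · rintro ⟨⟨t, ht⟩, rfl⟩
      exact ⟨t, ht, rfl⟩
    · rintro ⟨t, ht, rfl⟩
      exact ⟨⟨t, ht⟩, rfl⟩
  refine ⟨G, ⟨fun p hp => ?_, ⟨enc (s 0), (hG _).2 ⟨_, ⟨0, le_rfl⟩, rfl⟩⟩, fun q hq p hp hpq => ?_,
    fun p hp q hq => ?_, fun D hD hD1 hD2 => ?_⟩⟩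
  · obtain ⟨t, _, rfl⟩ := (hG p).1 hp
    exact isCond_enc t
  · obtain ⟨t, ⟨n, hn⟩, rfl⟩ := (hG q).1 hq
    obtain ⟨u, rfl⟩ := isCond_iff.1 hp
    exact (hG _).2 ⟨u, ⟨n, hn.trans (show t ≤ u from enc_subset.1 hpq)⟩, rfl⟩
  · obtain ⟨t, ⟨n, hn⟩, rfl⟩ := (hG p).1 hp
    obtain ⟨u, ⟨m, hm⟩, rfl⟩ := (hG q).1 hq
    refine ⟨enc (s (max n m)), (hG _).2 ⟨_, ⟨_, le_rfl⟩, rfl⟩, enc_subset.2 ?_, enc_subset.2 ?_⟩
    · exact (hanti (le_max_left n m)).trans hn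
    · exact (hanti (le_max_right n m)).trans hm
  · obtain ⟨n, rfl⟩ := he hD
    refine ⟨enc (s (n + 1)), (hG _).2 ⟨_, ⟨n + 1, le_rfl⟩, rfl⟩, ?_⟩
    rw [hsn]
    refine h2 n (s n) fun p hp => ?_
    obtain ⟨q, hq, hpq⟩ := hD2 p hp
    exact ⟨q, hq, hD1 q hq, hpq⟩

theorem main : ∃ M : ZFSet.{0}, M.IsTransitive ∧ {z | z ∈ M}.Countable ∧ ZFC (Mem M) ∧
    ¬ KH (Mem M) ∧ (∃ G, IsGeneric M G) ∧
    ∀ G, IsGeneric M G → ZFC (Mem (genExt M G)) ∧ KH (Mem (genExt M G)) := by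
  let A : Set (WW Cd) := {WW.a (ordn ω₁), WW.a Nm.omg, WW.b (ordn ω₁), WW.b Nm.omg, WW.b famn} ∪
    Set.range fun n => WW.b (Nm.nat n)
  have hA : A.Countable := ((Set.toFinite _).countable).union (Set.countable_range _)
  obtain ⟨𝒮, hAS, _⟩ := exists_sys A hA Cd.one
  have h1 : ordn ω₁ ∈ 𝒮.S1 := hAS (Or.inl (by simp))
  have h2 : Nm.omg ∈ 𝒮.S1 := hAS (Or.inl (by simp))
  have h3 : ordn ω₁ ∈ 𝒮.S2 := hAS (Or.inl (by simp))
  have h4 : Nm.omg ∈ 𝒮.S2 := hAS (Or.inl (by simp))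
  have h5 : famn ∈ 𝒮.S2 := hAS (Or.inl (by simp))
  have h6 : ∀ n, Nm.nat n ∈ 𝒮.S2 := fun n => hAS (Or.inr ⟨n, rfl⟩)
  refine ⟨𝒮.M, 𝒮.gen1.M_transitive, 𝒮.gen1.M_countable, 𝒮.gen1.zfc,
    𝒮.gen1.not_KH_Cd 𝒮.nat_mem h2 h1, exists_isGeneric 𝒮.gen1.M_countable, fun G hG => ?_⟩
  rw [𝒮.genExt_eq hG]
  exact ⟨(Sys.gen2 (𝒮.filt hG)).zfc, (Sys.gen2 (𝒮.filt hG)).KH_CdCoh h6 h4 h3 h5⟩

end Pool.Agent.Helper23.CK
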