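import Pool.Agent.Helper23.CK.Lim

set_option autoImplicit false

/-!
# No new branches: splitting and fusion
-/

namespace Pool.Agent.Helper23.CK

open WT (iffV bElim bOr bMP bImp bNot bAbs bAll bEx bIff bIff_mp bIff_mpr bLeft bRight bCases bContra eq_of_forall iffV_self iffV_eq_top)
open scoped Ordinal
open Function (update)
open Cd

/-- `q` can be extended in two ways that only differ on `r` (and above `δ`) and decide a value of
the branch differently -/
def Spl (Br : Cd → O → ℕ → Prop) (δ : O) (r : B) (q : Cd) : Prop :=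
  ∃ u v γ n m, u ≤ q ∧ v ≤ q ∧ Sim δ r u v ∧ γ < ω₁ ∧ Br u γ n ∧ Br v γ m ∧ n ≠ m

/-- the hypotheses: below `p1`, `Br` describes a branch, `Less` describes a tree order decided by
the conditions below `δ`, and every condition is splittable -/
structure Hyp (δ : O) (p1 : Cd) (Br : Cd → O → ℕ → Prop) (Less : Cd → O → ℕ → O → ℕ → Prop) :
    Prop where
  bmono : ∀ p q γ n, q ≤ p → Br p γ n → Br q γ n
  bex : ∀ p ≤ p1, ∀ γ < ω₁, ∃ q ≤ p, ∃ n, Br q γ n
  bun : ∀ p ≤ p1, ∀ γ n m, Br p γ n → Br p γ m → n = m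
  lmono : ∀ p q β n η m, q ≤ p → Less p β n η m → Less q β n η m
  bl : ∀ p ≤ p1, ∀ β n η m, β < η → η < ω₁ → Br p β n → Br p η m → Less p β n η m
  lun : ∀ p ≤ p1, ∀ β n n' η m, β < ω₁ → η < ω₁ → Less p β n η m → Less p β n' η m → n = n'
  ldec : ∀ e : Cd, e.I ⊆ Set.Iio δ → ∀ β < ω₁, ∀ η < ω₁, ∀ n m, ∃ e' ≤ e, e'.I ⊆ Set.Iio δ ∧
    (Less e' β n η m ∨ ∀ q ≤ e', ¬ Less q β n η m)
  spl : ∀ q ≤ p1, Spl Br δ ⊤ q

theorem upd_le_both {δ : O} {r : B} {w u p : Cd} (hw : w ≤ p) (hu : u ≤ p) (h1 : w.ht ≤ u.ht)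
    (h2 : w.I ⊆ u.I) (h3 : ∀ δ' ≤ w.ht, ∀ m β, u.E δ' m β = w.E δ' m β) :
    upd δ r w u h1 h2 h3 ≤ p := by
  classical
  refine ⟨hu.1, hu.2.1, hu.2.2.1, fun i hi β hβ => ?_⟩
  have a1 := hu.2.2.2 i hi β hβ
  have a2 := hw.2.2.2 i hi β hβ
  constructor
  · show (if i < δ then u.f i β else mix r (u.f i β) (w.f i β)) = _
    rw [a1.1, a2.1, mix_self, ite_self]
  · show (if i < δ then u.g i β else if i ∈ w.I ∧ β < w.ht then w.g i β else u.g i β) = _
    rw [a1.2, a2.2, ite_self, ite_self]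

theorem upd_bot_eq {δ : O} {w u : Cd} (hu : u ≤ w) (h1 : w.ht ≤ u.ht)
    (h2 : w.I ⊆ u.I) (h3 : ∀ δ' ≤ w.ht, ∀ m β, u.E δ' m β = w.E δ' m β) :
    upd δ ⊥ w u h1 h2 h3 = u := by
  classical
  refine Cd.ext' rfl rfl rfl ?_ ?_
  · funext i β
    show (if i < δ then u.f i β else mix ⊥ (u.f i β) (w.f i β)) = _
    rw [mix_bot, ite_self]
  · funext i β
    show (if i < δ then u.g i β else if i ∈ w.I ∧ β < w.ht then w.g i β else u.g i β) = _
    split_ifs with h4 h5
    · rfl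
    · exact ((hu.2.2.2 i h5.1 β h5.2).2).symm
    · rfl

section

variable {δ : O} {p1 : Cd} {Br : Cd → O → ℕ → Prop} {Less : Cd → O → ℕ → O → ℕ → Prop}

theorem Spl.mono {r : B} {p q : Cd} (h : Spl Br δ r q) (hq : q ≤ p) : Spl Br δ r p := by
  obtain ⟨u, v, γ, n, m, h1, h2, h3⟩ := h
  exact ⟨u, v, γ, n, m, h1.trans hq, h2.trans hq, h3⟩

variable (H : Hyp δ p1 Br Less)
include H

theorem Hyp.not_spl_sup {r r' c : B} {p : Cd} (hp : p ≤ p1) (hr : ¬ Spl Br δ r p)
    (hr' : ¬ Spl Br δ r' p) (hc : c ≤ r ⊔ r') : ¬ Spl Br δ c p := by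
  rintro ⟨u0, u1, γ, n0, n1, h0, h1, hs, hγ, hb0, hb1, hne⟩
  -- `w`: `u1` on `r` and `u0` off `r`
  have s1 : u1.ht ≤ u0.ht := hs.ht.symm.le
  have s2 : u1.I ⊆ u0.I := hs.I.symm.subset
  have s3 : ∀ δ' ≤ u1.ht, ∀ m β, u0.E δ' m β = u1.E δ' m β := fun _ _ _ _ => by rw [hs.E]
  have hw : upd δ r u1 u0 s1 s2 s3 ≤ p := upd_le_both h1 h0 s1 s2 s3
  have hw0 : Sim δ r (upd δ r u1 u0 s1 s2 s3) u0 := upd_sim s1 s2 s3
  have hw1 : Sim δ r' (upd δ r u1 u0 s1 s2 s3) u1 := by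
    refine ⟨hw0.ht.trans hs.ht, hw0.I.trans hs.I, hw0.E.trans hs.E,
      fun i β hi => (hw0.f i β hi).trans (hs.f i β hi),
      fun i β hi => (hw0.g i β hi).trans (hs.g i β hi), fun i β => ?_⟩
    show EqOn r'ᶜ (if i < δ then u0.f i β else mix r (u0.f i β) (u1.f i β)) _
    split_ifs with hi
    · exact EqOn.of_eq (hs.f i β hi)
    · refine EqOn.split (r := r) ((mix_on r _ _).mono inf_le_right) ?_
      refine ((mix_off r _ _).mono inf_le_right).trans ((hs.off i β).mono ?_)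
      rw [← compl_sup, sup_comm]
      exact compl_le_compl hc
  obtain ⟨w', hw', n, hn⟩ := H.bex _ (hw.trans hp) γ hγ
  obtain ⟨a1, a2, a3⟩ := hw0.side hw'
  obtain ⟨b1, b2, b3⟩ := hw1.side hw'
  have e0 : n0 = n := by
    by_contra hc
    exact hr ⟨upd δ r u0 w' a1 a2 a3, w', γ, n0, n, (upd_le_left hw0 hw' a1 a2 a3).trans h0,
      hw'.trans hw, upd_sim a1 a2 a3, hγ, H.bmono _ _ _ _ (upd_le_left hw0 hw' a1 a2 a3) hb0, hn, hc⟩
  have e1 : n1 = n := by
    by_contra hc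
    exact hr' ⟨upd δ r' u1 w' b1 b2 b3, w', γ, n1, n, (upd_le_left hw1 hw' b1 b2 b3).trans h1,
      hw'.trans hw, upd_sim b1 b2 b3, hγ, H.bmono _ _ _ _ (upd_le_left hw1 hw' b1 b2 b3) hb1, hn, hc⟩
  exact hne (e0.trans e1.symm)

theorem Hyp.exists_point : ∃ y : ℕ → Bool, ∃ p ≤ p1, ∀ n, ∀ q ≤ p, Spl Br δ (cyl y n) q := by
  let Good : ℕ → Cd × (ℕ → Bool) → Prop := fun n s => s.1 ≤ p1 ∧ ∀ q ≤ s.1, Spl Br δ (cyl s.2 n) q
  have step : ∀ (n : ℕ) (s : Cd × (ℕ → Bool)), Good n s → ∃ s' : Cd × (ℕ → Bool),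
      Good (n + 1) s' ∧ s'.1 ≤ s.1 ∧ ∀ k < n, s'.2 k = s.2 k := by
    rintro n ⟨p, y⟩ ⟨hp, hg⟩
    simp only at hp hg
    by_cases h0 : ∀ q ≤ p, Spl Br δ (cyl (update y n false) (n + 1)) q
    · exact ⟨(p, update y n false), ⟨hp, h0⟩, le_rfl, fun k hk => Function.update_of_ne (ne_of_lt hk) _ _⟩
    · push Not at h0
      obtain ⟨q, hq, h0⟩ := h0
      by_cases h1 : ∀ q' ≤ q, Spl Br δ (cyl (update y n true) (n + 1)) q'
      · exact ⟨(q, update y n true), ⟨hq.trans hp, h1⟩, hq,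
          fun k hk => Function.update_of_ne (ne_of_lt hk) _ _⟩
      · push Not at h1
        obtain ⟨q', hq', h1⟩ := h1
        exact (H.not_spl_sup ((hq'.trans hq).trans hp) (fun h => h0 (h.mono hq')) h1
          (cyl_split y n) (hg q' (hq'.trans hq))).elim
  choose! nx g1 g2 g3 using step
  let s : ℕ → Cd × (ℕ → Bool) := fun n => Nat.rec (p1, fun _ => false) (fun k t => nx k t) n
  have hs : ∀ n, s (n + 1) = nx n (s n) := fun n => rfl
  have hg : ∀ n, Good n (s n) := by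
    intro n
    induction n with
    | zero =>
      refine ⟨le_rfl, fun q hq => ?_⟩
      rw [cyl_zero]
      exact H.spl q hq
    | succ n ih => rw [hs]; exact g1 n _ ih
  have hle : ∀ n, (s (n + 1)).1 ≤ (s n).1 := fun n => by rw [hs]; exact g2 n _ (hg n)
  have hk : ∀ n, ∀ k < n, (s (n + 1)).2 k = (s n).2 k := fun n => by rw [hs]; exact g3 n _ (hg n)
  obtain ⟨p, hp, _⟩ := exists_lim (q := fun n => (s n).1) hle
  refine ⟨fun k => (s (k + 1)).2 k, p, (hp 0), fun n q hq => ?_⟩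
  have e : cyl (fun k => (s (k + 1)).2 k) n = cyl (s n).2 n := by
    refine cyl_congr fun k hkn => ?_
    have : ∀ m, k + 1 ≤ m → (s m).2 k = (s (k + 1)).2 k := by
      intro m hm
      induction m, hm using Nat.le_induction with
      | base => rfl
      | succ m hm ih => rw [hk m k hm, ih]
    exact (this n hkn).symm
  rw [e]
  exact (hg n).2 q (hq.trans (hp n))

end

/-! ### families of conditions -/

/-- a coherent family of conditions -/
structure Fam (δ : O) (y : ℕ → Bool) (n : ℕ) (q : (ℕ → Bool) → Cd) : Prop where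
  dep : ∀ x z, (∀ k < n, x k = z k) → q x = q z
  coh : ∀ x z k, (∀ j < k, x j = z j) → Sim δ (cyl y k) (q x) (q z)

open Classical in
/-- where the conditions of a family may differ -/
noncomputable def dd (y : ℕ → Bool) (n : ℕ) (x z : ℕ → Bool) : B :=
  if h : ∃ k, k < n ∧ x k ≠ z k then cyl y (Nat.find h) else ⊥

theorem dd_bot {y : ℕ → Bool} {n : ℕ} {x z : ℕ → Bool} (h : ∀ k < n, x k = z k) :
    dd y n x z = ⊥ := by
  unfold dd
  rw [dif_neg]
  rintro ⟨k, hk, hk'⟩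
  exact hk' (h k hk)

theorem dd_eq {y : ℕ → Bool} {n : ℕ} {x z : ℕ → Bool} (h : ∃ k, k < n ∧ x k ≠ z k) :
    ∃ k, k < n ∧ x k ≠ z k ∧ (∀ j < k, x j = z j) ∧ dd y n x z = cyl y k := by
  classical
  refine ⟨Nat.find h, (Nat.find_spec h).1, (Nat.find_spec h).2, fun j hj => ?_, ?_⟩
  · by_contra hc
    exact Nat.find_min h hj ⟨hj.trans (Nat.find_spec h).1, hc⟩
  · unfold dd
    rw [dif_pos h]

theorem dd_or {y : ℕ → Bool} {n : ℕ} {x x' z : ℕ → Bool} {k : ℕ} (h : ∀ j < k, x j = x' j) :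
    dd y n x z = dd y n x' z ∨ (dd y n x z ≤ cyl y k ∧ dd y n x' z ≤ cyl y k) := by
  have key : ∀ w w' : ℕ → Bool, (∀ j < k, w j = w' j) → (∀ j < k, j < n → w j = z j) →
      dd y n w z ≤ cyl y k := by
    intro w w' _ h2
    by_cases hw : ∃ k, k < n ∧ w k ≠ z k
    · obtain ⟨l, hl, hl', _, he⟩ := dd_eq (y := y) hw
      rw [he]
      refine cyl_anti y ?_
      by_contra hc
      exact hl' (h2 l (not_le.1 hc) hl)
    · push Not at hw
      rw [dd_bot hw]
      exact bot_le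
  by_cases h1 : ∀ j < k, j < n → x j = z j
  · exact Or.inr ⟨key x x' h h1, key x' x (fun j hj => (h j hj).symm)
      fun j hj hjn => (h j hj).symm.trans (h1 j hj hjn)⟩
  · left
    push Not at h1
    obtain ⟨j, hj, hjn, hne⟩ := h1
    obtain ⟨l, hl, hl1, hl2, he⟩ := dd_eq (y := y) (n := n) (x := x) (z := z) ⟨j, hjn, hne⟩
    obtain ⟨l', hl', hl1', hl2', he'⟩ := dd_eq (y := y) (n := n) (x := x') (z := z)
      ⟨j, hjn, by rw [← h j hj]; exact hne⟩
    have hlk : l < k := by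
      refine lt_of_le_of_lt ?_ hj
      by_contra hc
      exact hne (hl2 j (not_le.1 hc))
    have hlk' : l' < k := by
      refine lt_of_le_of_lt ?_ hj
      by_contra hc
      exact hne (by rw [h j hj]; exact hl2' j (not_le.1 hc))
    rw [he, he']
    congr 1
    rcases lt_trichotomy l l' with h3 | h3 | h3
    · exact (hl1 (by rw [h l hlk]; exact hl2' l h3)).elim
    · exact h3
    · exact (hl1' (by rw [← h l' hlk']; exact hl2 l' h3)).elim

theorem Fam.sim_dd {δ : O} {y : ℕ → Bool} {n : ℕ} {q : (ℕ → Bool) → Cd} (hF : Fam δ y n q)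
    (x z : ℕ → Bool) : Sim δ (dd y n x z) (q z) (q x) := by
  by_cases h : ∃ k, k < n ∧ x k ≠ z k
  · obtain ⟨k, _, _, h2, he⟩ := dd_eq (y := y) h
    rw [he]
    exact hF.coh z x k fun j hj => (h2 j hj).symm
  · push Not at h
    rw [hF.dep x z h]
    exact Sim.refl _ _ _

theorem Fam.update {δ : O} {y : ℕ → Bool} {n : ℕ} {q : (ℕ → Bool) → Cd} (hF : Fam δ y n q)
    (z : ℕ → Bool) {u : Cd} (hu : u ≤ q z) :
    ∃ q' : (ℕ → Bool) → Cd, Fam δ y n q' ∧ q' z = u ∧ ∀ x, q' x ≤ q x := by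
  have hsd := fun x => (hF.sim_dd x z).side hu
  refine ⟨fun x => upd δ (dd y n x z) (q x) u (hsd x).1 (hsd x).2.1 (hsd x).2.2, ⟨?_, ?_⟩, ?_, ?_⟩
  · intro x x' h
    have e1 : q x = q x' := hF.dep x x' h
    have e2 : dd y n x z = dd y n x' z := by
      unfold dd
      have : (∃ k, k < n ∧ x k ≠ z k) ↔ (∃ k, k < n ∧ x' k ≠ z k) := by
        constructor
        · rintro ⟨k, hk, hk'⟩
          exact ⟨k, hk, by rw [← h k hk]; exact hk'⟩
        · rintro ⟨k, hk, hk'⟩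
          exact ⟨k, hk, by rw [h k hk]; exact hk'⟩
      by_cases hc : ∃ k, k < n ∧ x k ≠ z k
      · rw [dif_pos hc, dif_pos (this.1 hc)]
        congr 1
        refine Nat.find_congr' fun {k} => ?_
        constructor
        · rintro ⟨hk, hk'⟩
          exact ⟨hk, by rw [← h k hk]; exact hk'⟩
        · rintro ⟨hk, hk'⟩
          exact ⟨hk, by rw [h k hk]; exact hk'⟩
      · rw [dif_neg hc, dif_neg (fun h' => hc (this.2 h'))]
    congr 1
  · intro x x' k h
    exact upd_upd_sim (hF.coh x x' k h) (dd_or h) _ _ _ _ _ _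
  · simp only
    have e : dd y n z z = ⊥ := dd_bot fun _ _ => rfl
    have : ∀ (r : B) (hr : r = ⊥), upd δ r (q z) u (hsd z).1 (hsd z).2.1 (hsd z).2.2 = u := by
      rintro _ rfl
      exact upd_bot_eq hu _ _ _
    exact this _ e
  · intro x
    exact upd_le_left (hF.sim_dd x z) hu _ _ _

theorem Fam.succ {δ : O} {y : ℕ → Bool} {n : ℕ} {q : (ℕ → Bool) → Cd} (hF : Fam δ y n q) :
    Fam δ y (n + 1) q :=
  ⟨fun x z h => hF.dep x z fun k hk => h k (hk.trans (Nat.lt_succ_self n)), hF.coh⟩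

/-- the conditions decide a value of the branch differently below `η` -/
def DiffB (Br : Cd → O → ℕ → Prop) (η : O) (u v : Cd) : Prop :=
  ∃ γ < η, ∃ a b, Br u γ a ∧ Br v γ b ∧ a ≠ b

section

variable {δ : O} {p1 : Cd} {Br : Cd → O → ℕ → Prop} {Less : Cd → O → ℕ → O → ℕ → Prop}
variable (H : Hyp δ p1 Br Less)
include H

theorem Hyp.diffB_mono {η η' : O} {u v u' v' : Cd} (h : DiffB Br η u v) (hη : η ≤ η')
    (hu : u' ≤ u) (hv : v' ≤ v) : DiffB Br η' u' v' := by
  obtain ⟨γ, hγ, a, b, h1, h2, h3⟩ := h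
  exact ⟨γ, hγ.trans_le hη, a, b, H.bmono _ _ _ _ hu h1, H.bmono _ _ _ _ hv h2, h3⟩

theorem Hyp.split_one {y : ℕ → Bool} {p : Cd} (hp : p ≤ p1) {n : ℕ}
    (hspl : ∀ q ≤ p, Spl Br δ (cyl y n) q) {q : (ℕ → Bool) → Cd} (hF : Fam δ y (n + 1) q)
    (hq : ∀ x, q x ≤ p) (z : ℕ → Bool) :
    ∃ (q' : (ℕ → Bool) → Cd) (η : O), η < ω₁ ∧ Fam δ y (n + 1) q' ∧ (∀ x, q' x ≤ q x) ∧
      DiffB Br η (q' (Function.update z n false)) (q' (Function.update z n true)) := by
  obtain ⟨u0, u1, γ, a, b, h0, h1, hs, hγ, hb0, hb1, hne⟩ := hspl _ (hq (Function.update z n false))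
  have hγ' : Order.succ γ < ω₁ := (Cardinal.isSuccLimit_omega 1).succ_lt hγ
  obtain ⟨q1, hF1, e1, l1⟩ := hF.update _ h0
  obtain ⟨v, hv, c, hc⟩ := H.bex _ (((l1 (Function.update z n true)).trans (hq _)).trans hp) γ hγ
  obtain ⟨q2, hF2, e2, l2⟩ := hF1.update _ hv
  have h20 : q2 (Function.update z n false) ≤ u0 := by rw [← e1]; exact l2 _
  by_cases hca : c = a
  · subst hca
    obtain ⟨s1, s2, s3⟩ := hs.side h20
    let u' := upd δ (cyl y n) u1 (q2 (Function.update z n false)) s1 s2 s3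
    have hu' : u' ≤ u1 := upd_le_left hs h20 s1 s2 s3
    have hsu' : Sim δ (cyl y n) u' (q2 (Function.update z n false)) := upd_sim s1 s2 s3
    classical
    let q3 : (ℕ → Bool) → Cd := fun x =>
      if ∀ k < n + 1, x k = Function.update z n false k then u' else q2 x
    have q3p : ∀ x, (∀ k < n + 1, x k = Function.update z n false k) → q3 x = u' :=
      fun x h => if_pos h
    have q3n : ∀ x, ¬ (∀ k < n + 1, x k = Function.update z n false k) → q3 x = q2 x :=
      fun x h => if_neg h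
    have aux : ∀ (x x' : ℕ → Bool) (k : ℕ), (∀ j < k, x j = x' j) → (∀ k < n + 1, x k = Function.update z n false k) →
        ¬ (∀ k < n + 1, x' k = Function.update z n false k) → Sim δ (cyl y k) u' (q2 x') := by
      intro x x' k h hx hx'
      push Not at hx'
      obtain ⟨j, hj, hj'⟩ := hx'
      have hkj : k ≤ j := by
        by_contra hc
        exact hj' (by rw [← h j (not_le.1 hc)]; exact hx j hj)
      have hkn : k ≤ n := hkj.trans (Nat.lt_succ_iff.1 hj)
      refine (hsu'.mono (cyl_anti y hkn)).trans (hF2.coh _ _ k fun i hi => ?_)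
      rw [← h i hi]
      exact (hx i (lt_of_lt_of_le hi (hkn.trans (Nat.le_succ n)))).symm
    refine ⟨q3, Order.succ γ, hγ', ⟨?_, ?_⟩, ?_, ?_⟩
    · intro x x' h
      by_cases hx : ∀ k < n + 1, x k = Function.update z n false k
      · rw [q3p x hx, q3p x' fun k hk => (h k hk).symm.trans (hx k hk)]
      · rw [q3n x hx, q3n x' fun h' => hx fun k hk => (h k hk).trans (h' k hk)]
        exact hF2.dep x x' h
    · intro x x' k h
      by_cases hx : ∀ k < n + 1, x k = Function.update z n false k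
      · rw [q3p x hx]
        by_cases hx' : ∀ k < n + 1, x' k = Function.update z n false k
        · rw [q3p x' hx']
          exact Sim.refl _ _ _
        · rw [q3n x' hx']
          exact aux x x' k h hx hx'
      · rw [q3n x hx]
        by_cases hx' : ∀ k < n + 1, x' k = Function.update z n false k
        · rw [q3p x' hx']
          exact (aux x' x k (fun j hj => (h j hj).symm) hx' hx).symm
        · rw [q3n x' hx']
          exact hF2.coh x x' k h
    · intro x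
      by_cases hx : ∀ k < n + 1, x k = Function.update z n false k
      · rw [q3p x hx, hF.dep x _ hx]
        exact hu'.trans h1
      · rw [q3n x hx]
        exact (l2 x).trans (l1 x)
    · have e0 : q3 (Function.update z n false) = u' := q3p _ fun _ _ => rfl
      have e3 : q3 (Function.update z n true) = v := by
        rw [q3n _ (fun h => by simpa using h n (Nat.lt_succ_self n)), e2]
      rw [e0, e3]
      exact ⟨γ, Order.lt_succ γ, b, c, H.bmono _ _ _ _ hu' hb1, hc, hne.symm⟩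
  · exact ⟨q2, Order.succ γ, hγ', hF2, fun x => (l2 x).trans (l1 x), γ, Order.lt_succ γ, a, c,
      H.bmono _ _ _ _ h20 hb0, by rw [e2]; exact hc, Ne.symm hca⟩

theorem Hyp.split_list {y : ℕ → Bool} {p : Cd} (hp : p ≤ p1) {n : ℕ}
    (hspl : ∀ q ≤ p, Spl Br δ (cyl y n) q) (A : List (ℕ → Bool)) {q : (ℕ → Bool) → Cd}
    (hF : Fam δ y (n + 1) q) (hq : ∀ x, q x ≤ p) :
    ∃ (q' : (ℕ → Bool) → Cd) (η : O), η < ω₁ ∧ Fam δ y (n + 1) q' ∧ (∀ x, q' x ≤ q x) ∧
      ∀ z ∈ A, DiffB Br η (q' (Function.update z n false)) (q' (Function.update z n true)) := by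
  induction A with
  | nil => exact ⟨q, 0, zero_lt_omega1, hF, fun _ => le_rfl, fun z hz => by simp at hz⟩
  | cons z A ih =>
    obtain ⟨q1, η1, hη1, hF1, l1, d1⟩ := ih
    obtain ⟨q2, η2, hη2, hF2, l2, d2⟩ := H.split_one hp hspl hF1 (fun x => (l1 x).trans (hq x)) z
    refine ⟨q2, max η1 η2, max_lt hη1 hη2, hF2, fun x => (l2 x).trans (l1 x), fun w hw => ?_⟩
    rcases List.mem_cons.1 hw with rfl | hw
    · exact H.diffB_mono d2 (le_max_right _ _) le_rfl le_rfl
    · exact H.diffB_mono (d1 w hw) (le_max_left _ _) (l2 _) (l2 _)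

/-- extension of a finite sequence by zeros -/
def repz (n : ℕ) (s : Fin n → Bool) (k : ℕ) : Bool := if h : k < n then s ⟨k, h⟩ else false

theorem Hyp.split_all {y : ℕ → Bool} {p : Cd} (hp : p ≤ p1) {n : ℕ}
    (hspl : ∀ q ≤ p, Spl Br δ (cyl y n) q) {q : (ℕ → Bool) → Cd}
    (hF : Fam δ y n q) (hq : ∀ x, q x ≤ p) :
    ∃ (q' : (ℕ → Bool) → Cd) (η : O), η < ω₁ ∧ Fam δ y (n + 1) q' ∧ (∀ x, q' x ≤ q x) ∧
      ∀ z, DiffB Br η (q' (Function.update z n false)) (q' (Function.update z n true)) := by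
  obtain ⟨q', η, hη, hF', l, d⟩ := H.split_list hp hspl
    ((Finset.univ : Finset (Fin n → Bool)).toList.map (repz n)) hF.succ hq
  refine ⟨q', η, hη, hF', l, fun z => ?_⟩
  have h1 := d (repz n fun k => z k) (List.mem_map.2 ⟨fun k => z k, by simp, rfl⟩)
  have h2 : ∀ b : Bool, q' (Function.update (repz n fun k => z k) n b) = q' (Function.update z n b) := by
    intro b
    refine hF'.dep _ _ fun k hk => ?_
    rcases Nat.lt_succ_iff_lt_or_eq.1 hk with h | rfl
    · rw [Function.update_of_ne (ne_of_lt h), Function.update_of_ne (ne_of_lt h)]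
      unfold repz
      rw [dif_pos h]
    · rw [Function.update_self, Function.update_self]
  rw [h2, h2] at h1
  exact h1

theorem Hyp.fusion : ∃ (y : ℕ → Bool) (Q : ℕ → (ℕ → Bool) → Cd) (η : O), η < ω₁ ∧
    (∀ n, Fam δ y n (Q n)) ∧ (∀ n x, Q (n + 1) x ≤ Q n x) ∧ (∀ x, Q 0 x ≤ p1) ∧
    ∀ x x', x ≠ x' → ∃ n, DiffB Br η (Q n x) (Q n x') := by
  obtain ⟨y, p, hp, hspl⟩ := H.exists_point
  let Good : ℕ → ((ℕ → Bool) → Cd) → Prop := fun n q => Fam δ y n q ∧ ∀ x, q x ≤ p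
  have step : ∀ (n : ℕ) (q : (ℕ → Bool) → Cd), Good n q → ∃ (q' : (ℕ → Bool) → Cd) (η : O),
      η < ω₁ ∧ Good (n + 1) q' ∧ (∀ x, q' x ≤ q x) ∧
      ∀ z, DiffB Br η (q' (Function.update z n false)) (q' (Function.update z n true)) := by
    rintro n q ⟨hF, hq⟩
    obtain ⟨q', η, h1, h2, h3, h4⟩ := H.split_all hp (hspl n) hF hq
    exact ⟨q', η, h1, ⟨h2, fun x => (h3 x).trans (hq x)⟩, h3, h4⟩
  choose! nx η g1 g2 g3 g4 using step
  let Q : ℕ → (ℕ → Bool) → Cd := fun n => Nat.rec (fun _ => p) (fun k t => nx k t) n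
  have hQ : ∀ n, Q (n + 1) = nx n (Q n) := fun n => rfl
  have hg : ∀ n, Good n (Q n) := by
    intro n
    induction n with
    | zero => exact ⟨⟨fun _ _ _ => rfl, fun _ _ _ _ => Sim.refl _ _ _⟩, fun _ => le_rfl⟩
    | succ n ih => rw [hQ]; exact g2 n _ ih
  refine ⟨y, Q, ⨆ n, η n (Q n), Ordinal.iSup_lt_omega_one fun n => g1 n _ (hg n),
    fun n => (hg n).1, fun n x => by rw [hQ]; exact g3 n _ (hg n) x, fun x => ((hg 0).2 x).trans hp,
    fun x x' hne => ?_⟩
  have hex : ∃ k, x k ≠ x' k := by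
    by_contra hc
    push Not at hc
    exact hne (funext hc)
  classical
  let n := Nat.find hex
  have hn : x n ≠ x' n := Nat.find_spec hex
  have hmin : ∀ k < n, x k = x' k := fun k hk => by
    by_contra hc
    exact Nat.find_min hex hk hc
  have hd := g4 n _ (hg n) x
  rw [← hQ] at hd
  have hF := (hg (n + 1)).1
  have key : ∀ (w : ℕ → Bool), (∀ k < n, w k = x k) → Q (n + 1) w =
      Q (n + 1) (Function.update x n (w n)) := by
    intro w hw
    refine hF.dep _ _ fun k hk => ?_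
    rcases Nat.lt_succ_iff_lt_or_eq.1 hk with h | rfl
    · rw [Function.update_of_ne (ne_of_lt h), hw k h]
    · rw [Function.update_self]
  have kx := key x fun _ _ => rfl
  have kx' := key x' fun k hk => (hmin k hk).symm
  have hη : η n (Q n) ≤ ⨆ n, η n (Q n) := le_ciSup (f := fun n => η n (Q n)) Ordinal.bddAbove_of_small n
  refine ⟨n + 1, ?_⟩
  rw [kx, kx']
  cases hx : x n <;> cases hx' : x' n
  · exact (hn (hx.trans hx'.symm)).elim
  · exact H.diffB_mono hd hη le_rfl le_rfl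
  · obtain ⟨γ, h1, a, b, h2, h3, h4⟩ := H.diffB_mono hd hη le_rfl le_rfl
    exact ⟨γ, h1, b, a, h3, h2, h4.symm⟩
  · exact (hn (hx.trans hx'.symm)).elim

end

end Pool.Agent.Helper23.CK
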