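import Pool.Agent.Helper23.CK.NB

set_option autoImplicit false

/-!
# No new branches: the contradiction
-/

namespace Pool.Agent.Helper23.CK

open WT (iffV bElim bOr bMP bImp bNot bAbs bAll bEx bIff bIff_mp bIff_mpr bLeft bRight bCases bContra eq_of_forall iffV_self iffV_eq_top)
open scoped Ordinal
open Cd

theorem exists_dense : ∃ zz : ℕ → (ℕ → Bool), ∀ (x : ℕ → Bool) (k : ℕ), ∃ m, ∀ j < k, zz m j = x j := by
  obtain ⟨e, he⟩ := exists_surjective_nat (Σ n : ℕ, Fin n → Bool)
  refine ⟨fun m => repz (e m).1 (e m).2, fun x k => ?_⟩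
  obtain ⟨m, hm⟩ := he ⟨k, fun j => x j⟩
  refine ⟨m, fun j hj => ?_⟩
  show repz (e m).1 (e m).2 j = x j
  rw [hm]
  unfold repz
  rw [dif_pos hj]

/-- the fusion has lower bounds, all with the same part below `δ` -/
theorem fusion_lim {δ : O} {y : ℕ → Bool} {Q : ℕ → (ℕ → Bool) → Cd} (hF : ∀ n, Fam δ y n (Q n))
    (hQ : ∀ n x, Q (n + 1) x ≤ Q n x) : ∃ R : (ℕ → Bool) → Cd, (∀ n x, R x ≤ Q n x) ∧
      ∀ x x', Sim δ ⊤ (R x) (R x') := by
  obtain ⟨zz, hzz⟩ := exists_dense
  have sim0 : ∀ n x x', Sim δ (cyl y 0) (Q n x) (Q n x') := fun n x x' =>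
    (hF n).coh x x' 0 fun j hj => absurd hj (Nat.not_lt_zero j)
  have hht : ∀ x x' : ℕ → Bool, (fun n => (Q n x).ht) = fun n => (Q n x').ht := fun x x' =>
    funext fun n => (sim0 n x x').ht
  have hlam : ∀ x x' : ℕ → Bool, (⨆ n, (Q n x).ht) = ⨆ n, (Q n x').ht := fun x x' => by
    rw [hht x x']
  -- congruence of the limits
  have hlf : ∀ (x x' : ℕ → Bool) (k : ℕ), (∀ j < k, x j = x' j) → ∀ i β,
      EqOn (cyl y k)ᶜ (limf (fun n => Q n x) i β) (limf (fun n => Q n x') i β) := by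
    intro x x' k h i β
    by_cases hex : ∃ n, i ∈ (Q n x).I ∧ β < (Q n x).ht
    · obtain ⟨n, h1, h2⟩ := hex
      rw [limf_eq (q := fun n => Q n x) (fun n => hQ n x) h1 h2,
        limf_eq (q := fun n => Q n x') (fun n => hQ n x') (n := n) (by
          rw [← (sim0 n x x').I]; exact h1) (by rw [← (sim0 n x x').ht]; exact h2)]
      exact ((hF n).coh x x' k h).off i β
    · push Not at hex
      rw [limf_not (q := fun n => Q n x) hex, limf_not (q := fun n => Q n x') (fun n hn => by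
        rw [← (sim0 n x x').ht]
        exact hex n (by rw [(sim0 n x x').I]; exact hn))]
      exact EqOn.refl _ _
  have hJ : ∀ x x' : ℕ → Bool, (⋃ n, (Q n x).I) = ⋃ n, (Q n x').I := fun x x' => by
    congr 1
    funext n
    exact (sim0 n x x').I
  -- the lists at the limit level
  have hL : ∃ L : ℕ → O → B, (∀ x : ℕ → Bool, ∀ m β, (∀ n, (Q n x).ht ≤ β) → L m β = ⊥) ∧
      ∀ x : ℕ → Bool, ∀ i ∈ ⋃ n, (Q n x).I,
        ⨆ m, eqv (⨆ n, (Q n x).ht) (limf (fun n => Q n x) i) (L m) = ⊤ := by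
    by_cases hne : (⋃ n, (Q n fun _ => false).I).Nonempty
    · obtain ⟨e, he⟩ := (Set.countable_iUnion fun n => (Q n fun _ => false).cnt).exists_eq_range hne
      refine ⟨fun m => limf (fun n => Q n (zz m.unpair.2)) (e m.unpair.1), ?_, ?_⟩
      · intro x m β h
        refine limf_not fun n _ => ?_
        rw [(sim0 n _ x).ht]
        exact h n
      · intro x i hi
        rw [hJ x fun _ => false, he] at hi
        obtain ⟨m0, rfl⟩ := hi
        rw [eq_top_iff, ← iSup_compl_cyl y]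
        refine iSup_le fun k => ?_
        obtain ⟨m1, hm1⟩ := hzz x k
        refine le_trans ?_ (le_iSup _ (Nat.pair m0 m1))
        rw [le_eqv']
        intro β _
        simp only [Nat.unpair_pair]
        exact hlf x (zz m1) k (fun j hj => (hm1 j hj).symm) _ _
    · rw [Set.not_nonempty_iff_eq_empty] at hne
      refine ⟨fun _ _ => ⊥, fun _ _ _ _ => rfl, fun x i hi => ?_⟩
      rw [hJ x fun _ => false, hne] at hi
      exact hi.elim
  obtain ⟨L, hL0, hL1⟩ := hL
  refine ⟨fun x => lim (q := fun n => Q n x) (fun n => hQ n x) L (hL0 x) (fun _ => hL1 x),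
    fun n x => lim_le (q := fun n => Q n x) (fun n => hQ n x) L (hL0 x) (fun _ => hL1 x) n,
    fun x x' => ⟨hlam x x', hJ x x', ?_, ?_, ?_, ?_⟩⟩
  · funext δ' m β
    show limE (fun n => Q n x) L δ' m β = limE (fun n => Q n x') L δ' m β
    by_cases hex : ∃ n, δ' ≤ (Q n x).ht
    · obtain ⟨n, hn⟩ := hex
      rw [limE_eq (q := fun n => Q n x) (fun n => hQ n x) L hn,
        limE_eq (q := fun n => Q n x') (fun n => hQ n x') L (n := n) (by
          rw [← (sim0 n x x').ht]; exact hn)]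
      exact congrFun (congrFun (congrFun (sim0 n x x').E δ') m) β
    · have hex' : ¬ ∃ n, δ' ≤ (Q n x').ht := by
        rintro ⟨n, hn⟩
        exact hex ⟨n, by rw [(sim0 n x x').ht]; exact hn⟩
      unfold limE
      rw [dif_neg hex, dif_neg hex']
      simp only [hlam x x']
  · intro i β hi
    show limf (fun n => Q n x) i β = limf (fun n => Q n x') i β
    by_cases hex : ∃ n, i ∈ (Q n x).I ∧ β < (Q n x).ht
    · obtain ⟨n, h1, h2⟩ := hex
      rw [limf_eq (q := fun n => Q n x) (fun n => hQ n x) h1 h2,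
        limf_eq (q := fun n => Q n x') (fun n => hQ n x') (n := n) (by
          rw [← (sim0 n x x').I]; exact h1) (by rw [← (sim0 n x x').ht]; exact h2)]
      exact (sim0 n x x').f i β hi
    · push Not at hex
      rw [limf_not (q := fun n => Q n x) hex, limf_not (q := fun n => Q n x') (fun n hn => by
        rw [← (sim0 n x x').ht]
        exact hex n (by rw [(sim0 n x x').I]; exact hn))]
  · intro i β hi
    show limg (fun n => Q n x) i β = limg (fun n => Q n x') i β
    by_cases hex : ∃ n, i ∈ (Q n x).I ∧ β < (Q n x).ht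
    · obtain ⟨n, h1, h2⟩ := hex
      rw [limg_eq (q := fun n => Q n x) (fun n => hQ n x) h1 h2,
        limg_eq (q := fun n => Q n x') (fun n => hQ n x') (n := n) (by
          rw [← (sim0 n x x').I]; exact h1) (by rw [← (sim0 n x x').ht]; exact h2)]
      exact (sim0 n x x').g i β hi
    · push Not at hex
      rw [limg_not (q := fun n => Q n x) hex, limg_not (q := fun n => Q n x') (fun n hn => by
        rw [← (sim0 n x x').ht]
        exact hex n (by rw [(sim0 n x x').I]; exact hn))]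
  · intro i β
    rw [compl_top]
    exact EqOn.bot _ _

theorem not_countable_cantor : ¬ (Set.univ : Set (ℕ → Bool)).Countable := by
  intro h
  obtain ⟨e, he⟩ := h.exists_eq_range ⟨fun _ => false, trivial⟩
  have h1 : (fun n => !(e n n)) ∈ Set.range e := he ▸ trivial
  obtain ⟨m, hm⟩ := h1
  have h2 := congrFun hm m
  simp at h2

section

variable {δ : O} {p1 : Cd} {Br : Cd → O → ℕ → Prop} {Less : Cd → O → ℕ → O → ℕ → Prop}
variable (H : Hyp δ p1 Br Less)
include H

theorem Hyp.elim : False := by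
  obtain ⟨y, Q, η, hη, hF, hQ, hQ0, hd⟩ := H.fusion
  obtain ⟨R, hR, hs⟩ := fusion_lim hF hQ
  have hRp : ∀ x, R x ≤ p1 := fun x => (hR 0 x).trans (hQ0 x)
  have hdR : ∀ x x', x ≠ x' → DiffB Br η (R x) (R x') := fun x x' hne => by
    obtain ⟨n, hn⟩ := hd x x' hne
    exact H.diffB_mono hn le_rfl (hR n x) (hR n x')
  -- `Z e x n`
  let Z : Cd → (ℕ → Bool) → ℕ → Prop := fun e x n => e.I ⊆ Set.Iio δ ∧
    ∃ q' ≤ R x, e ≤ res δ q' ∧ Br q' η n
  let b0 : Cd := res δ (R fun _ => false)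
  have hb0 : ∀ x, res δ (R x) = b0 := fun x => (hs x _).res_eq
  have hZmono : ∀ e e' x n, e' ≤ e → e'.I ⊆ Set.Iio δ → Z e x n → Z e' x n := by
    rintro e e' x n he heI ⟨_, q', h1, h2, h3⟩
    exact ⟨heI, q', h1, he.trans h2, h3⟩
  have hZex : ∀ e, e ≤ b0 → e.I ⊆ Set.Iio δ → ∀ x, ∃ e' ≤ e, ∃ n, Z e' x n := by
    intro e he heI x
    have hle : e ≤ res δ (R x) := by rw [hb0]; exact he
    obtain ⟨q', hq', n, hn⟩ := H.bex (amal δ (R x) e heI hle)
      ((amal_le_left heI hle).trans (hRp x)) η hη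
    refine ⟨res δ q', ?_, n, res_I δ q', q', hq'.trans (amal_le_left heI hle), le_rfl, hn⟩
    exact ((res_mono δ hq').trans (res_mono δ (amal_le_right heI hle))).trans (res_le_of_base heI)
  -- two different points with the same value
  have key : ∃ e x x' n, x ≠ x' ∧ Z e x n ∧ Z e x' n := by
    by_contra hcon
    push Not at hcon
    -- a decreasing sequence
    have step : ∀ (n : ℕ) (e : {e : Cd // e ≤ b0 ∧ e.I ⊆ Set.Iio δ}),
        ∃ e' : {e : Cd // e ≤ b0 ∧ e.I ⊆ Set.Iio δ}, e'.1 ≤ e.1 ∧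
          ((∃ x, Z e'.1 x n) ∨ ∀ e'' ≤ e.1, ∀ x, ¬ Z e'' x n) := by
      intro n e
      by_cases h : ∃ e'' ≤ e.1, ∃ x, Z e'' x n
      · obtain ⟨e'', h1, x, h2⟩ := h
        exact ⟨⟨e'', h1.trans e.2.1, h2.1⟩, h1, Or.inl ⟨x, h2⟩⟩
      · push Not at h
        exact ⟨e, le_rfl, Or.inr h⟩
    choose nx h1 h2 using step
    let s : ℕ → {e : Cd // e ≤ b0 ∧ e.I ⊆ Set.Iio δ} := fun n =>
      Nat.rec ⟨b0, le_rfl, res_I _ _⟩ (fun k t => nx k t) n
    have hsn : ∀ n, s (n + 1) = nx n (s n) := fun n => rfl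
    have hle : ∀ n, (s (n + 1)).1 ≤ (s n).1 := fun n => by rw [hsn]; exact h1 n _
    obtain ⟨r, hr, hrI⟩ := exists_lim (q := fun n => (s n).1) hle
    have hrI' : r.I ⊆ Set.Iio δ := by
      rw [hrI]
      exact Set.iUnion_subset fun n => (s n).2.2
    classical
    let xs : ℕ → (ℕ → Bool) := fun n => if h : ∃ x, Z (s (n + 1)).1 x n then h.choose else fun _ => false
    have hxs : ∀ n, (∃ x, Z (s (n + 1)).1 x n) → Z (s (n + 1)).1 (xs n) n := by
      intro n h
      have : xs n = h.choose := dif_pos h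
      rw [this]
      exact h.choose_spec
    have hne : ∃ x, x ∉ Set.range xs := by
      by_contra hc
      push Not at hc
      exact not_countable_cantor ((Set.countable_range xs).mono fun x _ => hc x)
    obtain ⟨x, hx⟩ := hne
    obtain ⟨e', he', n, hn⟩ := hZex r (hr 0) hrI' x
    have h3 := h2 n (s n)
    rw [← hsn] at h3
    rcases h3 with h3 | h3
    · have h4 := hxs n h3
      have hex : x ≠ xs n := fun h => hx ⟨n, h.symm⟩
      exact hcon e' x (xs n) n hex hn
        (hZmono _ _ _ _ (he'.trans (hr (n + 1))) hn.1 h4)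
    · exact h3 e' (he'.trans (hr n)) x hn
  obtain ⟨e, x, x', n, hne, ⟨heI, q', h1, h2, h3⟩, ⟨_, q'', h1', h2', h3'⟩⟩ := key
  obtain ⟨γ, hγ, a, b, ha, hb, hab⟩ := hdR x x' hne
  have hγ' : γ < ω₁ := hγ.trans hη
  -- the condition `e` decides the order
  have dec : ∀ (e : Cd) (heI : e.I ⊆ Set.Iio δ) (q : Cd) (x : ℕ → Bool) (a : ℕ), q ≤ R x →
      e ≤ res δ q → Br q η n → Br (R x) γ a → ∃ e' ≤ e, e'.I ⊆ Set.Iio δ ∧ Less e' γ a η n := by
    intro e heI q x a hq he hbq hba
    obtain ⟨e', he', heI', h | h⟩ := H.ldec e heI γ hγ' η hη a n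
    · exact ⟨e', he', heI', h⟩
    · exfalso
      have hle : e' ≤ res δ q := he'.trans he
      refine h (amal δ q e' heI' hle) (amal_le_right heI' hle) ?_
      have hl := amal_le_left heI' hle
      exact H.bl _ (hl.trans (hq.trans (hRp x))) _ _ _ _ hγ hη (H.bmono _ _ _ _ (hl.trans hq) hba)
        (H.bmono _ _ _ _ hl hbq)
  obtain ⟨e1, he1, he1I, hL1⟩ := dec e heI q' x a h1 h2 h3 ha
  obtain ⟨e2, he2, he2I, hL2⟩ := dec e1 he1I q'' x' b h1' (he1.trans h2') h3' hb
  have hle : e2 ≤ res δ q' := (he2.trans he1).trans h2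
  refine hab (H.lun (amal δ q' e2 he2I hle) ?_ γ a b η n hγ' hη ?_ ?_)
  · exact (amal_le_left he2I hle).trans (h1.trans (hRp x))
  · exact H.lmono _ _ _ _ _ _ ((amal_le_right he2I hle).trans he2) hL1
  · exact H.lmono _ _ _ _ _ _ (amal_le_right he2I hle) hL2

end

end Pool.Agent.Helper23.CK
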