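import Pool.Agent.Helper23.CK.TMd

set_option autoImplicit false
set_option linter.unreachableTactic false
set_option linter.unusedTactic false

/-!
# The Kurepa hypothesis fails if the branches of every coded tree can be listed
-/

universe u v w

namespace Pool.Agent.Helper23.CK

open WT (Fm ZF ZM D1 F1 DF IsFun App IsOmega IsInductive IsFn opair upair prod pow exists_sep
  app_iff isFun_iff opair_inj opair_mem_prod mem_prod mem_pow)

section
variable {M : ZFSet.{0}} [TM M]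

/-! ### heights -/

theorem hasHeight_iff {T R t a : Mo M} : HasHeight ZM.E T R t a ↔ IsOrdinal ZM.E a ∧
    ∃ f, IsFn f a T ∧ (∀ b s, ZM.E (opair b s) f → ZM.E (opair s t) R) ∧
      (∀ s, ZM.E s T → ZM.E (opair s t) R → ∃ b, ZM.E (opair b s) f) ∧
      ∀ b b' s s', ZM.E (opair b s) f → ZM.E (opair b' s') f → (ZM.E b b' ↔ ZM.E (opair s s') R) := by
  simp only [HasHeight, isFun_iff, app_iff]

theorem _root_.Pool.Agent.Helper23.WT.Dfn.hh {n : ℕ} {s t r q : (Fin n → Mo M) → Mo M}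
    (hs : DF s) (ht : DF t) (hr : DF r) (hq : DF q) :
    WT.Dfn (fun v => HasHeight ZM.E (s v) (t v) (r v) (q v)) := by
  refine WT.Dfn.comp4 (R := fun T R t a => HasHeight ZM.E T R t a) ?_ hs ht hr hq
  simp only [hasHeight_iff, IsOrdinal]
  open WT in
  (repeat' first
      | with_reducible apply DF.ap
      | with_reducible apply Dfn.isFn | with_reducible apply DF.prod
      | with_reducible apply DF.pow | with_reducible apply DF.opair
      | with_reducible apply DF.upair | with_reducible assumption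
      | with_reducible exact DF.var _ | with_reducible exact DF.const _
      | with_reducible exact Dfn.const _ | with_reducible apply DF.the
      | with_reducible apply DF.mkS | with_reducible apply Dfn.mem
      | with_reducible apply Dfn.eq | with_reducible apply Dfn.and
      | with_reducible apply Dfn.or | with_reducible apply Dfn.iff
      | with_reducible apply Dfn.imp | with_reducible apply Dfn.not
      | with_reducible apply Dfn.exu | with_reducible apply Dfn.ex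
      | with_reducible apply Dfn.all)

theorem height_unique {T R t a b : Mo M} (ha : HasHeight ZM.E T R t a) (hb : HasHeight ZM.E T R t b) :
    a = b := by
  obtain ⟨ha, f, hf, hf1, hf2, hf3⟩ := hasHeight_iff.1 ha
  obtain ⟨hb, g, hg, hg1, hg2, hg3⟩ := hasHeight_iff.1 hb
  have ha' := isOrdinal_iff.1 ha
  have hb' := isOrdinal_iff.1 hb
  have key : ∀ x y s, ZM.E (opair x s) f → ZM.E (opair y s) g → x = y := by
    intro x₀
    refine (wfE (M := M)).induction (C := fun x => ∀ y s, ZM.E (opair x s) f →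
      ZM.E (opair y s) g → x = y) x₀ ?_
    intro x ih y s hx hy
    have hxa := (hf.mem_dom hx).1
    have hyb := (hg.mem_dom hy).1
    refine ext_val fun z => ⟨fun hz => ?_, fun hz => ?_⟩
    · obtain ⟨s', hs', _⟩ := hf.2 z (ha'.isTransitive.mem_trans hz hxa)
      have h1 := (hf3 _ _ _ _ hs' hx).1 hz
      obtain ⟨y', hy'⟩ := hg2 s' (hf.mem_dom hs').2 (hf1 _ _ hs')
      rw [ih z hz y' s' hs' hy']
      exact (hg3 _ _ _ _ hy' hy).2 h1
    · obtain ⟨s', hs', _⟩ := hg.2 z (hb'.isTransitive.mem_trans hz hyb)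
      have h1 := (hg3 _ _ _ _ hs' hy).1 hz
      obtain ⟨x', hx'⟩ := hf2 s' (hg.mem_dom hs').2 (hg1 _ _ hs')
      have h2 := (hf3 _ _ _ _ hx' hx).2 h1
      rw [← ih x' h2 z s' hx' hs']
      exact h2
  refine ext_val fun z => ⟨fun hz => ?_, fun hz => ?_⟩
  · obtain ⟨s, hs, _⟩ := hf.2 z hz
    obtain ⟨y, hy⟩ := hg2 s (hf.mem_dom hs).2 (hf1 _ _ hs)
    rw [key _ _ _ hs hy]
    exact (hg.mem_dom hy).1
  · obtain ⟨s, hs, _⟩ := hg.2 z hz
    obtain ⟨x, hx⟩ := hf2 s (hg.mem_dom hs).2 (hg1 _ _ hs)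
    rw [← key _ _ _ hx hs]
    exact (hf.mem_dom hx).1

theorem height_pred {T R s t a : Mo M} (hT : IsTree ZM.E T R) (hs : ZM.E s T) (ht : ZM.E t T)
    (ha : HasHeight ZM.E T R t a) (hst : ZM.E (opair s t) R) :
    ∃ b, ZM.E b a ∧ HasHeight ZM.E T R s b := by
  obtain ⟨ha, f, hf, hf1, hf2, hf3⟩ := hasHeight_iff.1 ha
  have ha' := isOrdinal_iff.1 ha
  obtain ⟨b, hb⟩ := hf2 s hs hst
  have hba := (hf.mem_dom hb).1
  obtain ⟨f', hf'⟩ := exists_sep (P := fun p : Mo M => ∃ x s', p = opair x s' ∧ ZM.E x b)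
    (by open WT in (repeat' first
      | with_reducible apply Dfn.hh
      | with_reducible apply DF.ap
      | with_reducible apply Dfn.isFn | with_reducible apply DF.prod
      | with_reducible apply DF.pow | with_reducible apply DF.opair
      | with_reducible apply DF.upair | with_reducible assumption
      | with_reducible exact DF.var _ | with_reducible exact DF.const _
      | with_reducible exact Dfn.const _ | with_reducible apply DF.the
      | with_reducible apply DF.mkS | with_reducible apply Dfn.mem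
      | with_reducible apply Dfn.eq | with_reducible apply Dfn.and
      | with_reducible apply Dfn.or | with_reducible apply Dfn.iff
      | with_reducible apply Dfn.imp | with_reducible apply Dfn.not
      | with_reducible apply Dfn.exu | with_reducible apply Dfn.ex
      | with_reducible apply Dfn.all)) f
  have hm : ∀ x s', ZM.E (opair x s') f' ↔ ZM.E (opair x s') f ∧ ZM.E x b := by
    intro x s'
    rw [hf']
    refine and_congr_right fun _ => ⟨?_, fun h => ⟨x, s', rfl, h⟩⟩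
    rintro ⟨x', s'', h1, h2⟩
    obtain ⟨rfl, rfl⟩ := opair_inj.1 h1
    exact h2
  refine ⟨b, hba, hasHeight_iff.2 ⟨isOrdinal_iff.2 (ha'.mem hba), f', ⟨fun p hp => ?_, fun x hx => ?_⟩,
    fun x s' h => ?_, fun s' hs' h => ?_, fun x x' s' s'' h h' => ?_⟩⟩
  · obtain ⟨h1, x, s', rfl, h2⟩ := (hf' p).1 hp
    exact ⟨x, s', h2, (hf.mem_dom h1).2, rfl⟩
  · obtain ⟨s', hs', hu⟩ := hf.2 x (ha'.isTransitive.mem_trans hx hba)
    exact ⟨s', (hm _ _).2 ⟨hs', hx⟩, fun y hy => hu y ((hm _ _).1 hy).1⟩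
  · obtain ⟨h1, h2⟩ := (hm _ _).1 h
    exact (hf3 _ _ _ _ h1 hb).1 h2
  · have h1 : ZM.E (opair s' t) R := by
      have := hT.2.1 s' s t hs' hs ht
      simp only [app_iff] at this
      exact this h hst
    obtain ⟨x, hx⟩ := hf2 s' hs' h1
    exact ⟨x, (hm _ _).2 ⟨hx, (hf3 _ _ _ _ hx hb).2 h⟩⟩
  · exact hf3 _ _ _ _ ((hm _ _).1 h).1 ((hm _ _).1 h').1

theorem irreflE {x : Mo M} : ¬ ZM.E x x := fun h => ZFSet.mem_irrefl _ h

theorem height_lt {T R s t a b : Mo M} (hT : IsTree ZM.E T R) (hs : ZM.E s T) (ht : ZM.E t T)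
    (ha : HasHeight ZM.E T R s a) (hb : HasHeight ZM.E T R t b) (hst : ZM.E (opair s t) R) :
    ZM.E a b := by
  obtain ⟨c, hc, hc'⟩ := height_pred hT hs ht hb hst
  rw [height_unique ha hc']
  exact hc

theorem pred_linear {T R x y t : Mo M} (hT : IsTree ZM.E T R) (hx : ZM.E x T) (hy : ZM.E y T)
    (ht : ZM.E t T) (hxt : ZM.E (opair x t) R) (hyt : ZM.E (opair y t) R) :
    x = y ∨ ZM.E (opair x y) R ∨ ZM.E (opair y x) R := by
  have h := hT.2.2 t ht (upair x y) ⟨x, WT.mem_upair.2 (Or.inl rfl)⟩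
  simp only [app_iff] at h
  obtain ⟨m, hm, hm'⟩ := h fun z hz => by
    rcases WT.mem_upair.1 hz with rfl | rfl
    · exact ⟨hx, hxt⟩
    · exact ⟨hy, hyt⟩
  rcases WT.mem_upair.1 hm with rfl | rfl
  · rcases hm' y (WT.mem_upair.2 (Or.inr rfl)) with h | h
    · exact Or.inl h.symm
    · exact Or.inr (Or.inl h)
  · rcases hm' x (WT.mem_upair.2 (Or.inl rfl)) with h | h
    · exact Or.inl h
    · exact Or.inr (Or.inr h)

theorem pred_eq {T R x y t a : Mo M} (hT : IsTree ZM.E T R) (hx : ZM.E x T) (hy : ZM.E y T)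
    (ht : ZM.E t T) (hxt : ZM.E (opair x t) R) (hyt : ZM.E (opair y t) R)
    (hxa : HasHeight ZM.E T R x a) (hya : HasHeight ZM.E T R y a) : x = y := by
  rcases pred_linear hT hx hy ht hxt hyt with h | h | h
  · exact h
  · exact (irreflE (height_lt hT hx hy hxa hya h)).elim
  · exact (irreflE (height_lt hT hy hx hya hxa h)).elim

/-! ### numbering the nodes -/

/-- `f` is an injection from `A` to `B` -/
def InjF (f A B : Mo M) : Prop :=
  IsFn f A B ∧ ∀ x x' y, ZM.E (opair x y) f → ZM.E (opair x' y) f → x = x'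

theorem exists_numbering (hZ : ZFC (ZM.E : Mo M → Mo M → Prop)) {om T R W : Mo M} (hom : IsOm om.1)
    (hT : IsOmega1Tree ZM.E T R W) : ∃ Φ : Mo M,
      (∀ t, ZM.E t T → ∃ n, ZM.E n om ∧ ZM.E (opair t n) Φ) ∧
      (∀ t n, ZM.E (opair t n) Φ → ZM.E t T ∧ ZM.E n om) ∧
      (∀ t n m, ZM.E (opair t n) Φ → ZM.E (opair t m) Φ → n = m) ∧
      ∀ t t' a n, ZM.E t T → ZM.E t' T → HasHeight ZM.E T R t a → HasHeight ZM.E T R t' a →
        ZM.E (opair t n) Φ → ZM.E (opair t' n) Φ → t = t' := by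
  obtain ⟨hT1, hT2, hT3⟩ := hT
  -- the set of injections of the level `a`
  let Q : Mo M → Mo M → Prop := fun a z => ∃ f L, (∀ t, ZM.E t L ↔ ZM.E t T ∧
    HasHeight ZM.E T R t a) ∧ InjF f L om ∧ z = opair a f
  obtain ⟨X, hX⟩ := exists_sep (P := fun y : Mo M => ∃ a, ZM.E a W ∧ ∀ z, ZM.E z y ↔ ∃ f L, (∀ t,
    ZM.E t L ↔ ZM.E t T ∧ HasHeight ZM.E T R t a) ∧ (IsFn f L om ∧
    ∀ x x' y, ZM.E (opair x y) f → ZM.E (opair x' y) f → x = x') ∧ z = opair a f)
    (by open WT in (repeat' first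
      | with_reducible apply Dfn.hh
      | with_reducible apply DF.ap
      | with_reducible apply Dfn.isFn | with_reducible apply DF.prod
      | with_reducible apply DF.pow | with_reducible apply DF.opair
      | with_reducible apply DF.upair | with_reducible assumption
      | with_reducible exact DF.var _ | with_reducible exact DF.const _
      | with_reducible exact Dfn.const _ | with_reducible apply DF.the
      | with_reducible apply DF.mkS | with_reducible apply Dfn.mem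
      | with_reducible apply Dfn.eq | with_reducible apply Dfn.and
      | with_reducible apply Dfn.or | with_reducible apply Dfn.iff
      | with_reducible apply Dfn.imp | with_reducible apply Dfn.not
      | with_reducible apply Dfn.exu | with_reducible apply Dfn.ex
      | with_reducible apply Dfn.all)) (pow (prod W (pow (prod T om))))
  have hX' : ∀ y, ZM.E y X ↔ ∃ a, ZM.E a W ∧ ∀ z, ZM.E z y ↔ Q a z := by
    intro y
    rw [hX]
    refine ⟨fun h => h.2, fun h => ⟨?_, h⟩⟩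
    obtain ⟨a, ha, h⟩ := h
    rw [mem_pow]
    intro z hz
    obtain ⟨f, L, hL, hf, rfl⟩ := (h z).1 hz
    rw [opair_mem_prod, mem_pow]
    refine ⟨ha, fun p hp => ?_⟩
    obtain ⟨x, y, hx, hy, rfl⟩ := hf.1.1 p hp
    exact opair_mem_prod.2 ⟨((hL x).1 hx).1, hy⟩
  have hlev : ∀ a, ZM.E a W → ∃ L, (∀ t, ZM.E t L ↔ ZM.E t T ∧ HasHeight ZM.E T R t a) ∧
      ∃ f, InjF f L om := by
    intro a ha
    obtain ⟨L, hL, _, hc⟩ := hT3 a ha
    rw [isCountable_iff hom, cardLe_iff] at hc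
    exact ⟨L, hL, hc⟩
  have hY : ∀ a, ZM.E a W → ∃ y, ZM.E y X ∧ ∀ z, ZM.E z y ↔ Q a z := by
    intro a ha
    obtain ⟨y, hy⟩ := exists_sep (P := fun z : Mo M => ∃ f L, (∀ t,
      ZM.E t L ↔ ZM.E t T ∧ HasHeight ZM.E T R t a) ∧ (IsFn f L om ∧
      ∀ x x' y, ZM.E (opair x y) f → ZM.E (opair x' y) f → x = x') ∧ z = opair a f)
      (by open WT in (repeat' first
      | with_reducible apply Dfn.hh
      | with_reducible apply DF.ap
      | with_reducible apply Dfn.isFn | with_reducible apply DF.prod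
      | with_reducible apply DF.pow | with_reducible apply DF.opair
      | with_reducible apply DF.upair | with_reducible assumption
      | with_reducible exact DF.var _ | with_reducible exact DF.const _
      | with_reducible exact Dfn.const _ | with_reducible apply DF.the
      | with_reducible apply DF.mkS | with_reducible apply Dfn.mem
      | with_reducible apply Dfn.eq | with_reducible apply Dfn.and
      | with_reducible apply Dfn.or | with_reducible apply Dfn.iff
      | with_reducible apply Dfn.imp | with_reducible apply Dfn.not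
      | with_reducible apply Dfn.exu | with_reducible apply Dfn.ex
      | with_reducible apply Dfn.all)) (prod W (pow (prod T om)))
    have hy' : ∀ z, ZM.E z y ↔ Q a z := by
      intro z
      rw [hy]
      refine ⟨fun h => h.2, fun h => ⟨?_, h⟩⟩
      obtain ⟨f, L, hL, hf, rfl⟩ := h
      rw [opair_mem_prod, mem_pow]
      refine ⟨ha, fun p hp => ?_⟩
      obtain ⟨x, y, hx, hy, rfl⟩ := hf.1.1 p hp
      exact opair_mem_prod.2 ⟨((hL x).1 hx).1, hy⟩
    exact ⟨y, (hX' y).2 ⟨a, ha, hy'⟩, hy'⟩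
  obtain ⟨c, hc⟩ := hZ.2 X (fun y hy => by
      obtain ⟨a, ha, h⟩ := (hX' y).1 hy
      obtain ⟨L, hL, f, hf⟩ := hlev a ha
      exact ⟨opair a f, (h _).2 ⟨f, L, hL, hf, rfl⟩⟩)
    (fun y y' z hy hy' hz hz' => by
      obtain ⟨a, ha, h⟩ := (hX' y).1 hy
      obtain ⟨a', ha', h'⟩ := (hX' y').1 hy'
      obtain ⟨f, L, hL, hf, rfl⟩ := (h z).1 hz
      obtain ⟨f', L', hL', hf', e⟩ := (h' _).1 hz'
      obtain ⟨rfl, rfl⟩ := opair_inj.1 e
      exact ext_val fun z => by rw [h, h'])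
  -- the chosen injections
  have hch : ∀ a, ZM.E a W → ∃ f L, ZM.E (opair a f) c ∧ (∀ t, ZM.E t L ↔ ZM.E t T ∧
      HasHeight ZM.E T R t a) ∧ InjF f L om := by
    intro a ha
    obtain ⟨y, hy, hy'⟩ := hY a ha
    obtain ⟨z, ⟨hz, hzc⟩, _⟩ := hc y hy
    obtain ⟨f, L, hL, hf, rfl⟩ := (hy' z).1 hz
    exact ⟨f, L, hzc, hL, hf⟩
  have hun : ∀ a f L f' L', ZM.E a W → ZM.E (opair a f) c → ZM.E (opair a f') c →
      (∀ t, ZM.E t L ↔ ZM.E t T ∧ HasHeight ZM.E T R t a) → InjF f L om →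
      (∀ t, ZM.E t L' ↔ ZM.E t T ∧ HasHeight ZM.E T R t a) → InjF f' L' om → f = f' := by
    intro a f L f' L' ha h1 h2 h3 h4 h5 h6
    obtain ⟨y, hy, hy'⟩ := hY a ha
    obtain ⟨z, _, hz⟩ := hc y hy
    have e1 := hz _ ⟨(hy' _).2 ⟨f, L, h3, h4, rfl⟩, h1⟩
    have e2 := hz _ ⟨(hy' _).2 ⟨f', L', h5, h6, rfl⟩, h2⟩
    exact (opair_inj.1 (e1.trans e2.symm)).2
  obtain ⟨Φ, hΦ⟩ := exists_sep (P := fun p : Mo M => ∃ t n a f L, p = opair t n ∧ ZM.E a W ∧
    ZM.E (opair a f) c ∧ (∀ t, ZM.E t L ↔ ZM.E t T ∧ HasHeight ZM.E T R t a) ∧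
    (IsFn f L om ∧ ∀ x x' y, ZM.E (opair x y) f → ZM.E (opair x' y) f → x = x') ∧
    ZM.E (opair t n) f) (by open WT in (repeat' first
      | with_reducible apply Dfn.hh
      | with_reducible apply DF.ap
      | with_reducible apply Dfn.isFn | with_reducible apply DF.prod
      | with_reducible apply DF.pow | with_reducible apply DF.opair
      | with_reducible apply DF.upair | with_reducible assumption
      | with_reducible exact DF.var _ | with_reducible exact DF.const _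
      | with_reducible exact Dfn.const _ | with_reducible apply DF.the
      | with_reducible apply DF.mkS | with_reducible apply Dfn.mem
      | with_reducible apply Dfn.eq | with_reducible apply Dfn.and
      | with_reducible apply Dfn.or | with_reducible apply Dfn.iff
      | with_reducible apply Dfn.imp | with_reducible apply Dfn.not
      | with_reducible apply Dfn.exu | with_reducible apply Dfn.ex
      | with_reducible apply Dfn.all)) (prod T om)
  have hΦ' : ∀ t n, ZM.E (opair t n) Φ ↔ (ZM.E t T ∧ ZM.E n om) ∧ ∃ a f L, ZM.E a W ∧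
      ZM.E (opair a f) c ∧ (∀ t, ZM.E t L ↔ ZM.E t T ∧ HasHeight ZM.E T R t a) ∧ InjF f L om ∧
      ZM.E (opair t n) f := by
    intro t n
    rw [hΦ, opair_mem_prod]
    refine and_congr_right fun _ => ⟨?_, ?_⟩
    · rintro ⟨t', n', a, f, L, e, h⟩
      obtain ⟨rfl, rfl⟩ := opair_inj.1 e
      exact ⟨a, f, L, h⟩
    · rintro ⟨a, f, L, h⟩
      exact ⟨t, n, a, f, L, rfl, h⟩
  refine ⟨Φ, fun t ht => ?_, fun t n h => ((hΦ' t n).1 h).1, fun t n m h1 h2 => ?_,
    fun t t' a n ht ht' ha ha' h1 h2 => ?_⟩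
  · obtain ⟨a, ha, hta⟩ := hT2 t ht
    obtain ⟨f, L, h1, h2, h3⟩ := hch a ha
    obtain ⟨n, hn, _⟩ := h3.1.2 t ((h2 t).2 ⟨ht, hta⟩)
    have hnom := (h3.1.mem_dom hn).2
    exact ⟨n, hnom, (hΦ' t n).2 ⟨⟨ht, hnom⟩, a, f, L, ha, h1, h2, h3, hn⟩⟩
  · obtain ⟨⟨ht, _⟩, a, f, L, a1, a2, a3, a4, a5⟩ := (hΦ' t n).1 h1
    obtain ⟨_, a', f', L', b1, b2, b3, b4, b5⟩ := (hΦ' t m).1 h2
    have e1 := ((a3 t).1 (a4.1.mem_dom a5).1).2
    have e2 := ((b3 t).1 (b4.1.mem_dom b5).1).2
    have e := height_unique e1 e2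
    subst e
    have e3 := hun a f L f' L' a1 a2 b2 a3 a4 b3 b4
    subst e3
    exact (a4.1.2 t (a4.1.mem_dom a5).1).unique a5 b5
  · obtain ⟨_, b, f, L, a1, a2, a3, a4, a5⟩ := (hΦ' t n).1 h1
    obtain ⟨_, b', f', L', b1, b2, b3, b4, b5⟩ := (hΦ' t' n).1 h2
    have e1 := height_unique ((a3 t).1 (a4.1.mem_dom a5).1).2 ha
    have e2 := height_unique ((b3 t').1 (b4.1.mem_dom b5).1).2 ha'
    rw [e1] at a1 a2 a3
    rw [e2] at b1 b2 b3
    have e3 := hun a f L f' L' a1 a2 b2 a3 a4 b3 b4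
    subst e3
    exact a4.2 _ _ _ a5 b5

/-! ### the failure of the Kurepa hypothesis -/

/-- `c` is a function -/
def FunS (c : Mo M) : Prop := ∀ x y z, ZM.E (opair x y) c → ZM.E (opair x z) c → y = z

/-- `L` describes a tree -/
def TreeS (L : Mo M) : Prop := ∀ x y n n' m, ZM.E (opair (opair x n) (opair y m)) L →
  ZM.E (opair (opair x n') (opair y m)) L → n = n'

/-- `b` describes a branch -/
def BrS (b L w o : Mo M) : Prop :=
  (∀ x, ZM.E x w → ∃ n, ZM.E n o ∧ ZM.E (opair x n) b) ∧ (FunS b ∧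
    ((∀ x y n m, ZM.E x y → ZM.E (opair x n) b → ZM.E (opair y m) b →
      ZM.E (opair (opair x n) (opair y m)) L) ∧
    ∀ z, ZM.E z b → ∃ x, ZM.E x w ∧ ∃ n, ZM.E n o ∧ z = opair x n))

theorem not_KH (hZ : ZFC (ZM.E : Mo M → Mo M → Prop)) {om W : Mo M} (hom : IsOm om.1)
    (hW : IsOmega1 ZM.E W) (h : ∀ L : Mo M, TreeS L → ∃ F : Mo M, FunS F ∧
      ∀ b, BrS b L W om → ∃ ξ, ZM.E ξ W ∧ ZM.E (opair ξ b) F) :
    ¬ KH (ZM.E : Mo M → Mo M → Prop) := by
  rintro ⟨T, R, w, B, hw, hT, hB, hcard⟩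
  obtain rfl := isOmega1_unique hW hw
  refine hcard ?_
  obtain ⟨Φ, hΦ1, hΦ2, hΦ3, hΦ4⟩ := exists_numbering hZ hom hT
  obtain ⟨hT1, hT2, hT3⟩ := hT
  have hWo := isOrdinal_iff.1 hW.1
  -- the code of the tree
  obtain ⟨L, hL⟩ := exists_sep (P := fun p : Mo M => ∃ x n y m t s, p = opair (opair x n) (opair y m) ∧
    ZM.E (opair t n) Φ ∧ ZM.E (opair s m) Φ ∧ HasHeight ZM.E T R t x ∧ HasHeight ZM.E T R s y ∧
    ZM.E (opair t s) R) (by open WT in (repeat' first
      | with_reducible apply Dfn.hh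
      | with_reducible apply DF.ap
      | with_reducible apply Dfn.isFn | with_reducible apply DF.prod
      | with_reducible apply DF.pow | with_reducible apply DF.opair
      | with_reducible apply DF.upair | with_reducible assumption
      | with_reducible exact DF.var _ | with_reducible exact DF.const _
      | with_reducible exact Dfn.const _ | with_reducible apply DF.the
      | with_reducible apply DF.mkS | with_reducible apply Dfn.mem
      | with_reducible apply Dfn.eq | with_reducible apply Dfn.and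
      | with_reducible apply Dfn.or | with_reducible apply Dfn.iff
      | with_reducible apply Dfn.imp | with_reducible apply Dfn.not
      | with_reducible apply Dfn.exu | with_reducible apply Dfn.ex
      | with_reducible apply Dfn.all)) (prod (prod W om) (prod W om))
  have hL' : ∀ x n y m, ZM.E (opair (opair x n) (opair y m)) L ↔
      ((ZM.E x W ∧ ZM.E n om) ∧ (ZM.E y W ∧ ZM.E m om)) ∧ ∃ t s, ZM.E (opair t n) Φ ∧
      ZM.E (opair s m) Φ ∧ HasHeight ZM.E T R t x ∧ HasHeight ZM.E T R s y ∧ ZM.E (opair t s) R := by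
    intro x n y m
    rw [hL, opair_mem_prod, opair_mem_prod, opair_mem_prod]
    refine and_congr_right fun _ => ⟨?_, ?_⟩
    · rintro ⟨x', n', y', m', t, s, e, h⟩
      obtain ⟨e1, e2⟩ := opair_inj.1 e
      obtain ⟨rfl, rfl⟩ := opair_inj.1 e1
      obtain ⟨rfl, rfl⟩ := opair_inj.1 e2
      exact ⟨t, s, h⟩
    · rintro ⟨t, s, h⟩
      exact ⟨x, n, y, m, t, s, rfl, h⟩
  obtain ⟨F, hF1, hF2⟩ := h L (fun x y n n' m h1 h2 => by
    obtain ⟨_, t, s, a1, a2, a3, a4, a5⟩ := (hL' _ _ _ _).1 h1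
    obtain ⟨_, t', s', b1, b2, b3, b4, b5⟩ := (hL' _ _ _ _).1 h2
    have e := hΦ4 s s' y m (hΦ2 _ _ a2).1 (hΦ2 _ _ b2).1 a4 b4 a2 b2
    subst e
    have e := pred_eq hT1 (hΦ2 _ _ a1).1 (hΦ2 _ _ b1).1 (hΦ2 _ _ a2).1 a5 b5 a3 b3
    subst e
    exact hΦ3 _ _ _ a1 b1)
  -- the codes of the branches
  have hcode : ∀ b, ZM.E b B → ∃ b', (∀ z, ZM.E z b' ↔ ∃ x n t, z = opair x n ∧ ZM.E x W ∧
      ZM.E t b ∧ ZM.E (opair t n) Φ ∧ HasHeight ZM.E T R t x) := by
    intro b _
    obtain ⟨b', hb'⟩ := exists_sep (P := fun z : Mo M => ∃ x n t, z = opair x n ∧ ZM.E x W ∧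
      ZM.E t b ∧ ZM.E (opair t n) Φ ∧ HasHeight ZM.E T R t x) (by open WT in (repeat' first
      | with_reducible apply Dfn.hh
      | with_reducible apply DF.ap
      | with_reducible apply Dfn.isFn | with_reducible apply DF.prod
      | with_reducible apply DF.pow | with_reducible apply DF.opair
      | with_reducible apply DF.upair | with_reducible assumption
      | with_reducible exact DF.var _ | with_reducible exact DF.const _
      | with_reducible exact Dfn.const _ | with_reducible apply DF.the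
      | with_reducible apply DF.mkS | with_reducible apply Dfn.mem
      | with_reducible apply Dfn.eq | with_reducible apply Dfn.and
      | with_reducible apply Dfn.or | with_reducible apply Dfn.iff
      | with_reducible apply Dfn.imp | with_reducible apply Dfn.not
      | with_reducible apply Dfn.exu | with_reducible apply Dfn.ex
      | with_reducible apply Dfn.all)) (prod W om)
    refine ⟨b', fun z => ?_⟩
    rw [hb']
    refine ⟨fun h => h.2, fun h => ⟨?_, h⟩⟩
    obtain ⟨x, n, t, rfl, h1, h2, h3, h4⟩ := h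
    exact opair_mem_prod.2 ⟨h1, (hΦ2 _ _ h3).2⟩
  have hbr : ∀ b b', ZM.E b B → (∀ z, ZM.E z b' ↔ ∃ x n t, z = opair x n ∧ ZM.E x W ∧
      ZM.E t b ∧ ZM.E (opair t n) Φ ∧ HasHeight ZM.E T R t x) → BrS b' L W om := by
    intro b b' hb hb'
    obtain ⟨c1, c2, c3⟩ := (hB b).1 hb
    simp only [app_iff] at c2
    have hm : ∀ x n, ZM.E (opair x n) b' ↔ ZM.E x W ∧ ∃ t, ZM.E t b ∧ ZM.E (opair t n) Φ ∧
        HasHeight ZM.E T R t x := by
      intro x n
      rw [hb']
      constructor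
      · rintro ⟨x', n', t, e, h1, h2⟩
        obtain ⟨rfl, rfl⟩ := opair_inj.1 e
        exact ⟨h1, t, h2⟩
      · rintro ⟨h1, t, h2⟩
        exact ⟨x, n, t, rfl, h1, h2⟩
    refine ⟨fun x hx => ?_, fun x n m h1 h2 => ?_, fun x y n m hxy h1 h2 => ?_, fun z hz => ?_⟩
    · obtain ⟨t, ht, hta⟩ := c3 x hx
      obtain ⟨n, hn, hn'⟩ := hΦ1 t (c1 t ht)
      exact ⟨n, hn, (hm _ _).2 ⟨hx, t, ht, hn', hta⟩⟩
    · obtain ⟨_, t, a1, a2, a3⟩ := (hm _ _).1 h1
      obtain ⟨_, t', b1, b2, b3⟩ := (hm _ _).1 h2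
      rcases c2 t t' a1 b1 with e | e | e
      · subst e
        exact hΦ3 _ _ _ a2 b2
      · exact (irreflE (height_lt hT1 (c1 _ a1) (c1 _ b1) a3 b3 e)).elim
      · exact (irreflE (height_lt hT1 (c1 _ b1) (c1 _ a1) b3 a3 e)).elim
    · obtain ⟨hxW, t, a1, a2, a3⟩ := (hm _ _).1 h1
      obtain ⟨hyW, t', b1, b2, b3⟩ := (hm _ _).1 h2
      refine (hL' _ _ _ _).2 ⟨⟨⟨hxW, (hΦ2 _ _ a2).2⟩, hyW, (hΦ2 _ _ b2).2⟩, t, t', a2, b2, a3, b3, ?_⟩
      rcases c2 t t' a1 b1 with e | e | e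
      · subst e
        rw [height_unique a3 b3] at hxy
        exact (irreflE hxy).elim
      · exact e
      · have h3 := height_lt hT1 (c1 _ b1) (c1 _ a1) b3 a3 e
        exact (ZFSet.mem_asymm hxy h3).elim
    · obtain ⟨x, n, t, rfl, h1, h2, h3, h4⟩ := (hb' z).1 hz
      exact ⟨x, h1, n, (hΦ2 _ _ h3).2, rfl⟩
  -- the list of the branches
  obtain ⟨c, hc⟩ := exists_sep (P := fun p : Mo M => ∃ ξ b b', p = opair ξ b ∧ ZM.E (opair ξ b') F ∧
    ∀ z, ZM.E z b' ↔ ∃ x n t, z = opair x n ∧ ZM.E x W ∧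
      ZM.E t b ∧ ZM.E (opair t n) Φ ∧ HasHeight ZM.E T R t x) (by open WT in (repeat' first
      | with_reducible apply Dfn.hh
      | with_reducible apply DF.ap
      | with_reducible apply Dfn.isFn | with_reducible apply DF.prod
      | with_reducible apply DF.pow | with_reducible apply DF.opair
      | with_reducible apply DF.upair | with_reducible assumption
      | with_reducible exact DF.var _ | with_reducible exact DF.const _
      | with_reducible exact Dfn.const _ | with_reducible apply DF.the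
      | with_reducible apply DF.mkS | with_reducible apply Dfn.mem
      | with_reducible apply Dfn.eq | with_reducible apply Dfn.and
      | with_reducible apply Dfn.or | with_reducible apply Dfn.iff
      | with_reducible apply Dfn.imp | with_reducible apply Dfn.not
      | with_reducible apply Dfn.exu | with_reducible apply Dfn.ex
      | with_reducible apply Dfn.all)) (prod W B)
  have hc' : ∀ ξ b, ZM.E (opair ξ b) c ↔ (ZM.E ξ W ∧ ZM.E b B) ∧ ∃ b', ZM.E (opair ξ b') F ∧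
      ∀ z, ZM.E z b' ↔ ∃ x n t, z = opair x n ∧ ZM.E x W ∧
      ZM.E t b ∧ ZM.E (opair t n) Φ ∧ HasHeight ZM.E T R t x := by
    intro ξ b
    rw [hc, opair_mem_prod]
    refine and_congr_right fun _ => ⟨?_, ?_⟩
    · rintro ⟨ξ', b₁, b', e, h⟩
      obtain ⟨rfl, rfl⟩ := opair_inj.1 e
      exact ⟨b', h⟩
    · rintro ⟨b', h⟩
      exact ⟨ξ, b, b', rfl, h⟩
  have hsub : ∀ b₁ b₂ b', ZM.E b₁ B → ZM.E b₂ B →
      (∀ z, ZM.E z b' ↔ ∃ x n t, z = opair x n ∧ ZM.E x W ∧
      ZM.E t b₁ ∧ ZM.E (opair t n) Φ ∧ HasHeight ZM.E T R t x) →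
      (∀ z, ZM.E z b' ↔ ∃ x n t, z = opair x n ∧ ZM.E x W ∧
      ZM.E t b₂ ∧ ZM.E (opair t n) Φ ∧ HasHeight ZM.E T R t x) → ∀ t, ZM.E t b₁ → ZM.E t b₂ := by
    intro b₁ b₂ b' h1 h2 e1 e2 t ht
    have htT := ((hB b₁).1 h1).1 t ht
    obtain ⟨x, hx, hxt⟩ := hT2 t htT
    obtain ⟨n, hn, hn'⟩ := hΦ1 t htT
    obtain ⟨x', n', t', e, a1, a2, a3, a4⟩ := (e2 _).1 ((e1 (opair x n)).2 ⟨x, n, t, rfl, hx, ht, hn', hxt⟩)
    obtain ⟨rfl, rfl⟩ := opair_inj.1 e
    rw [hΦ4 t t' x n htT (((hB b₂).1 h2).1 t' a2) hxt a4 hn' a3]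
    exact a2
  refine cardLe_of_list (c := c) hWo (fun b hb => ?_) (fun ξ b₁ b₂ h1 h2 => ?_)
  · obtain ⟨b', hb'⟩ := hcode b hb
    obtain ⟨ξ, hξ, hξ'⟩ := hF2 b' (hbr b b' hb hb')
    exact ⟨ξ, hξ, (hc' _ _).2 ⟨⟨hξ, hb⟩, b', hξ', hb'⟩⟩
  · obtain ⟨⟨_, a1⟩, b', a2, a3⟩ := (hc' _ _).1 h1
    obtain ⟨⟨_, b1⟩, b'', b2, b3⟩ := (hc' _ _).1 h2
    have e := hF1 _ _ _ a2 b2
    subst e
    exact ext_val fun t => ⟨hsub _ _ _ a1 b1 a3 b3 t, hsub _ _ _ b1 a1 b3 a3 t⟩

end

end Pool.Agent.Helper23.CK
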