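import Pool.Agent.Helper23.CK.BA
import Pool.Agent.Helper23.WT.Fmla

set_option autoImplicit false

/-!
# Names and Boolean values, for an arbitrary set of conditions
-/

universe u v w

namespace Pool.Agent.Helper23.CK

open WT (iffV bElim bOr bMP bImp bNot bAbs bAll bEx bIff bIff_mp bIff_mpr bLeft bRight bCases bContra eq_of_forall iffV_self iffV_eq_top)
open WT (Fm)

/-- names -/
inductive Nm (P : Type u) [Preorder P] : Type (u + 1)
  | mk (ι : Type u) (elt : ι → Nm P) (val : ι → RO P) : Nm P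

namespace Nm

variable {P : Type u} [Preorder P]

/-- truth value of `x = y` -/
noncomputable def eq : Nm P → Nm P → RO P
  | mk ι a u, mk κ b v =>
    (⨅ i : ι, u i ⇨ ⨆ j : κ, v j ⊓ (a i).eq (b j)) ⊓
      (⨅ j : κ, v j ⇨ ⨆ i : ι, u i ⊓ (a i).eq (b j))

/-- truth value of `x ∈ y` -/
noncomputable def mem (x : Nm P) : Nm P → RO P
  | mk κ b v => ⨆ j : κ, v j ⊓ x.eq (b j)

theorem eq_mk (ι κ : Type u) (a : ι → Nm P) (u : ι → RO P) (b : κ → Nm P) (v : κ → RO P) :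
    eq (mk ι a u) (mk κ b v) = (⨅ i : ι, u i ⇨ ⨆ j : κ, v j ⊓ (a i).eq (b j)) ⊓
      (⨅ j : κ, v j ⇨ ⨆ i : ι, u i ⊓ (a i).eq (b j)) := by
  rw [eq]

theorem eq_refl (x : Nm P) : eq x x = ⊤ := by
  induction x with
  | mk ι a u ih =>
    unfold eq
    rw [eq_top_iff]
    refine le_inf (le_iInf fun i => bImp fun Δ _ h => bEx i (le_inf h ?_))
      (le_iInf fun i => bImp fun Δ _ h => bEx i (le_inf h ?_))
    · rw [ih i]; exact le_top
    · rw [ih i]; exact le_top

theorem bRefl {Γ : RO P} (x : Nm P) : Γ ≤ eq x x := by rw [eq_refl]; exact le_top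

theorem eq_symm (x y : Nm P) : eq x y = eq y x := by
  induction x generalizing y with
  | mk ι a u ih =>
    cases y with
    | mk κ b v =>
      unfold eq
      rw [inf_comm]
      congr 1
      · refine iInf_congr fun j => ?_
        congr 1
        refine iSup_congr fun i => ?_
        rw [ih i (b j)]
      · refine iInf_congr fun j => ?_
        congr 1
        refine iSup_congr fun i => ?_
        rw [ih j (b i)]

theorem bSymm {Γ : RO P} {x y : Nm P} (h : Γ ≤ eq x y) : Γ ≤ eq y x := by rwa [eq_symm]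

theorem bTrans {x y z : Nm P} {Γ : RO P} (h : Γ ≤ eq x y) (h' : Γ ≤ eq y z) : Γ ≤ eq x z := by
  induction x generalizing y z Γ with
  | mk ι a u ih =>
    cases y with
    | mk κ b v =>
      cases z with
      | mk μ c w =>
        unfold eq at h h' ⊢
        refine le_inf (le_iInf fun i => bImp fun Δ hΔ hu => ?_) (le_iInf fun k => bImp fun Δ hΔ hw => ?_)
        · refine bElim (bMP (bAll (bLeft (hΔ.trans h)) i) hu) fun j Δ₁ h1 h2 => ?_
          refine bElim (bMP (bAll (bLeft ((h1.trans hΔ).trans h')) j) (bLeft h2)) fun k Δ₂ h3 h4 => ?_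
          exact bEx k (le_inf (bLeft h4) (ih i (bRight (h3.trans h2)) (bRight h4)))
        · refine bElim (bMP (bAll (bRight (hΔ.trans h')) k) hw) fun j Δ₁ h1 h2 => ?_
          refine bElim (bMP (bAll (bRight ((h1.trans hΔ).trans h)) j) (bLeft h2)) fun i Δ₂ h3 h4 => ?_
          exact bEx i (le_inf (bLeft h4) (ih i (bRight h4) (bRight (h3.trans h2))))

theorem mem_mk (x : Nm P) (κ : Type u) (b : κ → Nm P) (v : κ → RO P) :
    mem x (mk κ b v) = ⨆ j, v j ⊓ eq x (b j) := rfl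

theorem bMemL {Γ : RO P} {x y z : Nm P} (h : Γ ≤ eq x y) (h' : Γ ≤ mem x z) : Γ ≤ mem y z := by
  cases z with
  | mk κ b v =>
    rw [mem_mk] at h' ⊢
    refine bElim h' fun j Δ h1 h2 => ?_
    exact bEx j (le_inf (bLeft h2) (bTrans (bSymm (h1.trans h)) (bRight h2)))

theorem bMemR {Γ : RO P} {x y z : Nm P} (h : Γ ≤ eq y z) (h' : Γ ≤ mem x y) : Γ ≤ mem x z := by
  cases y with
  | mk κ b v =>
    cases z with
    | mk μ c w =>
      rw [mem_mk] at h' ⊢
      unfold eq at h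
      refine bElim h' fun j Δ h1 h2 => ?_
      refine bElim (bMP (bAll (bLeft (h1.trans h)) j) (bLeft h2)) fun k Δ₂ h3 h4 => ?_
      exact bEx k (le_inf (bLeft h4) (bTrans (bRight (h3.trans h2)) (bRight h4)))

theorem bMemMk {Γ : RO P} {x : Nm P} {κ : Type u} {b : κ → Nm P} {v : κ → RO P} (j : κ)
    (h : Γ ≤ v j) (h' : Γ ≤ eq x (b j)) : Γ ≤ mem x (mk κ b v) := by
  rw [mem_mk]; exact bEx j (le_inf h h')

theorem bExt {Γ : RO P} {y z : Nm P}
    (h : ∀ x : Nm P, ∀ Δ ≤ Γ, Δ ≤ mem x y → Δ ≤ mem x z)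
    (h' : ∀ x : Nm P, ∀ Δ ≤ Γ, Δ ≤ mem x z → Δ ≤ mem x y) : Γ ≤ eq y z := by
  cases y with
  | mk κ b v =>
    cases z with
    | mk μ c w =>
      unfold eq
      refine le_inf (le_iInf fun j => bImp fun Δ hΔ hv => ?_) (le_iInf fun k => bImp fun Δ hΔ hw => ?_)
      · have h1 := h (b j) Δ hΔ (by rw [mem_mk]; exact bEx j (le_inf hv (bRefl _)))
        rw [mem_mk] at h1
        exact h1
      · have h1 := h' (c k) Δ hΔ (by rw [mem_mk]; exact bEx k (le_inf hw (bRefl _)))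
        rw [mem_mk] at h1
        refine bElim h1 fun j Δ₁ h2 h3 => bEx j (le_inf (bLeft h3) (bSymm (bRight h3)))

theorem eq_eq_iInf (y z : Nm P) : eq y z = ⨅ x, iffV (mem x y) (mem x z) := by
  refine eq_of_forall fun Γ => ⟨fun h => ?_, fun h => ?_⟩
  · exact le_iInf fun x => bIff (fun Δ hΔ hm => bMemR (hΔ.trans h) hm)
      (fun Δ hΔ hm => bMemR (bSymm (hΔ.trans h)) hm)
  · exact bExt (fun x Δ hΔ hm => bIff_mp (bAll (hΔ.trans h) x) hm)
      (fun x Δ hΔ hm => bIff_mpr (bAll (hΔ.trans h) x) hm)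

theorem eq_of_mem {y z : Nm P} (h : ∀ x, mem x y = mem x z) : eq y z = ⊤ := by
  rw [eq_eq_iInf, eq_top_iff]
  refine le_iInf fun x => ?_
  rw [h, iffV_self]

end Nm

section val

variable {P : Type u} [Preorder P] {κ : Type w} {n : ℕ}

/-- the Boolean value of a formula -/
noncomputable def vl (e : κ → Nm P) : {n : ℕ} → Fm κ n → (Fin n → Nm P) → RO P
  | _, .mem s t, v => Nm.mem (Sum.elim v e s) (Sum.elim v e t)
  | _, .eq s t, v => Nm.eq (Sum.elim v e s) (Sum.elim v e t)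
  | _, .fls, _ => ⊥
  | _, .imp f g, v => vl e f v ⇨ vl e g v
  | _, .all f, v => ⨅ x, vl e f (Matrix.vecCons x v)

variable (e : κ → Nm P)

@[simp] lemma vl_mem (s t : Fin n ⊕ κ) (v) :
    vl e (Fm.mem s t) v = Nm.mem (Sum.elim v e s) (Sum.elim v e t) := rfl
@[simp] lemma vl_eq (s t : Fin n ⊕ κ) (v) :
    vl e (Fm.eq s t) v = Nm.eq (Sum.elim v e s) (Sum.elim v e t) := rfl
@[simp] lemma vl_fls (v : Fin n → Nm P) : vl e (Fm.fls : Fm κ n) v = ⊥ := rfl
@[simp] lemma vl_imp (f g : Fm κ n) (v) :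
    vl e (Fm.imp f g) v = (vl e f v ⇨ vl e g v) := rfl
@[simp] lemma vl_all (f : Fm κ (n + 1)) (v) :
    vl e (Fm.all f) v = ⨅ x, vl e f (Matrix.vecCons x v) := rfl
@[simp] lemma vl_neg (f : Fm κ n) (v) : vl e f.neg v = (vl e f v)ᶜ := by
  simp [Fm.neg]
@[simp] lemma vl_and (f g : Fm κ n) (v) :
    vl e (f.and g) v = vl e f v ⊓ vl e g v := by
  simp [Fm.and, himp_eq, inf_comm]
@[simp] lemma vl_or (f g : Fm κ n) (v) : vl e (f.or g) v = vl e f v ⊔ vl e g v := by
  simp [Fm.or, himp_eq, sup_comm]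
@[simp] lemma vl_iff (f g : Fm κ n) (v) :
    vl e (f.iff g) v = iffV (vl e f v) (vl e g v) := by
  simp [Fm.iff, iffV]
@[simp] lemma vl_ex (f : Fm κ (n + 1)) (v) :
    vl e (Fm.ex f) v = ⨆ x, vl e f (Matrix.vecCons x v) := by
  simp [Fm.ex, compl_iInf]

end val

section congr

variable {P : Type u} [Preorder P] {κ : Type w} {n : ℕ}

theorem term_congr {e e' : κ → Nm P} {Γ : RO P} (he : ∀ c, Γ ≤ Nm.eq (e c) (e' c))
    {v v' : Fin n → Nm P} (hv : ∀ i, Γ ≤ Nm.eq (v i) (v' i)) (s : Fin n ⊕ κ) :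
    Γ ≤ Nm.eq (Sum.elim v e s) (Sum.elim v' e' s) := by
  cases s with
  | inl i => exact hv i
  | inr c => exact he c

theorem vl_congr (f : Fm κ n) {e e' : κ → Nm P} {Γ : RO P} (he : ∀ c, Γ ≤ Nm.eq (e c) (e' c))
    {v v' : Fin n → Nm P} (hv : ∀ i, Γ ≤ Nm.eq (v i) (v' i)) (h : Γ ≤ vl e f v) :
    Γ ≤ vl e' f v' := by
  induction f generalizing Γ e e' with
  | mem s t =>
    exact Nm.bMemL (term_congr he hv s) (Nm.bMemR (term_congr he hv t) h)
  | eq s t =>
    exact Nm.bTrans (Nm.bSymm (term_congr he hv s)) (Nm.bTrans h (term_congr he hv t))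
  | fls => exact h
  | imp f g hf hg =>
    refine bImp fun Δ hΔ h' => ?_
    refine hg (fun c => hΔ.trans (he c)) (fun i => hΔ.trans (hv i)) (bMP (hΔ.trans h) ?_)
    exact hf (fun c => Nm.bSymm (hΔ.trans (he c))) (fun i => Nm.bSymm (hΔ.trans (hv i))) h'
  | all f hf =>
    refine le_iInf fun x => hf he (fun i => ?_) (bAll h x)
    refine Fin.cases ?_ (fun j => ?_) i
    · exact Nm.bRefl x
    · exact hv j

theorem vl_map {κ' : Type v} (r : κ → κ') (e : κ' → Nm P) (f : Fm κ n) (v) :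
    vl e (f.map r) v = vl (e ∘ r) f v := by
  induction f with
  | mem s t => cases s <;> cases t <;> rfl
  | eq s t => cases s <;> cases t <;> rfl
  | fls => rfl
  | imp f g hf hg => simp only [Fm.map, vl_imp, hf, hg]
  | all f hf => simp only [Fm.map, vl_all, hf]

@[simp] theorem vl_ren {m : ℕ} (r : Fin n → Fin m) (e : κ → Nm P) (f : Fm κ n)
    (v : Fin m → Nm P) : vl e (f.ren r) v = vl e f (fun i => v (r i)) := by
  induction f generalizing m with
  | mem s t => cases s <;> cases t <;> rfl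
  | eq s t => cases s <;> cases t <;> rfl
  | fls => rfl
  | imp f g hf hg => simp only [Fm.ren, vl_imp, hf, hg]
  | all f hf => simp only [Fm.ren, vl_all, hf, Fm.vecCons_liftRen]

end congr

namespace Nm

variable {P : Type u} [Preorder P]

/-! ### particular names -/

/-- the empty name -/
def emp : Nm P := mk PEmpty (fun i => i.elim) (fun i => i.elim)

theorem mem_emp (x : Nm P) : mem x emp = ⊥ := by
  show (⨆ j : PEmpty, _) = ⊥
  exact iSup_of_empty _

instance : Nonempty (Nm P) := ⟨emp⟩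

/-- `{a} ∪ x` -/
def ins (a : Nm P) : Nm P → Nm P
  | mk ι b v => mk (Option ι) (fun o => o.elim a b) (fun o => o.elim ⊤ v)

theorem mem_ins (a x w : Nm P) : mem w (ins a x) = eq w a ⊔ mem w x := by
  cases x with
  | mk ι b v =>
    show (⨆ o : Option ι, _) = _
    rw [iSup_option]
    simp only [Option.elim, top_inf_eq]
    rfl

/-- the unordered pair -/
def upair (x y : Nm P) : Nm P := mk (ULift Bool) (fun b => if b.down then x else y) (fun _ => ⊤)

theorem mem_upair (z x y : Nm P) : mem z (upair x y) = eq z x ⊔ eq z y := by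
  show (⨆ b : ULift Bool, _) = _
  refine le_antisymm (iSup_le ?_) (sup_le ?_ ?_)
  · rintro ⟨b⟩
    cases b
    · simp
    · simp
  · exact bEx ⟨true⟩ (by simp)
  · exact bEx ⟨false⟩ (by simp)

/-- the ordered pair -/
def opair (x y : Nm P) : Nm P := upair (upair x x) (upair x y)

theorem upair_inj {x y x' y' : Nm P} (h : upair x y = upair x' y') : x = x' ∧ y = y' := by
  unfold upair at h
  injection h with _ h1 _
  have h2 := congrFun h1 ⟨true⟩
  have h3 := congrFun h1 ⟨false⟩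
  simp at h2 h3
  exact ⟨h2, h3⟩

theorem opair_inj {x y x' y' : Nm P} (h : opair x y = opair x' y') : x = x' ∧ y = y' :=
  upair_inj (upair_inj h).2

theorem bUpairCongr {Γ : RO P} {x y x' y' : Nm P} (h : Γ ≤ eq x x') (h' : Γ ≤ eq y y') :
    Γ ≤ eq (upair x y) (upair x' y') := by
  refine bExt (fun z Δ hΔ hm => ?_) (fun z Δ hΔ hm => ?_)
  · rw [mem_upair] at hm ⊢
    refine bOr hm (fun Δ₁ h1 h2 => ?_) (fun Δ₁ h1 h2 => ?_)
    · exact (bTrans h2 ((h1.trans hΔ).trans h)).trans le_sup_left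
    · exact (bTrans h2 ((h1.trans hΔ).trans h')).trans le_sup_right
  · rw [mem_upair] at hm ⊢
    refine bOr hm (fun Δ₁ h1 h2 => ?_) (fun Δ₁ h1 h2 => ?_)
    · exact (bTrans h2 (bSymm ((h1.trans hΔ).trans h))).trans le_sup_left
    · exact (bTrans h2 (bSymm ((h1.trans hΔ).trans h'))).trans le_sup_right

theorem bOpairCongr {Γ : RO P} {x y x' y' : Nm P} (h : Γ ≤ eq x x') (h' : Γ ≤ eq y y') :
    Γ ≤ eq (opair x y) (opair x' y') :=
  bUpairCongr (bUpairCongr h h) (bUpairCongr h h')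

theorem bMem1 {Γ : RO P} (x y : Nm P) : Γ ≤ mem x (upair x y) := by
  rw [mem_upair]; exact (bRefl x).trans le_sup_left

theorem bMem2 {Γ : RO P} (x y : Nm P) : Γ ≤ mem y (upair x y) := by
  rw [mem_upair]; exact (bRefl y).trans le_sup_right

theorem bOpairFst {Γ : RO P} {x y x' y' : Nm P} (h : Γ ≤ eq (opair x y) (opair x' y')) :
    Γ ≤ eq x x' := by
  have h1 : Γ ≤ mem (upair x x) (opair x' y') := bMemR h (bMem1 _ _)
  unfold opair at h1
  rw [mem_upair] at h1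
  refine bOr h1 (fun Δ _ h2 => ?_) (fun Δ _ h2 => ?_)
  · have h3 : Δ ≤ mem x (upair x' x') := bMemR h2 (bMem1 _ _)
    rw [mem_upair, sup_idem] at h3
    exact h3
  · have h3 : Δ ≤ mem x' (upair x x) := bMemR (bSymm h2) (bMem1 _ _)
    rw [mem_upair, sup_idem] at h3
    exact bSymm h3

theorem bOpairSnd {Γ : RO P} {x y x' y' : Nm P} (h : Γ ≤ eq (opair x y) (opair x' y')) :
    Γ ≤ eq y y' := by
  have hx := bOpairFst h
  have key : ∀ Δ ≤ Γ, Δ ≤ eq y x' → Δ ≤ mem (upair x' y') (opair x y) → Δ ≤ eq y y' := by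
    intro Δ hΔ h1 h2
    unfold opair at h2
    rw [mem_upair] at h2
    refine bOr h2 (fun Δ₁ h3 h4 => ?_) (fun Δ₁ h3 h4 => ?_)
    · have h5 : Δ₁ ≤ mem y' (upair x x) := bMemR h4 (bMem2 _ _)
      rw [mem_upair, sup_idem] at h5
      exact bTrans (h3.trans h1) (bTrans (bSymm ((h3.trans hΔ).trans hx)) (bSymm h5))
    · have h5 : Δ₁ ≤ mem y' (upair x y) := bMemR h4 (bMem2 _ _)
      rw [mem_upair] at h5
      refine bOr h5 (fun Δ₂ h6 h7 => ?_) (fun Δ₂ h6 h7 => bSymm h7)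
      exact bTrans ((h6.trans h3).trans h1) (bTrans (bSymm (((h6.trans h3).trans hΔ).trans hx)) (bSymm h7))
  have hL : Γ ≤ mem (upair x' y') (opair x y) := bMemR (bSymm h) (bMem2 _ _)
  have h1 : Γ ≤ mem (upair x y) (opair x' y') := bMemR h (bMem2 _ _)
  unfold opair at h1
  rw [mem_upair] at h1
  refine bOr h1 (fun Δ hΔ h2 => ?_) (fun Δ hΔ h2 => ?_)
  · have h3 : Δ ≤ mem y (upair x' x') := bMemR h2 (bMem2 _ _)
    rw [mem_upair, sup_idem] at h3
    exact key Δ hΔ h3 (hΔ.trans hL)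
  · have h3 : Δ ≤ mem y (upair x' y') := bMemR h2 (bMem2 _ _)
    rw [mem_upair] at h3
    refine bOr h3 (fun Δ₁ h4 h5 => ?_) (fun Δ₁ h4 h5 => h5)
    exact key Δ₁ (h4.trans hΔ) h5 ((h4.trans hΔ).trans hL)

/-! ### the axioms -/

/-- a function on names that respects equality -/
def Cong (Φ : Nm P → RO P) : Prop := ∀ x y Γ, Γ ≤ eq x y → Γ ≤ Φ x → Γ ≤ Φ y

theorem Cong.le {Φ : Nm P → RO P} (h : Cong Φ) {x y : Nm P} {Γ : RO P} (h1 : Γ ≤ eq x y)
    (h2 : Γ ≤ Φ x) : Γ ≤ Φ y := h x y Γ h1 h2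

theorem cong_vl {κ : Type w} (e : κ → Nm P) (f : Fm κ 1) : Cong fun x => vl e f ![x] :=
  fun _ _ _ h h' => vl_congr f (fun _ => bRefl _) (fun j => by fin_cases j; exact h) h'

/-- separation -/
noncomputable def sep (Φ : Nm P → RO P) : Nm P → Nm P
  | mk ι a v => mk ι a fun i => v i ⊓ Φ (a i)

theorem mem_sep {Φ : Nm P → RO P} (hΦ : Cong Φ) (x w : Nm P) :
    mem w (sep Φ x) = mem w x ⊓ Φ w := by
  cases x with
  | mk ι a v =>
    show (⨆ i, (v i ⊓ Φ (a i)) ⊓ eq w (a i)) = (⨆ i, v i ⊓ eq w (a i)) ⊓ Φ w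
    rw [iSup_inf_eq]
    refine iSup_congr fun i => eq_of_forall fun Γ => ⟨fun h => ?_, fun h => ?_⟩
    · exact le_inf (le_inf (bLeft (bLeft h)) (bRight h)) (hΦ.le (bSymm (bRight h)) (bRight (bLeft h)))
    · exact le_inf (le_inf (bLeft (bLeft h)) (hΦ.le (bRight (bLeft h)) (bRight h))) (bRight (bLeft h))

theorem exists_sep {κ : Type w} (e : κ → Nm P) (f : Fm κ 1) (x : Nm P) :
    ∃ z : Nm P, ∀ w, mem w z = mem w x ⊓ vl e f ![w] :=
  ⟨sep _ x, fun w => mem_sep (cong_vl e f) x w⟩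

theorem exists_union (x : Nm P) : ∃ z : Nm P, ∀ w, mem w z = ⨆ y, mem y x ⊓ mem w y := by
  cases x with
  | mk ι a u =>
    have h2 : ∀ i, ∃ (κ : Type u) (b : κ → Nm P) (v : κ → RO P), a i = mk κ b v := fun i => by
      cases h : a i with
      | mk κ b v => exact ⟨κ, b, v, rfl⟩
    choose κ b v h2 using h2
    refine ⟨mk (Σ i, κ i) (fun p => b p.1 p.2) (fun p => u p.1 ⊓ v p.1 p.2), fun w => ?_⟩
    refine le_antisymm ?_ (iSup_le fun y => ?_)
    · refine iSup_le fun p => bEx (a p.1) (le_inf ?_ ?_)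
      · exact bMemMk p.1 (bLeft (bLeft le_rfl)) (bRefl _)
      · rw [h2]
        exact bMemMk p.2 (bRight (bLeft le_rfl)) (bRight le_rfl)
    · refine bElim (bLeft le_rfl : mem y (mk ι a u) ⊓ mem w y ≤ mem y (mk ι a u)) fun i Δ h3 h4 => ?_
      have h5 : Δ ≤ mem w (a i) := bMemR (bRight h4) (bRight h3)
      rw [h2, mem_mk] at h5
      refine bElim h5 fun j Δ' h6 h7 => ?_
      exact bMemMk (κ := Σ i, κ i) ⟨i, j⟩ (le_inf (bLeft (h6.trans h4)) (bLeft h7)) (bRight h7)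

theorem exists_power (x : Nm P) : ∃ z : Nm P, ∀ w, mem w z = ⨅ y, mem y w ⇨ mem y x := by
  cases x with
  | mk ι a u =>
    refine ⟨mk {v : ι → RO P // ∀ i, v i ≤ u i} (fun v => mk ι a v.1) (fun _ => ⊤), fun w => ?_⟩
    rw [mem_mk]
    refine le_antisymm (iSup_le fun v => le_iInf fun y => bImp fun Δ h1 h2 => ?_) ?_
    · have h3 := bMemR (bRight h1) h2
      rw [mem_mk] at h3 ⊢
      exact h3.trans (iSup_mono fun i => inf_le_inf_right _ (v.2 i))
    · refine bEx ⟨fun i => u i ⊓ mem (a i) w, fun i => inf_le_left⟩ (le_inf le_top ?_)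
      refine bExt (fun y Δ h1 h2 => ?_) (fun y Δ h1 h2 => ?_)
      · have h3 := bMP (bAll h1 y) h2
        rw [mem_mk] at h3
        refine bElim h3 fun i Δ' h4 h5 => ?_
        exact bMemMk i (le_inf (bLeft h5) (bMemL (bRight h5) (h4.trans h2))) (bRight h5)
      · rw [mem_mk] at h2
        refine bElim h2 fun i Δ' _ h5 => ?_
        exact bMemL (bSymm (bRight h5)) (bRight (bLeft h5))

theorem foundation (x : Nm P) {Γ : RO P} (y : Nm P) (h : Γ ≤ mem y x) :
    Γ ≤ ⨆ y, mem y x ⊓ ⨅ z, mem z y ⇨ (mem z x)ᶜ := by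
  induction y generalizing Γ with
  | mk ι a v ih =>
    refine bCases (⨅ z, mem z (Nm.mk ι a v) ⇨ (mem z x)ᶜ) (fun Δ h1 h2 => ?_)
      (fun Δ h1 h2 => ?_)
    · exact bEx _ (le_inf (h1.trans h) h2)
    · rw [compl_iInf] at h2
      refine bElim h2 fun z Δ' h3 h4 => ?_
      simp only [himp_eq, compl_sup, compl_compl] at h4
      have h5 : Δ' ≤ ⨆ i, v i ⊓ eq z (a i) := bRight h4
      refine bElim h5 fun i Δ'' h6 h7 => ?_
      exact ih i (bMemL (bRight h7) (bLeft (h6.trans h4)))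

theorem exists_coll {I : Type u} (F : I → Nm P → RO P) :
    ∃ z : Nm P, ∀ i, ⨆ y, F i y ≤ ⨆ y, mem y z ⊓ F i y := by
  classical
  let Y : I → RO P → Nm P := fun i b => if h : ∃ y, F i y = b then h.choose else emp
  have hY : ∀ i y, F i (Y i (F i y)) = F i y := by
    intro i y
    have h : ∃ y', F i y' = F i y := ⟨y, rfl⟩
    have : Y i (F i y) = h.choose := dif_pos h
    rw [this]
    exact h.choose_spec
  refine ⟨mk (I × RO P) (fun p => Y p.1 p.2) (fun _ => ⊤), fun i => iSup_le fun y =>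
    bEx (Y i (F i y)) (le_inf ?_ ?_)⟩
  · exact bMemMk (κ := I × RO P) (i, F i y) le_top (bRefl _)
  · rw [hY]

theorem wf_sup {κ : Type*} (r : κ → κ → Prop) (hr : WellFounded r) (φ : κ → RO P) :
    ⨆ u, φ u ≤ ⨆ u, φ u ⊓ ⨅ u', ⨅ _ : r u' u, (φ u')ᶜ := by
  refine iSup_le fun u => ?_
  induction u using hr.induction with
  | _ u ih =>
    refine bCases (⨅ u', ⨅ _ : r u' u, (φ u')ᶜ) (fun Δ h1 h2 => ?_) (fun Δ h1 h2 => ?_)
    · exact bEx u (le_inf h1 h2)
    · simp only [compl_iInf, compl_compl] at h2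
      refine bElim h2 fun u' Δ' h3 h4 => bElim h4 fun hu' Δ'' h5 h6 => ?_
      exact h6.trans (ih u' hu')

theorem choice (x : Nm P) {Γ : RO P} (h1 : Γ ≤ ⨅ y, mem y x ⇨ ⨆ z, mem z y)
    (h2 : Γ ≤ ⨅ y, ⨅ y', ⨅ z, mem y x ⇨ mem y' x ⇨ mem z y ⇨ mem z y' ⇨ eq y y') :
    Γ ≤ ⨆ c, ⨅ y, mem y x ⇨ ⨆ z, (mem z y ⊓ mem z c) ⊓ ⨅ z', (mem z' y ⊓ mem z' c) ⇨ eq z' z := by
  cases x with
  | mk ι a u =>
    have ha : ∀ i, ∃ (κ : Type u) (b : κ → Nm P) (v : κ → RO P), a i = mk κ b v := fun i => by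
      cases h : a i with
      | mk κ b v => exact ⟨κ, b, v, rfl⟩
    choose κ b v ha using ha
    let K := Σ i, κ i
    let bb : K → Nm P := fun p => b p.1 p.2
    let r : K → K → Prop := WellOrderingRel
    have hr : IsWellOrder K r := WellOrderingRel.isWellOrder
    -- the least element of `y`
    let ψ : Nm P → K → RO P := fun y p => mem (bb p) y ⊓ ⨅ p', ⨅ _ : r p' p, (mem (bb p') y)ᶜ
    have hψ : ∀ (y y' : Nm P) (p : K) (Δ : RO P), Δ ≤ eq y y' → Δ ≤ ψ y p → Δ ≤ ψ y' p := by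
      intro y y' p Δ h h'
      refine le_inf (bMemR h (bLeft h')) (le_iInf fun p' => le_iInf fun hp' => ?_)
      refine bNot fun Δ' h3 h4 => ?_
      exact bAbs (bAll (bAll (bRight (h3.trans h')) p') hp') (bMemR (bSymm (h3.trans h)) h4)
    refine bEx (mk K bb fun p => ⨆ y, mem y (mk ι a u) ⊓ ψ y p) ?_
    refine le_iInf fun y => bImp fun Δ hΔ hy => ?_
    have hz : Δ ≤ ⨆ z, mem z y := bMP (bAll (hΔ.trans h1) y) hy
    have hz' : Δ ≤ ⨆ p, mem (bb p) y := by
      refine bElim hz fun z Δ₁ h3 h4 => ?_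
      refine bElim (h3.trans hy) fun i Δ₂ h5 h6 => ?_
      have h7 : Δ₂ ≤ mem z (a i) := bMemR (bRight h6) (h5.trans h4)
      rw [ha, mem_mk] at h7
      refine bElim h7 fun j Δ₃ h8 h9 => ?_
      exact bEx ⟨i, j⟩ (bMemL (bRight h9) ((h8.trans h5).trans h4))
    refine bElim (hz'.trans (wf_sup r hr.wf _)) fun p Δ₁ h3 h4 => ?_
    refine bEx (bb p) (le_inf (le_inf (bLeft h4) ?_) (le_iInf fun z' => bImp fun Δ₂ h5 h6 => ?_))
    · exact bMemMk p (bEx y (le_inf (h3.trans hy) h4)) (bRefl _)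
    · have h7 := bRight h6
      rw [mem_mk] at h7
      refine bElim h7 fun p' Δ₃ h8 h9 => ?_
      refine bElim (bLeft h9) fun y' Δ₄ h10 h11 => ?_
      have hΔ₄ : Δ₄ ≤ Δ := ((h10.trans h8).trans h5).trans h3
      have h12 : Δ₄ ≤ mem z' y' :=
        bMemL (bSymm (bRight (h10.trans h9))) (bLeft (bRight h11))
      have h13 : Δ₄ ≤ eq y' y := by
        have := bAll (bAll (bAll (hΔ₄.trans (hΔ.trans h2)) y') y) z'
        exact bMP (bMP (bMP (bMP this (bLeft h11)) (hΔ₄.trans hy)) h12) (bLeft ((h10.trans h8).trans h6))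
      have h14 : Δ₄ ≤ ψ y p' := hψ _ _ _ _ h13 (bRight h11)
      have h15 : Δ₄ ≤ ψ y p := (((h10.trans h8).trans h5).trans h4)
      by_cases hA : r p' p
      · exact (bAbs (bAll (bAll (bRight h15) p') hA) (bLeft h14)).trans bot_le
      · by_cases hB : r p p'
        · exact (bAbs (bAll (bAll (bRight h14) p) hB) (bLeft h15)).trans bot_le
        · rw [← hr.trichotomous p' p hA hB]; exact bRight (h10.trans h9)

/-- natural numbers -/
def nat : ℕ → Nm P
  | 0 => emp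
  | n + 1 => ins (nat n) (nat n)

theorem mem_nat_succ (x : Nm P) (n : ℕ) : mem x (nat (n + 1)) = eq x (nat n) ⊔ mem x (nat n) :=
  mem_ins _ _ _

/-- the set of natural numbers -/
def omg : Nm P := mk (ULift ℕ) (fun n => nat n.down) (fun _ => ⊤)

theorem mem_omg (x : Nm P) : mem x omg = ⨆ n, eq x (nat n) := by
  show (⨆ n : ULift ℕ, _) = _
  refine le_antisymm (iSup_le fun n => bEx n.down (bRight le_rfl)) (iSup_le fun n => bEx ⟨n⟩ ?_)
  exact le_inf le_top le_rfl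

theorem mem_irrefl (x : Nm P) : mem x x = ⊥ := by
  have key : ∀ x y : Nm P, ∀ Γ : RO P, Γ ≤ Nm.eq x y → Γ ≤ Nm.mem x y → Γ ≤ ⊥ := by
    intro x
    induction x with
    | mk ι a v ih =>
      intro y Γ h1 h2
      have h3 : Γ ≤ Nm.mem (Nm.mk ι a v) (Nm.mk ι a v) := Nm.bMemR (Nm.bSymm h1) h2
      rw [Nm.mem_mk] at h3
      refine bElim h3 fun i Δ _ h4 => ?_
      refine ih i (a i) Δ (Nm.bRefl _) ?_
      have h5 : Δ ≤ Nm.mem (a i) (Nm.mk ι a v) := by
        rw [Nm.mem_mk]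
        exact bEx i (le_inf (bLeft h4) (Nm.bRefl _))
      exact Nm.bMemR (bRight h4) h5
  exact le_bot_iff.1 (key x x _ (Nm.bRefl _) le_rfl)

end Nm

end Pool.Agent.Helper23.CK
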