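import Pool.Agent.Helper23.CK.NB2

set_option autoImplicit false

/-!
# Smallness and closure ordinals
-/

namespace Pool.Agent.Helper23.CK

open WT (iffV bElim bOr bMP bImp bNot bAbs bAll bEx bIff bIff_mp bIff_mpr bLeft bRight bCases bContra eq_of_forall iffV_self iffV_eq_top)
open scoped Ordinal
open Cd

instance small_base (ν : O) : Small.{0} {p : Cd // p.I ⊆ Set.Iio ν} := by
  let T := (Set.Iio (ω₁ : O)) × (Set.Iio ν → Prop) ×
    (Set.Iio (ω₁ : O) → ℕ → Set.Iio (ω₁ : O) → B) × (Set.Iio ν → Set.Iio (ω₁ : O) → B) ×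
    (Set.Iio ν → Set.Iio (ω₁ : O) → Set.Iic ν)
  let F : {p : Cd // p.I ⊆ Set.Iio ν} → T := fun p =>
    (⟨p.1.ht, p.1.ht_lt⟩, fun i => i.1 ∈ p.1.I, fun δ m β => p.1.E δ.1 m β.1,
      fun i β => p.1.f i.1 β.1, fun i β => ⟨p.1.g i.1 β.1, (p.1.g_le _ _).trans (le_of_lt i.2)⟩)
  refine small_of_injective (f := F) ?_
  rintro ⟨p, hp⟩ ⟨q, hq⟩ h
  have h1 : p.ht = q.ht := congrArg (fun t : T => t.1.1) h
  have h2 : (fun i : Set.Iio ν => i.1 ∈ p.I) = fun i : Set.Iio ν => i.1 ∈ q.I :=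
    congrArg (fun t : T => t.2.1) h
  have h3 : (fun (δ : Set.Iio (ω₁ : O)) (m : ℕ) (β : Set.Iio (ω₁ : O)) => p.E δ.1 m β.1) =
    fun (δ : Set.Iio (ω₁ : O)) (m : ℕ) (β : Set.Iio (ω₁ : O)) => q.E δ.1 m β.1 :=
    congrArg (fun t : T => t.2.2.1) h
  have h4 : (fun (i : Set.Iio ν) (β : Set.Iio (ω₁ : O)) => p.f i.1 β.1) =
    fun (i : Set.Iio ν) (β : Set.Iio (ω₁ : O)) => q.f i.1 β.1 :=
    congrArg (fun t : T => t.2.2.2.1) h
  have h5 : (fun (i : Set.Iio ν) (β : Set.Iio (ω₁ : O)) => p.g i.1 β.1) =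
    fun (i : Set.Iio ν) (β : Set.Iio (ω₁ : O)) => q.g i.1 β.1 :=
    congrArg (fun (t : T) i β => (t.2.2.2.2 i β).1) h
  have hI : p.I = q.I := by
    ext i
    by_cases hi : i < ν
    · have := congrFun h2 ⟨i, hi⟩
      simp only [eq_iff_iff] at this
      exact this
    · exact ⟨fun h => (hi (hp h)).elim, fun h => (hi (hq h)).elim⟩
  refine Subtype.ext (Cd.ext' h1 hI ?_ ?_ ?_)
  · funext δ m β
    by_cases hδ : δ < ω₁
    · by_cases hβ : β < ω₁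
      · exact congrFun (congrFun (congrFun h3 ⟨δ, hδ⟩) m) ⟨β, hβ⟩
      · rw [p.E_supp _ _ _ (Or.inr (hδ.le.trans (not_lt.1 hβ))),
          q.E_supp _ _ _ (Or.inr (hδ.le.trans (not_lt.1 hβ)))]
    · rw [p.E_supp _ _ _ (Or.inl (p.ht_lt.trans_le (not_lt.1 hδ))),
        q.E_supp _ _ _ (Or.inl (q.ht_lt.trans_le (not_lt.1 hδ)))]
  · funext i β
    by_cases hi : i < ν
    · by_cases hβ : β < ω₁
      · exact congrFun (congrFun h4 ⟨i, hi⟩) ⟨β, hβ⟩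
      · rw [p.f_supp _ _ (Or.inr (p.ht_lt.le.trans (not_lt.1 hβ))),
          q.f_supp _ _ (Or.inr (q.ht_lt.le.trans (not_lt.1 hβ)))]
    · rw [p.f_supp _ _ (Or.inl fun h => hi (hp h)), q.f_supp _ _ (Or.inl fun h => hi (hq h))]
  · funext i β
    by_cases hi : i < ν
    · by_cases hβ : β < ω₁
      · exact congrFun (congrFun h5 ⟨i, hi⟩) ⟨β, hβ⟩
      · rw [p.g_supp _ _ (Or.inr (p.ht_lt.le.trans (not_lt.1 hβ))),
          q.g_supp _ _ (Or.inr (q.ht_lt.le.trans (not_lt.1 hβ)))]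
    · rw [p.g_supp _ _ (Or.inl fun h => hi (hp h)), q.g_supp _ _ (Or.inl fun h => hi (hq h))]

/-- a bound for the indices -/
noncomputable def bnd (p : Cd) : O := ⨆ i : p.I, Order.succ i.1

theorem sub_bnd (p : Cd) : p.I ⊆ Set.Iio (bnd p) := by
  intro i hi
  have : Countable p.I := p.cnt.to_subtype
  have : Small.{0} p.I := inferInstance
  exact (Order.lt_succ i).trans_le (le_ciSup (f := fun i : p.I => Order.succ i.1)
    Ordinal.bddAbove_of_small ⟨i, hi⟩)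

/-- the iteration -/
noncomputable def iterD (φ : O → O) (δ₀ : O) : O → O :=
  WellFounded.fix (C := fun _ => O) (r := (· < ·)) wellFounded_lt fun ξ D =>
    max δ₀ (⨆ η : Set.Iio ξ, Order.succ (max (D η.1 η.2) (⨆ ν : Set.Iic (D η.1 η.2), φ ν.1)))

theorem iterD_eq (φ : O → O) (δ₀ ξ : O) : iterD φ δ₀ ξ =
    max δ₀ (⨆ η : Set.Iio ξ, Order.succ (max (iterD φ δ₀ η.1) (⨆ ν : Set.Iic (iterD φ δ₀ η.1), φ ν.1))) := by
  unfold iterD
  rw [WellFounded.fix_eq]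

theorem exists_closed (φ : O → O) (δ₀ : O) : ∃ δ, δ₀ ≤ δ ∧ (∀ ν < δ, φ ν < δ) ∧
    ∀ A : Set O, A.Countable → A ⊆ Set.Iio δ → ∃ ν < δ, A ⊆ Set.Iio ν := by
  have h1 : ∀ η ξ, η < ξ → iterD φ δ₀ η < iterD φ δ₀ ξ ∧ ∀ ν ≤ iterD φ δ₀ η, φ ν < iterD φ δ₀ ξ := by
    intro η ξ h
    rw [iterD_eq φ δ₀ ξ]
    have h2 : Order.succ (max (iterD φ δ₀ η) (⨆ ν : Set.Iic (iterD φ δ₀ η), φ ν.1)) ≤
        ⨆ η : Set.Iio ξ, Order.succ (max (iterD φ δ₀ η.1) (⨆ ν : Set.Iic (iterD φ δ₀ η.1), φ ν.1)) :=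
      le_ciSup (f := fun η : Set.Iio ξ => Order.succ (max (iterD φ δ₀ η.1)
        (⨆ ν : Set.Iic (iterD φ δ₀ η.1), φ ν.1))) Ordinal.bddAbove_of_small ⟨η, h⟩
    constructor
    · exact ((le_max_left _ _).trans_lt (Order.lt_succ _)).trans_le (h2.trans (le_max_right _ _))
    · intro ν hν
      refine lt_of_lt_of_le ?_ (h2.trans (le_max_right _ _))
      refine lt_of_le_of_lt ?_ (Order.lt_succ _)
      exact (le_ciSup (f := fun ν : Set.Iic (iterD φ δ₀ η) => φ ν.1)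
        Ordinal.bddAbove_of_small ⟨ν, hν⟩).trans (le_max_right _ _)
  have hle : ∀ ξ < ω₁, iterD φ δ₀ ξ ≤ ⨆ ξ : Set.Iio (ω₁ : O), iterD φ δ₀ ξ.1 := fun ξ hξ =>
    le_ciSup (f := fun ξ : Set.Iio (ω₁ : O) => iterD φ δ₀ ξ.1) Ordinal.bddAbove_of_small ⟨ξ, hξ⟩
  have hlt : ∀ ν < ⨆ ξ : Set.Iio (ω₁ : O), iterD φ δ₀ ξ.1, ∃ ξ < ω₁, ν < iterD φ δ₀ ξ := by
    intro ν hν
    by_contra hc
    push Not at hc
    exact absurd (Ordinal.iSup_le fun ξ : Set.Iio (ω₁ : O) => hc ξ.1 ξ.2) (not_le.2 hν)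
  refine ⟨⨆ ξ : Set.Iio (ω₁ : O), iterD φ δ₀ ξ.1, ?_, ?_, ?_⟩
  · refine le_trans ?_ (hle 0 zero_lt_omega1)
    rw [iterD_eq]
    exact le_max_left _ _
  · intro ν hν
    obtain ⟨ξ, hξ, h⟩ := hlt ν hν
    have hξ' : Order.succ ξ < ω₁ := (Cardinal.isSuccLimit_omega 1).succ_lt hξ
    exact ((h1 ξ _ (Order.lt_succ ξ)).2 ν h.le).trans_le (hle _ hξ')
  · intro A hA hAδ
    have hA' : Countable A := hA.to_subtype
    choose! ξ h2 h3 using hlt
    refine ⟨iterD φ δ₀ (Order.succ (⨆ a : A, ξ a.1)), ?_, ?_⟩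
    · have hs : (⨆ a : A, ξ a.1) < ω₁ := Ordinal.iSup_lt_omega_one fun a => h2 a.1 (hAδ a.2)
      have hs' : Order.succ (⨆ a : A, ξ a.1) < ω₁ := (Cardinal.isSuccLimit_omega 1).succ_lt hs
      exact ((h1 _ _ (Order.lt_succ _)).1).trans_le (hle _ ((Cardinal.isSuccLimit_omega 1).succ_lt hs'))
    · intro a ha
      have h4 : ξ a ≤ ⨆ a : A, ξ a.1 :=
        le_ciSup (f := fun a : A => ξ a.1) Ordinal.bddAbove_of_small ⟨a, ha⟩
      exact (h3 a (hAδ ha)).trans (h1 _ _ (h4.trans_lt (Order.lt_succ _))).1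

/-- a closure ordinal for a small family of dense sets -/
theorem exists_delta {X : Type*} [Small.{0} X] (D : X → Cd → Prop)
    (hD : ∀ x p, ∃ q ≤ p, D x q) (δ₀ : O) : ∃ δ, δ₀ ≤ δ ∧
    ∀ x, ∀ e : Cd, e.I ⊆ Set.Iio δ → ∃ e' ≤ e, e'.I ⊆ Set.Iio δ ∧ D x e' := by
  choose nx h1 h2 using hD
  let φ : O → O := fun ν => ⨆ t : {p : Cd // p.I ⊆ Set.Iio ν} × X, bnd (nx t.2 t.1.1)
  obtain ⟨δ, hδ, hc, hb⟩ := exists_closed φ δ₀
  refine ⟨δ, hδ, fun x e he => ⟨nx x e, h1 x e, ?_, h2 x e⟩⟩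
  obtain ⟨ν, hν, heν⟩ := hb e.I e.cnt he
  have h3 : bnd (nx x e) ≤ φ ν := le_ciSup
    (f := fun t : {p : Cd // p.I ⊆ Set.Iio ν} × X => bnd (nx t.2 t.1.1))
    Ordinal.bddAbove_of_small (⟨e, heν⟩, x)
  exact (sub_bnd _).trans (Set.Iio_subset_Iio (h3.trans (hc ν hν).le))

/-- a strong form of the `κ`-chain condition -/
theorem exists_compat {X : Type*} [Small.{0} X] (p : O → Cd) (c : O → X) :
    ∃ i j, i < j ∧ c i = c j ∧ ∃ q, q ≤ p i ∧ q ≤ p j := by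
  classical
  -- witnesses
  let w : (ν : O) → {p : Cd // p.I ⊆ Set.Iio ν} → X → O := fun ν e x =>
    if h : ∃ i, c i = x ∧ res ν (p i) = e.1 then h.choose else 0
  let φ : O → O := fun ν => ⨆ t : {p : Cd // p.I ⊆ Set.Iio ν} × X,
    max (w ν t.1 t.2) (bnd (p (w ν t.1 t.2)))
  obtain ⟨δ, hδ, hc, hb⟩ := exists_closed φ 1
  obtain ⟨ν, hν, heν⟩ := hb ((p δ).I ∩ Set.Iio δ) ((p δ).cnt.mono Set.inter_subset_left)
    Set.inter_subset_right
  have hex : ∃ i, c i = c δ ∧ res ν (p i) = res ν (p δ) := ⟨δ, rfl, rfl⟩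
  let e : {p : Cd // p.I ⊆ Set.Iio ν} := ⟨res ν (p δ), res_I ν _⟩
  have hw : w ν e (c δ) = hex.choose := dif_pos hex
  have hi := hex.choose_spec
  rw [← hw] at hi
  have h3 : max (w ν e (c δ)) (bnd (p (w ν e (c δ)))) ≤ φ ν := le_ciSup
    (f := fun t : {p : Cd // p.I ⊆ Set.Iio ν} × X => max (w ν t.1 t.2) (bnd (p (w ν t.1 t.2))))
    Ordinal.bddAbove_of_small (e, c δ)
  have hlt := h3.trans_lt (hc ν hν)
  set i := w ν e (c δ) with hidef
  have hiδ : i < δ := (le_max_left _ _).trans_lt hlt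
  have hIi : (p i).I ⊆ Set.Iio δ := (sub_bnd _).trans
    (Set.Iio_subset_Iio ((le_max_right _ _).trans_lt hlt).le)
  -- `p i` is below the restriction of `p δ` to `δ`
  have hle : p i ≤ res δ (p δ) := by
    have e1 : (p i).ht = (p δ).ht := show (res ν (p i)).ht = (res ν (p δ)).ht by rw [hi.2]
    have e2 : (p i).E = (p δ).E := show (res ν (p i)).E = (res ν (p δ)).E by rw [hi.2]
    have e3 : ∀ k < ν, ∀ β, (p i).f k β = (p δ).f k β := fun k hk β => by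
      have := congrFun (congrFun (congrArg Cd.f hi.2) k) β
      change (if k < ν then (p i).f k β else ⊥) = (if k < ν then (p δ).f k β else ⊥) at this
      rwa [if_pos hk, if_pos hk] at this
    have e4 : ∀ k < ν, ∀ β, (p i).g k β = (p δ).g k β := fun k hk β => by
      have := congrFun (congrFun (congrArg Cd.g hi.2) k) β
      change (if k < ν then (p i).g k β else 0) = (if k < ν then (p δ).g k β else 0) at this
      rwa [if_pos hk, if_pos hk] at this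
    have e5 : (p i).I ∩ Set.Iio ν = (p δ).I ∩ Set.Iio ν :=
      show (res ν (p i)).I = (res ν (p δ)).I by rw [hi.2]
    refine ⟨e1.symm.le, fun k hk => ?_, fun δ' _ m β => by rw [e2]; rfl, fun k hk β _ => ⟨?_, ?_⟩⟩
    · have hk' : k < ν := heν hk
      have : k ∈ (p δ).I ∩ Set.Iio ν := ⟨hk.1, hk'⟩
      rw [← e5] at this
      exact this.1
    · show _ = (if k < δ then (p δ).f k β else ⊥)
      rw [if_pos (show k < δ from hk.2)]
      exact e3 k (heν hk) β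
    · show _ = (if k < δ then (p δ).g k β else 0)
      rw [if_pos (show k < δ from hk.2)]
      exact e4 k (heν hk) β
  exact ⟨i, δ, hiδ, hi.1, amal δ (p δ) (p i) hIi hle, amal_le_right hIi hle, amal_le_left hIi hle⟩

end Pool.Agent.Helper23.CK
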