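import Pool.Agent.Helper23.CK.Tc
import Pool.Agent.Helper23.CK.Sm

set_option autoImplicit false

/-!
# Names of ordinals; `ω₁` is preserved
-/

universe u v w

namespace Pool.Agent.Helper23.CK

open WT (iffV bElim bOr bMP bImp bNot bAbs bAll bEx bIff bIff_mp bIff_mpr bLeft bRight bCases bContra eq_of_forall iffV_self iffV_eq_top)
open WT (Fm ZF ZM)
open Nm
open scoped Ordinal

section
variable {P : Type u} [Preorder P]

theorem mem_nat_nat {n m : ℕ} (h : n < m) {Γ : RO P} : Γ ≤ Nm.mem (nat n) (nat m) := by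
  induction m with
  | zero => exact absurd h (Nat.not_lt_zero n)
  | succ m ih =>
    rw [mem_nat_succ]
    rcases Nat.lt_succ_iff_lt_or_eq.1 h with h | h
    · exact (ih h).trans le_sup_right
    · subst h
      exact (bRefl _).trans le_sup_left

theorem eq_nat_nat {n m : ℕ} (h : n ≠ m) {Γ : RO P} (hΓ : Γ ≤ Nm.eq (nat n) (nat m)) : Γ ≤ ⊥ := by
  rcases lt_or_gt_of_ne h with h' | h'
  · have := bMemL (x := nat n) (y := nat m) hΓ (mem_nat_nat h')
    rwa [mem_irrefl] at this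
  · have := bMemL (bSymm hΓ) (mem_nat_nat h')
    rwa [mem_irrefl] at this

theorem nat_mem_omg {n : ℕ} {Γ : RO P} : Γ ≤ Nm.mem (nat n) omg := by
  rw [mem_omg]; exact bEx n (bRefl _)

/-- `f` is an injection of `A` into `w` -/
noncomputable def InjB (f A w : Nm P) : RO P :=
  (⨅ x, Nm.mem x A ⇨ ⨆ n, Nm.mem n w ⊓ Nm.mem (opair x n) f) ⊓
    ⨅ x, Nm.mem x A ⇨ ⨅ x', Nm.mem x' A ⇨ ⨅ n, Nm.mem (opair x n) f ⇨
      (Nm.mem (opair x' n) f ⇨ Nm.eq x x')

/-- `c` is a function -/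
noncomputable def FunB (c : Nm P) : RO P :=
  ⨅ x, ⨅ y, ⨅ z, Nm.mem (opair x y) c ⇨ (Nm.mem (opair x z) c ⇨ Nm.eq y z)

/-- `c` is a function that lists the elements of `A` at the elements of `w` -/
noncomputable def ListB (c w A : Nm P) : RO P :=
  FunB c ⊓ ⨅ x, Nm.mem x A ⇨ ⨆ n, Nm.mem n w ⊓ Nm.mem (opair n x) c

theorem mem_pairs {ι : Type u} {a b : ι → Nm P} {v : ι → RO P} (x y : Nm P) :
    Nm.mem (opair x y) (mk ι (fun i => opair (a i) (b i)) v) =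
      ⨆ i, v i ⊓ (Nm.eq x (a i) ⊓ Nm.eq y (b i)) := by
  rw [mem_mk]
  refine iSup_congr fun i => eq_of_forall fun Γ => ⟨fun h => ?_, fun h => ?_⟩
  · exact le_inf (bLeft h) (le_inf (bOpairFst (bRight h)) (bOpairSnd (bRight h)))
  · exact le_inf (bLeft h) (bOpairCongr (bLeft (bRight h)) (bRight (bRight h)))

theorem bPairs {ι : Type u} {a b : ι → Nm P} {v : ι → RO P} (i : ι) {Γ : RO P} (h : Γ ≤ v i)
    {x y : Nm P} (hx : Γ ≤ Nm.eq x (a i)) (hy : Γ ≤ Nm.eq y (b i)) :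
    Γ ≤ Nm.mem (opair x y) (mk ι (fun i => opair (a i) (b i)) v) := by
  rw [mem_pairs]
  exact bEx i (le_inf h (le_inf hx hy))

theorem funB_pairs {ι : Type u} {a b : ι → Nm P} {v : ι → RO P}
    (h : ∀ i j, ∀ Γ : RO P, Γ ≤ v i → Γ ≤ v j → Γ ≤ Nm.eq (a i) (a j) → Γ ≤ Nm.eq (b i) (b j))
    {Γ : RO P} : Γ ≤ FunB (mk ι (fun i => opair (a i) (b i)) v) := by
  refine le_iInf fun x => le_iInf fun y => le_iInf fun z => bImp fun Δ h1 h2 => bImp fun Δ' h3 h4 => ?_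
  rw [mem_pairs] at h2 h4
  refine bElim (h3.trans h2) fun i Δ₁ h5 h6 => ?_
  refine bElim (h5.trans h4) fun j Δ₂ h7 h8 => ?_
  have h6' := h7.trans h6
  have := h i j Δ₂ (bLeft h6') (bLeft h8) (bTrans (bSymm (bLeft (bRight h6'))) (bLeft (bRight h8)))
  exact bTrans (bRight (bRight h6')) (bTrans this (bSymm (bRight (bRight h8))))

end

open scoped Cardinal in
theorem countable_Iio {β : O} (hβ : β < ω₁) : Countable (Set.Iio β) := by
  have h1 : β.card < ℵ₁ := by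
    rw [← Cardinal.lt_ord, Cardinal.ord_aleph]; exact hβ
  have h2 : β.card ≤ ℵ₀ := by
    rw [← Cardinal.succ_aleph0, Order.lt_succ_iff] at h1
    exact h1
  rw [← Cardinal.mk_le_aleph0_iff, Cardinal.mk_Iio_ordinal, Cardinal.lift_le_aleph0]
  exact h2

/-! ### names of ordinals -/

section
variable {P : Type 1} [Preorder P]

/-- the name of an ordinal -/
noncomputable def ordn : O → Nm P :=
  WellFounded.fix (C := fun _ => Nm P) (r := (· < ·)) wellFounded_lt fun α F =>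
    Nm.mk (Set.Iio α) (fun β => F β.1 β.2) (fun _ => ⊤)

theorem ordn_eq (α : O) : (ordn α : Nm P) = Nm.mk (Set.Iio α) (fun β => ordn β.1) (fun _ => ⊤) := by
  conv_lhs => unfold ordn
  rw [WellFounded.fix_eq]
  rfl

theorem mem_ordn (x : Nm P) (α : O) : Nm.mem x (ordn α) = ⨆ β : Set.Iio α, Nm.eq x (ordn β.1) := by
  rw [ordn_eq, mem_mk]
  exact iSup_congr fun β => by rw [top_inf_eq]

theorem ordn_mem_ordn {α β : O} (h : α < β) {Γ : RO P} : Γ ≤ Nm.mem (ordn α) (ordn β) := by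
  rw [mem_ordn]
  exact bEx ⟨α, h⟩ (bRefl _)

theorem eq_ordn {α β : O} (h : α ≠ β) {Γ : RO P} (hΓ : Γ ≤ Nm.eq (ordn α) (ordn β)) : Γ ≤ ⊥ := by
  rcases lt_or_gt_of_ne h with h' | h'
  · have := bMemL (x := ordn α) (y := ordn β) hΓ (ordn_mem_ordn h')
    rwa [mem_irrefl] at this
  · have := bMemL (bSymm hΓ) (ordn_mem_ordn h')
    rwa [mem_irrefl] at this

theorem mem_ordn_lt {α β : O} (h : ¬ α < β) {Γ : RO P} (hΓ : Γ ≤ Nm.mem (ordn α) (ordn β)) :
    Γ ≤ ⊥ := by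
  rw [mem_ordn] at hΓ
  refine bElim hΓ fun γ Δ h1 h2 => ?_
  refine eq_ordn (fun h' => ?_) h2
  exact h (by rw [h']; exact γ.2)

/-- the ordinals below `ω₁` are countable -/
theorem list_ordn {β : O} (hβ : β < ω₁) {Γ : RO P} : Γ ≤ ⨆ c, ListB c omg (ordn β) := by
  have hc : Countable (Set.Iio β) := countable_Iio hβ
  obtain ⟨g, hg⟩ := hc.exists_injective_nat
  refine bEx (mk (Set.Iio β) (fun γ => opair (nat (g γ)) (ordn γ.1)) (fun _ => ⊤)) (le_inf ?_ ?_)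
  · refine funB_pairs (a := fun γ : Set.Iio β => nat (g γ)) (b := fun γ : Set.Iio β => ordn γ.1)
      fun i j Γ _ _ h => ?_
    by_cases hij : i = j
    · rw [hij]; exact bRefl _
    · exact (eq_nat_nat (fun h' => hij (hg h')) h).trans bot_le
  · refine le_iInf fun x => bImp fun Δ _ h2 => ?_
    rw [mem_ordn] at h2
    refine bElim h2 fun γ Δ' h3 h4 => ?_
    refine bEx (nat (g γ)) (le_inf nat_mem_omg ?_)
    exact bPairs (a := fun γ : Set.Iio β => nat (g γ)) (b := fun γ : Set.Iio β => ordn γ.1) γ le_top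
      (bRefl _) h4

end

/-! ### `ω₁` is preserved -/

theorem omega1_abs {Q : Type} [Preorder Q] [Countable Q] (Fo : Cd → Q → O → ℕ → Prop) (p0 : Cd)
    (s0 : Q) (mono : ∀ p s q t β n, q ≤ p → t ≤ s → Fo p s β n → Fo q t β n)
    (tot : ∀ p ≤ p0, ∀ s ≤ s0, ∀ β < ω₁, ∃ q ≤ p, ∃ t ≤ s, ∃ n, Fo q t β n)
    (inj : ∀ p ≤ p0, ∀ s ≤ s0, ∀ β < ω₁, ∀ β' < ω₁, ∀ n, Fo p s β n → Fo p s β' n → β = β') :
    False := by
  classical
  have hne : Nonempty (ℕ × Q) := ⟨(0, s0)⟩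
  obtain ⟨en, hen⟩ := exists_surjective_nat (ℕ × Q)
  have step : ∀ (k : ℕ) (p : Cd), ∃ q ≤ p, (∃ t ≤ (en k).2, ∃ β < ω₁, Fo q t β (en k).1) ∨
      ∀ q' ≤ p, ∀ t ≤ (en k).2, ∀ β < ω₁, ¬ Fo q' t β (en k).1 := by
    intro k p
    by_cases h : ∃ q ≤ p, ∃ t ≤ (en k).2, ∃ β < ω₁, Fo q t β (en k).1
    · obtain ⟨q, hq, h⟩ := h
      exact ⟨q, hq, Or.inl h⟩
    · push Not at h
      exact ⟨p, le_rfl, Or.inr h⟩
  choose nx h1 h2 using step
  let s : ℕ → Cd := fun n => Nat.rec p0 (fun k t => nx k t) n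
  have hsn : ∀ n, s (n + 1) = nx n (s n) := fun n => rfl
  obtain ⟨r, hr, _⟩ := Cd.exists_lim (q := s) fun n => by rw [hsn]; exact h1 n _
  let b : ℕ → O := fun k => if h : ∃ t ≤ (en k).2, ∃ β < ω₁, Fo (s (k + 1)) t β (en k).1 then
    h.choose_spec.2.choose else 0
  have hb : ∀ k, b k < ω₁ := by
    intro k
    by_cases h : ∃ t ≤ (en k).2, ∃ β < ω₁, Fo (s (k + 1)) t β (en k).1
    · have : b k = h.choose_spec.2.choose := dif_pos h
      rw [this]
      exact h.choose_spec.2.choose_spec.1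
    · have : b k = 0 := dif_neg h
      rw [this]
      exact Cd.zero_lt_omega1
  -- a new ordinal
  have hlt : (⨆ k, b k) < ω₁ := Ordinal.iSup_lt_omega_one hb
  have hβ : Order.succ (⨆ k, b k) < ω₁ := (Cardinal.isSuccLimit_omega 1).succ_lt hlt
  obtain ⟨q, hq, t, ht, n, hn⟩ := tot r (hr 0) s0 le_rfl _ hβ
  obtain ⟨k, hk⟩ := hen (n, t)
  have h3 := h2 k (s k)
  rw [← hsn, hk] at h3
  simp only at h3
  rcases h3 with h3 | h3
  · have h3' : ∃ t ≤ (en k).2, ∃ β < ω₁, Fo (s (k + 1)) t β (en k).1 := by rw [hk]; exact h3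
    have hbk : b k = h3'.choose_spec.2.choose := dif_pos h3'
    have h4 := h3'.choose_spec.2.choose_spec.2
    rw [← hbk] at h4
    have ht' := h3'.choose_spec.1
    set t' := h3'.choose
    rw [hk] at h4 ht'
    simp only at h4 ht'
    have h5 := inj q (hq.trans (hr 0)) t' (ht'.trans ht) (b k) (hb k) _ hβ n
      (mono _ _ _ _ _ _ (hq.trans (hr (k + 1))) le_rfl h4) (mono _ _ _ _ _ _ le_rfl ht' hn)
    have h6 : b k ≤ ⨆ k, b k := le_ciSup Ordinal.bddAbove_of_small k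
    rw [h5] at h6
    exact absurd (Order.lt_succ (⨆ k, b k)) (not_lt.2 h6)
  · exact h3 q (hq.trans (hr k)) t le_rfl _ hβ hn

end Pool.Agent.Helper23.CK
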