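import Pool.Agent.Helper23.CK.Defs
import Pool.Agent.Helper23.WT.Sets

set_option autoImplicit false
set_option linter.unreachableTactic false
set_option linter.unusedTactic false

/-!
# Transitive models
-/

universe u v w

namespace Pool.Agent.Helper23.CK

open WT (Fm ZF ZM D1 F1 DF Dfn IsFun App IsOmega IsInductive IsFn opair upair prod pow exists_sep
  app_iff isFun_iff opair_inj opair_mem_prod mem_prod mem_pow)

/-- a transitive model -/
class TM (M : ZFSet.{0}) : Prop where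
  tr : M.IsTransitive
  zf : ZF (Mem M)

/-- the elements of a model -/
abbrev Mo (M : ZFSet.{0}) : Type 1 := {x : ZFSet.{0} // x ∈ M}

instance {M : ZFSet.{0}} [TM M] : ZM (Mo M) := ⟨Mem M, TM.zf⟩

section
variable {M : ZFSet.{0}} [TM M]

theorem E_iff {x y : Mo M} : ZM.E x y ↔ x.1 ∈ y.1 := Iff.rfl

theorem mem_M {x : ZFSet.{0}} {y : Mo M} (h : x ∈ y.1) : x ∈ M := TM.tr _ y.2 h

theorem wfE : WellFounded (ZM.E : Mo M → Mo M → Prop) := InvImage.wf Subtype.val ZFSet.mem_wf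

theorem exists_min {P : Mo M → Prop} (h : ∃ x, P x) : ∃ x, P x ∧ ∀ y, ZM.E y x → ¬ P y := by
  obtain ⟨x, hx, hx'⟩ := wfE.has_min {x | P x} h
  exact ⟨x, hx, fun y hy hP => hx' y hP hy⟩

theorem ext_val {x y : Mo M} (h : ∀ z : Mo M, ZM.E z x ↔ ZM.E z y) : x = y := WT.ext h

theorem upair_val (x y : Mo M) : (upair x y).1 = {x.1, y.1} := by
  ext z
  rw [ZFSet.mem_pair]
  constructor
  · intro h
    rcases (WT.mem_upair (w := (⟨z, mem_M h⟩ : Mo M))).1 h with h | h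
    · exact Or.inl (congrArg Subtype.val h)
    · exact Or.inr (congrArg Subtype.val h)
  · rintro (rfl | rfl)
    · exact (WT.mem_upair (w := x)).2 (Or.inl rfl)
    · exact (WT.mem_upair (w := y)).2 (Or.inr rfl)

theorem opair_val (x y : Mo M) : (opair x y).1 = ZFSet.pair x.1 y.1 := by
  unfold opair
  rw [upair_val, upair_val, upair_val]
  unfold ZFSet.pair
  congr 1
  ext z
  simp

/-! ### cardinalities -/

theorem cardLe_iff {A B : Mo M} : CardLe ZM.E A B ↔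
    ∃ f, IsFn f A B ∧ ∀ x x' y, ZM.E (opair x y) f → ZM.E (opair x' y) f → x = x' := by
  simp only [CardLe, isFun_iff, app_iff]

theorem cardLe_of_list {w S c : Mo M} (hw : w.1.IsOrdinal)
    (h : ∀ s, ZM.E s S → ∃ ξ, ZM.E ξ w ∧ ZM.E (opair ξ s) c)
    (hc : ∀ ξ s s', ZM.E (opair ξ s) c → ZM.E (opair ξ s') c → s = s') : CardLe ZM.E S w := by
  obtain ⟨j, hj⟩ := exists_sep (P := fun p : Mo M => ∃ s ξ, p = opair s ξ ∧ ZM.E (opair ξ s) c ∧
    ∀ ξ', ZM.E ξ' ξ → ¬ ZM.E (opair ξ' s) c) (by (repeat' first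
      | with_reducible apply DF.lam | with_reducible apply DF.ap
      | with_reducible apply Dfn.isFn | with_reducible apply DF.prod
      | with_reducible apply DF.pow | with_reducible apply DF.opair
      | with_reducible apply DF.upair | with_reducible assumption
      | with_reducible exact DF.var _ | with_reducible exact DF.const _
      | with_reducible exact Dfn.const _ | with_reducible apply DF.the
      | with_reducible apply DF.mkS | with_reducible apply Dfn.mem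
      | with_reducible apply Dfn.eq | with_reducible apply Dfn.and
      | with_reducible apply Dfn.or | with_reducible apply Dfn.iff
      | with_reducible apply Dfn.imp | with_reducible apply Dfn.not
      | with_reducible apply Dfn.exu | with_reducible apply Dfn.ex
      | with_reducible apply Dfn.all)) (prod S w)
  have hj' : ∀ s ξ, ZM.E (opair s ξ) j ↔ (ZM.E s S ∧ ZM.E ξ w) ∧ ZM.E (opair ξ s) c ∧
      ∀ ξ', ZM.E ξ' ξ → ¬ ZM.E (opair ξ' s) c := by
    intro s ξ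
    rw [hj, opair_mem_prod]
    constructor
    · rintro ⟨h1, s', ξ', h2, h3⟩
      obtain ⟨rfl, rfl⟩ := opair_inj.1 h2
      exact ⟨h1, h3⟩
    · rintro ⟨h1, h2⟩
      exact ⟨h1, s, ξ, rfl, h2⟩
  rw [cardLe_iff]
  refine ⟨j, ⟨fun p hp => ?_, fun s hs => ?_⟩, fun s s' ξ h1 h2 => ?_⟩
  · obtain ⟨h1, _⟩ := (hj p).1 hp
    obtain ⟨x, y, hx, hy, rfl⟩ := mem_prod.1 h1
    exact ⟨x, y, hx, hy, rfl⟩
  · obtain ⟨ξ, ⟨h1, h2⟩, h3⟩ := exists_min (P := fun ξ => ZM.E ξ w ∧ ZM.E (opair ξ s) c) (h s hs)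
    refine ⟨ξ, (hj' _ _).2 ⟨⟨hs, h1⟩, h2, fun ξ' h4 h5 => h3 ξ' h4 ⟨?_, h5⟩⟩, fun ξ' h4 => ?_⟩
    · exact hw.isTransitive.mem_trans h4 h1
    · obtain ⟨⟨_, h5⟩, h6, h7⟩ := (hj' _ _).1 h4
      rcases (hw.mem h1).mem_trichotomous (hw.mem h5) with h8 | h8 | h8
      · exact (h7 ξ h8 h2).elim
      · exact Subtype.ext h8.symm
      · exact (h3 ξ' h8 ⟨h5, h6⟩).elim
  · exact hc ξ s s' ((hj' _ _).1 h1).2.1 ((hj' _ _).1 h2).2.1

theorem CardLe.inj {A B : Mo M} (h : CardLe ZM.E A B) : ∃ f : Mo M,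
    (∀ x, ZM.E x A → ∃ n, ZM.E n B ∧ ZM.E (opair x n) f) ∧
    ∀ x, ZM.E x A → ∀ x', ZM.E x' A → ∀ n, ZM.E (opair x n) f → ZM.E (opair x' n) f → x = x' := by
  obtain ⟨f, hf, hi⟩ := cardLe_iff.1 h
  refine ⟨f, fun x hx => ?_, fun x _ x' _ n h1 h2 => hi x x' n h1 h2⟩
  obtain ⟨y, hy, _⟩ := hf.2 x hx
  exact ⟨y, (hf.mem_dom hy).2, hy⟩

/-! ### `ω` -/

/-- `o = ω` -/
def IsOm (o : ZFSet.{0}) : Prop := ∀ z, z ∈ o ↔ ∃ n : ℕ, z = num n

omit [TM M] in
theorem mem_num {z : ZFSet.{0}} {n : ℕ} (h : z ∈ num n) : ∃ m < n, z = num m := by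
  induction n with
  | zero => exact (ZFSet.notMem_empty z h).elim
  | succ n ih =>
    have h : z ∈ insert (num n) (num n) := h
    rw [ZFSet.mem_insert_iff] at h
    rcases h with h | h
    · exact ⟨n, Nat.lt_succ_self n, h⟩
    · obtain ⟨m, hm, h⟩ := ih h
      exact ⟨m, hm.trans (Nat.lt_succ_self n), h⟩

omit [TM M] in
theorem num_mem {n m : ℕ} (h : n < m) : (num n : ZFSet.{0}) ∈ num m := by
  induction m with
  | zero => exact absurd h (Nat.not_lt_zero n)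
  | succ m ih =>
    show _ ∈ insert (num m) (num m)
    rw [ZFSet.mem_insert_iff]
    rcases Nat.lt_succ_iff_lt_or_eq.1 h with h | h
    · exact Or.inr (ih h)
    · exact Or.inl (by rw [h])

omit [TM M] in
theorem IsOm.ord {o : ZFSet.{0}} (h : IsOm o) : o.IsOrdinal where
  isTransitive := by
    intro y hy z hz
    obtain ⟨n, rfl⟩ := (h _).1 hy
    obtain ⟨m, _, rfl⟩ := mem_num hz
    exact (h _).2 ⟨m, rfl⟩
  mem_trans' := by
    intro z y w h1 h2 h3
    obtain ⟨n, rfl⟩ := (h _).1 h3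
    obtain ⟨m, hm, rfl⟩ := mem_num h2
    obtain ⟨k, hk, rfl⟩ := mem_num h1
    exact num_mem (hk.trans hm)

theorem inductive_mem {w : Mo M} (h : IsInductive ZM.E w) (n : ℕ) : (num n : ZFSet.{0}) ∈ w.1 := by
  induction n with
  | zero =>
    obtain ⟨⟨e, he, hew⟩, _⟩ := h
    have : e.1 = ∅ := by
      rw [ZFSet.eq_empty]
      intro y hy
      exact he ⟨y, mem_M hy⟩ hy
    show (∅ : ZFSet.{0}) ∈ w.1
    rw [← this]
    exact hew
  | succ n ih =>
    obtain ⟨s, hs, hs'⟩ := h.2 ⟨num n, mem_M ih⟩ ih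
    have : s.1 = insert (num n) (num n) := by
      ext z
      rw [ZFSet.mem_insert_iff]
      constructor
      · intro hz
        rcases (hs' ⟨z, mem_M hz⟩).1 hz with h1 | h1
        · exact Or.inr h1
        · exact Or.inl (congrArg Subtype.val h1)
      · rintro (rfl | hz)
        · exact (hs' ⟨num n, mem_M ih⟩).2 (Or.inr rfl)
        · exact (hs' ⟨z, mem_M (y := ⟨num n, mem_M ih⟩) hz⟩).2 (Or.inl hz)
    show insert (num n) (num n) ∈ w.1
    rw [← this]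
    exact hs

theorem IsOm.inductive {o : Mo M} (h : IsOm o.1) : IsInductive ZM.E o := by
  have h0 : ∀ n, (num n : ZFSet.{0}) ∈ M := fun n => mem_M ((h _).2 ⟨n, rfl⟩)
  refine ⟨⟨⟨num 0, h0 0⟩, fun y hy => ZFSet.notMem_empty _ hy, (h _).2 ⟨0, rfl⟩⟩, fun y hy => ?_⟩
  obtain ⟨n, hn⟩ := (h _).1 hy
  refine ⟨⟨num (n + 1), h0 _⟩, (h _).2 ⟨_, rfl⟩, fun z => ?_⟩
  show z.1 ∈ insert (num n) (num n) ↔ z.1 ∈ y.1 ∨ z = y
  rw [ZFSet.mem_insert_iff, ← hn, or_comm]
  exact or_congr_right ⟨fun h => Subtype.ext h, fun h => congrArg Subtype.val h⟩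

theorem isOmega_iff {o om : Mo M} (h : IsOm om.1) : IsOmega ZM.E o ↔ o = om := by
  constructor
  · rintro ⟨h1, h2⟩
    refine ext_val fun z => ⟨fun hz => h2 om h.inductive z hz, fun hz => ?_⟩
    obtain ⟨n, hn⟩ := (h _).1 hz
    show z.1 ∈ o.1
    rw [hn]
    exact inductive_mem h1 n
  · rintro rfl
    refine ⟨h.inductive, fun w hw x hx => ?_⟩
    obtain ⟨n, hn⟩ := (h _).1 hx
    show x.1 ∈ w.1
    rw [hn]
    exact inductive_mem hw n

theorem isCountable_iff {A om : Mo M} (h : IsOm om.1) : IsCountable ZM.E A ↔ CardLe ZM.E A om := by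
  unfold IsCountable
  simp only [isOmega_iff h, exists_eq_left]

/-! ### ordinals and `ω₁` -/

theorem isOrdinal_iff {a : Mo M} : IsOrdinal ZM.E a ↔ a.1.IsOrdinal := by
  constructor
  · rintro ⟨h1, h2⟩
    refine ⟨fun y hy z hz => ?_, fun {z y w} h3 h4 h5 => ?_⟩
    · exact h1 ⟨y, mem_M hy⟩ ⟨z, mem_M (y := ⟨y, mem_M hy⟩) hz⟩ hy hz
    · have hw := mem_M h5
      have hy := mem_M (y := ⟨w, hw⟩) h4
      have hz := mem_M (y := ⟨y, hy⟩) h3
      exact h2 ⟨w, hw⟩ ⟨y, hy⟩ ⟨z, hz⟩ h5 h4 h3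
  · intro h
    exact ⟨fun y z h1 h2 => h.isTransitive.mem_trans h2 h1,
      fun y z w h1 h2 h3 => h.mem_trans' h3 h2 h1⟩

theorem isOmega1_unique {w w' : Mo M} (h : IsOmega1 ZM.E w) (h' : IsOmega1 ZM.E w') : w = w' := by
  rcases (isOrdinal_iff.1 h.1).mem_trichotomous (isOrdinal_iff.1 h'.1) with h1 | h1 | h1
  · exact (h.2.1 (h'.2.2 w h1)).elim
  · exact Subtype.ext h1
  · exact (h'.2.1 (h.2.2 w' h1)).elim

end

end Pool.Agent.Helper23.CK
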