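import Pool.Agent.Helper23.CK.ZFm
import Pool.Agent.Helper23.CK.TMd

set_option autoImplicit false

/-!
# A calculus for the truth lemma
-/

universe u v w

namespace Pool.Agent.Helper23.CK

open WT (iffV bElim bOr bMP bImp bNot bAbs bAll bEx bIff bIff_mp bIff_mpr bLeft bRight bCases bContra eq_of_forall iffV_self iffV_eq_top)
open WT (Fm ZF ZM)
open WT.Fm (sat_mem sat_eq sat_fls sat_imp sat_all sat_neg sat_and sat_or sat_iff sat_ex sat_ren)
open Nm

namespace Gen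

variable {P : Type u} [Preorder P] {S : Set (Nm P)} {U : Set (RO P)}

instance instTM (hG : Gen S U) : TM hG.M := ⟨hG.M_transitive, hG.zf⟩

/-- the elements of the model -/
abbrev Mod (hG : Gen S U) : Type 1 := Mo hG.M

variable (hG : Gen S U)

theorem E_iff {x y : hG.Mod} : ZM.E x y ↔ x.1 ∈ y.1 := Iff.rfl

variable {n m : ℕ}

/-- a predicate on the model and its Boolean value are given by the same formula -/
def Tr (φ : (Fin n → hG.Mod) → Prop) (B : (Fin n → Nm P) → RO P) : Prop :=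
  ∃ f : Fm (Fin 0) n, (∀ v, f.Sat (Mem hG.M) (fun i => i.elim0) v ↔ φ v) ∧
    ∀ v, vl (fun i => i.elim0) f v = B v

/-- a function on the model and a function on names are given by the same formula -/
def TrF (s : (Fin n → hG.Mod) → hG.Mod) (t : (Fin n → Nm P) → Nm P) : Prop :=
  hG.Tr (fun w : Fin (n + 1) → hG.Mod => w 0 = s (fun i => w i.succ))
    (fun w => Nm.eq (w 0) (t (fun i => w i.succ)))

namespace Tr

variable {hG}

theorem iff_mem {φ : (Fin n → hG.Mod) → Prop} {B : (Fin n → Nm P) → RO P} (h : hG.Tr φ B)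
    (v : Fin n → Nm P) (hv : ∀ i, v i ∈ S) : φ (fun i => hG.el (v i) (hv i)) ↔ B v ∈ U := by
  obtain ⟨f, h1, h2⟩ := h
  rw [← h1, ← h2]
  have h3 := hG.los' f (fun i : Fin 0 => i.elim0) (fun i => i.elim0) v hv
  rw [← h3]
  have e : (fun i : Fin 0 => (i.elim0 : hG.Mod)) =
      fun c : Fin 0 => hG.el ((fun i : Fin 0 => i.elim0) c) ((fun i : Fin 0 => i.elim0) c) :=
    funext fun i => i.elim0
  rw [e]

theorem congr {φ φ' : (Fin n → hG.Mod) → Prop} {B B' : (Fin n → Nm P) → RO P} (h : hG.Tr φ B)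
    (h1 : ∀ v, φ v ↔ φ' v) (h2 : ∀ v, B v = B' v) : hG.Tr φ' B' := by
  obtain ⟨f, hf, hf'⟩ := h
  exact ⟨f, fun v => (hf v).trans (h1 v), fun v => (hf' v).trans (h2 v)⟩

theorem not {φ : (Fin n → hG.Mod) → Prop} {B : (Fin n → Nm P) → RO P} (h : hG.Tr φ B) :
    hG.Tr (fun v => ¬ φ v) (fun v => (B v)ᶜ) := by
  obtain ⟨f, hf, hf'⟩ := h
  exact ⟨f.neg, fun v => by rw [sat_neg, hf], fun v => by rw [vl_neg, hf']⟩

theorem and {φ ψ : (Fin n → hG.Mod) → Prop} {B C : (Fin n → Nm P) → RO P} (h : hG.Tr φ B)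
    (h' : hG.Tr ψ C) : hG.Tr (fun v => φ v ∧ ψ v) (fun v => B v ⊓ C v) := by
  obtain ⟨f, hf, hf'⟩ := h
  obtain ⟨g, hg, hg'⟩ := h'
  exact ⟨f.and g, fun v => by rw [sat_and, hf, hg], fun v => by rw [vl_and, hf', hg']⟩

theorem or {φ ψ : (Fin n → hG.Mod) → Prop} {B C : (Fin n → Nm P) → RO P} (h : hG.Tr φ B)
    (h' : hG.Tr ψ C) : hG.Tr (fun v => φ v ∨ ψ v) (fun v => B v ⊔ C v) := by
  obtain ⟨f, hf, hf'⟩ := h
  obtain ⟨g, hg, hg'⟩ := h'
  exact ⟨f.or g, fun v => by rw [sat_or, hf, hg], fun v => by rw [vl_or, hf', hg']⟩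

theorem imp {φ ψ : (Fin n → hG.Mod) → Prop} {B C : (Fin n → Nm P) → RO P} (h : hG.Tr φ B)
    (h' : hG.Tr ψ C) : hG.Tr (fun v => φ v → ψ v) (fun v => B v ⇨ C v) := by
  obtain ⟨f, hf, hf'⟩ := h
  obtain ⟨g, hg, hg'⟩ := h'
  exact ⟨f.imp g, fun v => by rw [sat_imp, hf, hg], fun v => by rw [vl_imp, hf', hg']⟩

theorem iff {φ ψ : (Fin n → hG.Mod) → Prop} {B C : (Fin n → Nm P) → RO P} (h : hG.Tr φ B)
    (h' : hG.Tr ψ C) : hG.Tr (fun v => φ v ↔ ψ v) (fun v => iffV (B v) (C v)) := by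
  obtain ⟨f, hf, hf'⟩ := h
  obtain ⟨g, hg, hg'⟩ := h'
  exact ⟨f.iff g, fun v => by rw [sat_iff, hf, hg], fun v => by rw [vl_iff, hf', hg']⟩

theorem ex {φ : (Fin n → hG.Mod) → hG.Mod → Prop} {B : (Fin n → Nm P) → Nm P → RO P}
    (h : hG.Tr (fun w : Fin (n + 1) → hG.Mod => φ (fun i => w i.succ) (w 0))
      (fun w => B (fun i => w i.succ) (w 0))) :
    hG.Tr (fun v => ∃ x, φ v x) (fun v => ⨆ x, B v x) := by
  obtain ⟨f, hf, hf'⟩ := h
  refine ⟨f.ex, fun v => ?_, fun v => ?_⟩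
  · rw [sat_ex]
    exact exists_congr fun x => by rw [hf]; rfl
  · rw [vl_ex]
    exact iSup_congr fun x => by rw [hf']; rfl

theorem all {φ : (Fin n → hG.Mod) → hG.Mod → Prop} {B : (Fin n → Nm P) → Nm P → RO P}
    (h : hG.Tr (fun w : Fin (n + 1) → hG.Mod => φ (fun i => w i.succ) (w 0))
      (fun w => B (fun i => w i.succ) (w 0))) :
    hG.Tr (fun v => ∀ x, φ v x) (fun v => ⨅ x, B v x) := by
  obtain ⟨f, hf, hf'⟩ := h
  refine ⟨f.all, fun v => ?_, fun v => ?_⟩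
  · rw [sat_all]
    exact forall_congr' fun x => by rw [hf]; rfl
  · rw [vl_all]
    exact iInf_congr fun x => by rw [hf']; rfl

theorem ren {φ : (Fin n → hG.Mod) → Prop} {B : (Fin n → Nm P) → RO P} (h : hG.Tr φ B)
    (r : Fin n → Fin m) : hG.Tr (fun v : Fin m → hG.Mod => φ (fun i => v (r i)))
      (fun v => B (fun i => v (r i))) := by
  obtain ⟨f, hf, hf'⟩ := h
  exact ⟨f.ren r, fun v => by rw [sat_ren, hf], fun v => by rw [vl_ren, hf']⟩

theorem memV (i j : Fin n) : hG.Tr (fun v => ZM.E (v i) (v j)) (fun v => Nm.mem (v i) (v j)) :=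
  ⟨Fm.mem (.inl i) (.inl j), fun _ => Iff.rfl, fun _ => rfl⟩

theorem eqV (i j : Fin n) : hG.Tr (fun v => v i = v j) (fun v => Nm.eq (v i) (v j)) :=
  ⟨Fm.eq (.inl i) (.inl j), fun _ => Iff.rfl, fun _ => rfl⟩

end Tr

namespace TrF

variable {hG}

theorem var (i : Fin n) : hG.TrF (fun v => v i) (fun v => v i) := Tr.eqV 0 i.succ

theorem ren {s : (Fin n → hG.Mod) → hG.Mod} {t : (Fin n → Nm P) → Nm P} (h : hG.TrF s t)
    (r : Fin n → Fin m) : hG.TrF (fun v : Fin m → hG.Mod => s (fun i => v (r i)))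
      (fun v => t (fun i => v (r i))) := Tr.ren h (Fm.liftRen r)

theorem wk {s : (Fin n → hG.Mod) → hG.Mod} {t : (Fin n → Nm P) → Nm P} (h : hG.TrF s t) :
    hG.TrF (fun v : Fin (n + 1) → hG.Mod => s (fun i => v i.succ)) (fun v => t (fun i => v i.succ)) :=
  h.ren _

end TrF

namespace Tr
variable {hG}

theorem subst {φ : (Fin n → hG.Mod) → hG.Mod → Prop} {B : (Fin n → Nm P) → Nm P → RO P}
    {s : (Fin n → hG.Mod) → hG.Mod} {t : (Fin n → Nm P) → Nm P}
    (h : hG.Tr (fun w : Fin (n + 1) → hG.Mod => φ (fun i => w i.succ) (w 0))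
      (fun w => B (fun i => w i.succ) (w 0))) (hst : hG.TrF s t)
    (hB : ∀ v, Cong (B v)) : hG.Tr (fun v => φ v (s v)) (fun v => B v (t v)) := by
  refine congr (ex (φ := fun v x => x = s v ∧ φ v x) (B := fun v x => Nm.eq x (t v) ⊓ B v x)
    (and hst h)) (fun v => by simp) (fun v => ?_)
  refine le_antisymm (iSup_le fun x => ?_) ?_
  · exact (hB v).le inf_le_left inf_le_right
  · exact bEx (t v) (le_inf (bRefl _) le_rfl)

theorem mem {s s' : (Fin n → hG.Mod) → hG.Mod} {t t' : (Fin n → Nm P) → Nm P}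
    (h : hG.TrF s t) (h' : hG.TrF s' t') :
    hG.Tr (fun v => ZM.E (s v) (s' v)) (fun v => Nm.mem (t v) (t' v)) := by
  refine subst (φ := fun v x => ZM.E x (s' v)) (B := fun v x => Nm.mem x (t' v))
    (subst (φ := fun w y => ZM.E (w 0) y) (B := fun w y => Nm.mem (w 0) y) (memV 1 0) h'.wk
      fun v x y Γ h1 h2 => bMemR h1 h2) h fun v x y Γ h1 h2 => bMemL h1 h2

theorem eq {s s' : (Fin n → hG.Mod) → hG.Mod} {t t' : (Fin n → Nm P) → Nm P}
    (h : hG.TrF s t) (h' : hG.TrF s' t') :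
    hG.Tr (fun v => s v = s' v) (fun v => Nm.eq (t v) (t' v)) := by
  refine subst (φ := fun v x => x = s' v) (B := fun v x => Nm.eq x (t' v))
    (subst (φ := fun w y => w 0 = y) (B := fun w y => Nm.eq (w 0) y) (eqV 1 0) h'.wk
      fun v x y Γ h1 h2 => bTrans h2 h1) h fun v x y Γ h1 h2 => bTrans (bSymm h1) h2

end Tr

namespace TrF
variable {hG}

/-- a set with given elements -/
theorem of_mem {F : (Fin n → hG.Mod) → hG.Mod} {t : (Fin n → Nm P) → Nm P}
    {φ : (Fin n → hG.Mod) → hG.Mod → Prop} {B : (Fin n → Nm P) → Nm P → RO P}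
    (h : hG.Tr (fun w : Fin (n + 1) → hG.Mod => φ (fun i => w i.succ) (w 0))
      (fun w => B (fun i => w i.succ) (w 0)))
    (h1 : ∀ v x, ZM.E x (F v) ↔ φ v x) (h2 : ∀ v x, Nm.mem x (t v) = B v x) : hG.TrF F t := by
  unfold TrF
  refine Tr.congr (Tr.all (φ := fun w x => ZM.E x (w 0) ↔ φ (fun i => w i.succ) x)
    (B := fun w x => iffV (Nm.mem x (w 0)) (B (fun i => w i.succ) x)) (Tr.iff (Tr.memV 0 1) ?_))
    (fun w => ?_) (fun w => ?_)
  · exact h.ren (fun i : Fin (n + 1) => Fin.cases 0 (fun j => j.succ.succ) i)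
  · constructor
    · intro h3
      exact WT.ext fun z => by rw [h3, h1]
    · intro h3 z
      rw [h3, h1]
  · rw [Nm.eq_eq_iInf]
    exact iInf_congr fun x => by rw [h2]

theorem upair {s s' : (Fin n → hG.Mod) → hG.Mod} {t t' : (Fin n → Nm P) → Nm P}
    (h : hG.TrF s t) (h' : hG.TrF s' t') :
    hG.TrF (fun v => WT.upair (s v) (s' v)) (fun v => Nm.upair (t v) (t' v)) :=
  of_mem (φ := fun v x => x = s v ∨ x = s' v) (B := fun v x => Nm.eq x (t v) ⊔ Nm.eq x (t' v))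
    (Tr.or h h') (fun _ _ => WT.mem_upair) (fun _ _ => Nm.mem_upair _ _ _)

theorem opair {s s' : (Fin n → hG.Mod) → hG.Mod} {t t' : (Fin n → Nm P) → Nm P}
    (h : hG.TrF s t) (h' : hG.TrF s' t') :
    hG.TrF (fun v => WT.opair (s v) (s' v)) (fun v => Nm.opair (t v) (t' v)) :=
  upair (upair h h) (upair h h')

end TrF

end Gen

end Pool.Agent.Helper23.CK
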