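import Pool.Agent.Helper23.CK.ZFm
import Pool.Agent.Helper23.CK.Coh

set_option autoImplicit false

/-!
# Names for products with the Cohen conditions; translations
-/

universe u v w

namespace Pool.Agent.Helper23.CK

open WT (iffV bElim bOr bMP bImp bNot bAbs bAll bEx bIff bIff_mp bIff_mpr bLeft bRight bCases bContra eq_of_forall iffV_self iffV_eq_top)
open WT (Fm)
open Nm

/-! ### sections and cones -/

section
variable {P : Type u} [Preorder P]

/-- the section of a regular open set of the product -/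
def sec (s : Coh) (b : RO (P × Coh)) : RO P where
  carrier := {p | (p, s) ∈ b.carrier}
  regular p := by
    constructor
    · intro h q hq
      exact ⟨q, le_rfl, b.lower (show (q, s) ≤ (p, s) from ⟨hq, le_rfl⟩) h⟩
    · intro h
      refine (b.regular _).2 fun ⟨q, t⟩ hq => ?_
      obtain ⟨r, hr, hr'⟩ := h q hq.1
      exact ⟨(r, t), ⟨hr, le_rfl⟩, b.lower (show (r, t) ≤ (r, s) from ⟨le_rfl, hq.2⟩) hr'⟩

theorem mem_sec {s : Coh} {b : RO (P × Coh)} {p : P} : p ∈ (sec s b).carrier ↔ (p, s) ∈ b.carrier :=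
  Iff.rfl

/-- the product of a regular open set with a cone -/
def pcone (c : RO P) (s : Coh) : RO (P × Coh) where
  carrier := {x | x.1 ∈ c.carrier ∧ x.2 ≤ s}
  regular := by
    rintro ⟨p, t⟩
    constructor
    · rintro ⟨h, h'⟩ ⟨q, t'⟩ hq
      exact ⟨(q, t'), le_rfl, c.lower hq.1 h, hq.2.trans h'⟩
    · intro h
      constructor
      · refine (c.regular _).2 fun q hq => ?_
        obtain ⟨⟨r, t'⟩, hr, hr'⟩ := h (q, t) ⟨hq, le_rfl⟩
        exact ⟨r, hr.1, hr'.1⟩
      · refine mem_cone.1 (((cone s).regular t).2 fun t' ht' => ?_)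
        obtain ⟨⟨r, t''⟩, hr, hr'⟩ := h (p, t') ⟨le_rfl, ht'⟩
        exact ⟨t'', hr.2, hr'.2⟩

theorem mem_pcone {c : RO P} {s : Coh} {p : P} {t : Coh} :
    (p, t) ∈ (pcone c s).carrier ↔ p ∈ c.carrier ∧ t ≤ s := Iff.rfl

/-! ### names of Cohen conditions -/

/-- `0` or `1` -/
def nb (b : Bool) : ℕ := if b then 1 else 0

/-- the name of a Cohen condition -/
def chk (s : Coh) : Nm P :=
  mk (ULift {x : ℕ × Bool // x ∈ s.s}) (fun x => opair (nat x.down.1.1) (nat (nb x.down.1.2)))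
    (fun _ => ⊤)

/-- the index type of a name -/
def Nm.ix : Nm P → Type u
  | mk ι _ _ => ι

/-- the elements of a name -/
def Nm.elt : (x : Nm P) → x.ix → Nm P
  | mk _ a _ => a

theorem elt_isSub (x : Nm P) (i : x.ix) : (x.elt i).IsSub x := by
  cases x
  exact ⟨i, rfl⟩

theorem isSub_iff {x y : Nm P} : x.IsSub y ↔ ∃ i : y.ix, y.elt i = x := by
  cases y
  exact Iff.rfl

/-- a name for the product, as a name of a name -/
noncomputable def star : Nm (P × Coh) → Nm P
  | mk ι a v => mk (ι × ULift Coh) (fun t => opair (star (a t.1)) (chk t.2.down))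
      (fun t => sec t.2.down (⨆ i : ι, ⨆ _ : a i = a t.1, v i))

/-- a name of a name, as a name for the product -/
noncomputable def hat : Nm P → Nm (P × Coh) :=
  (isSub_wf.transGen).fix fun σ F =>
    mk (Σ i : σ.ix, Σ j : (σ.elt i).ix, ((σ.elt i).elt j).ix × ULift.{u} Coh)
      (fun t => F (((σ.elt t.1).elt t.2.1).elt t.2.2.1)
        (Relation.TransGen.trans (Relation.TransGen.trans (.single (elt_isSub _ _))
          (.single (elt_isSub _ _))) (.single (elt_isSub _ _))))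
      (fun t => pcone (Nm.sub σ (σ.elt t.1) ⊓ Nm.eq (σ.elt t.1)
        (opair (((σ.elt t.1).elt t.2.1).elt t.2.2.1) (chk t.2.2.2.down))) t.2.2.2.down)

theorem hat_eq (σ : Nm P) : hat σ =
    mk (Σ i : σ.ix, Σ j : (σ.elt i).ix, ((σ.elt i).elt j).ix × ULift.{u} Coh)
      (fun t => hat (((σ.elt t.1).elt t.2.1).elt t.2.2.1))
      (fun t => pcone (Nm.sub σ (σ.elt t.1) ⊓ Nm.eq (σ.elt t.1)
        (opair (((σ.elt t.1).elt t.2.1).elt t.2.2.1) (chk t.2.2.2.down))) t.2.2.2.down) := by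
  conv_lhs => unfold hat
  rw [WellFounded.fix_eq]
  rfl

end

/-! ### the tasks -/

/-- the elements of the countable submodels -/
inductive WW (P : Type u) [Preorder P] : Type (u + 1)
  | c (p : P) : WW P
  | a (x : Nm P) : WW P
  | b (x : Nm (P × Coh)) : WW P
  | q (s : Coh) : WW P

section
variable {P : Type u} [Preorder P]

/-- decoding -/
def getA (l : List (WW P)) (i : ℕ) : Nm P :=
  match l[i]? with
  | some (WW.a x) => x
  | _ => emp

/-- decoding -/
def getB (l : List (WW P)) (i : ℕ) : Nm (P × Coh) :=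
  match l[i]? with
  | some (WW.b x) => x
  | _ => emp

/-- decoding -/
def getQ (l : List (WW P)) (i : ℕ) : Coh :=
  match l[i]? with
  | some (WW.q x) => x
  | _ => ⟨∅, by simp⟩

theorem getA_ofFn {k : ℕ} (g : Fin k → Nm P) (l : List (WW P)) (i : ℕ) (hi : i < k) :
    getA ((List.ofFn g).map WW.a ++ l) i = g ⟨i, hi⟩ := by
  unfold getA
  rw [List.getElem?_append_left (by simpa using hi), List.getElem?_map, List.getElem?_ofFn]
  simp [hi]

theorem getB_ofFn {k : ℕ} (g : Fin k → Nm (P × Coh)) (l : List (WW P)) (i : ℕ) (hi : i < k) :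
    getB ((List.ofFn g).map WW.b ++ l) i = g ⟨i, hi⟩ := by
  unfold getB
  rw [List.getElem?_append_left (by simpa using hi), List.getElem?_map, List.getElem?_ofFn]
  simp [hi]

/-- codes of the tasks of the product -/
abbrev K3 := (Σ m : ℕ, Σ n : ℕ, Fm (Fin m) n) ⊕ (Σ m : ℕ, Σ n : ℕ, Fm (Fin m) (n + 1)) ⊕ Bool

open Classical in
/-- the tasks of the product -/
noncomputable def F3 : K3 → List (WW P) → List (WW P) → RO (P × Coh)
  | Sum.inl ⟨m, _, f⟩, l, _ => vl (fun i : Fin m => getB l i) f (fun j => getB l (m + j))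
  | Sum.inr (Sum.inl ⟨m, _, f⟩), l, l' =>
      vl (fun i : Fin m => getB l i) f (Matrix.vecCons (getB l' 0) (fun j => getB l (m + j)))
  | Sum.inr (Sum.inr true), l, l' => Nm.sub (getB l 1) (getB l' 0) ⊓ Nm.eq (getB l 0) (getB l' 0)
  | Sum.inr (Sum.inr false), l, l' =>
      if hat (getA l' 1) = getB l 1 then
        pcone (Nm.sub (getA l 0) (getA l' 0) ⊓ Nm.eq (getA l' 0) (opair (getA l' 1) (chk (getQ l' 2))))
          (getQ l' 2)
      else ⊥

/-- codes of the tasks -/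
abbrev K2 := (Σ m : ℕ, Σ n : ℕ, Fm (Fin m) n) ⊕ (Σ m : ℕ, Σ n : ℕ, Fm (Fin m) (n + 1)) ⊕ Bool ⊕
  (K3 × Coh × Bool)

open Classical in
/-- the tasks -/
noncomputable def F2 : K2 → List (WW P) → List (WW P) → RO P
  | Sum.inl ⟨m, _, f⟩, l, _ => vl (fun i : Fin m => getA l i) f (fun j => getA l (m + j))
  | Sum.inr (Sum.inl ⟨m, _, f⟩), l, l' =>
      vl (fun i : Fin m => getA l i) f (Matrix.vecCons (getA l' 0) (fun j => getA l (m + j)))
  | Sum.inr (Sum.inr (Sum.inl true)), l, l' =>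
      Nm.sub (getA l 1) (getA l' 0) ⊓ Nm.eq (getA l 0) (getA l' 0)
  | Sum.inr (Sum.inr (Sum.inl false)), l, l' =>
      if getA l 1 = opair (star (getB l' 0)) (chk (getQ l' 1)) then
        sec (getQ l' 1) (Nm.sub (getB l 0) (getB l' 0))
      else ⊥
  | Sum.inr (Sum.inr (Sum.inr (k, s, true))), l, _ => sec s ((⨆ l', F3 k l l')ᶜ)
  | Sum.inr (Sum.inr (Sum.inr (k, s, false))), l, l' => sec s (F3 k l l')

/-- the name of the set of the Cohen conditions that fulfil a task -/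
noncomputable def Ddot (k : K3) (l : List (WW P)) : Nm P :=
  mk (ULift Coh) (fun s => chk s.down)
    (fun s => sec s.down ((⨆ l', F3 k l l')ᶜ) ⊔ ⨆ l', sec s.down (F3 k l l'))

/-- codes of the operations -/
abbrev K1 := ℕ ⊕ Coh ⊕ Fin 3 ⊕ K3

/-- the operations -/
noncomputable def op1 : K1 → List (WW P) → WW P
  | Sum.inl n, _ => WW.a (nat n)
  | Sum.inr (Sum.inl s), _ => WW.a (chk s)
  | Sum.inr (Sum.inr (Sum.inl i)), l => match i with
    | 0 => WW.a (upair (getA l 0) (getA l 1))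
    | 1 => WW.a (star (getB l 0))
    | 2 => WW.b (hat (getA l 0))
  | Sum.inr (Sum.inr (Sum.inr k)), l => WW.a (Ddot k l)

/-- all the codes -/
abbrev KK := K1 ⊕ K2 ⊕ K3 ⊕ Coh

/-- all the operations -/
noncomputable def opK : KK → List (WW P) → WW P
  | Sum.inl k => op1 k
  | Sum.inr (Sum.inr (Sum.inr s)) => fun _ => WW.q s
  | _ => fun _ => WW.a emp

/-- all the tasks -/
noncomputable def FK2 : KK → List (WW P) → List (WW P) → RO P
  | Sum.inr (Sum.inl k) => F2 k
  | _ => fun _ _ => ⊤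

/-- all the tasks of the product -/
noncomputable def FK3 : KK → List (WW P) → List (WW P) → RO (P × Coh)
  | Sum.inr (Sum.inr (Sum.inl k)) => F3 k
  | _ => fun _ _ => ⊤

end

/-- a countable submodel with a generic sequence -/
structure Sys (P : Type u) [Preorder P] where
  S : Set (WW P)
  p : ℕ → P
  cnt : S.Countable
  anti : ∀ n, p (n + 1) ≤ p n
  op : ∀ k l, Ls S l → opK k l ∈ S
  be : WW.b emp ∈ S
  t2 : ∀ k l, Ls S l → ∃ n l', Ls S l' ∧ Met (F2 k l) (p n) l'
  t3 : ∀ k l s, Ls S l → ∃ n, ∃ s' ≤ s, ∃ l', Ls S l' ∧ Met (F3 k l) (p n, s') l'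
  c3 : ∀ k l s n, Ls S l → (∃ l', Met (F3 k l) (p n, s) l') → ∃ l', Ls S l' ∧ Met (F3 k l) (p n, s) l'

theorem exists_sys {P : Type u} [Preorder P] (A : Set (WW P)) (hA : A.Countable) (p₀ : P) :
    ∃ 𝒮 : Sys P, A ⊆ 𝒮.S ∧ 𝒮.p 0 = p₀ := by
  obtain ⟨S, p, h1, h2, h3, h4, _, h6, h7, h8, h9⟩ := exists_generic (K := KK) (Q := Coh)
    (WW.c : P → WW P) (fun p q h => by injection h) opK FK2 FK3 (insert (WW.b emp) A)
    (hA.insert _) p₀
  exact ⟨⟨S, p, h2, h3, h6, h1 (Set.mem_insert _ _), fun k l hl => h7 (Sum.inr (Sum.inl k)) l hl,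
    fun k l s hl => h8 (Sum.inr (Sum.inr (Sum.inl k))) l s hl,
    fun k l s n hl => h9 (Sum.inr (Sum.inr (Sum.inl k))) l s n hl⟩, (Set.subset_insert _ _).trans h1, h4⟩

end Pool.Agent.Helper23.CK
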