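import Pool.Agent.Helper23.CK.Tr

set_option autoImplicit false

/-!
# From countable submodels with generic sequences to transitive models and their extensions
-/

universe u v w

namespace Pool.Agent.Helper23.CK

open WT (iffV bElim bOr bMP bImp bNot bAbs bAll bEx bIff bIff_mp bIff_mpr bLeft bRight bCases bContra eq_of_forall iffV_self iffV_eq_top)
open WT (Fm)
open Nm

/-! ### natural numbers and Cohen conditions as sets -/

theorem num_mem_num {n m : ℕ} (h : n < m) : (num n : ZFSet.{u}) ∈ num m := by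
  induction m with
  | zero => exact absurd h (Nat.not_lt_zero n)
  | succ m ih =>
    show _ ∈ insert (num m) (num m)
    rw [ZFSet.mem_insert_iff]
    rcases Nat.lt_succ_iff_lt_or_eq.1 h with h | h
    · exact Or.inr (ih h)
    · exact Or.inl (by rw [h])

theorem num_inj {n m : ℕ} (h : (num n : ZFSet.{u}) = num m) : n = m := by
  rcases lt_trichotomy n m with h' | h' | h'
  · exact absurd (h ▸ num_mem_num h') (ZFSet.mem_irrefl _)
  · exact h'
  · exact absurd (h ▸ num_mem_num h') (ZFSet.mem_irrefl _)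

theorem nb_inj {b c : Bool} (h : nb b = nb c) : b = c := by
  cases b <;> cases c <;> simp_all [nb]

/-- the set that corresponds to a Cohen condition -/
noncomputable def enc (s : Coh) : ZFSet.{u} :=
  ZFSet.range (fun x : {x : ℕ × Bool // x ∈ s.s} => ZFSet.pair (num x.1.1) (num (nb x.1.2)))

theorem mem_enc {s : Coh} {z : ZFSet.{u}} :
    z ∈ enc s ↔ ∃ n b, (n, b) ∈ s.s ∧ z = ZFSet.pair (num n) (num (nb b)) := by
  unfold enc
  rw [ZFSet.mem_range]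
  constructor
  · rintro ⟨⟨⟨n, b⟩, h⟩, rfl⟩
    exact ⟨n, b, h, rfl⟩
  · rintro ⟨n, b, h, rfl⟩
    exact ⟨⟨⟨n, b⟩, h⟩, rfl⟩

theorem pair_mem_enc {s : Coh} {n : ℕ} {b : Bool} :
    (ZFSet.pair (num n) (num (nb b)) : ZFSet.{u}) ∈ enc s ↔ (n, b) ∈ s.s := by
  rw [mem_enc]
  constructor
  · rintro ⟨n', b', h, e⟩
    obtain ⟨e1, e2⟩ := ZFSet.pair_inj.1 e
    rw [num_inj e1, nb_inj (num_inj e2)]
    exact h
  · intro h
    exact ⟨n, b, h, rfl⟩

theorem enc_subset {s t : Coh} : (enc s : ZFSet.{u}) ⊆ enc t ↔ s.s ⊆ t.s := by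
  constructor
  · rintro h ⟨n, b⟩ hx
    exact pair_mem_enc.1 (h (pair_mem_enc.2 hx))
  · intro h z hz
    obtain ⟨n, b, h1, rfl⟩ := mem_enc.1 hz
    exact pair_mem_enc.2 (h h1)

theorem enc_inj {s t : Coh} (h : (enc s : ZFSet.{u}) = enc t) : s = t := by
  refine Coh.ext' (subset_antisymm (enc_subset.1 ?_) (enc_subset.1 ?_))
  · rw [h]
  · rw [h]

theorem isCond_enc (s : Coh) : IsCond (enc s : ZFSet.{u}) := by
  refine ⟨?_, ?_, ?_⟩
  · have : {z | z ∈ (enc s : ZFSet.{u})} ⊆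
        (fun x : ℕ × Bool => (ZFSet.pair (num x.1) (num (nb x.2)) : ZFSet.{u})) '' (s.s : Set (ℕ × Bool)) := by
      intro z hz
      obtain ⟨n, b, h1, rfl⟩ := mem_enc.1 hz
      exact ⟨(n, b), h1, rfl⟩
    exact (s.s.finite_toSet.image _).subset this
  · intro z hz
    obtain ⟨n, b, h1, rfl⟩ := mem_enc.1 hz
    refine ⟨n, ?_⟩
    cases b
    · exact Or.inl rfl
    · exact Or.inr rfl
  · rintro n ⟨h0, h1⟩
    have h0' := (pair_mem_enc (b := false)).1 h0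
    have h1' := (pair_mem_enc (b := true)).1 h1
    exact Bool.false_ne_true (s.fn n _ _ h0' h1')

theorem isCond_iff {p : ZFSet.{u}} : IsCond p ↔ ∃ s : Coh, p = enc s := by
  classical
  constructor
  · rintro ⟨hf, h1, h2⟩
    have hfin : {x : ℕ × Bool | (ZFSet.pair (num x.1) (num (nb x.2)) : ZFSet.{u}) ∈ p}.Finite := by
      refine Set.Finite.of_finite_image (f := fun x : ℕ × Bool =>
        (ZFSet.pair (num x.1) (num (nb x.2)) : ZFSet.{u})) (hf.subset ?_) ?_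
      · rintro z ⟨x, hx, rfl⟩
        exact hx
      · rintro ⟨n, b⟩ _ ⟨n', b'⟩ _ h
        obtain ⟨e1, e2⟩ := ZFSet.pair_inj.1 h
        exact Prod.ext (num_inj e1) (nb_inj (num_inj e2))
    have hmem : ∀ n b, (n, b) ∈ hfin.toFinset ↔ (ZFSet.pair (num n) (num (nb b)) : ZFSet.{u}) ∈ p := by
      intro n b
      rw [Set.Finite.mem_toFinset]
      exact Iff.rfl
    refine ⟨⟨hfin.toFinset, fun n b c hb hc => ?_⟩, ?_⟩
    · rw [hmem] at hb hc
      by_contra hne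
      cases b <;> cases c
      · exact hne rfl
      · exact h2 n ⟨hb, hc⟩
      · exact h2 n ⟨hc, hb⟩
      · exact hne rfl
    · ext z
      rw [mem_enc]
      constructor
      · intro hz
        obtain ⟨n, rfl | rfl⟩ := h1 z hz
        · exact ⟨n, false, (hmem n false).2 hz, rfl⟩
        · exact ⟨n, true, (hmem n true).2 hz, rfl⟩
      · rintro ⟨n, b, h, rfl⟩
        exact (hmem n b).1 h
  · rintro ⟨s, rfl⟩
    exact isCond_enc s

/-! ### values of special names -/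

namespace Gen

variable {P : Type u} [Preorder P] {S : Set (Nm P)} {U : Set (RO P)} (hG : Gen S U)

theorem mem_val_iff {τ : Nm P} (hτ : τ ∈ S) {z : ZFSet.{0}} :
    z ∈ hG.val τ ↔ ∃ x ∈ S, Nm.mem x τ ∈ U ∧ z = hG.val x := by
  constructor
  · intro h
    obtain ⟨x, hx, h1, rfl⟩ := hG.mem_val.1 h
    exact ⟨x, hx, hG.up _ h1 _ (sub_le_mem τ x), rfl⟩
  · rintro ⟨x, hx, h1, rfl⟩
    exact (hG.mem_iff hx hτ).1 h1

include hG in
theorem sup_mem {a b : RO P} (h : a ⊔ b ∈ U) (hd : a ∈ U ∨ aᶜ ∈ U) : a ∈ U ∨ b ∈ U := by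
  rcases hd with hd | hd
  · exact Or.inl hd
  · refine Or.inr (hG.up _ (hG.inf _ h _ hd) _ ?_)
    rw [inf_sup_right, inf_compl_eq_bot, bot_sup_eq]
    exact inf_le_left

theorem val_emp : hG.val emp = ∅ := by
  rw [ZFSet.eq_empty]
  intro z hz
  obtain ⟨x, hx, h1, _⟩ := hG.mem_val.1 hz
  have h2 := hG.up _ h1 _ (sub_le_mem _ _)
  rw [mem_emp] at h2
  exact hG.bot h2

theorem val_ins {a x : Nm P} (ha : a ∈ S) (hx : x ∈ S) (hi : ins a x ∈ S) :
    hG.val (ins a x) = insert (hG.val a) (hG.val x) := by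
  ext z
  rw [ZFSet.mem_insert_iff, hG.mem_val_iff hi, hG.mem_val_iff hx]
  constructor
  · rintro ⟨w, hw, h, rfl⟩
    rw [mem_ins] at h
    rcases hG.sup_mem h (hG.dec_eq hw ha) with h | h
    · exact Or.inl ((hG.eq_iff hw ha).1 h)
    · exact Or.inr ⟨w, hw, h, rfl⟩
  · rintro (h | ⟨w, hw, h, rfl⟩)
    · refine ⟨a, ha, ?_, h⟩
      rw [mem_ins]
      exact hG.up _ hG.top _ ((bRefl a).trans le_sup_left)
    · refine ⟨w, hw, ?_, rfl⟩
      rw [mem_ins]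
      exact hG.up _ h _ le_sup_right

theorem val_upair {x y : Nm P} (hx : x ∈ S) (hy : y ∈ S) (hi : upair x y ∈ S) :
    hG.val (upair x y) = {hG.val x, hG.val y} := by
  ext z
  rw [ZFSet.mem_pair, hG.mem_val_iff hi]
  constructor
  · rintro ⟨w, hw, h, rfl⟩
    rw [mem_upair] at h
    rcases hG.sup_mem h (hG.dec_eq hw hx) with h | h
    · exact Or.inl ((hG.eq_iff hw hx).1 h)
    · exact Or.inr ((hG.eq_iff hw hy).1 h)
  · rintro (h | h)
    · exact ⟨x, hx, hG.up _ hG.top _ (bMem1 x y), h⟩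
    · exact ⟨y, hy, hG.up _ hG.top _ (bMem2 x y), h⟩

theorem val_opair {x y : Nm P} (hx : x ∈ S) (hy : y ∈ S) (h1 : upair x x ∈ S) (h2 : upair x y ∈ S)
    (hi : opair x y ∈ S) : hG.val (opair x y) = ZFSet.pair (hG.val x) (hG.val y) := by
  unfold opair at hi ⊢
  rw [hG.val_upair h1 h2 hi, hG.val_upair hx hx h1, hG.val_upair hx hy h2]
  unfold ZFSet.pair
  congr 1
  ext z
  simp

theorem val_nat (hn : ∀ n, nat n ∈ S) (n : ℕ) : hG.val (nat n) = num n := by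
  induction n with
  | zero => exact hG.val_emp
  | succ n ih =>
    show hG.val (ins (nat n) (nat n)) = insert (num n) (num n)
    rw [hG.val_ins (hn n) (hn n) (hn (n + 1)), ih]

end Gen

/-! ### the ground model -/

theorem ls_map {P : Type u} [Preorder P] {S : Set (WW P)} {W : Type v} {f : W → WW P} {k : ℕ} {g : Fin k → W}
    (hg : ∀ i, f (g i) ∈ S) : Ls S ((List.ofFn g).map f ++ []) := by
  intro x hx
  rw [List.append_nil, List.mem_map] at hx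
  obtain ⟨y, hy, rfl⟩ := hx
  rw [List.mem_ofFn] at hy
  obtain ⟨i, rfl⟩ := hy
  exact hg i

theorem iSup_const' {W : Type v} {P : Type u} [Preorder P] {F : List W → RO P} (a : RO P)
    (h : ∀ l, F l = a) : ⨆ l, F l = a := by
  have : F = fun _ => a := funext h
  rw [this, iSup_const]

namespace Sys

variable {P : Type u} [Preorder P] (𝒮 : Sys P)

/-- the names of the ground model -/
def S1 : Set (Nm P) := {x | WW.a x ∈ 𝒮.S}

/-- the names of the extension -/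
def S2 : Set (Nm (P × Coh)) := {x | WW.b x ∈ 𝒮.S}

theorem anti' {n m : ℕ} (h : n ≤ m) : 𝒮.p m ≤ 𝒮.p n := antitone_nat_of_succ_le 𝒮.anti h

theorem op' (k : K1) (l : List (WW P)) (hl : Ls 𝒮.S l) : op1 k l ∈ 𝒮.S := 𝒮.op (Sum.inl k) l hl

theorem nil : Ls 𝒮.S [] := fun x hx => by simp at hx

theorem one {x : WW P} (hx : x ∈ 𝒮.S) : Ls 𝒮.S [x] := fun y hy => by
  rw [List.mem_singleton] at hy
  rw [hy]; exact hx

theorem two {x y : WW P} (hx : x ∈ 𝒮.S) (hy : y ∈ 𝒮.S) : Ls 𝒮.S [x, y] := fun z hz => by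
  rcases List.mem_cons.1 hz with rfl | hz
  · exact hx
  · rw [List.mem_singleton] at hz
    rw [hz]; exact hy

theorem nat_mem (n : ℕ) : nat n ∈ 𝒮.S1 := 𝒮.op' (Sum.inl n) [] 𝒮.nil

theorem emp_mem : emp ∈ 𝒮.S1 := 𝒮.nat_mem 0

theorem chk_mem (s : Coh) : chk s ∈ 𝒮.S1 := 𝒮.op' (Sum.inr (Sum.inl s)) [] 𝒮.nil

theorem upair_mem {x y : Nm P} (hx : x ∈ 𝒮.S1) (hy : y ∈ 𝒮.S1) : upair x y ∈ 𝒮.S1 :=
  𝒮.op' (Sum.inr (Sum.inr (Sum.inl 0))) [WW.a x, WW.a y] (𝒮.two hx hy)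

theorem opair_mem {x y : Nm P} (hx : x ∈ 𝒮.S1) (hy : y ∈ 𝒮.S1) : opair x y ∈ 𝒮.S1 :=
  𝒮.upair_mem (𝒮.upair_mem hx hx) (𝒮.upair_mem hx hy)

theorem star_mem {x : Nm (P × Coh)} (hx : x ∈ 𝒮.S2) : star x ∈ 𝒮.S1 :=
  𝒮.op' (Sum.inr (Sum.inr (Sum.inl 1))) [WW.b x] (𝒮.one hx)

theorem hat_mem {x : Nm P} (hx : x ∈ 𝒮.S1) : hat x ∈ 𝒮.S2 :=
  𝒮.op' (Sum.inr (Sum.inr (Sum.inl 2))) [WW.a x] (𝒮.one hx)

theorem Ddot_mem (k : K3) {l : List (WW P)} (hl : Ls 𝒮.S l) : Ddot k l ∈ 𝒮.S1 :=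
  𝒮.op' (Sum.inr (Sum.inr (Sum.inr k))) l hl

theorem getA_mem {l : List (WW P)} (hl : Ls 𝒮.S l) (i : ℕ) : getA l i ∈ 𝒮.S1 := by
  unfold getA
  split
  · rename_i x hx
    exact hl _ (List.mem_of_getElem? hx)
  · exact 𝒮.emp_mem

theorem getB_mem {l : List (WW P)} (hl : Ls 𝒮.S l) (i : ℕ) : getB l i ∈ 𝒮.S2 := by
  unfold getB
  split
  · rename_i x hx
    exact hl _ (List.mem_of_getElem? hx)
  · exact 𝒮.be

theorem U_inf {a b : RO P} (ha : a ∈ Ult 𝒮.p) (hb : b ∈ Ult 𝒮.p) : a ⊓ b ∈ Ult 𝒮.p := by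
  obtain ⟨n, hn⟩ := ha
  obtain ⟨m, hm⟩ := hb
  exact ⟨max n m, a.lower (𝒮.anti' (le_max_left n m)) hn, b.lower (𝒮.anti' (le_max_right n m)) hm⟩

theorem U_not {b : RO P} (h : b ∈ Ult 𝒮.p) (h' : bᶜ ∈ Ult 𝒮.p) : False := by
  obtain ⟨n, hn⟩ := 𝒮.U_inf h h'
  rw [inf_compl_eq_bot] at hn
  exact hn

/-- a task whose supremum is in the ultrafilter -/
theorem met2 (k : K2) {l : List (WW P)} (hl : Ls 𝒮.S l) (h : (⨆ l', F2 k l l') ∈ Ult 𝒮.p) :
    ∃ l', Ls 𝒮.S l' ∧ F2 k l l' ∈ Ult 𝒮.p := by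
  obtain ⟨n, l', hl', h1 | h1⟩ := 𝒮.t2 k l hl
  · exact (𝒮.U_not h ⟨n, h1⟩).elim
  · exact ⟨l', hl', n, h1⟩

theorem gen1 : Gen 𝒮.S1 (Ult 𝒮.p) where
  cnt := 𝒮.cnt.preimage_of_injOn (f := WW.a) (fun x _ y _ h => by injection h)
  ne := ⟨_, 𝒮.emp_mem⟩
  top := ⟨0, trivial⟩
  bot := by rintro ⟨n, hn⟩; exact hn
  up := by
    rintro a ⟨n, hn⟩ b hab
    exact ⟨n, hab hn⟩
  inf a ha b hb := 𝒮.U_inf ha hb
  dec m n f e v he hv := by
    have hl : Ls 𝒮.S ((List.ofFn (Fin.append e v)).map WW.a ++ []) := ls_map fun i => by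
      refine Fin.addCases (fun i => ?_) (fun i => ?_) i
      · rw [Fin.append_left]; exact he i
      · rw [Fin.append_right]; exact hv i
    obtain ⟨N, l', _, h⟩ := 𝒮.t2 (Sum.inl ⟨m, n, f⟩) _ hl
    have key : ∀ l'', F2 (Sum.inl ⟨m, n, f⟩) ((List.ofFn (Fin.append e v)).map WW.a ++ []) l'' =
        vl e f v := by
      intro l''
      show vl (fun i : Fin m => getA _ i) f (fun j => getA _ (m + j)) = _
      congr 1
      · funext i
        rw [getA_ofFn _ _ _ (by omega)]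
        exact Fin.append_left e v i
      · funext i
        rw [getA_ofFn _ _ _ (by omega)]
        exact Fin.append_right e v i
    rcases h with h | h
    · rw [iSup_const' _ key] at h
      exact Or.inr ⟨N, h⟩
    · rw [key] at h
      exact Or.inl ⟨N, h⟩
  wit m n f e v he hv h := by
    have hl : Ls 𝒮.S ((List.ofFn (Fin.append e v)).map WW.a ++ []) := ls_map fun i => by
      refine Fin.addCases (fun i => ?_) (fun i => ?_) i
      · rw [Fin.append_left]; exact he i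
      · rw [Fin.append_right]; exact hv i
    have key : ∀ l'', F2 (Sum.inr (Sum.inl ⟨m, n, f⟩)) ((List.ofFn (Fin.append e v)).map WW.a ++ [])
        l'' = vl e f (Matrix.vecCons (getA l'' 0) v) := by
      intro l''
      show vl (fun i : Fin m => getA _ i) f (Matrix.vecCons _ (fun j => getA _ (m + j))) = _
      congr 1
      · funext i
        rw [getA_ofFn _ _ _ (by omega)]
        exact Fin.append_left e v i
      · congr 1
        funext i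
        rw [getA_ofFn _ _ _ (by omega)]
        exact Fin.append_right e v i
    obtain ⟨N, hN⟩ := h
    obtain ⟨l', hl', h1⟩ := 𝒮.met2 (Sum.inr (Sum.inl ⟨m, n, f⟩)) hl ⟨N, by
      refine (iSup_le fun x => ?_ : (⨆ x, vl e f (Matrix.vecCons x v)) ≤ _) hN
      refine le_trans (le_of_eq ?_) (le_iSup _ [WW.a x])
      rw [key]
      rfl⟩
    rw [key] at h1
    exact ⟨_, 𝒮.getA_mem hl' 0, h1⟩
  sub σ hσ τ hτ h := by
    obtain ⟨N, hN⟩ := h
    obtain ⟨l', hl', h1⟩ := 𝒮.met2 (Sum.inr (Sum.inr (Sum.inl true))) (𝒮.two hσ hτ) ⟨N, by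
      rw [mem_eq_sub] at hN
      refine (iSup_le fun x => ?_ : (⨆ x, Nm.sub τ x ⊓ Nm.eq σ x) ≤ _) hN
      exact le_iSup (F2 (Sum.inr (Sum.inr (Sum.inl true))) [WW.a σ, WW.a τ]) [WW.a x]⟩
    obtain ⟨M, hM⟩ := h1
    have hM' : 𝒮.p M ∈ (Nm.sub τ (getA l' 0) ⊓ Nm.eq σ (getA l' 0)).carrier := hM
    exact ⟨getA l' 0, 𝒮.getA_mem hl' 0, ⟨M, hM'.1⟩, ⟨M, hM'.2⟩⟩

/-! ### values of the special names -/

theorem val_chk (s : Coh) : 𝒮.gen1.val (chk s) = enc s := by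
  ext z
  rw [mem_enc, 𝒮.gen1.mem_val]
  have hop : ∀ n b, 𝒮.gen1.val (opair (nat n) (nat (nb b))) = ZFSet.pair (num n) (num (nb b)) := by
    intro n b
    rw [𝒮.gen1.val_opair (𝒮.nat_mem _) (𝒮.nat_mem _) (𝒮.upair_mem (𝒮.nat_mem _) (𝒮.nat_mem _))
      (𝒮.upair_mem (𝒮.nat_mem _) (𝒮.nat_mem _)) (𝒮.opair_mem (𝒮.nat_mem _) (𝒮.nat_mem _)),
      𝒮.gen1.val_nat 𝒮.nat_mem, 𝒮.gen1.val_nat 𝒮.nat_mem]
  constructor
  · rintro ⟨x, hx, ⟨n, h1⟩, rfl⟩
    obtain ⟨⟨⟨⟨m, b⟩, hm⟩⟩, rfl⟩ := isSub_of_sub h1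
    exact ⟨m, b, hm, hop m b⟩
  · rintro ⟨m, b, hm, rfl⟩
    refine ⟨opair (nat m) (nat (nb b)), 𝒮.opair_mem (𝒮.nat_mem _) (𝒮.nat_mem _), ⟨0, ?_⟩, (hop m b).symm⟩
    refine (le_trans ?_ (le_iSup (fun i : ULift {x : ℕ × Bool // x ∈ s.s} =>
      ⨆ _ : opair (nat i.down.1.1) (nat (nb i.down.1.2)) = opair (nat m) (nat (nb b)), (⊤ : RO P))
        ⟨⟨(m, b), hm⟩⟩) : (⊤ : RO P) ≤ _) (trivial : 𝒮.p 0 ∈ (⊤ : RO P).carrier)
    exact le_iSup (fun _ : opair (nat m) (nat (nb b)) = opair (nat m) (nat (nb b)) => (⊤ : RO P)) rfl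

include 𝒮 in
theorem chk_inj {s t : Coh} (h : (chk s : Nm P) = chk t) : s = t := by
  have := 𝒮.val_chk s
  rw [h, 𝒮.val_chk] at this
  exact (enc_inj this).symm

/-- a filter on the Cohen conditions that fulfils the tasks of the product -/
structure Filt (c : Set Coh) : Prop where
  ne : c.Nonempty
  up : ∀ s ∈ c, ∀ t, s ≤ t → t ∈ c
  dir : ∀ s ∈ c, ∀ t ∈ c, ∃ r ∈ c, r ≤ s ∧ r ≤ t
  met : ∀ k l, Ls 𝒮.S l → ∃ n, ∃ s ∈ c, ∃ l', Ls 𝒮.S l' ∧ Met (F3 k l) (𝒮.p n, s) l'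

/-- the ultrafilter of the extension -/
def Ult2 (c : Set Coh) : Set (RO (P × Coh)) := {b | ∃ n, ∃ s ∈ c, (𝒮.p n, s) ∈ b.carrier}

variable {𝒮} {c : Set Coh} (hc : 𝒮.Filt c)

include hc

theorem U2_inf {a b : RO (P × Coh)} (ha : a ∈ 𝒮.Ult2 c) (hb : b ∈ 𝒮.Ult2 c) : a ⊓ b ∈ 𝒮.Ult2 c := by
  obtain ⟨n, s, hs, hn⟩ := ha
  obtain ⟨m, t, ht, hm⟩ := hb
  obtain ⟨r, hr, hrs, hrt⟩ := hc.dir s hs t ht
  exact ⟨max n m, r, hr, a.lower (show (𝒮.p (max n m), r) ≤ (𝒮.p n, s) from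
      ⟨𝒮.anti' (le_max_left n m), hrs⟩) hn,
    b.lower (show (𝒮.p (max n m), r) ≤ (𝒮.p m, t) from ⟨𝒮.anti' (le_max_right n m), hrt⟩) hm⟩

theorem U2_not {b : RO (P × Coh)} (h : b ∈ 𝒮.Ult2 c) (h' : bᶜ ∈ 𝒮.Ult2 c) : False := by
  obtain ⟨n, s, _, hn⟩ := U2_inf hc h h'
  rw [inf_compl_eq_bot] at hn
  exact hn

/-- a task whose supremum is in the ultrafilter -/
theorem met3 (k : K3) {l : List (WW P)} (hl : Ls 𝒮.S l) (h : (⨆ l', F3 k l l') ∈ 𝒮.Ult2 c) :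
    ∃ l', Ls 𝒮.S l' ∧ F3 k l l' ∈ 𝒮.Ult2 c := by
  obtain ⟨n, s, hs, l', hl', h1 | h1⟩ := hc.met k l hl
  · exact (U2_not hc h ⟨n, s, hs, h1⟩).elim
  · exact ⟨l', hl', n, s, hs, h1⟩

theorem gen2 : Gen 𝒮.S2 (𝒮.Ult2 c) where
  cnt := 𝒮.cnt.preimage_of_injOn (f := WW.b) (fun x _ y _ h => by injection h)
  ne := ⟨_, 𝒮.be⟩
  top := by
    obtain ⟨s, hs⟩ := hc.ne
    exact ⟨0, s, hs, trivial⟩
  bot := by rintro ⟨n, s, _, hn⟩; exact hn
  up := by
    rintro a ⟨n, s, hs, hn⟩ b hab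
    exact ⟨n, s, hs, hab hn⟩
  inf a ha b hb := U2_inf hc ha hb
  dec m n f e v he hv := by
    have hl : Ls 𝒮.S ((List.ofFn (Fin.append e v)).map WW.b ++ []) := ls_map fun i => by
      refine Fin.addCases (fun i => ?_) (fun i => ?_) i
      · rw [Fin.append_left]; exact he i
      · rw [Fin.append_right]; exact hv i
    obtain ⟨N, s, hs, l', _, h⟩ := hc.met (Sum.inl ⟨m, n, f⟩) _ hl
    have key : ∀ l'', F3 (Sum.inl ⟨m, n, f⟩) ((List.ofFn (Fin.append e v)).map WW.b ++ []) l'' =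
        vl e f v := by
      intro l''
      show vl (fun i : Fin m => getB _ i) f (fun j => getB _ (m + j)) = _
      congr 1
      · funext i
        rw [getB_ofFn _ _ _ (by omega)]
        exact Fin.append_left e v i
      · funext i
        rw [getB_ofFn _ _ _ (by omega)]
        exact Fin.append_right e v i
    rcases h with h | h
    · rw [iSup_const' _ key] at h
      exact Or.inr ⟨N, s, hs, h⟩
    · rw [key] at h
      exact Or.inl ⟨N, s, hs, h⟩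
  wit m n f e v he hv h := by
    have hl : Ls 𝒮.S ((List.ofFn (Fin.append e v)).map WW.b ++ []) := ls_map fun i => by
      refine Fin.addCases (fun i => ?_) (fun i => ?_) i
      · rw [Fin.append_left]; exact he i
      · rw [Fin.append_right]; exact hv i
    have key : ∀ l'', F3 (Sum.inr (Sum.inl ⟨m, n, f⟩)) ((List.ofFn (Fin.append e v)).map WW.b ++ [])
        l'' = vl e f (Matrix.vecCons (getB l'' 0) v) := by
      intro l''
      show vl (fun i : Fin m => getB _ i) f (Matrix.vecCons _ (fun j => getB _ (m + j))) = _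
      congr 1
      · funext i
        rw [getB_ofFn _ _ _ (by omega)]
        exact Fin.append_left e v i
      · congr 1
        funext i
        rw [getB_ofFn _ _ _ (by omega)]
        exact Fin.append_right e v i
    obtain ⟨N, s, hs, hN⟩ := h
    obtain ⟨l', hl', h1⟩ := met3 hc (Sum.inr (Sum.inl ⟨m, n, f⟩)) hl ⟨N, s, hs, by
      refine (iSup_le fun x => ?_ : (⨆ x, vl e f (Matrix.vecCons x v)) ≤ _) hN
      refine le_trans (le_of_eq ?_) (le_iSup _ [WW.b x])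
      rw [key]
      rfl⟩
    rw [key] at h1
    exact ⟨_, 𝒮.getB_mem hl' 0, h1⟩
  sub σ hσ τ hτ h := by
    obtain ⟨N, s, hs, hN⟩ := h
    obtain ⟨l', hl', h1⟩ := met3 hc (Sum.inr (Sum.inr true)) (𝒮.two hσ hτ) ⟨N, s, hs, by
      rw [mem_eq_sub] at hN
      refine (iSup_le fun x => ?_ : (⨆ x, Nm.sub τ x ⊓ Nm.eq σ x) ≤ _) hN
      exact le_iSup (F3 (Sum.inr (Sum.inr true)) [WW.b σ, WW.b τ]) [WW.b x]⟩
    obtain ⟨M, t, ht, hM⟩ := h1
    have hM' : (𝒮.p M, t) ∈ (Nm.sub τ (getB l' 0) ⊓ Nm.eq σ (getB l' 0)).carrier := hM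
    exact ⟨getB l' 0, 𝒮.getB_mem hl' 0, ⟨M, t, ht, hM'.1⟩, ⟨M, t, ht, hM'.2⟩⟩

end Sys

end Pool.Agent.Helper23.CK
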