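import Pool.Agent.Helper23.CK.Tr2

set_option autoImplicit false

/-!
# The generic extensions of the transitive models
-/

universe u v w

namespace Pool.Agent.Helper23.CK

open WT (iffV bElim bOr bMP bImp bNot bAbs bAll bEx bIff bIff_mp bIff_mpr bLeft bRight bCases bContra eq_of_forall iffV_self iffV_eq_top)
open WT (Fm)
open Nm

theorem sub_mk {P : Type u} [Preorder P] {ι : Type u} {a : ι → Nm P} {v : ι → RO P} (i : ι) :
    v i ≤ Nm.sub (Nm.mk ι a v) (a i) :=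
  (le_iSup (fun _ : a i = a i => v i) rfl).trans (le_iSup (fun j => ⨆ _ : a j = a i, v j) i)

namespace Sys

variable {P : Type u} [Preorder P] (𝒮 : Sys P)

/-- the model -/
noncomputable def M : ZFSet.{0} := 𝒮.gen1.M

theorem val_mem_M {x : Nm P} (hx : x ∈ 𝒮.S1) : 𝒮.gen1.val x ∈ 𝒮.M := 𝒮.gen1.mem_M.2 ⟨x, hx, rfl⟩

include 𝒮 in
theorem sub_Ddot (k : K3) (l : List (WW P)) (s : Coh) :
    Nm.sub (Ddot k l) (chk s) = sec s ((⨆ l', F3 k l l')ᶜ) ⊔ ⨆ l', sec s (F3 k l l') := by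
  refine le_antisymm ?_ ?_
  · show (⨆ i : ULift.{u} Coh, ⨆ _ : (chk i.down : Nm P) = chk s, _) ≤ _
    refine iSup_le fun i => iSup_le fun hi => ?_
    have h1 : i = ⟨s⟩ := ULift.ext _ _ (𝒮.chk_inj hi)
    subst h1
    exact le_rfl
  · exact sub_mk (a := fun s : ULift.{u} Coh => (chk s.down : Nm P)) (v := fun s =>
      sec s.down ((⨆ l', F3 k l l')ᶜ) ⊔ ⨆ l', sec s.down (F3 k l l')) ⟨s⟩

theorem mem_val_Ddot (k : K3) (l : List (WW P)) {z : ZFSet.{0}} :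
    z ∈ 𝒮.gen1.val (Ddot k l) ↔ ∃ s : Coh, z = enc s ∧
      (sec s ((⨆ l', F3 k l l')ᶜ) ⊔ ⨆ l', sec s (F3 k l l')) ∈ Ult 𝒮.p := by
  rw [𝒮.gen1.mem_val]
  constructor
  · rintro ⟨x, hx, ⟨n, h1⟩, rfl⟩
    obtain ⟨⟨s⟩, rfl⟩ := isSub_of_sub h1
    refine ⟨s, 𝒮.val_chk s, n, ?_⟩
    rw [← 𝒮.sub_Ddot]
    exact h1
  · rintro ⟨s, rfl, h⟩
    refine ⟨chk s, 𝒮.chk_mem s, ?_, (𝒮.val_chk s).symm⟩
    rw [𝒮.sub_Ddot]
    exact h

/-- a generic filter over the model yields a filter that fulfils the tasks -/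
theorem filt {G : ZFSet.{0}} (hG : IsGeneric 𝒮.M G) : 𝒮.Filt {s | enc s ∈ G} where
  ne := by
    obtain ⟨p, hp⟩ := hG.nonempty
    obtain ⟨s, rfl⟩ := isCond_iff.1 (hG.cond p hp)
    exact ⟨s, hp⟩
  up s hs t hst := hG.up _ hs _ (isCond_enc t) (enc_subset.2 hst)
  dir s hs t ht := by
    have hs' : enc s ∈ G := hs
    have ht' : enc t ∈ G := ht
    obtain ⟨r, hr, h1, h2⟩ := hG.dir _ hs' _ ht'
    obtain ⟨r, rfl⟩ := isCond_iff.1 (hG.cond r hr)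
    have hr' : enc r ∈ G := hr
    exact ⟨r, hr', enc_subset.1 h1, enc_subset.1 h2⟩
  met k l hl := by
    obtain ⟨p, hp, hpD⟩ := hG.dense (𝒮.gen1.val (Ddot k l)) (𝒮.val_mem_M (𝒮.Ddot_mem k hl))
      (fun p hp => by
        obtain ⟨s, rfl, _⟩ := (𝒮.mem_val_Ddot k l).1 hp
        exact isCond_enc s)
      (fun p hp => by
        obtain ⟨s, rfl⟩ := isCond_iff.1 hp
        obtain ⟨n, s', hs', l', _, h⟩ := 𝒮.t3 k l s hl
        refine ⟨enc s', (𝒮.mem_val_Ddot k l).2 ⟨s', rfl, n, ?_⟩, enc_subset.2 hs'⟩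
        rcases h with h | h
        · exact (le_sup_left : sec s' ((⨆ l', F3 k l l')ᶜ) ≤ _) h
        · exact ((le_iSup (fun l' => sec s' (F3 k l l')) l').trans le_sup_right :
            sec s' (F3 k l l') ≤ _) h)
    obtain ⟨s, rfl, h⟩ := (𝒮.mem_val_Ddot k l).1 hpD
    -- decide the first part
    obtain ⟨N, l0, _, h0⟩ := 𝒮.t2 (Sum.inr (Sum.inr (Sum.inr (k, s, true)))) l hl
    have key : ∀ l'', F2 (Sum.inr (Sum.inr (Sum.inr (k, s, true)))) l l'' =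
        sec s ((⨆ l', F3 k l l')ᶜ) := fun _ => rfl
    rcases h0 with h0 | h0
    · rw [iSup_const' _ key] at h0
      have h1 : (⨆ l', sec s (F3 k l l')) ∈ Ult 𝒮.p := by
        have h2 := 𝒮.U_inf h ⟨N, h0⟩
        refine 𝒮.gen1.up _ h2 _ ?_
        rw [inf_sup_right, inf_compl_eq_bot, bot_sup_eq]
        exact inf_le_left
      obtain ⟨l', hl', M, hM⟩ := 𝒮.met2 (Sum.inr (Sum.inr (Sum.inr (k, s, false)))) hl h1
      exact ⟨M, s, hp, l', hl', Or.inr hM⟩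
    · exact ⟨N, s, hp, [], 𝒮.nil, Or.inl h0⟩

open Classical in
theorem ev_val_star {G : ZFSet.{0}} (hG : IsGeneric 𝒮.M G) (τ : Nm (P × Coh)) (hτ : τ ∈ 𝒮.S2) :
    (gen2 (𝒮.filt hG)).val τ = ev G (𝒮.gen1.val (star τ)) := by
  induction τ using isSub_wf.induction with
  | _ τ ih =>
  have hsub : ∀ x s, sec s (Nm.sub τ x) ∈ Ult 𝒮.p → x.IsSub τ := by
    rintro x s ⟨n, hn⟩
    exact isSub_of_sub (p := (𝒮.p n, s)) hn
  have hop : ∀ x ∈ 𝒮.S2, ∀ s, 𝒮.gen1.val (opair (star x) (chk s)) =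
      ZFSet.pair (𝒮.gen1.val (star x)) (enc s) := by
    intro x hx s
    rw [𝒮.gen1.val_opair (𝒮.star_mem hx) (𝒮.chk_mem s)
      (𝒮.upair_mem (𝒮.star_mem hx) (𝒮.star_mem hx)) (𝒮.upair_mem (𝒮.star_mem hx) (𝒮.chk_mem s))
      (𝒮.opair_mem (𝒮.star_mem hx) (𝒮.chk_mem s)), 𝒮.val_chk]
  -- the elements of the name of a name
  have h1 : ∀ z, z ∈ 𝒮.gen1.val (star τ) ↔ ∃ x ∈ 𝒮.S2, ∃ s, sec s (Nm.sub τ x) ∈ Ult 𝒮.p ∧
      z = ZFSet.pair (𝒮.gen1.val (star x)) (enc s) := by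
    intro z
    rw [𝒮.gen1.mem_val]
    constructor
    · rintro ⟨y, hy, ⟨n, h1⟩, rfl⟩
      obtain ⟨l', hl', M, hM⟩ := 𝒮.met2 (Sum.inr (Sum.inr (Sum.inl false))) (𝒮.two (x := WW.b τ)
        (y := WW.a y) hτ hy) ⟨n, by
          refine (?_ : Nm.sub (star τ) y ≤ _) h1
          cases τ with
          | mk ι a v =>
          show (⨆ t : ι × ULift.{u} Coh, ⨆ _ : opair (star (a t.1)) (chk t.2.down) = y,
            sec t.2.down (⨆ i : ι, ⨆ _ : a i = a t.1, v i)) ≤ _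
          refine iSup_le fun t => iSup_le fun ht => ?_
          refine le_trans (le_of_eq ?_) (le_iSup _ [WW.b (a t.1), WW.q t.2.down])
          show _ = (if getA [WW.b (Nm.mk ι a v), WW.a y] 1 = opair (star (getB [WW.b (a t.1), WW.q t.2.down] 0))
            (chk (getQ [WW.b (a t.1), WW.q t.2.down] 1)) then
            sec (getQ [WW.b (a t.1), WW.q t.2.down] 1) (Nm.sub (getB [WW.b (Nm.mk ι a v), WW.a y] 0)
              (getB [WW.b (a t.1), WW.q t.2.down] 0)) else ⊥)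
          rw [if_pos]
          · rfl
          · exact ht.symm⟩
      change 𝒮.p M ∈ (if getA [WW.b τ, WW.a y] 1 = opair (star (getB l' 0))
            (chk (getQ l' 1)) then
            sec (getQ l' 1) (Nm.sub (getB [WW.b τ, WW.a y] 0)
              (getB l' 0)) else ⊥ : RO P).carrier at hM
      split_ifs at hM with h2
      · refine ⟨getB l' 0, 𝒮.getB_mem hl' 0, getQ l' 1, ⟨M, hM⟩, ?_⟩
        have h2' : y = opair (star (getB l' 0)) (chk (getQ l' 1)) := h2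
        rw [h2']
        exact hop _ (𝒮.getB_mem hl' 0) _
      · exact hM.elim
    · rintro ⟨x, hx, s, ⟨n, hn⟩, rfl⟩
      have hxs := hsub x s ⟨n, hn⟩
      refine ⟨opair (star x) (chk s), 𝒮.opair_mem (𝒮.star_mem hx) (𝒮.chk_mem s), ⟨n, ?_⟩,
        (hop x hx s).symm⟩
      cases τ with
      | mk ι a v =>
      obtain ⟨i, rfl⟩ := hxs
      refine (?_ : sec s (Nm.sub (Nm.mk ι a v) (a i)) ≤ _) hn
      exact sub_mk (a := fun t : ι × ULift.{u} Coh => (opair (star (a t.1)) (chk t.2.down) : Nm P))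
        (v := fun t => sec t.2.down (⨆ i : ι, ⨆ _ : a i = a t.1, v i)) (i, ⟨s⟩)
  ext z
  rw [(gen2 (𝒮.filt hG)).mem_val, mem_ev]
  constructor
  · rintro ⟨x, hx, ⟨n, s, hs, hn⟩, rfl⟩
    refine ⟨𝒮.gen1.val (star x), enc s, hs, (h1 _).2 ⟨x, hx, s, ⟨n, hn⟩, rfl⟩, ?_⟩
    exact ih x (hsub x s ⟨n, hn⟩) hx
  · rintro ⟨σ, p, hp, hσ, rfl⟩
    obtain ⟨x, hx, s, ⟨n, hn⟩, e⟩ := (h1 _).1 hσ
    obtain ⟨rfl, rfl⟩ := ZFSet.pair_inj.1 e
    exact ⟨x, hx, ⟨n, s, hp, hn⟩, (ih x (hsub x s ⟨n, hn⟩) hx).symm⟩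

open Classical in
theorem val_hat {G : ZFSet.{0}} (hG : IsGeneric 𝒮.M G) (z : ZFSet.{0}) (σ : Nm P) (hσ : σ ∈ 𝒮.S1)
    (hz : 𝒮.gen1.val σ = z) : (gen2 (𝒮.filt hG)).val (hat σ) = ev G z := by
  induction z using (InvImage.wf ZFSet.rank wellFounded_lt).induction generalizing σ with
  | _ z ih =>
  have hrk : ∀ x s w, 𝒮.gen1.val w = ZFSet.pair (𝒮.gen1.val x) (enc s) → 𝒮.gen1.val w ∈ z →
      (𝒮.gen1.val x).rank < z.rank := by
    intro x s w h1 h2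
    rw [h1] at h2
    exact rank_dom h2
  have hop : ∀ x ∈ 𝒮.S1, ∀ s, 𝒮.gen1.val (opair x (chk s)) =
      ZFSet.pair (𝒮.gen1.val x) (enc s) := by
    intro x hx s
    rw [𝒮.gen1.val_opair hx (𝒮.chk_mem s) (𝒮.upair_mem hx hx) (𝒮.upair_mem hx (𝒮.chk_mem s))
      (𝒮.opair_mem hx (𝒮.chk_mem s)), 𝒮.val_chk]
  ext w
  rw [(gen2 (𝒮.filt hG)).mem_val, mem_ev]
  constructor
  · rintro ⟨y, hy, ⟨n, s, hs, hn⟩, rfl⟩
    obtain ⟨l', hl', M, t, ht, hM⟩ := met3 (𝒮.filt hG) (Sum.inr (Sum.inr false))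
      (𝒮.two (x := WW.a σ) (y := WW.b y) hσ hy) ⟨n, s, hs, by
        refine (?_ : Nm.sub (hat σ) y ≤ _) hn
        rw [hat_eq]
        show (⨆ t : (Σ i : σ.ix, Σ j : (σ.elt i).ix, ((σ.elt i).elt j).ix × ULift.{u} Coh),
          ⨆ _ : hat (((σ.elt t.1).elt t.2.1).elt t.2.2.1) = y, _) ≤ _
        refine iSup_le fun t => iSup_le fun ht => ?_
        refine le_trans (le_of_eq ?_) (le_iSup _ [WW.a (σ.elt t.1),
          WW.a (((σ.elt t.1).elt t.2.1).elt t.2.2.1), WW.q t.2.2.2.down])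
        show _ = (if hat (getA [WW.a (σ.elt t.1),
          WW.a (((σ.elt t.1).elt t.2.1).elt t.2.2.1), WW.q t.2.2.2.down] 1) =
            getB [WW.a σ, WW.b y] 1 then _ else ⊥)
        rw [if_pos]
        · rfl
        · exact ht⟩
    change (𝒮.p M, t) ∈ (if hat (getA l' 1) = getB [WW.a σ, WW.b y] 1 then
        pcone (Nm.sub (getA [WW.a σ, WW.b y] 0) (getA l' 0) ⊓ Nm.eq (getA l' 0)
          (opair (getA l' 1) (chk (getQ l' 2)))) (getQ l' 2)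
      else ⊥ : RO (P × Coh)).carrier at hM
    split_ifs at hM with h2
    · have h2' : hat (getA l' 1) = y := h2
      obtain ⟨⟨h3, h4⟩, h5⟩ := hM
      have hz0 := 𝒮.getA_mem hl' 0
      have hz1 := 𝒮.getA_mem hl' 1
      have h6 : 𝒮.gen1.val (getA l' 0) ∈ 𝒮.gen1.val σ :=
        𝒮.gen1.mem_val.2 ⟨_, hz0, ⟨M, h3⟩, rfl⟩
      have h7 := (𝒮.gen1.eq_iff hz0 (𝒮.opair_mem hz1 (𝒮.chk_mem (getQ l' 2)))).1 ⟨M, h4⟩
      rw [hop _ hz1] at h7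
      refine ⟨𝒮.gen1.val (getA l' 1), enc (getQ l' 2), (𝒮.filt hG).up t ht _ h5, ?_, ?_⟩
      · rw [← h7, ← hz]; exact h6
      · rw [← h2']
        exact ih _ (hrk _ _ _ h7 (hz ▸ h6)) _ hz1 rfl
    · exact hM.elim
  · rintro ⟨σ', p, hp, h1, rfl⟩
    obtain ⟨s, rfl⟩ := isCond_iff.1 (hG.cond p hp)
    rw [← hz] at h1
    obtain ⟨y, hy, hys, he⟩ := 𝒮.gen1.mem_val.1 h1
    have hσ' : σ' ∈ 𝒮.gen1.M := by
      have h2 : 𝒮.gen1.val y ∈ 𝒮.gen1.M := 𝒮.gen1.mem_M.2 ⟨y, hy, rfl⟩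
      rw [← he] at h2
      have h3 : ({σ'} : ZFSet.{0}) ∈ ZFSet.pair σ' (enc s) := by unfold ZFSet.pair; simp
      have h4 := 𝒮.gen1.M_transitive _ h2 h3
      exact 𝒮.gen1.M_transitive _ h4 (by simp)
    obtain ⟨x'', hx'', rfl⟩ := 𝒮.gen1.mem_M.1 hσ'
    -- a name of the first coordinate that is listed
    have h5 : Nm.eq y (opair x'' (chk s)) ∈ Ult 𝒮.p := by
      rw [𝒮.gen1.eq_iff hy (𝒮.opair_mem hx'' (𝒮.chk_mem s)), hop _ hx'', he]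
    have h6 : Nm.mem (upair x'' x'') y ∈ Ult 𝒮.p :=
      𝒮.gen1.up _ h5 _ (bMemR (bSymm le_rfl) (bMem1 _ _))
    obtain ⟨z1, hz1, hz1s, hz1e⟩ := 𝒮.gen1.sub _ (𝒮.upair_mem hx'' hx'') _ hy h6
    have h7 : Nm.mem x'' z1 ∈ Ult 𝒮.p := 𝒮.gen1.up _ hz1e _ (bMemR le_rfl (bMem1 _ _))
    obtain ⟨x, hx, hxs, hxe⟩ := 𝒮.gen1.sub _ hx'' _ hz1 h7
    have h8 : 𝒮.gen1.val x'' = 𝒮.gen1.val x := (𝒮.gen1.eq_iff hx'' hx).1 hxe
    have h9 : Nm.eq y (opair x (chk s)) ∈ Ult 𝒮.p := by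
      rw [𝒮.gen1.eq_iff hy (𝒮.opair_mem hx (𝒮.chk_mem s)), hop _ hx, ← h8, ← he]
    have hyz : 𝒮.gen1.val y ∈ z := by
      rw [← hz]; exact 𝒮.gen1.mem_val.2 ⟨y, hy, hys, rfl⟩
    refine ⟨hat x, 𝒮.hat_mem hx, ?_, ?_⟩
    · obtain ⟨n, hn⟩ := 𝒮.U_inf hys h9
      refine ⟨n, s, hp, ?_⟩
      have i1 : y.IsSub σ := by
        obtain ⟨n, hn⟩ := hys
        exact isSub_of_sub hn
      have i2 : z1.IsSub y := by
        obtain ⟨n, hn⟩ := hz1s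
        exact isSub_of_sub hn
      have i3 : x.IsSub z1 := by
        obtain ⟨n, hn⟩ := hxs
        exact isSub_of_sub hn
      obtain ⟨i, rfl⟩ := isSub_iff.1 i1
      obtain ⟨j, rfl⟩ := isSub_iff.1 i2
      obtain ⟨k, rfl⟩ := isSub_iff.1 i3
      rw [hat_eq]
      refine (?_ : pcone (Nm.sub σ (σ.elt i) ⊓ Nm.eq (σ.elt i)
        (opair (((σ.elt i).elt j).elt k) (chk s))) s ≤ _) (show (𝒮.p n, s) ∈ _ from ⟨hn, le_rfl⟩)
      exact sub_mk (a := fun t : (Σ i : σ.ix, Σ j : (σ.elt i).ix, ((σ.elt i).elt j).ix × ULift.{u} Coh) =>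
        hat (((σ.elt t.1).elt t.2.1).elt t.2.2.1))
        (v := fun t => pcone (Nm.sub σ (σ.elt t.1) ⊓ Nm.eq (σ.elt t.1)
        (opair (((σ.elt t.1).elt t.2.1).elt t.2.2.1) (chk t.2.2.2.down))) t.2.2.2.down) ⟨i, j, k, ⟨s⟩⟩
    · rw [h8]
      refine (ih _ ?_ x hx rfl).symm
      refine hrk x s y ?_ hyz
      rw [← h8, ← he]

theorem genExt_eq {G : ZFSet.{0}} (hG : IsGeneric 𝒮.M G) :
    genExt 𝒮.M G = (gen2 (𝒮.filt hG)).M := by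
  ext z
  rw [(gen2 (𝒮.filt hG)).mem_M]
  unfold genExt
  rw [ZFSet.mem_range]
  constructor
  · rintro ⟨⟨τ, hτ⟩, rfl⟩
    obtain ⟨x, hx, rfl⟩ := 𝒮.gen1.mem_M.1 hτ
    exact ⟨hat x, 𝒮.hat_mem hx, (𝒮.val_hat hG _ x hx rfl).symm⟩
  · rintro ⟨x, hx, rfl⟩
    exact ⟨⟨𝒮.gen1.val (star x), 𝒮.val_mem_M (𝒮.star_mem hx)⟩, (𝒮.ev_val_star hG x hx).symm⟩

end Sys

end Pool.Agent.Helper23.CK
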