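import Pool.Agent.Helper23.CK.Gen

set_option autoImplicit false

/-!
# The generic models are models of ZFC
-/

universe u v w

namespace Pool.Agent.Helper23.CK

open WT (iffV bElim bOr bMP bImp bNot bAbs bAll bEx bIff bIff_mp bIff_mpr bLeft bRight bCases bContra eq_of_forall iffV_self iffV_eq_top)
open WT (Fm ZF)
open WT.Fm (sat_mem sat_eq sat_fls sat_imp sat_all sat_neg sat_and sat_or sat_iff sat_ex sat_ren)

theorem ex_iff_top {P : Type u} [Preorder P] {Φ : Nm P → RO P} (h : ∃ z : Nm P, ∀ w, Nm.mem w z = Φ w) :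
    ⨆ z : Nm P, ⨅ w : Nm P, iffV (Nm.mem w z) (Φ w) = ⊤ := by
  obtain ⟨z, hz⟩ := h
  rw [eq_top_iff]
  refine bEx z (le_iInf fun w => ?_)
  rw [hz, iffV_self]

namespace Gen

variable {P : Type u} [Preorder P] {S : Set (Nm P)} {U : Set (RO P)} (hG : Gen S U)

theorem zf : ZF (Mem hG.M) where
  ext x y h := by
    have := hG.sat_of_top ((Fm.all ((Fm.mem (.inl 0) (.inr x)).iff (.mem (.inl 0) (.inr y)))).imp
      (.eq (.inr x) (.inr y))) id ![] (by simp [Nm.eq_eq_iInf])
    simp at this
    exact this fun a ha => h ⟨a, ha⟩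
  foundation x h := by
    have := hG.sat_of_top ((Fm.ex (.mem (.inl 0) (.inr x))).imp (Fm.ex ((Fm.mem (.inl 0) (.inr x)).and
      (.all ((Fm.mem (.inl 0) (.inl 1)).imp (Fm.mem (.inl 0) (.inr x)).neg))))) id ![] (by
        simp only [vl_imp, vl_ex, vl_mem, vl_and, vl_all, vl_neg, Sum.elim_inl, Sum.elim_inr,
          Matrix.cons_val_zero, Matrix.cons_val_one]
        rw [himp_eq_top_iff]
        exact iSup_le fun y => Nm.foundation _ y le_rfl)
    simp at this
    obtain ⟨y, hy⟩ := h
    obtain ⟨a, ha, h1, h2⟩ := this y.1 y.2 hy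
    exact ⟨⟨a, ha⟩, h1, fun z hz => h2 z.1 z.2 hz⟩
  pairing x y := by
    have := hG.sat_of_top (Fm.ex (.all ((Fm.mem (.inl 0) (.inl 1)).iff
      ((Fm.eq (.inl 0) (.inr x)).or (.eq (.inl 0) (.inr y)))))) id ![] (by
        simp only [vl_ex, vl_mem, vl_or, vl_all, vl_iff, vl_eq, Sum.elim_inl, Sum.elim_inr,
          Matrix.cons_val_zero, Matrix.cons_val_one]
        exact ex_iff_top ⟨_, fun w => Nm.mem_upair w _ _⟩)
    simp only [sat_ex, sat_all, sat_iff, sat_mem, sat_or, sat_eq, Sum.elim_inl, Sum.elim_inr,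
      Matrix.cons_val_zero, Matrix.cons_val_one, id_eq] at this
    exact this
  union x := by
    have := hG.sat_of_top (Fm.ex (.all ((Fm.mem (.inl 0) (.inl 1)).iff
      (.ex ((Fm.mem (.inl 0) (.inr x)).and (.mem (.inl 1) (.inl 0))))))) id ![] (by
        simp only [vl_ex, vl_mem, vl_and, vl_all, vl_iff, Sum.elim_inl, Sum.elim_inr,
          Matrix.cons_val_zero, Matrix.cons_val_one]
        exact ex_iff_top (Nm.exists_union _))
    simp only [sat_ex, sat_all, sat_iff, sat_mem, sat_and, Sum.elim_inl, Sum.elim_inr,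
      Matrix.cons_val_zero, Matrix.cons_val_one, id_eq] at this
    exact this
  power x := by
    have := hG.sat_of_top (Fm.ex (.all ((Fm.mem (.inl 0) (.inl 1)).iff
      (.all ((Fm.mem (.inl 0) (.inl 1)).imp (.mem (.inl 0) (.inr x))))))) id ![] (by
        simp only [vl_ex, vl_mem, vl_imp, vl_all, vl_iff, Sum.elim_inl, Sum.elim_inr,
          Matrix.cons_val_zero, Matrix.cons_val_one]
        exact ex_iff_top (Nm.exists_power _))
    simp only [sat_ex, sat_all, sat_iff, sat_mem, sat_imp, Sum.elim_inl, Sum.elim_inr,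
      Matrix.cons_val_zero, Matrix.cons_val_one, id_eq] at this
    exact this
  infinity := by
    have := hG.sat_of_top (κ := Empty) (Fm.ex ((Fm.ex ((Fm.all (Fm.mem (.inl 0) (.inl 1)).neg).and
      (.mem (.inl 0) (.inl 1)))).and (.all ((Fm.mem (.inl 0) (.inl 1)).imp
        (.ex ((Fm.mem (.inl 0) (.inl 2)).and (.all ((Fm.mem (.inl 0) (.inl 1)).iff
          ((Fm.mem (.inl 0) (.inl 2)).or (.eq (.inl 0) (.inl 2)))))))))) : Fm Empty 0)
      (fun c => c.elim) ![] (by
        simp only [vl_ex, vl_mem, vl_imp, vl_all, vl_iff, vl_and, vl_neg, vl_or, vl_eq,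
          Sum.elim_inl, Matrix.cons_val_zero, Matrix.cons_val_one,
          Matrix.cons_val]
        rw [eq_top_iff]
        refine bEx Nm.omg (le_inf ?_ (le_iInf fun y => bImp fun Δ h1 h2 => ?_))
        · refine bEx (Nm.nat 0) (le_inf (le_iInf fun y => ?_) ?_)
          · show ⊤ ≤ (Nm.mem y Nm.emp)ᶜ
            rw [Nm.mem_emp, compl_bot]
          · rw [Nm.mem_omg]
            exact bEx 0 (Nm.bRefl _)
        · rw [Nm.mem_omg] at h2
          refine bElim h2 fun n Δ' h3 h4 => ?_
          refine bEx (Nm.nat (n + 1)) (le_inf ?_ (le_iInf fun w => ?_))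
          · rw [Nm.mem_omg]
            exact bEx (n + 1) (Nm.bRefl _)
          · rw [Nm.mem_nat_succ]
            refine bIff (fun Δ'' h5 h6 => ?_) (fun Δ'' h5 h6 => ?_)
            · refine bOr h6 (fun Δ₁ h7 h8 => ?_) (fun Δ₁ h7 h8 => ?_)
              · exact (Nm.bTrans h8 (Nm.bSymm (h7.trans (h5.trans h4)))).trans le_sup_right
              · exact (Nm.bMemR (Nm.bSymm (h7.trans (h5.trans h4))) h8).trans le_sup_left
            · refine bOr h6 (fun Δ₁ h7 h8 => ?_) (fun Δ₁ h7 h8 => ?_)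
              · exact (Nm.bMemR (h7.trans (h5.trans h4)) h8).trans le_sup_right
              · exact (Nm.bTrans h8 (h7.trans (h5.trans h4))).trans le_sup_left)
    simp only [sat_ex, sat_all, sat_iff, sat_mem, sat_imp, sat_and, sat_neg, sat_or, sat_eq,
      Sum.elim_inl, Matrix.cons_val_zero, Matrix.cons_val_one, Matrix.cons_val] at this
    exact this
  separation f a := by
    have := hG.sat_of_top (Fm.ex (.all ((Fm.mem (.inl 0) (.inl 1)).iff
      ((Fm.mem (.inl 0) (.inr a)).and (f.ren (fun _ => 0)))))) id ![] (by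
        simp only [vl_ex, vl_mem, vl_and, vl_all, vl_iff, vl_ren, Sum.elim_inl, Sum.elim_inr,
          Matrix.cons_val_zero, Matrix.cons_val_one]
        obtain ⟨z, hz⟩ := Nm.exists_sep hG.rep f (hG.rep a)
        refine ex_iff_top ⟨z, fun w => ?_⟩
        rw [hz]
        congr 2
        funext i
        fin_cases i
        rfl)
    simp only [sat_ex, sat_all, sat_iff, sat_and, sat_mem, sat_ren] at this
    obtain ⟨z, hz⟩ := this
    refine ⟨z, fun w => ?_⟩
    have h := hz w
    have e : (fun _ : Fin 1 => Matrix.vecCons w (Matrix.vecCons z ![]) (0 : Fin 2)) = ![w] := by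
      funext i
      fin_cases i
      rfl
    rw [e] at h
    exact h
  replacement f a hf := by
    -- collection
    have h1 := hG.sat_of_top (Fm.ex (.all ((Fm.mem (.inl 0) (.inr a)).imp
      (.imp (.ex (f.ren ![1, 0])) (.ex ((Fm.mem (.inl 0) (.inl 2)).and (f.ren ![1, 0]))))))) id ![] (by
        simp only [vl_ex, vl_mem, vl_and, vl_all, vl_imp, vl_ren, Sum.elim_inl, Sum.elim_inr,
          Matrix.cons_val_zero, Matrix.cons_val, id_eq]
        cases hra : hG.rep a with
        | mk ι b u =>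
        obtain ⟨z, hz⟩ := Nm.exists_coll (fun (i : ι) y => vl hG.rep f ![b i, y])
        rw [eq_top_iff]
        refine bEx z (le_iInf fun x => bImp fun Δ h1 h2 => bImp fun Δ' h3 h4 => ?_)
        rw [Nm.mem_mk] at h2
        refine bElim (h3.trans h2) fun i Δ'' h5 h6 => ?_
        have key : ∀ (y : Nm P) (Γ : RO P), Γ ≤ Nm.eq x (b i) →
            (Γ ≤ vl hG.rep f (fun i => (Matrix.vecCons y (Matrix.vecCons x (Matrix.vecCons z
              (fun i => hG.rep ((![] : Fin 0 → {x : ZFSet.{0} // x ∈ hG.M}) i)))) : Fin 3 → Nm P)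
              ((![1, 0] : Fin 2 → Fin 3) i)) ↔
            Γ ≤ vl hG.rep f ![b i, y]) := by
          intro y Γ hΓ
          constructor
          · exact vl_congr f (fun c => Nm.bRefl _) (fun j => by
              fin_cases j
              · exact hΓ
              · exact Nm.bRefl _)
          · exact vl_congr f (fun c => Nm.bRefl _) (fun j => by
              fin_cases j
              · exact Nm.bSymm hΓ
              · exact Nm.bRefl _)
        refine bElim (h5.trans h4) fun y Δ₁ h7 h8 => ?_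
        have h9 : Δ₁ ≤ ⨆ y, vl hG.rep f ![b i, y] :=
          bEx y ((key y Δ₁ (bRight (h7.trans h6))).1 h8)
        refine bElim (h9.trans (hz i)) fun y' Δ₂ h10 h11 => ?_
        exact bEx y' (le_inf (bLeft h11)
          ((key y' Δ₂ (bRight ((h10.trans h7).trans h6))).2 (bRight h11))))
    simp only [sat_ex, sat_all, sat_and, sat_mem, sat_ren, sat_imp] at h1
    obtain ⟨z, hz⟩ := h1
    -- separation
    have h2 := hG.sat_of_top (Fm.ex (.all ((Fm.mem (.inl 0) (.inl 1)).iff
      ((Fm.mem (.inl 0) (.inr z)).and ((Fm.ex ((Fm.mem (.inl 0) (.inr a)).and f)).ren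
        (fun _ => 0)))))) id ![] (by
        simp only [vl_ex, vl_mem, vl_and, vl_all, vl_iff, vl_ren, Sum.elim_inl, Sum.elim_inr,
          Matrix.cons_val_zero, Matrix.cons_val_one]
        obtain ⟨z', hz'⟩ := Nm.exists_sep hG.rep (Fm.ex ((Fm.mem (.inl 0) (.inr a)).and f)) (hG.rep z)
        refine ex_iff_top ⟨z', fun w => ?_⟩
        rw [hz']
        simp only [vl_ex, vl_and, vl_mem, Sum.elim_inl, Sum.elim_inr, Matrix.cons_val_zero]
        congr 2
        funext x
        congr 2
        funext i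
        fin_cases i
        · rfl
        · rfl)
    simp only [sat_ex, sat_all, sat_iff, sat_and, sat_mem, sat_ren] at h2
    obtain ⟨z', hz'⟩ := h2
    have hz1 : ∀ x, Mem hG.M x a → (∃ y, f.Sat (Mem hG.M) id ![x, y]) →
        ∃ y, Mem hG.M y z ∧ f.Sat (Mem hG.M) id ![x, y] := by
      intro x hx hy
      have h := hz x hx
      have e : ∀ y, (fun i => Matrix.vecCons y (Matrix.vecCons x (Matrix.vecCons z ![]))
          ((![1, 0] : Fin 2 → Fin 3) i)) = ![x, y] := by
        intro y
        funext i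
        fin_cases i <;> rfl
      simp only [e] at h
      exact h hy
    refine ⟨z', fun y => ?_⟩
    have h := hz' y
    have e : ∀ x, Matrix.vecCons x (fun _ : Fin 1 => Matrix.vecCons y (Matrix.vecCons z' ![])
        (0 : Fin 2)) = ![x, y] := by
      intro x
      funext i
      fin_cases i <;> rfl
    simp only [e] at h
    rw [show Mem hG.M y z' ↔ _ from h]
    constructor
    · rintro ⟨_, h⟩
      exact h
    · rintro ⟨x, hx, hxy⟩
      refine ⟨?_, x, hx, hxy⟩
      obtain ⟨y', hy', hxy'⟩ := hz1 x hx ⟨y, hxy⟩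
      obtain ⟨y₀, _, hu⟩ := hf x hx
      have e1 := hu y hxy
      have e2 := hu y' hxy'
      rw [e1, ← e2]
      exact hy'

theorem zfc : ZFC (Mem hG.M) := by
  refine ⟨hG.zf, fun x h1 h2 => ?_⟩
  have := hG.sat_of_top (
    ((Fm.all ((Fm.mem (.inl 0) (.inr x)).imp (Fm.ex (Fm.mem (.inl 0) (.inl 1))))).imp
    ((Fm.all (Fm.all (Fm.all ((Fm.mem (.inl 2) (.inr x)).imp ((Fm.mem (.inl 1) (.inr x)).imp
      ((Fm.mem (.inl 0) (.inl 2)).imp ((Fm.mem (.inl 0) (.inl 1)).imp
        (Fm.eq (.inl 2) (.inl 1))))))))).imp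
    (Fm.ex (Fm.all ((Fm.mem (.inl 0) (.inr x)).imp (Fm.ex (((Fm.mem (.inl 0) (.inl 1)).and
      (Fm.mem (.inl 0) (.inl 2))).and (Fm.all (((Fm.mem (.inl 0) (.inl 2)).and
      (Fm.mem (.inl 0) (.inl 3))).imp (Fm.eq (.inl 0) (.inl 1)))))))))))) id ![] (by
      simp only [vl_ex, vl_mem, vl_and, vl_all, vl_imp, vl_eq, Sum.elim_inl, Sum.elim_inr,
          Matrix.cons_val_zero, Matrix.cons_val_one, Matrix.cons_val]
      rw [eq_top_iff]
      refine bImp fun Δ _ h1 => bImp fun Δ' h2 h3 => ?_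
      exact Nm.choice _ (h2.trans h1) h3)
  simp only [sat_ex, sat_all, sat_mem, sat_imp, sat_and, sat_eq,
      Sum.elim_inl, Sum.elim_inr, Matrix.cons_val_zero, Matrix.cons_val_one, Matrix.cons_val, id_eq] at this
  obtain ⟨c, hc⟩ := this h1 h2
  refine ⟨c, fun y hy => ?_⟩
  obtain ⟨z, h3, h4⟩ := hc y hy
  exact ⟨z, h3, fun z' hz' => h4 z' hz'⟩

end Gen

end Pool.Agent.Helper23.CK
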